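import Pool.Agent.Helper89.Hedge.Defs

/-!
# Compactness lemmas (piece A0)
-/

open scoped ContDiff Manifold Topology
noncomputable section
namespace Pool.Agent.Helper89.Hedge

namespace Cpt

/-- the compact fundamental domain -/
def KK : Set (ℝ × ℝ) := Set.Icc 0 (2 * Real.pi) ×ˢ Set.Icc (-2) 2

theorem isCompact_KK : IsCompact KK := isCompact_Icc.prod isCompact_Icc

theorem per_int {f : ℝ × ℝ → ℝ} (hf : ∀ x : ℝ × ℝ, f (x.1 + 2 * Real.pi, x.2) = f x) (n : ℤ)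
    (x : ℝ × ℝ) : f (x.1 - n * (2 * Real.pi), x.2) = f x := by
  have h : Function.Periodic (fun t => f (t, x.2)) (2 * Real.pi) := fun t => hf (t, x.2)
  have := h.sub_int_mul_eq (x := x.1) n
  simpa using this

theorem exists_shift (x : ℝ × ℝ) (hx : |x.2| ≤ 2) :
    ∃ n : ℤ, ((x.1 - n * (2 * Real.pi), x.2) : ℝ × ℝ) ∈ KK := by
  refine ⟨toIcoDiv Real.two_pi_pos 0 x.1, ?_⟩
  have h := sub_toIcoDiv_zsmul_mem_Ico Real.two_pi_pos 0 x.1
  rw [zsmul_eq_mul, zero_add] at h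
  exact ⟨⟨h.1, h.2.le⟩, abs_le.mp hx⟩

theorem abs_snd_le {ψ : ℝ × ℝ → ℝ} (hfar : ∀ x : ℝ × ℝ, 2 ≤ |x.2| → 1 < |ψ x|) {x : ℝ × ℝ}
    (hx : |ψ x| ≤ 1) : |x.2| ≤ 2 := by
  by_contra h
  push Not at h
  exact absurd (hfar x h.le) (not_lt.mpr hx)

end Cpt

open Cpt

/-- A0a. -/
theorem pos_near {ψ g : ℝ × ℝ → ℝ} (hψ : Continuous ψ) (hg : Continuous g)
    (hψp : ∀ x : ℝ × ℝ, ψ (x.1 + 2 * Real.pi, x.2) = ψ x)
    (hgp : ∀ x : ℝ × ℝ, g (x.1 + 2 * Real.pi, x.2) = g x)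
    (hfar : ∀ x : ℝ × ℝ, 2 ≤ |x.2| → 1 < |ψ x|) (hpos : ∀ x, ψ x = 0 → 0 < g x) :
    ∃ ε b : ℝ, 0 < ε ∧ ε ≤ 1 ∧ 0 < b ∧ ∀ x, |ψ x| ≤ ε → b ≤ g x := by
  have hS : IsCompact (KK ∩ {x | g x ≤ 0}) :=
    isCompact_KK.inter_right (isClosed_le hg continuous_const)
  obtain ⟨e, he, he'⟩ := hS.exists_forall_le' (f := fun x => |ψ x|) (a := 0)
    (hψ.abs.continuousOn) (by
      intro x hx
      rw [abs_pos]
      intro h0
      exact absurd (hpos x h0) (not_lt.mpr hx.2))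
  have hT : IsCompact (KK ∩ {x | |ψ x| ≤ e / 2}) :=
    isCompact_KK.inter_right (isClosed_le hψ.abs continuous_const)
  obtain ⟨b, hb, hb'⟩ := hT.exists_forall_le' (f := g) (a := 0) hg.continuousOn (by
      intro x hx
      by_contra h
      push Not at h
      have h1 := he' x ⟨hx.1, h⟩
      have h2 : |ψ x| ≤ e / 2 := hx.2
      linarith)
  refine ⟨min (e / 2) 1, b, lt_min (by linarith) one_pos, min_le_right _ _, hb, ?_⟩
  intro x hx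
  obtain ⟨n, hn⟩ := exists_shift x (abs_snd_le hfar (hx.trans (min_le_right _ _)))
  rw [← per_int hgp n x]
  apply hb'
  refine ⟨hn, ?_⟩
  rw [Set.mem_ofPred_eq, per_int hψp n x]
  exact hx.trans (min_le_left _ _)

/-- A0b -/
theorem bdd_near {ψ g : ℝ × ℝ → ℝ} (hg : Continuous g)
    (hgp : ∀ x : ℝ × ℝ, g (x.1 + 2 * Real.pi, x.2) = g x)
    (hfar : ∀ x : ℝ × ℝ, 2 ≤ |x.2| → 1 < |ψ x|) :
    ∃ K : ℝ, 0 < K ∧ ∀ x, |ψ x| ≤ 1 → |g x| ≤ K := by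
  obtain ⟨C, hC⟩ := isCompact_KK.exists_bound_of_continuousOn hg.continuousOn
  refine ⟨max C 1, lt_of_lt_of_le one_pos (le_max_right _ _), ?_⟩
  intro x hx
  obtain ⟨n, hn⟩ := exists_shift x (abs_snd_le hfar hx)
  rw [← per_int hgp n x, ← Real.norm_eq_abs]
  exact (hC _ hn).trans (le_max_left _ _)

/-- A0c. -/
theorem large_lambda {ψ B1 B2 : ℝ × ℝ → ℝ} (hψ : Continuous ψ) (h1 : Continuous B1)
    (h2 : Continuous B2) (hψp : ∀ x : ℝ × ℝ, ψ (x.1 + 2 * Real.pi, x.2) = ψ x)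
    (h1p : ∀ x : ℝ × ℝ, B1 (x.1 + 2 * Real.pi, x.2) = B1 x)
    (h2p : ∀ x : ℝ × ℝ, B2 (x.1 + 2 * Real.pi, x.2) = B2 x)
    (hfar : ∀ x : ℝ × ℝ, 2 ≤ |x.2| → 1 < |ψ x|) (h2n : ∀ x, ψ x = 0 → 0 ≤ B2 x)
    (h12 : ∀ x, ψ x = 0 → B2 x = 0 → 0 < B1 x) :
    ∃ Λ : ℝ, 0 < Λ ∧ ∀ x, ψ x = 0 → 0 < B1 x + Λ * B2 x := by
  have hS : IsCompact (KK ∩ ({x | ψ x = 0} ∩ {x | B1 x ≤ 0})) :=
    isCompact_KK.inter_right ((isClosed_eq hψ continuous_const).inter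
      (isClosed_le h1 continuous_const))
  obtain ⟨b, hb, hb'⟩ := hS.exists_forall_le' (f := B2) (a := 0) h2.continuousOn (by
      intro x hx
      rcases (h2n x hx.2.1).lt_or_eq with h | h
      · exact h
      · exact absurd (h12 x hx.2.1 h.symm) (not_lt.mpr hx.2.2))
  obtain ⟨C, hC⟩ := isCompact_KK.exists_bound_of_continuousOn h1.continuousOn
  have hM : 0 < |C| + 1 := by positivity
  refine ⟨(|C| + 1) / b, by positivity, ?_⟩
  intro x hx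
  have hx1 : |ψ x| ≤ 1 := by rw [hx, abs_zero]; exact zero_le_one
  obtain ⟨n, hn⟩ := exists_shift x (abs_snd_le hfar hx1)
  rw [← per_int h1p n x, ← per_int h2p n x]
  set y : ℝ × ℝ := (x.1 - n * (2 * Real.pi), x.2) with hy
  have hψy : ψ y = 0 := by rw [hy, per_int hψp n x, hx]
  by_cases hB : B1 y ≤ 0
  · have h3 := hb' y ⟨hn, hψy, hB⟩
    have h4 : -B1 y ≤ |C| := by
      have := hC y hn
      rw [Real.norm_eq_abs] at this
      exact (neg_le_abs _).trans (this.trans (le_abs_self _))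
    have h5 : |C| + 1 ≤ (|C| + 1) / b * B2 y := by
      rw [div_mul_eq_mul_div, le_div_iff₀ hb]
      exact mul_le_mul_of_nonneg_left h3 hM.le
    linarith
  · push Not at hB
    have := h2n y hψy
    positivity

end Pool.Agent.Helper89.Hedge
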