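import Pool.Agent.Helper89.Hedge.Defs

/-! # Part A: derivatives of the explicit data -/

open scoped ContDiff Manifold Topology
noncomputable section
namespace Pool.Agent.Helper89.Hedge

/-- `f` has partial derivatives `f1, f2` everywhere (and is differentiable). -/
def HD (f f1 f2 : ℝ × ℝ → ℝ) : Prop :=
  ∀ x, HasFDerivAt f (f1 x • ContinuousLinearMap.fst ℝ ℝ ℝ + f2 x • ContinuousLinearMap.snd ℝ ℝ ℝ) x

theorem HD.dx {f f1 f2 : ℝ × ℝ → ℝ} (h : HD f f1 f2) : dx f = f1 := by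
  funext x
  rw [Hedge.dx, (h x).fderiv]
  simp

theorem HD.dy {f f1 f2 : ℝ × ℝ → ℝ} (h : HD f f1 f2) : dy f = f2 := by
  funext x
  rw [Hedge.dy, (h x).fderiv]
  simp

theorem HD.congr {f f1 f2 g1 g2 : ℝ × ℝ → ℝ} (h : HD f f1 f2) (h1 : ∀ x, f1 x = g1 x)
    (h2 : ∀ x, f2 x = g2 x) : HD f g1 g2 := by
  intro x
  rw [← h1, ← h2]
  exact h x

theorem HD.add {f f1 f2 g g1 g2 : ℝ × ℝ → ℝ} (hf : HD f f1 f2) (hg : HD g g1 g2) :
    HD (fun x => f x + g x) (fun x => f1 x + g1 x) (fun x => f2 x + g2 x) := by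
  intro x
  refine ((hf x).fun_add (hg x)).congr_fderiv ?_
  ext <;> simp

theorem HD.sub {f f1 f2 g g1 g2 : ℝ × ℝ → ℝ} (hf : HD f f1 f2) (hg : HD g g1 g2) :
    HD (fun x => f x - g x) (fun x => f1 x - g1 x) (fun x => f2 x - g2 x) := by
  intro x
  refine ((hf x).fun_sub (hg x)).congr_fderiv ?_
  ext <;> simp

theorem HD.mul {f f1 f2 g g1 g2 : ℝ × ℝ → ℝ} (hf : HD f f1 f2) (hg : HD g g1 g2) :
    HD (fun x => f x * g x) (fun x => f1 x * g x + f x * g1 x)
      (fun x => f2 x * g x + f x * g2 x) := by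
  intro x
  refine ((hf x).fun_mul (hg x)).congr_fderiv ?_
  ext
  · simp; ring
  · simp; ring

theorem HD.const (c : ℝ) : HD (fun _ => c) (fun _ => 0) (fun _ => 0) := by
  intro x
  refine (hasFDerivAt_const c x).congr_fderiv ?_
  ext <;> simp

theorem HD.snd {g g' : ℝ → ℝ} (hg : ∀ z, HasDerivAt g (g' z) z) :
    HD (fun x => g x.2) (fun _ => 0) (fun x => g' x.2) := by
  intro x
  have h1 := (hg x.2).comp_hasFDerivAt x (hasFDerivAt_snd (𝕜 := ℝ) (E := ℝ) (F := ℝ) (p := x))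
  refine h1.congr_fderiv ?_
  ext <;> simp

theorem HD.fst {g g' : ℝ → ℝ} (hg : ∀ z, HasDerivAt g (g' z) z) :
    HD (fun x => g x.1) (fun x => g' x.1) (fun _ => 0) := by
  intro x
  have h1 := (hg x.1).comp_hasFDerivAt x (hasFDerivAt_fst (𝕜 := ℝ) (E := ℝ) (F := ℝ) (p := x))
  refine h1.congr_fderiv ?_
  ext <;> simp

theorem HD_y : HD (fun x => x.2) (fun _ => 0) (fun _ => 1) :=
  HD.snd (g := fun z => z) (g' := fun _ => 1) (fun z => hasDerivAt_id z)

theorem HD_SS : HD SS (fun x => 3 * CC x) (fun _ => 0) := by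
  refine HD.fst (g := fun t => Real.sin (3 * t)) (g' := fun t => 3 * Real.cos (3 * t)) ?_
  intro z
  have h := ((hasDerivAt_id z).const_mul (3 : ℝ)).sin
  refine h.congr_deriv ?_
  simp; ring

theorem HD_CC : HD CC (fun x => -3 * SS x) (fun _ => 0) := by
  refine HD.fst (g := fun t => Real.cos (3 * t)) (g' := fun t => -3 * Real.sin (3 * t)) ?_
  intro z
  have h := ((hasDerivAt_id z).const_mul (3 : ℝ)).cos
  refine h.congr_deriv ?_
  simp; ring

/-! ### the one-variable polynomials -/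

def p1 (z : ℝ) : ℝ := 3 * z ^ 2 - 1 / 2
def p2 (z : ℝ) : ℝ := 6 * z
def G1 (z : ℝ) : ℝ := 53 * (-50 * z + 1020 * z ^ 3 - 1518 * z ^ 5 + 904 * z ^ 7 - 200 * z ^ 9)
def G2 (z : ℝ) : ℝ := 53 * (-50 + 3060 * z ^ 2 - 7590 * z ^ 4 + 6328 * z ^ 6 - 1800 * z ^ 8)
def V1 (z : ℝ) : ℝ :=
  -22540 + 202050 * z ^ 2 - 802930 * z ^ 4 + 1950914 * z ^ 6 - 2539080 * z ^ 8
    + 1611720 * z ^ 10 - 393120 * z ^ 12
def V2 (z : ℝ) : ℝ :=
  404100 * z - 3211720 * z ^ 3 + 11705484 * z ^ 5 - 20312640 * z ^ 7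
    + 16117200 * z ^ 9 - 4717440 * z ^ 11

theorem hasDerivAt_pp (z : ℝ) : HasDerivAt pp (p1 z) z := by
  have h := ((hasDerivAt_pow 3 z).sub ((hasDerivAt_id z).div_const 2))
  refine (h.congr_deriv ?_)
  simp [p1]

theorem hasDerivAt_p1 (z : ℝ) : HasDerivAt p1 (p2 z) z := by
  have h := ((hasDerivAt_pow 2 z).const_mul 3).sub_const (1 / 2 : ℝ)
  refine (h.congr_deriv ?_)
  simp [p2]; ring

theorem hasDerivAt_GG (z : ℝ) : HasDerivAt GG (G1 z) z := by
  have h := ((((((hasDerivAt_const z (-225 : ℝ)).sub ((hasDerivAt_pow 2 z).const_mul 25)).add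
    ((hasDerivAt_pow 4 z).const_mul 255)).sub ((hasDerivAt_pow 6 z).const_mul 253)).add
    ((hasDerivAt_pow 8 z).const_mul 113)).sub ((hasDerivAt_pow 10 z).const_mul 20)).const_mul 53
  refine (h.congr_deriv ?_)
  simp [G1]; ring

theorem hasDerivAt_G1 (z : ℝ) : HasDerivAt G1 (G2 z) z := by
  have h := (((((hasDerivAt_id z).const_mul (-50)).add
    ((hasDerivAt_pow 3 z).const_mul 1020)).sub ((hasDerivAt_pow 5 z).const_mul 1518)).add
    ((hasDerivAt_pow 7 z).const_mul 904)).sub ((hasDerivAt_pow 9 z).const_mul 200)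
    |>.const_mul 53
  refine (h.congr_deriv ?_)
  simp [G2]; ring

theorem hasDerivAt_VV (z : ℝ) : HasDerivAt VV (V1 z) z := by
  have h := ((((((hasDerivAt_id z).const_mul (-22540)).add
    ((hasDerivAt_pow 3 z).const_mul 67350)).sub ((hasDerivAt_pow 5 z).const_mul 160586)).add
    ((hasDerivAt_pow 7 z).const_mul 278702)).sub ((hasDerivAt_pow 9 z).const_mul 282120)).add
    ((hasDerivAt_pow 11 z).const_mul 146520) |>.sub ((hasDerivAt_pow 13 z).const_mul 30240)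
  refine (h.congr_deriv ?_)
  simp [V1]; ring

theorem hasDerivAt_V1 (z : ℝ) : HasDerivAt V1 (V2 z) z := by
  have h := ((((((hasDerivAt_const z (-22540 : ℝ)).add
    ((hasDerivAt_pow 2 z).const_mul 202050)).sub ((hasDerivAt_pow 4 z).const_mul 802930)).add
    ((hasDerivAt_pow 6 z).const_mul 1950914)).sub ((hasDerivAt_pow 8 z).const_mul 2539080)).add
    ((hasDerivAt_pow 10 z).const_mul 1611720)) |>.sub ((hasDerivAt_pow 12 z).const_mul 393120)
  refine (h.congr_deriv ?_)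
  simp [V2]; ring

theorem HD_pp : HD (fun x => pp x.2) (fun _ => 0) (fun x => p1 x.2) := HD.snd hasDerivAt_pp
theorem HD_p1 : HD (fun x => p1 x.2) (fun _ => 0) (fun x => p2 x.2) := HD.snd hasDerivAt_p1
theorem HD_GG : HD (fun x => GG x.2) (fun _ => 0) (fun x => G1 x.2) := HD.snd hasDerivAt_GG
theorem HD_G1 : HD (fun x => G1 x.2) (fun _ => 0) (fun x => G2 x.2) := HD.snd hasDerivAt_G1
theorem HD_VV : HD (fun x => VV x.2) (fun _ => 0) (fun x => V1 x.2) := HD.snd hasDerivAt_VV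
theorem HD_V1 : HD (fun x => V1 x.2) (fun _ => 0) (fun x => V2 x.2) := HD.snd hasDerivAt_V1

theorem HD_psi0 : HD psi0 (fun x => 3 * SS x) (fun x => p1 x.2) :=
  (HD_pp.sub HD_CC).congr (fun x => by ring) (fun x => by ring)

theorem HD_EE : HD EE (fun x => 3 * x.2 * CC x) (fun x => SS x + 2 * x.2) :=
  (((HD.const 2).add (HD_y.mul HD_SS)).add (HD.snd (g := fun z => z ^ 2) (g' := fun z => 2 * z)
    (fun z => by simpa using hasDerivAt_pow 2 z))).congr (fun x => by ring) (fun x => by ring)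

theorem HD_psiD : HD psiD (fun x => 3 * SS x * EE x + psi0 x * (3 * x.2 * CC x))
    (fun x => p1 x.2 * EE x + psi0 x * (SS x + 2 * x.2)) :=
  (HD_psi0.mul HD_EE).congr (fun x => by ring) (fun x => by ring)

end Pool.Agent.Helper89.Hedge
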