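import Pool.Agent.Helper89.Hedge.A1

/-! # Part A: the forms of `w1` and `w2` -/

open scoped ContDiff Manifold Topology
noncomputable section
namespace Pool.Agent.Helper89.Hedge

/-! ### second derivatives -/

def K0f (x : ℝ × ℝ) : ℝ := GG x.2 + psi0 x * VV x.2
def K1f (x : ℝ × ℝ) : ℝ := G1 x.2 + p1 x.2 * VV x.2 + psi0 x * V1 x.2
def K2f (x : ℝ × ℝ) : ℝ := G2 x.2 + p2 x.2 * VV x.2 + 2 * p1 x.2 * V1 x.2 + psi0 x * V2 x.2

theorem HD_K0f : HD K0f (fun x => 3 * SS x * VV x.2) K1f :=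
  (HD_GG.add (HD_psi0.mul HD_VV)).congr (fun x => by ring) (fun x => by unfold K1f; ring)

theorem HD_K1f : HD K1f (fun x => 3 * SS x * V1 x.2) K2f :=
  ((HD_G1.add (HD_p1.mul HD_VV)).add (HD_psi0.mul HD_V1)).congr (fun x => by ring)
    (fun x => by unfold K2f; ring)

def w1x (x : ℝ × ℝ) : ℝ := 3 * CC x * K0f x + 3 * SS x * (SS x * VV x.2)
def w1y (x : ℝ × ℝ) : ℝ := SS x * K1f x

theorem HD_w1 : HD w1 w1x w1y :=
  (HD_SS.mul HD_K0f).congr (fun x => by unfold w1x; ring) (fun x => by unfold w1y; ring)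

theorem HD_w1x : HD w1x (fun x => -9 * SS x * K0f x + 27 * SS x * CC x * VV x.2)
    (fun x => 3 * CC x * K1f x + 3 * SS x ^ 2 * V1 x.2) :=
  ((((HD.const 3).mul HD_CC).mul HD_K0f).add (((HD.const 3).mul HD_SS).mul
    (HD_SS.mul HD_VV))).congr (fun x => by ring) (fun x => by ring)

theorem HD_w1y : HD w1y (fun x => 3 * CC x * K1f x + 3 * SS x ^ 2 * V1 x.2)
    (fun x => SS x * K2f x) :=
  (HD_SS.mul HD_K1f).congr (fun x => by ring) (fun x => by ring)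

def a11 (x : ℝ × ℝ) : ℝ := SS x * (-8 * K0f x + 27 * CC x * VV x.2 - x.2 * K1f x)
def a12 (x : ℝ × ℝ) : ℝ := 3 * CC x * K1f x + 3 * SS x ^ 2 * V1 x.2
def a22 (x : ℝ × ℝ) : ℝ := SS x * K2f x

theorem MM_w1 (x v w : ℝ × ℝ) : MM w1 x v w =
    v.1 * w.1 * a11 x + (v.1 * w.2 + v.2 * w.1) * a12 x + v.2 * w.2 * a22 x := by
  have h : w1 x = SS x * K0f x := rfl
  rw [MM, HD_w1.dx, HD_w1.dy, HD_w1x.dx, HD_w1y.dx, HD_w1y.dy, h, w1y, a11, a12, a22]
  ring

def w2x (x : ℝ × ℝ) : ℝ := 6 * x.2 * SS x * psi0 x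
def w2y (x : ℝ × ℝ) : ℝ := psi0 x * psi0 x + 2 * x.2 * psi0 x * p1 x.2

theorem HD_w2 : HD w2 w2x w2y := by
  have h := HD_y.mul (HD_psi0.mul HD_psi0)
  have h2 : (fun x : ℝ × ℝ => x.2 * (psi0 x * psi0 x)) = w2 := by
    funext x; unfold w2; ring
  rw [h2] at h
  exact h.congr (fun x => by unfold w2x; ring) (fun x => by unfold w2y; ring)

theorem HD_w2x : HD w2x (fun x => 18 * x.2 * (CC x * psi0 x + SS x ^ 2))
    (fun x => 6 * SS x * psi0 x + 6 * x.2 * SS x * p1 x.2) :=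
  ((((HD.const 6).mul HD_y).mul HD_SS).mul HD_psi0).congr (fun x => by ring) (fun x => by ring)

theorem HD_w2y : HD w2y (fun x => 6 * SS x * psi0 x + 6 * x.2 * SS x * p1 x.2)
    (fun x => 4 * psi0 x * p1 x.2 + 2 * x.2 * p1 x.2 ^ 2 + 2 * x.2 * psi0 x * p2 x.2) :=
  ((HD_psi0.mul HD_psi0).add ((((HD.const 2).mul HD_y).mul HD_psi0).mul HD_p1)).congr
    (fun x => by ring) (fun x => by ring)

def c11 (x : ℝ × ℝ) : ℝ := 18 * x.2 * (CC x * psi0 x + SS x ^ 2) - 2 * x.2 ^ 2 * psi0 x * p1 x.2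
def c12 (x : ℝ × ℝ) : ℝ := 6 * SS x * psi0 x + 6 * x.2 * SS x * p1 x.2
def c22 (x : ℝ × ℝ) : ℝ :=
  4 * psi0 x * p1 x.2 + 2 * x.2 * p1 x.2 ^ 2 + 2 * x.2 * psi0 x * p2 x.2

theorem MM_w2 (x v w : ℝ × ℝ) : MM w2 x v w =
    v.1 * w.1 * c11 x + (v.1 * w.2 + v.2 * w.1) * c12 x + v.2 * w.2 * c22 x := by
  rw [MM, HD_w2.dx, HD_w2.dy, HD_w2x.dx, HD_w2y.dx, HD_w2y.dy, w2, w2y, c11, c12, c22]
  ring

/-! ### basic facts -/

theorem SS_sq (x : ℝ × ℝ) : SS x ^ 2 = 1 - CC x ^ 2 := by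
  have := Real.sin_sq_add_cos_sq (3 * x.1)
  unfold SS CC; linarith

theorem CC_eq (x : ℝ × ℝ) : CC x = pp x.2 - psi0 x := by unfold psi0; ring

theorem SS_period (x : ℝ × ℝ) : SS (x.1 + 2 * Real.pi, x.2) = SS x := by
  unfold SS
  have : 3 * (x.1 + 2 * Real.pi) = 3 * x.1 + 2 * Real.pi + 2 * Real.pi + 2 * Real.pi := by ring
  simp only [this, Real.sin_add_two_pi]

theorem CC_period (x : ℝ × ℝ) : CC (x.1 + 2 * Real.pi, x.2) = CC x := by
  unfold CC
  have : 3 * (x.1 + 2 * Real.pi) = 3 * x.1 + 2 * Real.pi + 2 * Real.pi + 2 * Real.pi := by ring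
  simp only [this, Real.cos_add_two_pi]

theorem psi0_period (x : ℝ × ℝ) : psi0 (x.1 + 2 * Real.pi, x.2) = psi0 x := by
  unfold psi0; rw [CC_period]

theorem EE_period (x : ℝ × ℝ) : EE (x.1 + 2 * Real.pi, x.2) = EE x := by
  unfold EE; rw [SS_period]

theorem psiD_period (x : ℝ × ℝ) : psiD (x.1 + 2 * Real.pi, x.2) = psiD x := by
  unfold psiD; rw [psi0_period, EE_period]

theorem abs_SS_le (x : ℝ × ℝ) : |SS x| ≤ 1 := Real.abs_sin_le_one _
theorem abs_CC_le (x : ℝ × ℝ) : |CC x| ≤ 1 := Real.abs_cos_le_one _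

theorem EE_ge (x : ℝ × ℝ) : 7 / 4 ≤ EE x := by
  have h1 := abs_le.1 (abs_SS_le x)
  have h2 := SS_sq x
  unfold EE
  nlinarith [sq_nonneg (x.2 + SS x / 2), sq_nonneg (CC x)]

theorem EE_pos (x : ℝ × ℝ) : 0 < EE x := by have := EE_ge x; linarith

theorem continuous_SS : Continuous SS := by unfold SS; fun_prop
theorem continuous_CC : Continuous CC := by unfold CC; fun_prop
theorem continuous_pp : Continuous pp := by unfold pp; fun_prop
theorem continuous_p1 : Continuous p1 := by unfold p1; fun_prop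
theorem continuous_p2 : Continuous p2 := by unfold p2; fun_prop
theorem continuous_GG : Continuous GG := by unfold GG; fun_prop
theorem continuous_G1 : Continuous G1 := by unfold G1; fun_prop
theorem continuous_G2 : Continuous G2 := by unfold G2; fun_prop
theorem continuous_VV : Continuous VV := by unfold VV; fun_prop
theorem continuous_V1 : Continuous V1 := by unfold V1; fun_prop
theorem continuous_V2 : Continuous V2 := by unfold V2; fun_prop
attribute [fun_prop] continuous_SS continuous_CC continuous_pp continuous_p1 continuous_p2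
  continuous_GG continuous_G1 continuous_G2 continuous_VV continuous_V1 continuous_V2
theorem continuous_psi0 : Continuous psi0 := by unfold psi0; fun_prop
theorem continuous_EE : Continuous EE := by unfold EE; fun_prop
attribute [fun_prop] continuous_psi0 continuous_EE
theorem continuous_psiD : Continuous psiD := by unfold psiD; fun_prop
theorem continuous_K0f : Continuous K0f := by unfold K0f; fun_prop
theorem continuous_K1f : Continuous K1f := by unfold K1f; fun_prop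
theorem continuous_K2f : Continuous K2f := by unfold K2f; fun_prop
attribute [fun_prop] continuous_psiD continuous_K0f continuous_K1f continuous_K2f

theorem tau_psiD (x : ℝ × ℝ) : tau psiD x =
    (p1 x.2 * EE x + psi0 x * (SS x + 2 * x.2),
      -(3 * SS x * EE x + psi0 x * (3 * x.2 * CC x))) := by
  rw [tau, HD_psiD.dx, HD_psiD.dy]

/-- the quotient of the form by `psiD` -/
def Bq (B0 m11 m12 m22 : ℝ × ℝ → ℝ) (x : ℝ × ℝ) : ℝ :=
  (EE x ^ 2 * B0 x + 2 * EE x * (p1 x.2 * (SS x + 2 * x.2) * m11 x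
    + (p1 x.2 * (-(3 * x.2 * CC x)) + (-3 * SS x) * (SS x + 2 * x.2)) * m12 x
    + (-3 * SS x) * (-(3 * x.2 * CC x)) * m22 x)
    + psi0 x * ((SS x + 2 * x.2) ^ 2 * m11 x
    + 2 * (SS x + 2 * x.2) * (-(3 * x.2 * CC x)) * m12 x + (3 * x.2 * CC x) ^ 2 * m22 x)) / EE x

theorem form_quot {f B0 m11 m12 m22 : ℝ × ℝ → ℝ} (hf : ∀ x v w, MM f x v w =
      v.1 * w.1 * m11 x + (v.1 * w.2 + v.2 * w.1) * m12 x + v.2 * w.2 * m22 x)
    (h0 : ∀ x, p1 x.2 ^ 2 * m11 x - 6 * p1 x.2 * SS x * m12 x + 9 * SS x ^ 2 * m22 x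
      = psi0 x * B0 x) (x : ℝ × ℝ) :
    MM f x (tau psiD x) (tau psiD x) = psiD x * Bq B0 m11 m12 m22 x := by
  have hE := (EE_pos x).ne'
  rw [hf, tau_psiD, psiD, Bq]
  simp only
  field_simp
  linear_combination EE x ^ 2 * h0 x

theorem continuous_Bq {B0 m11 m12 m22 : ℝ × ℝ → ℝ} (h0 : Continuous B0) (h1 : Continuous m11)
    (h2 : Continuous m12) (h3 : Continuous m22) : Continuous (Bq B0 m11 m12 m22) := by
  unfold Bq
  refine Continuous.div ?_ continuous_EE (fun x => (EE_pos x).ne')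
  fun_prop

/-! ### the form of `w1` -/

/-- base polynomial identity -/
theorem base_identity (z : ℝ) : p1 z ^ 2 * (-8 * GG z + 27 * pp z * VV z
      - z * (G1 z + p1 z * VV z)) - 18 * pp z * p1 z * (G1 z + p1 z * VV z)
      + 9 * (1 - pp z ^ 2) * (G2 z + p2 z * VV z) = 0 := by
  unfold p1 GG pp VV G1 G2 p2
  ring

def Bw1 (x : ℝ × ℝ) : ℝ :=
  SS x * (-17 * p1 x.2 ^ 2 * VV x.2 - (x.2 * p1 x.2 ^ 2 + 18 * pp x.2 * p1 x.2) * V1 x.2
    + 9 * (1 - pp x.2 ^ 2) * V2 x.2 + 18 * p1 x.2 * G1 x.2 + 18 * pp x.2 * G2 x.2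
    + 18 * pp x.2 * p2 x.2 * VV x.2
    + (18 * p1 x.2 * V1 x.2 + 18 * pp x.2 * V2 x.2 - 9 * (G2 x.2 + p2 x.2 * VV x.2)) * psi0 x
    - 9 * V2 x.2 * psi0 x ^ 2)

theorem w1_base (x : ℝ × ℝ) :
    p1 x.2 ^ 2 * a11 x - 6 * p1 x.2 * SS x * a12 x + 9 * SS x ^ 2 * a22 x = psi0 x * Bw1 x := by
  have h1 := SS_sq x
  rw [CC_eq] at h1
  have h2 := base_identity x.2
  rw [a11, a12, a22, Bw1, K0f, K1f, K2f, CC_eq]
  linear_combination SS x * h2 + 9 * SS x * (G2 x.2 + p2 x.2 * VV x.2 + psi0 x * V2 x.2) * h1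

theorem w1_form : ∃ B1 : ℝ × ℝ → ℝ, Continuous B1 ∧
    (∀ x : ℝ × ℝ, B1 (x.1 + 2 * Real.pi, x.2) = B1 x) ∧
    (∀ x, MM w1 x (tau psiD x) (tau psiD x) = psiD x * B1 x) ∧
    ∀ x, psi0 x = 0 → x.2 = 0 → 0 < B1 x := by
  refine ⟨Bq Bw1 a11 a12 a22, ?_, ?_, form_quot MM_w1 w1_base, ?_⟩
  · refine continuous_Bq ?_ ?_ ?_ ?_
    · unfold Bw1; fun_prop
    · unfold a11; fun_prop
    · unfold a12; fun_prop
    · unfold a22; fun_prop
  · intro x
    simp only [Bq, Bw1, a11, a12, a22, K0f, K1f, K2f, SS_period, CC_period, psi0_period,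
      EE_period]
  · intro x hx hz
    have h1 := SS_sq x
    have hC : CC x = 0 := by
      rw [CC_eq, hx, hz]; norm_num [pp]
    have hS : SS x ^ 2 = 1 := by rw [h1, hC]; norm_num
    have hE : EE x = 2 := by unfold EE; rw [hz]; ring
    have : Bq Bw1 a11 a12 a22 x = 310320 := by
      rw [Bq, Bw1, a11, a12, a22, K0f, K1f, K2f, hE, hx, hC, hz]
      have hp1 : p1 0 = -1 / 2 := by norm_num [p1]
      have hp2 : p2 0 = 0 := by norm_num [p2]
      have hG : GG 0 = -11925 := by norm_num [GG]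
      have hG1 : G1 0 = 0 := by norm_num [G1]
      have hG2 : G2 0 = -2650 := by norm_num [G2]
      have hV : VV 0 = 0 := by norm_num [VV]
      have hV1 : V1 0 = -22540 := by norm_num [V1]
      have hV2 : V2 0 = 0 := by norm_num [V2]
      have hp : pp 0 = 0 := by norm_num [pp]
      rw [hp1, hp2, hG, hG1, hG2, hV, hV1, hV2, hp]
      linear_combination (405720 * SS x ^ 2 + 310320) * hS
    rw [this]; norm_num

/-! ### the form of `w2` -/

def Bw2 (x : ℝ × ℝ) : ℝ :=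
  18 * x.2 * CC x * p1 x.2 ^ 2 - 2 * x.2 ^ 2 * p1 x.2 ^ 3 + 18 * SS x ^ 2 * x.2 * p2 x.2

theorem w2_base (x : ℝ × ℝ) :
    p1 x.2 ^ 2 * c11 x - 6 * p1 x.2 * SS x * c12 x + 9 * SS x ^ 2 * c22 x = psi0 x * Bw2 x := by
  rw [c11, c12, c22, Bw2]
  ring

theorem w2_form : ∃ B2 : ℝ × ℝ → ℝ, Continuous B2 ∧
    (∀ x : ℝ × ℝ, B2 (x.1 + 2 * Real.pi, x.2) = B2 x) ∧
    (∀ x, MM w2 x (tau psiD x) (tau psiD x) = psiD x * B2 x) ∧
    ∀ x, psi0 x = 0 → B2 x = 106 * EE x * x.2 ^ 2 := by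
  refine ⟨Bq Bw2 c11 c12 c22, ?_, ?_, form_quot MM_w2 w2_base, ?_⟩
  · refine continuous_Bq ?_ ?_ ?_ ?_
    · unfold Bw2; fun_prop
    · unfold c11; fun_prop
    · unfold c12; fun_prop
    · unfold c22; fun_prop
  · intro x
    simp only [Bq, Bw2, c11, c12, c22, SS_period, CC_period, psi0_period, EE_period]
  · intro x hx
    have hE := (EE_pos x).ne'
    have hC : CC x = pp x.2 := by rw [CC_eq, hx]; ring
    have h1 := SS_sq x
    rw [Bq, Bw2, c11, c12, c22, hx, hC]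
    rw [hC] at h1
    field_simp
    have h3 : 18 * x.2 * pp x.2 * p1 x.2 ^ 2 - 2 * x.2 ^ 2 * p1 x.2 ^ 3
        + 18 * SS x ^ 2 * x.2 * p2 x.2 = 106 * x.2 ^ 2 := by
      rw [h1]; unfold pp p1 p2; ring
    linear_combination EE x ^ 2 * h3

end Pool.Agent.Helper89.Hedge
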