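import Pool.Agent.Helper89.Hedge.A2

/-! # Part A: the cross form -/

open scoped ContDiff Manifold Topology
noncomputable section
namespace Pool.Agent.Helper89.Hedge

def P12 (y : ℝ) : ℝ :=
  159470 - 3669935 / 2 * y + 21721325 / 2 * y ^ 2 - 145811775 / 4 * y ^ 3 + 338251579 / 4 * y ^ 4
    - 155555072 * y ^ 5 + 230572875 * y ^ 6 - 272558748 * y ^ 7 + 262759824 * y ^ 8
    - 201991536 * y ^ 9 + 110028240 * y ^ 10 - 35432640 * y ^ 11 + 4898880 * y ^ 12

theorem P12_pos_0 (y : ℝ) (h1 : 0 ≤ y) (h2 : y ≤ 17 / 25) : 0 < P12 y := by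
  obtain ⟨u, hu⟩ : ∃ u, u = y - 0 := ⟨_, rfl⟩
  obtain ⟨v, hv⟩ : ∃ v, v = 17 / 25 - y := ⟨_, rfl⟩
  have hu0 : 0 ≤ u := by rw [hu]; linarith
  have hv0 : 0 ≤ v := by rw [hv]; linarith
  have key : P12 y = 9505152702331542968750 / 582622237229761 * (u ^ 0 * v ^ 12) +
      79376947879791259765625 / 1165244474459522 * (u ^ 1 * v ^ 11) +
      108565893173217773437500 / 582622237229761 * (u ^ 2 * v ^ 10) +
      1242958758068084716796875 / 2330488948919044 * (u ^ 3 * v ^ 9) +
      832433950911865234375000 / 582622237229761 * (u ^ 4 * v ^ 8) +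
      1583575680691503906250000 / 582622237229761 * (u ^ 5 * v ^ 7) +
      1992246357554058837890625 / 582622237229761 * (u ^ 6 * v ^ 6) +
      3239798319290896650390625 / 1165244474459522 * (u ^ 7 * v ^ 5) +
      833077444578126175390625 / 582622237229761 * (u ^ 8 * v ^ 4) +
      526858227281078748296875 / 1165244474459522 * (u ^ 9 * v ^ 3) +
      49382356692369351396875 / 582622237229761 * (u ^ 10 * v ^ 2) +
      21372365582410757984875 / 2330488948919044 * (u ^ 11 * v ^ 1) +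
      318249643562320280305 / 582622237229761 * (u ^ 12 * v ^ 0) := by
    rw [hu, hv]; unfold P12; ring
  rw [key]
  rcases hu0.eq_or_lt with h | h
  · have : 0 < v := by rw [hv]; rw [hu] at h; linarith
    positivity
  · positivity

theorem P12_pos_1 (y : ℝ) (h1 : 17 / 25 ≤ y) (h2 : y ≤ 51 / 50) : 0 < P12 y := by
  obtain ⟨u, hu⟩ : ∃ u, u = y - 17 / 25 := ⟨_, rfl⟩
  obtain ⟨v, hv⟩ : ∃ v, v = 51 / 50 - y := ⟨_, rfl⟩
  have hu0 : 0 ≤ u := by rw [hu]; linarith
  have hv0 : 0 ≤ v := by rw [hv]; linarith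
  have key : P12 y = 1303550540031263868129280 / 582622237229761 * (u ^ 0 * v ^ 12) +
      12521258542368441538071040 / 582622237229761 * (u ^ 1 * v ^ 11) +
      63591044007422816791374080 / 582622237229761 * (u ^ 2 * v ^ 10) +
      237370485282504874056310400 / 582622237229761 * (u ^ 3 * v ^ 9) +
      685335840746086482506657600 / 582622237229761 * (u ^ 4 * v ^ 8) +
      1465597794680517480756842240 / 582622237229761 * (u ^ 5 * v ^ 7) +
      2238126459226877404751785920 / 582622237229761 * (u ^ 6 * v ^ 6) +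
      2395150692469694026704183040 / 582622237229761 * (u ^ 7 * v ^ 5) +
      1767426104333858736175681600 / 582622237229761 * (u ^ 8 * v ^ 4) +
      875951120540541624642294400 / 582622237229761 * (u ^ 9 * v ^ 3) +
      277404563704792721215860480 / 582622237229761 * (u ^ 10 * v ^ 2) +
      50660257913279112549015040 / 582622237229761 * (u ^ 11 * v ^ 1) +
      4066901066261655068794880 / 582622237229761 * (u ^ 12 * v ^ 0) := by
    rw [hu, hv]; unfold P12; ring
  rw [key]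
  rcases hu0.eq_or_lt with h | h
  · have : 0 < v := by rw [hv]; rw [hu] at h; linarith
    positivity
  · positivity

theorem P12_pos_2 (y : ℝ) (h1 : 51 / 50 ≤ y) (h2 : y ≤ 34 / 25) : 0 < P12 y := by
  obtain ⟨u, hu⟩ : ∃ u, u = y - 51 / 50 := ⟨_, rfl⟩
  obtain ⟨v, hv⟩ : ∃ v, v = 34 / 25 - y := ⟨_, rfl⟩
  have hu0 : 0 ≤ u := by rw [hu]; linarith
  have hv0 : 0 ≤ v := by rw [hv]; linarith
  have key : P12 y = 4066901066261655068794880 / 582622237229761 * (u ^ 0 * v ^ 12) +
      46945367677000609102062080 / 582622237229761 * (u ^ 1 * v ^ 11) +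
      236540771105729183299377920 / 582622237229761 * (u ^ 2 * v ^ 10) +
      684629289254420959970595200 / 582622237229761 * (u ^ 3 * v ^ 9) +
      1271443400730678891624865600 / 582622237229761 * (u ^ 4 * v ^ 8) +
      1640465616856735975580417280 / 582622237229761 * (u ^ 5 * v ^ 7) +
      1636929959433745231854610880 / 582622237229761 * (u ^ 6 * v ^ 6) +
      1442755509377759950525022720 / 582622237229761 * (u ^ 7 * v ^ 5) +
      1142815442678571830363265600 / 582622237229761 * (u ^ 8 * v ^ 4) +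
      692145439479609465790204800 / 582622237229761 * (u ^ 9 * v ^ 3) +
      258657829552345958294737920 / 582622237229761 * (u ^ 10 * v ^ 2) +
      44421118940857577341137920 / 582622237229761 * (u ^ 11 * v ^ 1) +
      910891215477307935354880 / 582622237229761 * (u ^ 12 * v ^ 0) := by
    rw [hu, hv]; unfold P12; ring
  rw [key]
  rcases hu0.eq_or_lt with h | h
  · have : 0 < v := by rw [hv]; rw [hu] at h; linarith
    positivity
  · positivity

theorem P12_pos (y : ℝ) (h1 : 0 ≤ y) (h2 : y ≤ 34 / 25) : 0 < P12 y := by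
  rcases le_total y (17 / 25) with h | h
  · exact P12_pos_0 y h1 h
  · rcases le_total y (51 / 50) with h' | h'
    · exact P12_pos_1 y h h'
    · exact P12_pos_2 y h' h2

theorem sq_le_of_psi0 (x : ℝ × ℝ) (hx : psi0 x = 0) : x.2 ^ 2 ≤ 34 / 25 := by
  have hC : CC x = pp x.2 := by rw [CC_eq, hx]; ring
  have h1 : pp x.2 ^ 2 ≤ 1 := by
    rw [← hC]
    have := abs_le.1 (abs_CC_le x)
    nlinarith
  by_contra hcon
  push Not at hcon
  have h2 : pp x.2 ^ 2 = x.2 ^ 2 * (x.2 ^ 2 - 1 / 2) ^ 2 := by unfold pp; ring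
  rw [h2] at h1
  nlinarith [sq_nonneg (x.2 ^ 2 - 1 / 2)]

theorem HD.const_mul {f f1 f2 : ℝ × ℝ → ℝ} (c : ℝ) (hf : HD f f1 f2) :
    HD (fun x => c * f x) (fun x => c * f1 x) (fun x => c * f2 x) :=
  ((HD.const c).mul hf).congr (fun x => by ring) (fun x => by ring)

theorem MM_wD (Λ : ℝ) (x v w : ℝ × ℝ) : MM (wD Λ) x v w = MM w1 x v w + Λ * MM w2 x v w := by
  have h0 : HD (wD Λ) (fun x => w1x x + Λ * w2x x) (fun x => w1y x + Λ * w2y x) :=
    HD_w1.add (HD_w2.const_mul Λ)
  have h1 := HD_w1x.add (HD_w2x.const_mul Λ)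
  have h2 := HD_w1y.add (HD_w2y.const_mul Λ)
  rw [MM_w1, MM_w2, MM, h0.dx, h0.dy, h1.dx, h2.dx, h2.dy]
  have h : w1 x = SS x * K0f x := rfl
  simp only [wD, h, w1y, a11, a12, a22, w2, w2y, c11, c12, c22]
  ring

theorem cross_form (Λ : ℝ) (x : ℝ × ℝ) (hx : psi0 x = 0) :
    0 < MM (wD Λ) x (tau psiD x) (dx psiD x, dy psiD x) := by
  have hC : CC x = pp x.2 := by rw [CC_eq, hx]; ring
  have h1 := SS_sq x
  rw [hC] at h1
  have h2 : MM (wD Λ) x (tau psiD x) (dx psiD x, dy psiD x) = 3 * EE x ^ 2 * P12 (x.2 ^ 2) := by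
    rw [MM_wD, MM_w1, MM_w2, tau_psiD, HD_psiD.dx, HD_psiD.dy]
    rw [a11, a12, a22, K0f, K1f, K2f, c11, c12, c22]
    beta_reduce
    rw [hx, hC]
    have h3 : 3 * SS x ^ 2 * p1 x.2 * (-8 * GG x.2 + 27 * pp x.2 * VV x.2
        - x.2 * (G1 x.2 + p1 x.2 * VV x.2))
        + (p1 x.2 ^ 2 - 9 * SS x ^ 2) * (3 * pp x.2 * (G1 x.2 + p1 x.2 * VV x.2)
          + 3 * SS x ^ 2 * V1 x.2)
        - 3 * SS x ^ 2 * p1 x.2 * (G2 x.2 + p2 x.2 * VV x.2 + 2 * p1 x.2 * V1 x.2)
        = 3 * P12 (x.2 ^ 2) := by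
      rw [h1]
      unfold p1 GG pp VV G1 G2 p2 V1 P12
      ring
    linear_combination EE x ^ 2 * h3
  rw [h2]
  have h3 := P12_pos (x.2 ^ 2) (sq_nonneg _) (sq_le_of_psi0 x hx)
  have h4 := EE_pos x
  positivity

end Pool.Agent.Helper89.Hedge
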