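import Pool.Agent.Helper89.Hedge.A4

/-! # Part A: the form `M0 psiD` -/

open scoped ContDiff Manifold Topology
noncomputable section
namespace Pool.Agent.Helper89.Hedge

def psix (x : ℝ × ℝ) : ℝ := 3 * SS x * EE x + psi0 x * (3 * x.2 * CC x)
def psiy (x : ℝ × ℝ) : ℝ := p1 x.2 * EE x + psi0 x * (SS x + 2 * x.2)

theorem HD_psiD' : HD psiD psix psiy := HD_psiD

theorem HD_psix : HD psix
    (fun x => 9 * CC x * EE x + 18 * x.2 * SS x * CC x - 9 * x.2 * SS x * psi0 x)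
    (fun x => 3 * SS x * (SS x + 2 * x.2) + 3 * CC x * psi0 x + 3 * x.2 * CC x * p1 x.2) :=
  ((((HD.const 3).mul HD_SS).mul HD_EE).add
    (HD_psi0.mul (((HD.const 3).mul HD_y).mul HD_CC))).congr (fun x => by ring) (fun x => by ring)

theorem HD_psiy : HD psiy
    (fun x => 3 * SS x * (SS x + 2 * x.2) + 3 * CC x * psi0 x + 3 * x.2 * CC x * p1 x.2)
    (fun x => p2 x.2 * EE x + 2 * p1 x.2 * (SS x + 2 * x.2) + 2 * psi0 x) :=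
  ((HD_p1.mul HD_EE).add (HD_psi0.mul (HD_SS.add ((HD.const 2).mul HD_y)))).congr
    (fun x => by ring) (fun x => by ring)

theorem M0_psiD (x v w : ℝ × ℝ) : M0 psiD x v w =
    v.1 * w.1 * (9 * CC x * EE x + 18 * x.2 * SS x * CC x - 9 * x.2 * SS x * psi0 x
      - x.2 * psiy x)
    + (v.1 * w.2 + v.2 * w.1) *
      (3 * SS x * (SS x + 2 * x.2) + 3 * CC x * psi0 x + 3 * x.2 * CC x * p1 x.2)
    + v.2 * w.2 * (p2 x.2 * EE x + 2 * p1 x.2 * (SS x + 2 * x.2) + 2 * psi0 x) := by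
  rw [M0, HD_psiD'.dx, HD_psiD'.dy, HD_psix.dx, HD_psiy.dx, HD_psiy.dy]

/-- the remainder -/
def Rm (x : ℝ × ℝ) : ℝ :=
  9 * EE x ^ 3 * (2 * pp x.2 * p2 x.2 - p1 x.2 ^ 2 - psi0 x * p2 x.2)
  + 2 * EE x ^ 2 * ((9 * CC x - x.2 * p1 x.2) * p1 x.2 * (SS x + 2 * x.2)
    + 3 * SS x * p2 x.2 * (3 * x.2 * CC x))
  + EE x * psi0 x * ((9 * CC x - x.2 * p1 x.2) * (SS x + 2 * x.2) ^ 2
    + p2 x.2 * (3 * x.2 * CC x) ^ 2)
  - 2 * EE x * (3 * SS x * (SS x + 2 * x.2) - p1 x.2 * (3 * x.2 * CC x)) ^ 2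
  + ((-10 * x.2 * SS x - 2 * x.2 ^ 2) * (p1 x.2 * EE x + psi0 x * (SS x + 2 * x.2)) ^ 2
    + 6 * CC x * (p1 x.2 * EE x + psi0 x * (SS x + 2 * x.2)) *
      (-(3 * SS x * EE x + psi0 x * (3 * x.2 * CC x)))
    + 2 * (3 * SS x * EE x + psi0 x * (3 * x.2 * CC x)) ^ 2)

theorem gamma_identity (z : ℝ) :
    9 * pp z * p1 z ^ 2 - z * p1 z ^ 3 + 9 * (1 - pp z ^ 2) * p2 z = 53 * z := by
  unfold pp p1 p2; ring

theorem M0_eq (x : ℝ × ℝ) : M0 psiD x (tau psiD x) (tau psiD x) =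
    53 * EE x ^ 3 * x.2 + psi0 x * Rm x := by
  have h1 := SS_sq x
  rw [CC_eq] at h1
  have h2 := gamma_identity x.2
  rw [M0_psiD, tau_psiD, Rm, psiy, CC_eq]
  linear_combination EE x ^ 3 * h2 + 9 * EE x ^ 3 * p2 x.2 * h1

def Am (x : ℝ × ℝ) : ℝ :=
  (-432) * psi0 x +
      (-72) * CC x +
      18 * CC x ^ 2 * psi0 x +
      18 * CC x ^ 3 +
      (-39) * SS x +
      72 * SS x * CC x * psi0 x +
      (-18) * SS x * CC x ^ 2 * psi0 x ^ 2 +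
      21 * SS x ^ 2 * psi0 x +
      (-36) * SS x ^ 2 * CC x +
      (-72) * SS x ^ 3 +
      (-10) * SS x ^ 3 * psi0 x ^ 2 +
      (-9) * SS x ^ 3 * CC x * psi0 x +
      (-18) * SS x ^ 5 +
      (-249) * x.2 +
      72 * x.2 * CC x * psi0 x +
      (-9) * x.2 * CC x ^ 2 +
      (-18) * x.2 * CC x ^ 2 * psi0 x ^ 2 +
      (-600) * x.2 * SS x * psi0 x +
      288 * x.2 * SS x * CC x +
      9 * x.2 * SS x * CC x ^ 2 * psi0 x +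
      (-195 / 2) * x.2 * SS x ^ 2 +
      (-42) * x.2 * SS x ^ 2 * psi0 x ^ 2 +
      27 * x.2 * SS x ^ 2 * CC x * psi0 x +
      (21 / 2) * x.2 * SS x ^ 3 * psi0 x +
      (-18) * x.2 * SS x ^ 3 * CC x +
      (-72) * x.2 * SS x ^ 4 +
      (-636) * x.2 ^ 2 * psi0 x +
      360 * x.2 ^ 2 * CC x +
      9 * x.2 ^ 2 * CC x ^ 2 * psi0 x +
      (-36) * x.2 ^ 2 * CC x ^ 3 +
      (-225) * x.2 ^ 2 * SS x +
      (-48) * x.2 ^ 2 * SS x * psi0 x ^ 2 +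
      72 * x.2 ^ 2 * SS x * CC x * psi0 x +
      (-9 / 2) * x.2 ^ 2 * SS x * CC x ^ 2 +
      (-831 / 2) * x.2 ^ 2 * SS x ^ 2 * psi0 x +
      576 * x.2 ^ 2 * SS x ^ 2 * CC x +
      (-453 / 4) * x.2 ^ 2 * SS x ^ 3 +
      (-111 / 2) * x.2 ^ 3 +
      (-8) * x.2 ^ 3 * psi0 x ^ 2 +
      36 * x.2 ^ 3 * CC x * psi0 x +
      (207 / 2) * x.2 ^ 3 * CC x ^ 2 +
      (-906) * x.2 ^ 3 * SS x * psi0 x +
      1224 * x.2 ^ 3 * SS x * CC x +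
      (-345 / 4) * x.2 ^ 3 * SS x ^ 2 +
      (-117) * x.2 ^ 3 * SS x ^ 3 * psi0 x +
      216 * x.2 ^ 3 * SS x ^ 3 * CC x +
      (-390) * x.2 ^ 4 * psi0 x +
      414 * x.2 ^ 4 * CC x +
      (-915 / 4) * x.2 ^ 4 * SS x +
      54 * x.2 ^ 4 * SS x * CC x ^ 2 +
      (-369) * x.2 ^ 4 * SS x ^ 2 * psi0 x +
      648 * x.2 ^ 4 * SS x ^ 2 * CC x +
      9 * x.2 ^ 4 * SS x ^ 3 +
      (57 / 4) * x.2 ^ 5 +
      (-270) * x.2 ^ 5 * CC x ^ 2 +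
      (-342) * x.2 ^ 5 * SS x * psi0 x +
      540 * x.2 ^ 5 * SS x * CC x +
      (-261) * x.2 ^ 5 * SS x ^ 2 +
      (-90) * x.2 ^ 6 * psi0 x +
      108 * x.2 ^ 6 * CC x +
      (-333) * x.2 ^ 6 * SS x +
      (-162) * x.2 ^ 6 * SS x * CC x ^ 2 +
      (-81) * x.2 ^ 6 * SS x ^ 3 +
      (-63) * x.2 ^ 7 +
      (-162) * x.2 ^ 7 * CC x ^ 2 +
      (-189) * x.2 ^ 7 * SS x ^ 2 +
      (-135) * x.2 ^ 8 * SS x +
      (-27) * x.2 ^ 9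

def Bm (x : ℝ × ℝ) : ℝ :=
  36 * CC x ^ 3 +
      (-18) * SS x ^ 2 * CC x

theorem Rm_eq (x : ℝ × ℝ) : Rm x = 18 + x.2 * Am x + psi0 x * Bm x := by
  have h1 := SS_sq x
  have h2 := CC_eq x
  have h3 : Rm x = 18 + x.2 * (Am x + 36 * CC x ^ 3 * (x.2 ^ 2 - 1 / 2))
      + psi0 x * (Bm x - 36 * CC x ^ 3) - 36 * (SS x ^ 2 - 1) ^ 2 := by
    unfold Rm Am Bm EE p1 p2 pp
    ring
  rw [h3, h1]
  unfold pp at h2
  linear_combination -36 * CC x ^ 3 * h2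
end Pool.Agent.Helper89.Hedge
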