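import Pool.Agent.Helper89.Hedge.Defs

open scoped ContDiff Manifold Topology
noncomputable section
namespace Pool.Agent.Helper89.Hedge

/-! ### Part CAL: calculus of the forms `MM`, `M0` (file `Cal.lean`) -/

theorem contDiff_dx {f : ℝ × ℝ → ℝ} (hf : ContDiff ℝ ∞ f) : ContDiff ℝ ∞ (dx f) := by
  have h : ContDiff ℝ ∞ (fderiv ℝ f) := hf.fderiv_right (m := ∞) (by norm_cast)
  exact h.clm_apply contDiff_const

theorem contDiff_dy {f : ℝ × ℝ → ℝ} (hf : ContDiff ℝ ∞ f) : ContDiff ℝ ∞ (dy f) := by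
  have h : ContDiff ℝ ∞ (fderiv ℝ f) := hf.fderiv_right (m := ∞) (by norm_cast)
  exact h.clm_apply contDiff_const

theorem contDiff_MM {f : ℝ × ℝ → ℝ} (hf : ContDiff ℝ ∞ f) (v w : ℝ × ℝ) :
    ContDiff ℝ ∞ (fun x => MM f x v w) := by
  unfold MM
  have h1 := contDiff_dx (contDiff_dx hf)
  have h2 := contDiff_dy hf
  have h3 := contDiff_dx (contDiff_dy hf)
  have h4 := contDiff_dy (contDiff_dy hf)
  fun_prop

theorem contDiff_M0 {f : ℝ × ℝ → ℝ} (hf : ContDiff ℝ ∞ f) (v w : ℝ × ℝ) :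
    ContDiff ℝ ∞ (fun x => M0 f x v w) := by
  unfold M0
  have h1 := contDiff_dx (contDiff_dx hf)
  have h2 := contDiff_dy hf
  have h3 := contDiff_dx (contDiff_dy hf)
  have h4 := contDiff_dy (contDiff_dy hf)
  fun_prop

theorem fderiv_eq_dx_dy {f : ℝ × ℝ → ℝ} (x v : ℝ × ℝ) :
    fderiv ℝ f x v = v.1 * dx f x + v.2 * dy f x := by
  have h : v = v.1 • ((1 : ℝ), (0 : ℝ)) + v.2 • ((0 : ℝ), (1 : ℝ)) := by
    ext <;> simp
  conv_lhs => rw [h]
  rw [map_add, map_smul, map_smul]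
  simp [dx, dy]

theorem fderiv_tau (ψ : ℝ × ℝ → ℝ) (x : ℝ × ℝ) : fderiv ℝ ψ x (tau ψ x) = 0 := by
  rw [fderiv_eq_dx_dy]
  simp only [tau]
  ring

theorem diffAt_of_contDiff {f : ℝ × ℝ → ℝ} (hf : ContDiff ℝ ∞ f) (x : ℝ × ℝ) :
    DifferentiableAt ℝ f x :=
  (hf.differentiable (by simp)) x

theorem dx_add {f g : ℝ × ℝ → ℝ} (hf : ContDiff ℝ ∞ f) (hg : ContDiff ℝ ∞ g) :
    dx (fun y => f y + g y) = fun y => dx f y + dx g y := by
  funext x
  simp only [dx]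
  rw [fderiv_fun_add (diffAt_of_contDiff hf x) (diffAt_of_contDiff hg x)]
  rfl

theorem dy_add {f g : ℝ × ℝ → ℝ} (hf : ContDiff ℝ ∞ f) (hg : ContDiff ℝ ∞ g) :
    dy (fun y => f y + g y) = fun y => dy f y + dy g y := by
  funext x
  simp only [dy]
  rw [fderiv_fun_add (diffAt_of_contDiff hf x) (diffAt_of_contDiff hg x)]
  rfl

theorem dx_mul {f g : ℝ × ℝ → ℝ} (hf : ContDiff ℝ ∞ f) (hg : ContDiff ℝ ∞ g) :
    dx (fun y => f y * g y) = fun y => dx f y * g y + f y * dx g y := by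
  funext x
  simp only [dx]
  rw [fderiv_fun_mul (diffAt_of_contDiff hf x) (diffAt_of_contDiff hg x)]
  simp
  ring

theorem dy_mul {f g : ℝ × ℝ → ℝ} (hf : ContDiff ℝ ∞ f) (hg : ContDiff ℝ ∞ g) :
    dy (fun y => f y * g y) = fun y => dy f y * g y + f y * dy g y := by
  funext x
  simp only [dy]
  rw [fderiv_fun_mul (diffAt_of_contDiff hf x) (diffAt_of_contDiff hg x)]
  simp
  ring

theorem dx_const_mul {f : ℝ × ℝ → ℝ} (hf : ContDiff ℝ ∞ f) (c : ℝ) :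
    dx (fun y => c * f y) = fun y => c * dx f y := by
  funext x
  simp only [dx]
  rw [fderiv_const_mul (diffAt_of_contDiff hf x)]
  simp

theorem dy_const_mul {f : ℝ × ℝ → ℝ} (hf : ContDiff ℝ ∞ f) (c : ℝ) :
    dy (fun y => c * f y) = fun y => c * dy f y := by
  funext x
  simp only [dy]
  rw [fderiv_const_mul (diffAt_of_contDiff hf x)]
  simp

theorem fderiv_comp_real {ψ : ℝ × ℝ → ℝ} (hψ : ContDiff ℝ ∞ ψ) {η : ℝ → ℝ}
    (hη : ContDiff ℝ ∞ η) (x v : ℝ × ℝ) :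
    fderiv ℝ (fun y => η (ψ y)) x v = deriv η (ψ x) * fderiv ℝ ψ x v := by
  have h1 : HasDerivAt η (deriv η (ψ x)) (ψ x) :=
    ((hη.differentiable (by simp)) (ψ x)).hasDerivAt
  have h2 : HasFDerivAt ψ (fderiv ℝ ψ x) x := (diffAt_of_contDiff hψ x).hasFDerivAt
  have h3 := h1.comp_hasFDerivAt x h2
  have h4 : fderiv ℝ (fun y => η (ψ y)) x = deriv η (ψ x) • fderiv ℝ ψ x := h3.fderiv
  rw [h4]
  simp

theorem dx_comp {ψ : ℝ × ℝ → ℝ} (hψ : ContDiff ℝ ∞ ψ) {η : ℝ → ℝ} (hη : ContDiff ℝ ∞ η) :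
    dx (fun y => η (ψ y)) = fun y => deriv η (ψ y) * dx ψ y := by
  funext x
  exact fderiv_comp_real hψ hη x (1, 0)

theorem dy_comp {ψ : ℝ × ℝ → ℝ} (hψ : ContDiff ℝ ∞ ψ) {η : ℝ → ℝ} (hη : ContDiff ℝ ∞ η) :
    dy (fun y => η (ψ y)) = fun y => deriv η (ψ y) * dy ψ y := by
  funext x
  exact fderiv_comp_real hψ hη x (0, 1)

theorem MM_add {f g : ℝ × ℝ → ℝ} (hf : ContDiff ℝ ∞ f) (hg : ContDiff ℝ ∞ g) (x v w : ℝ × ℝ) :
    MM (fun y => f y + g y) x v w = MM f x v w + MM g x v w := by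
  simp only [MM]
  rw [dx_add hf hg, dy_add hf hg, dx_add (contDiff_dx hf) (contDiff_dx hg),
    dx_add (contDiff_dy hf) (contDiff_dy hg), dy_add (contDiff_dy hf) (contDiff_dy hg)]
  ring

theorem MM_const_mul {f : ℝ × ℝ → ℝ} (hf : ContDiff ℝ ∞ f) (c : ℝ) (x v w : ℝ × ℝ) :
    MM (fun y => c * f y) x v w = c * MM f x v w := by
  simp only [MM]
  rw [dx_const_mul hf, dy_const_mul hf, dx_const_mul (contDiff_dx hf),
    dx_const_mul (contDiff_dy hf), dy_const_mul (contDiff_dy hf)]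
  ring

theorem dxx_mul {f g : ℝ × ℝ → ℝ} (hf : ContDiff ℝ ∞ f) (hg : ContDiff ℝ ∞ g) (x : ℝ × ℝ) :
    dx (dx (fun y => f y * g y)) x = dx (dx f) x * g x + 2 * (dx f x * dx g x)
      + f x * dx (dx g) x := by
  rw [dx_mul hf hg, dx_add ((contDiff_dx hf).mul hg) (hf.mul (contDiff_dx hg)),
    dx_mul (contDiff_dx hf) hg, dx_mul hf (contDiff_dx hg)]
  ring

theorem dxy_mul {f g : ℝ × ℝ → ℝ} (hf : ContDiff ℝ ∞ f) (hg : ContDiff ℝ ∞ g) (x : ℝ × ℝ) :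
    dx (dy (fun y => f y * g y)) x = dx (dy f) x * g x + dy f x * dx g x + dx f x * dy g x
      + f x * dx (dy g) x := by
  rw [dy_mul hf hg, dx_add ((contDiff_dy hf).mul hg) (hf.mul (contDiff_dy hg)),
    dx_mul (contDiff_dy hf) hg, dx_mul hf (contDiff_dy hg)]
  ring

theorem dyy_mul {f g : ℝ × ℝ → ℝ} (hf : ContDiff ℝ ∞ f) (hg : ContDiff ℝ ∞ g) (x : ℝ × ℝ) :
    dy (dy (fun y => f y * g y)) x = dy (dy f) x * g x + 2 * (dy f x * dy g x)
      + f x * dy (dy g) x := by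
  rw [dy_mul hf hg, dy_add ((contDiff_dy hf).mul hg) (hf.mul (contDiff_dy hg)),
    dy_mul (contDiff_dy hf) hg, dy_mul hf (contDiff_dy hg)]
  ring

theorem MM_mul {f g : ℝ × ℝ → ℝ} (hf : ContDiff ℝ ∞ f) (hg : ContDiff ℝ ∞ g) (x v w : ℝ × ℝ) :
    MM (fun y => f y * g y) x v w = g x * MM f x v w + fderiv ℝ f x v * fderiv ℝ g x w
      + fderiv ℝ f x w * fderiv ℝ g x v + f x * M0 g x v w := by
  simp only [MM, M0, fderiv_eq_dx_dy, dxx_mul hf hg, dxy_mul hf hg, dyy_mul hf hg,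
    congrFun (dy_mul hf hg) x]
  ring

theorem M0_mul {f g : ℝ × ℝ → ℝ} (hf : ContDiff ℝ ∞ f) (hg : ContDiff ℝ ∞ g) (x v w : ℝ × ℝ) :
    M0 (fun y => f y * g y) x v w = g x * M0 f x v w + fderiv ℝ f x v * fderiv ℝ g x w
      + fderiv ℝ f x w * fderiv ℝ g x v + f x * M0 g x v w := by
  simp only [M0, fderiv_eq_dx_dy, dxx_mul hf hg, dxy_mul hf hg, dyy_mul hf hg,
    congrFun (dy_mul hf hg) x]
  ring

theorem M0_comp {ψ : ℝ × ℝ → ℝ} (hψ : ContDiff ℝ ∞ ψ) {η : ℝ → ℝ} (hη : ContDiff ℝ ∞ η)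
    (x v w : ℝ × ℝ) :
    M0 (fun y => η (ψ y)) x v w = deriv η (ψ x) * M0 ψ x v w
      + deriv (deriv η) (ψ x) * (fderiv ℝ ψ x v * fderiv ℝ ψ x w) := by
  have hη' : ContDiff ℝ ∞ (deriv η) := by
    have := hη
    exact (contDiff_infty_iff_deriv.mp this).2
  have hc : ContDiff ℝ ∞ (fun y => deriv η (ψ y)) := hη'.comp hψ
  have e1 : dx (dx (fun y => η (ψ y))) x = deriv (deriv η) (ψ x) * dx ψ x * dx ψ x
      + deriv η (ψ x) * dx (dx ψ) x := by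
    rw [dx_comp hψ hη, dx_mul hc (contDiff_dx hψ), dx_comp hψ hη']
  have e2 : dx (dy (fun y => η (ψ y))) x = deriv (deriv η) (ψ x) * dx ψ x * dy ψ x
      + deriv η (ψ x) * dx (dy ψ) x := by
    rw [dy_comp hψ hη, dx_mul hc (contDiff_dy hψ), dx_comp hψ hη']
  have e3 : dy (dy (fun y => η (ψ y))) x = deriv (deriv η) (ψ x) * dy ψ x * dy ψ x
      + deriv η (ψ x) * dy (dy ψ) x := by
    rw [dy_comp hψ hη, dy_mul hc (contDiff_dy hψ), dy_comp hψ hη']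
  simp only [M0, fderiv_eq_dx_dy, e1, e2, e3, congrFun (dy_comp hψ hη) x]
  ring

theorem dx_of_snd {g : ℝ → ℝ} (hg : ContDiff ℝ ∞ g) :
    dx (fun y : ℝ × ℝ => g y.2) = fun _ => 0 := by
  funext x
  have h := fderiv_comp_real (ψ := fun y : ℝ × ℝ => y.2) contDiff_snd hg x (1, 0)
  simp only [dx]
  rw [h]
  have : fderiv ℝ (fun y : ℝ × ℝ => y.2) x = ContinuousLinearMap.snd ℝ ℝ ℝ := fderiv_snd
  rw [this]
  simp

theorem dy_of_snd {g : ℝ → ℝ} (hg : ContDiff ℝ ∞ g) :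
    dy (fun y : ℝ × ℝ => g y.2) = fun y => deriv g y.2 := by
  funext x
  have h := fderiv_comp_real (ψ := fun y : ℝ × ℝ => y.2) contDiff_snd hg x (0, 1)
  simp only [dy]
  rw [h]
  have : fderiv ℝ (fun y : ℝ × ℝ => y.2) x = ContinuousLinearMap.snd ℝ ℝ ℝ := fderiv_snd
  rw [this]
  simp

theorem MM_snd (x v w : ℝ × ℝ) : MM (fun y : ℝ × ℝ => y.2) x v w = 0 := by
  have h1 : dx (fun y : ℝ × ℝ => y.2) = fun _ => 0 := dx_of_snd (g := fun t => t) contDiff_id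
  have h2 : dy (fun y : ℝ × ℝ => y.2) = fun _ => 1 := by
    rw [dy_of_snd (g := fun t => t) contDiff_id]
    funext y
    simp
  have h3 : ∀ c : ℝ, dx (fun _ : ℝ × ℝ => c) = fun _ => 0 := fun c => by funext y; simp [dx]
  have h4 : ∀ c : ℝ, dy (fun _ : ℝ × ℝ => c) = fun _ => 0 := fun c => by funext y; simp [dy]
  simp only [MM]
  rw [h1, h2, h3, h3, h4]
  ring

theorem contDiff_sqrt_one_add_sq : ContDiff ℝ ∞ (fun t : ℝ => Real.sqrt (1 + t ^ 2)) := by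
  apply ContDiff.sqrt
  · fun_prop
  · intro x
    positivity

theorem contDiff_nu : ContDiff ℝ ∞ nu := by
  have : nu = fun x : ℝ × ℝ => (fun t : ℝ => Real.sqrt (1 + t ^ 2)) x.2 := rfl
  rw [this]
  exact contDiff_sqrt_one_add_sq.comp contDiff_snd

theorem deriv_sqrt_one_add_sq :
    deriv (fun t : ℝ => Real.sqrt (1 + t ^ 2)) = fun t => t / Real.sqrt (1 + t ^ 2) := by
  funext t
  have h1 : HasDerivAt (fun t : ℝ => 1 + t ^ 2) (2 * t) t := by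
    simpa using ((hasDerivAt_id t).pow 2).const_add 1
  have h2 := h1.sqrt (by positivity)
  rw [h2.deriv]
  field_simp

theorem deriv_div_sqrt (t : ℝ) :
    deriv (fun t : ℝ => t / Real.sqrt (1 + t ^ 2)) t = 1 / Real.sqrt (1 + t ^ 2) ^ 3 := by
  have hp : 0 < Real.sqrt (1 + t ^ 2) := Real.sqrt_pos.mpr (by positivity)
  have hs : Real.sqrt (1 + t ^ 2) ^ 2 = 1 + t ^ 2 := Real.sq_sqrt (by positivity)
  have h1 : HasDerivAt (fun t : ℝ => Real.sqrt (1 + t ^ 2)) (t / Real.sqrt (1 + t ^ 2)) t := by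
    have h0 : DifferentiableAt ℝ (fun t : ℝ => Real.sqrt (1 + t ^ 2)) t :=
      (contDiff_sqrt_one_add_sq.differentiable (by simp)) t
    have := h0.hasDerivAt
    rwa [deriv_sqrt_one_add_sq] at this
  have h2 := (hasDerivAt_id t).div h1 hp.ne'
  have h3 : deriv (fun t : ℝ => t / Real.sqrt (1 + t ^ 2)) t = _ := h2.deriv
  rw [h3]
  simp only [id]
  field_simp
  nlinarith [hs]

theorem MM_nu (x v w : ℝ × ℝ) :
    MM nu x v w = v.1 * w.1 / nu x + v.2 * w.2 / nu x ^ 3 := by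
  have hp : 0 < nu x := Real.sqrt_pos.mpr (by positivity)
  have hs : nu x ^ 2 = 1 + x.2 ^ 2 := Real.sq_sqrt (by positivity)
  have e0 : nu = fun x : ℝ × ℝ => (fun t : ℝ => Real.sqrt (1 + t ^ 2)) x.2 := rfl
  have e1 : dx nu = fun _ => 0 := by rw [e0]; exact dx_of_snd contDiff_sqrt_one_add_sq
  have e2 : dy nu = fun y : ℝ × ℝ => (fun t : ℝ => t / Real.sqrt (1 + t ^ 2)) y.2 := by
    rw [e0, dy_of_snd contDiff_sqrt_one_add_sq, deriv_sqrt_one_add_sq]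
  have hc : ContDiff ℝ ∞ (fun t : ℝ => t / Real.sqrt (1 + t ^ 2)) := by
    rw [← deriv_sqrt_one_add_sq]
    exact (contDiff_infty_iff_deriv.mp contDiff_sqrt_one_add_sq).2
  have e3 : dx (dy nu) = fun _ => 0 := by rw [e2]; exact dx_of_snd hc
  have e4 : dy (dy nu) = fun y : ℝ × ℝ => 1 / Real.sqrt (1 + y.2 ^ 2) ^ 3 := by
    rw [e2, dy_of_snd hc]
    funext y
    exact deriv_div_sqrt y.2
  have e5 : dx (dx nu) = fun _ => 0 := by
    rw [e1]; funext y; simp [dx]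
  simp only [MM]
  rw [e5, e3, e4, e2]
  have e6 : Real.sqrt (1 + x.2 ^ 2) = nu x := rfl
  simp only [e6]
  have key : nu x - x.2 * (x.2 / nu x) = 1 / nu x := by
    field_simp
    linarith
  have : (0 : ℝ) + nu x - x.2 * (x.2 / nu x) = 1 / nu x := by rw [zero_add]; exact key
  rw [this]
  ring

theorem hasFDerivAt_glide (x : ℝ × ℝ) : HasFDerivAt glide
    ((ContinuousLinearMap.fst ℝ ℝ ℝ).prod (-(ContinuousLinearMap.snd ℝ ℝ ℝ))) x := by
  have h1 : HasFDerivAt (fun y : ℝ × ℝ => y.1 + Real.pi) (ContinuousLinearMap.fst ℝ ℝ ℝ) x :=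
    (hasFDerivAt_fst).add_const _
  have h2 : HasFDerivAt (fun y : ℝ × ℝ => -y.2) (-(ContinuousLinearMap.snd ℝ ℝ ℝ)) x :=
    (hasFDerivAt_snd).neg
  exact h1.prodMk h2

theorem fderiv_glide {f : ℝ × ℝ → ℝ} (hf : ContDiff ℝ ∞ f) (s : ℝ)
    (hg : ∀ x, f (glide x) = s * f x) (x v : ℝ × ℝ) :
    fderiv ℝ f (glide x) (v.1, -v.2) = s * fderiv ℝ f x v := by
  have h1 : HasFDerivAt (fun y => f (glide y)) _ x :=
    (diffAt_of_contDiff hf (glide x)).hasFDerivAt.comp x (hasFDerivAt_glide x)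
  have h2 : HasFDerivAt (fun y => s * f y) (s • fderiv ℝ f x) x :=
    (diffAt_of_contDiff hf x).hasFDerivAt.const_mul s
  have h3 : (fun y => f (glide y)) = fun y => s * f y := funext hg
  rw [h3] at h1
  have h4 := h1.unique h2
  have h5 := congrArg (fun L : ℝ × ℝ →L[ℝ] ℝ => L v) h4
  simpa using h5

theorem dx_glide {f : ℝ × ℝ → ℝ} (hf : ContDiff ℝ ∞ f) (s : ℝ)
    (hg : ∀ x, f (glide x) = s * f x) (x : ℝ × ℝ) : dx f (glide x) = s * dx f x := by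
  have := fderiv_glide hf s hg x (1, 0)
  simpa [dx] using this

theorem dy_glide {f : ℝ × ℝ → ℝ} (hf : ContDiff ℝ ∞ f) (s : ℝ)
    (hg : ∀ x, f (glide x) = s * f x) (x : ℝ × ℝ) : dy f (glide x) = (-s) * dy f x := by
  have h := fderiv_glide hf s hg x (0, 1)
  have h2 : (((0 : ℝ), (1 : ℝ)).1, -((0 : ℝ), (1 : ℝ)).2) = -((0 : ℝ), (1 : ℝ)) := by
    ext <;> simp
  rw [h2, map_neg] at h
  simp only [dy]
  linarith

theorem MM_glide {f : ℝ × ℝ → ℝ} (hf : ContDiff ℝ ∞ f) (hg : ∀ x, f (glide x) = -f x)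
    (x v w : ℝ × ℝ) : MM f (glide x) v w = -MM f x (v.1, -v.2) (w.1, -w.2) := by
  have hg' : ∀ x, f (glide x) = (-1) * f x := fun x => by rw [hg x]; ring
  have e1 := dx_glide hf (-1) hg'
  have e2 := dy_glide hf (-1) hg'
  have e3 := dx_glide (contDiff_dx hf) (-1) e1 x
  have e4 := dx_glide (contDiff_dy hf) (-(-1)) e2 x
  have e5 := dy_glide (contDiff_dy hf) (-(-1)) e2 x
  simp only [MM]
  rw [e3, e4, e5, e2 x, hg' x]
  simp only [glide]
  ring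

theorem periodic_of_glide {f : ℝ × ℝ → ℝ} (hg : ∀ x, f (glide x) = -f x) (x : ℝ × ℝ) :
    f (x.1 + 2 * Real.pi, x.2) = f x := by
  have h : (x.1 + 2 * Real.pi, x.2) = glide (glide x) := by
    simp only [glide]
    ext
    · simp; ring
    · simp
  rw [h, hg, hg, neg_neg]

/-- expansion in the standard basis -/
theorem MM_expand (f : ℝ × ℝ → ℝ) (x v w : ℝ × ℝ) :
    MM f x v w = v.1 * w.1 * MM f x (1, 0) (1, 0) + (v.1 * w.2 + v.2 * w.1) * MM f x (1, 0) (0, 1)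
      + v.2 * w.2 * MM f x (0, 1) (0, 1) := by
  simp only [MM]
  ring

/-- determinant in another basis -/
theorem detM_basis (f : ℝ × ℝ → ℝ) (x v w : ℝ × ℝ) :
    MM f x v v * MM f x w w - MM f x v w ^ 2 = (v.1 * w.2 - v.2 * w.1) ^ 2 * detM f x := by
  simp only [MM, detM]
  ring

end Pool.Agent.Helper89.Hedge
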