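import Pool.Agent.Helper89.Hedge.A5
import Pool.Agent.Helper89.Hedge.A0
import Pool.Agent.Helper89.Hedge.Cal

/-! # Part A: the leaf data -/

open scoped ContDiff Manifold Topology
noncomputable section
namespace Pool.Agent.Helper89.Hedge

theorem pp_abs_ge {z : ℝ} (hz : 2 ≤ |z|) : 7 ≤ |pp z| := by
  have h : pp z = z * (z ^ 2 - 1 / 2) := by unfold pp; ring
  have h2 : 4 ≤ z ^ 2 := by nlinarith [sq_abs z, abs_nonneg z]
  rw [h, abs_mul, abs_of_nonneg (by linarith : (0:ℝ) ≤ z ^ 2 - 1 / 2)]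
  nlinarith

theorem psi0_abs_ge {x : ℝ × ℝ} (hx : 2 ≤ |x.2|) : 6 ≤ |psi0 x| := by
  have h1 := pp_abs_ge hx
  have h2 := abs_CC_le x
  have h3 := abs_sub_abs_le_abs_sub (pp x.2) (CC x)
  unfold psi0
  linarith

theorem psiD_far (x : ℝ × ℝ) (hx : 2 ≤ |x.2|) : 1 < |psiD x| := by
  have h1 := psi0_abs_ge hx
  have h2 := EE_ge x
  rw [psiD, abs_mul, abs_of_pos (EE_pos x)]
  nlinarith

theorem psiD_far' (x : ℝ × ℝ) (hx : 2 ≤ x.2) : 1 < psiD x := by
  have h1 : 7 ≤ pp x.2 := by
    unfold pp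
    nlinarith [sq_nonneg (x.2 - 2), mul_nonneg (sub_nonneg.2 hx) (sq_nonneg x.2)]
  have h2 := abs_le.1 (abs_CC_le x)
  have h3 := EE_ge x
  unfold psiD psi0
  nlinarith

theorem continuous_nu : Continuous nu := contDiff_nu.continuous

theorem nu_ge_one (x : ℝ × ℝ) : 1 ≤ nu x := by
  unfold nu
  rw [Real.one_le_sqrt]
  nlinarith [sq_nonneg x.2]

theorem nu_le (x : ℝ × ℝ) : nu x ≤ 1 + |x.2| := by
  unfold nu
  rw [Real.sqrt_le_left (by positivity)]
  nlinarith [sq_abs x.2, abs_nonneg x.2]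

theorem nu_period (x : ℝ × ℝ) : nu (x.1 + 2 * Real.pi, x.2) = nu x := rfl

theorem continuous_Am : Continuous Am := by unfold Am; fun_prop
theorem continuous_Bm : Continuous Bm := by unfold Bm; fun_prop

/-- the cofactor of `z` in `E^4 - 16` -/
def e4 (x : ℝ × ℝ) : ℝ := (SS x + x.2) * (EE x ^ 3 + 2 * EE x ^ 2 + 4 * EE x + 8)

theorem EE_pow4 (x : ℝ × ℝ) : EE x ^ 4 = 16 + x.2 * e4 x := by
  unfold e4 EE; ring

theorem m_form : ∃ K : ℝ, 0 ≤ K ∧ ∀ x, 0 ≤ psiD x → psiD x ≤ 1 →
    |M0 psiD x (tau psiD x) (tau psiD x) -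
      53 * EE x ^ 3 * (x.2 + 9 / 424 * nu x * psiD x)| ≤ K * psiD x * (|x.2| + psiD x) := by
  obtain ⟨K, hK, hb⟩ := bdd_near (ψ := psiD)
    (g := fun x => |Am x| + 9 / 8 * |e4 x| + 9 / 8 * EE x ^ 4 + |Bm x|)
    (by
      have h1 := continuous_Am
      have h2 := continuous_Bm
      unfold e4
      fun_prop)
    (by
      intro x
      simp only [Am, Bm, e4, SS_period, CC_period, psi0_period, EE_period]) psiD_far
  refine ⟨K, hK.le, fun x h0 h1 => ?_⟩
  have hE := EE_ge x
  have hE4 : (0 : ℝ) ≤ EE x ^ 4 := by positivity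
  have hpsi : psiD x = psi0 x * EE x := rfl
  have h2 : 0 ≤ psi0 x := by
    by_contra hcon
    push Not at hcon
    have := mul_neg_of_neg_of_pos hcon (EE_pos x)
    linarith
  have h3 : psi0 x ≤ psiD x := by rw [hpsi]; nlinarith
  have hg := hb x (by rw [abs_of_nonneg h0]; exact h1)
  have hg' : |Am x| + 9 / 8 * |e4 x| + 9 / 8 * EE x ^ 4 + |Bm x| ≤ K := le_trans (le_abs_self _) hg
  have key : M0 psiD x (tau psiD x) (tau psiD x) -
      53 * EE x ^ 3 * (x.2 + 9 / 424 * nu x * psiD x) =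
      psi0 x * (x.2 * (Am x - 9 / 8 * e4 x) - 9 / 8 * EE x ^ 4 * (nu x - 1) + psi0 x * Bm x) := by
    rw [M0_eq, Rm_eq, hpsi]
    have := EE_pow4 x
    linear_combination (-9 / 8 * psi0 x) * this
  have hz := abs_nonneg x.2
  have hnu : |nu x - 1| ≤ |x.2| := by
    rw [abs_of_nonneg (by linarith [nu_ge_one x])]
    linarith [nu_le x]
  have h5 : |x.2 * (Am x - 9 / 8 * e4 x) - 9 / 8 * EE x ^ 4 * (nu x - 1) + psi0 x * Bm x|
      ≤ K * (|x.2| + psi0 x) := by
    have i1 : |Am x - 9 / 8 * e4 x| ≤ |Am x| + 9 / 8 * |e4 x| := by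
      refine (abs_sub _ _).trans ?_
      rw [abs_mul, abs_of_pos (by norm_num : (0:ℝ) < 9 / 8)]
    have i2 : |x.2 * (Am x - 9 / 8 * e4 x)| ≤ |x.2| * (|Am x| + 9 / 8 * |e4 x|) := by
      rw [abs_mul]; exact mul_le_mul_of_nonneg_left i1 hz
    have i3 : |9 / 8 * EE x ^ 4 * (nu x - 1)| ≤ 9 / 8 * EE x ^ 4 * |x.2| := by
      rw [abs_mul, abs_of_nonneg (by positivity : (0:ℝ) ≤ 9 / 8 * EE x ^ 4)]
      exact mul_le_mul_of_nonneg_left hnu (by positivity)
    have i4 : |psi0 x * Bm x| = psi0 x * |Bm x| := by rw [abs_mul, abs_of_nonneg h2]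
    have i5 := abs_add_le (x.2 * (Am x - 9 / 8 * e4 x) - 9 / 8 * EE x ^ 4 * (nu x - 1))
      (psi0 x * Bm x)
    have i6 := abs_sub (x.2 * (Am x - 9 / 8 * e4 x)) (9 / 8 * EE x ^ 4 * (nu x - 1))
    have j1 : |Am x| + 9 / 8 * |e4 x| + 9 / 8 * EE x ^ 4 ≤ K := by
      have := abs_nonneg (Bm x); linarith
    have j2 : |Bm x| ≤ K := by
      have := abs_nonneg (Am x)
      have := abs_nonneg (e4 x)
      linarith
    have j3 := mul_le_mul_of_nonneg_left j1 hz
    have j4 := mul_le_mul_of_nonneg_left j2 h2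
    nlinarith
  rw [key, abs_mul, abs_of_nonneg h2]
  calc psi0 x * _ ≤ psi0 x * (K * (|x.2| + psi0 x)) := mul_le_mul_of_nonneg_left h5 h2
    _ ≤ psiD x * (K * (|x.2| + psiD x)) := by
        apply mul_le_mul h3 _ (by positivity) h0
        apply mul_le_mul_of_nonneg_left _ hK.le
        linarith
    _ = K * psiD x * (|x.2| + psiD x) := by ring

theorem contDiff_SS : ContDiff ℝ ∞ SS := by unfold SS; fun_prop
theorem contDiff_CC : ContDiff ℝ ∞ CC := by unfold CC; fun_prop
theorem contDiff_psi0 : ContDiff ℝ ∞ psi0 := by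
  have h := contDiff_CC
  unfold psi0 pp; fun_prop
theorem contDiff_EE : ContDiff ℝ ∞ EE := by
  have h := contDiff_SS
  unfold EE; fun_prop
theorem contDiff_psiD : ContDiff ℝ ∞ psiD := by
  have h := contDiff_psi0
  have h2 := contDiff_EE
  unfold psiD; fun_prop
theorem contDiff_wD (Λ : ℝ) : ContDiff ℝ ∞ (wD Λ) := by
  have h := contDiff_psi0
  have h2 := contDiff_SS
  unfold wD w1 w2 GG VV; fun_prop

theorem SS_glide (x : ℝ × ℝ) : SS (glide x) = -SS x := by
  unfold SS glide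
  have : 3 * (x.1 + Real.pi) = 3 * x.1 + 2 * Real.pi + Real.pi := by ring
  simp only [this]
  rw [Real.sin_add_pi, Real.sin_add_two_pi]

theorem CC_glide (x : ℝ × ℝ) : CC (glide x) = -CC x := by
  unfold CC glide
  have : 3 * (x.1 + Real.pi) = 3 * x.1 + 2 * Real.pi + Real.pi := by ring
  simp only [this]
  rw [Real.cos_add_pi, Real.cos_add_two_pi]

theorem psi0_glide (x : ℝ × ℝ) : psi0 (glide x) = -psi0 x := by
  unfold psi0
  rw [CC_glide]
  simp only [glide, pp]
  ring

theorem EE_glide (x : ℝ × ℝ) : EE (glide x) = EE x := by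
  unfold EE
  rw [SS_glide]
  simp only [glide]
  ring

theorem psiD_glide (x : ℝ × ℝ) : psiD (glide x) = -psiD x := by
  unfold psiD
  rw [psi0_glide, EE_glide]; ring

theorem wD_glide (Λ : ℝ) (x : ℝ × ℝ) : wD Λ (glide x) = -wD Λ x := by
  unfold wD w1 w2
  rw [SS_glide, psi0_glide]
  simp only [glide, GG, VV]
  ring

theorem psiD_eq_zero {x : ℝ × ℝ} (h : psiD x = 0) : psi0 x = 0 := by
  unfold psiD at h
  rcases mul_eq_zero.1 h with h | h
  · exact h
  · exact absurd h (EE_pos x).ne'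

def Dw (Λ : ℝ) (x : ℝ × ℝ) : ℝ :=
  (a11 x + Λ * c11 x) * (a22 x + Λ * c22 x) - (a12 x + Λ * c12 x) ^ 2

theorem MM_11 (f : ℝ × ℝ → ℝ) (x : ℝ × ℝ) :
    MM f x (1, 0) (1, 0) = dx (dx f) x + f x - x.2 * dy f x := by
  simp [MM]

theorem MM_12 (f : ℝ × ℝ → ℝ) (x : ℝ × ℝ) : MM f x (1, 0) (0, 1) = dx (dy f) x := by
  simp [MM]

theorem MM_22 (f : ℝ × ℝ → ℝ) (x : ℝ × ℝ) : MM f x (0, 1) (0, 1) = dy (dy f) x := by
  simp [MM]

theorem detM_wD (Λ : ℝ) (x : ℝ × ℝ) : detM (wD Λ) x = Dw Λ x := by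
  rw [detM, ← MM_11, ← MM_12, ← MM_22, MM_wD, MM_wD, MM_wD]
  simp only [MM_w1, MM_w2, Dw]
  ring

theorem exists_leafData : ∃ (ψ w : ℝ × ℝ → ℝ) (ε₀ b₀ n₀ K κ₀ : ℝ),
    LeafData ψ w ε₀ b₀ n₀ K κ₀ := by
  obtain ⟨B1, hB1c, hB1p, hB1, hB1pos⟩ := w1_form
  obtain ⟨B2, hB2c, hB2p, hB2, hB2v⟩ := w2_form
  obtain ⟨Λ, hΛ, hΛpos⟩ := large_lambda (ψ := psiD) continuous_psiD hB1c hB2c psiD_period hB1p
    hB2p psiD_far
    (fun x hx => by
      rw [hB2v x (psiD_eq_zero hx)]
      have := EE_pos x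
      positivity)
    (fun x hx h2 => by
      rw [hB2v x (psiD_eq_zero hx)] at h2
      have hE := (EE_pos x).ne'
      have hz : x.2 ^ 2 = 0 := by
        rcases mul_eq_zero.1 h2 with h | h
        · exfalso
          rcases mul_eq_zero.1 h with h | h
          · norm_num at h
          · exact hE h
        · exact h
      exact hB1pos x (psiD_eq_zero hx) (pow_eq_zero_iff (two_ne_zero) |>.1 hz))
  obtain ⟨ε1, b1, hε1, hε1', hb1, h1⟩ := pos_near (ψ := psiD) (g := fun x => B1 x + Λ * B2 x)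
    continuous_psiD (by fun_prop) psiD_period (fun x => by simp only [hB1p, hB2p]) psiD_far hΛpos
  obtain ⟨ε2, b2, hε2, hε2', hb2, h2⟩ := pos_near (ψ := psiD) (g := fun x => -Dw Λ x)
    continuous_psiD (by unfold Dw a11 a12 a22 c11 c12 c22; fun_prop) psiD_period
    (fun x => by
      simp only [Dw, a11, a12, a22, c11, c12, c22, K0f, K1f, K2f, SS_period, CC_period,
        psi0_period]) psiD_far
    (fun x hx => by
      have h0 := psiD_eq_zero hx
      have hc := cross_form Λ x h0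
      have hd := detM_basis (wD Λ) x (tau psiD x) (dx psiD x, dy psiD x)
      have hz : MM (wD Λ) x (tau psiD x) (tau psiD x) = 0 := by
        rw [MM_wD, hB1, hB2, hx]; ring
      rw [detM_wD] at hd
      rw [hz, zero_mul, zero_sub] at hd
      by_contra hcon
      push Not at hcon
      have : 0 < MM (wD Λ) x (tau psiD x) (dx psiD x, dy psiD x) ^ 2 := by positivity
      nlinarith [sq_nonneg ((tau psiD x).1 * (dy psiD x) - (tau psiD x).2 * (dx psiD x))])
  obtain ⟨ε3, b3, hε3, hε3', hb3, h3⟩ := pos_near (ψ := psiD)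
    (g := fun x => psiy x ^ 2 / nu x + psix x ^ 2 / nu x ^ 3)
    continuous_psiD (by
      have hn := continuous_nu
      have hn0 : ∀ x, nu x ≠ 0 := fun x => by have := nu_ge_one x; linarith
      have hn1 : ∀ x, nu x ^ 3 ≠ 0 := fun x => pow_ne_zero 3 (hn0 x)
      unfold psix psiy
      refine Continuous.add (Continuous.div (by fun_prop) hn hn0)
        (Continuous.div (by fun_prop) (by fun_prop) hn1)) psiD_period
    (fun x => by
      simp only [psix, psiy, SS_period, CC_period, psi0_period, EE_period, nu_period])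
    psiD_far
    (fun x hx => by
      have h0 := psiD_eq_zero hx
      have hn := nu_ge_one x
      have hn' : 0 < nu x := by linarith
      have hE := EE_pos x
      have hC : CC x = pp x.2 := by rw [CC_eq, h0]; ring
      have hS := SS_sq x
      have hy := sq_le_of_psi0 x h0
      have hy0 := sq_nonneg x.2
      have hpx : psix x = 3 * SS x * EE x := by unfold psix; rw [h0]; ring
      have hpy : psiy x = p1 x.2 * EE x := by unfold psiy; rw [h0]; ring
      rw [hpx, hpy]
      by_contra hcon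
      push Not at hcon
      have i1 : 0 ≤ (p1 x.2 * EE x) ^ 2 / nu x := by positivity
      have i2 : 0 ≤ (3 * SS x * EE x) ^ 2 / nu x ^ 3 := by positivity
      have i3 : (p1 x.2 * EE x) ^ 2 / nu x = 0 := by linarith
      have i4 : (3 * SS x * EE x) ^ 2 / nu x ^ 3 = 0 := by linarith
      have i5 : p1 x.2 = 0 := by
        rcases div_eq_zero_iff.1 i3 with h | h
        · have := pow_eq_zero_iff (two_ne_zero) |>.1 h
          rcases mul_eq_zero.1 this with h | h
          · exact h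
          · exact absurd h hE.ne'
        · exact absurd h hn'.ne'
      have i6 : SS x = 0 := by
        rcases div_eq_zero_iff.1 i4 with h | h
        · have := pow_eq_zero_iff (two_ne_zero) |>.1 h
          rcases mul_eq_zero.1 this with h | h
          · rcases mul_eq_zero.1 h with h | h
            · norm_num at h
            · exact h
          · exact absurd h hE.ne'
        · exact absurd h (pow_pos hn' 3).ne'
      rw [i6, hC] at hS
      unfold p1 at i5
      have i7 : x.2 ^ 2 = 1 / 6 := by linarith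
      have i8 : pp x.2 ^ 2 = x.2 ^ 2 * (x.2 ^ 2 - 1 / 2) ^ 2 := by unfold pp; ring
      rw [i8, i7] at hS
      norm_num at hS)
  obtain ⟨K1, hK1, hm⟩ := m_form
  obtain ⟨K2, hK2, hn⟩ := bdd_near (ψ := psiD) (g := fun x => 53 * EE x ^ 3) (by fun_prop)
    (fun x => by simp only [EE_period]) psiD_far
  obtain ⟨K3, hK3, hw⟩ := bdd_near (ψ := psiD) (g := wD Λ) (contDiff_wD Λ).continuous
    (fun x => by simp only [wD, w1, w2, SS_period, psi0_period]) psiD_far
  refine ⟨psiD, wD Λ, min ε1 (min ε2 ε3), min b1 b3, 1, K1 + K2 + K3, 9 / 424, ?_⟩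
  have hε : min ε1 (min ε2 ε3) ≤ 1 := (min_le_left _ _).trans hε1'
  refine
    { smooth_psi := contDiff_psiD
      smooth_w := contDiff_wD Λ
      glide_psi := psiD_glide
      glide_w := wD_glide Λ
      far := psiD_far'
      eps_pos := lt_min hε1 (lt_min hε2 hε3)
      eps_le := hε
      b_pos := lt_min hb1 hb3
      n_pos := one_pos
      kappa_pos := by norm_num
      main := ⟨fun x => 53 * EE x ^ 3, fun x h0 hle => ⟨?_, ?_, ?_⟩⟩
      w_pos := fun x h0 hle => ?_
      w_det := fun x h0 hle => ?_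
      w_bdd := fun x h0 hle => ?_
      nu_pos := fun x h0 hle => ?_ }
  · have := EE_ge x
    have h4 : (1 : ℝ) ≤ EE x ^ 3 := one_le_pow₀ (by linarith)
    linarith
  · have h4 := hn x (by rw [abs_of_nonneg h0]; linarith)
    have := le_abs_self (53 * EE x ^ 3)
    linarith
  · refine (hm x h0 (by linarith)).trans ?_
    have : 0 ≤ psiD x * (|x.2| + psiD x) := by positivity
    nlinarith
  · have h4 := h1 x (by rw [abs_of_nonneg h0]; exact hle.trans (min_le_left _ _))
    rw [MM_wD, hB1, hB2]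
    have h5 : min b1 b3 ≤ B1 x + Λ * B2 x := (min_le_left _ _).trans h4
    have := mul_le_mul_of_nonneg_left h5 h0
    linarith
  · have h4 := h2 x (by
      rw [abs_of_nonneg h0]; exact hle.trans ((min_le_right _ _).trans (min_le_left _ _)))
    rw [detM_wD]
    linarith
  · have h4 := hw x (by rw [abs_of_nonneg h0]; linarith)
    linarith
  · have h4 := h3 x (by
      rw [abs_of_nonneg h0]; exact hle.trans ((min_le_right _ _).trans (min_le_right _ _)))
    rw [MM_nu, tau, HD_psiD'.dx, HD_psiD'.dy]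
    refine ((min_le_right b1 b3).trans h4).trans (le_of_eq ?_)
    simp only
    ring

end Pool.Agent.Helper89.Hedge
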