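import Mathlib

/-!
# Projective hedgehogs without swallowtails: definitions

`x = (φ, ζ)` are coordinates on the cylinder; the direction of the point is
`X(φ, ζ) = (cos φ, sin φ, ζ)`.  A positively homogeneous function `H` of degree one on `ℝ³` is
represented by `f(φ, ζ) = H (X(φ, ζ))`.
-/

open scoped ContDiff Manifold Topology
noncomputable section

namespace Pool.Agent.Helper89.Hedge

/-- Euclidean 3-space -/
abbrev E3 := EuclideanSpace ℝ (Fin 3)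

/-- The unit sphere of Euclidean 3-space -/
abbrev S2 := Metric.sphere (0 : E3) 1

/-! ## The hedgehog of a function on the sphere -/

/-- the point `v / ‖v‖` of the unit sphere, for `v ≠ 0` -/
def toSphere (v : E3) (hv : v ≠ 0) : S2 :=
  ⟨‖v‖⁻¹ • v, by
    rw [mem_sphere_zero_iff_norm, norm_smul, norm_inv, norm_norm,
      inv_mul_cancel₀ (norm_ne_zero_iff.mpr hv)]⟩

open Classical in
/-- The extension of `h` to `ℝ³ ∖ {0}` that is constant on rays. Its gradient at a point `u` of the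
sphere is tangent to the sphere: it is the gradient `∇h(u) ∈ u^⊥` of `h` on the sphere. -/
def radialExt (h : S2 → ℝ) (v : E3) : ℝ := if hv : v ≠ 0 then h (toSphere v hv) else 0

/-- The parametrisation `x_h(u) = h(u) u + ∇h(u)` of the hedgehog with support function `h`. -/
def hedgehog (h : S2 → ℝ) (u : S2) : E3 := h u • (u : E3) + gradient (radialExt h) (u : E3)

/-- The map germ of `F` at `u` is a cuspidal edge: it is equivalent, under diffeomorphisms of source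
and target, to the germ of `(s, t) ↦ (s, t², t³)` at the origin. -/
def IsCuspidalEdgeAt (F : S2 → E3) (u : S2) : Prop :=
  ∃ (φ : PartialDiffeomorph 𝓘(ℝ, ℝ × ℝ) (𝓡 2) (ℝ × ℝ) S2 ∞)
    (Ψ : PartialDiffeomorph 𝓘(ℝ, E3) 𝓘(ℝ, ℝ × ℝ × ℝ) E3 (ℝ × ℝ × ℝ) ∞),
    ((0, 0) : ℝ × ℝ) ∈ φ.source ∧ φ (0, 0) = u ∧ F u ∈ Ψ.source ∧
    ∀ᶠ p in 𝓝 ((0, 0) : ℝ × ℝ), F (φ p) ∈ Ψ.source ∧ Ψ (F (φ p)) = (p.1, p.2 ^ 2, p.2 ^ 3)

/-! ## Hessians of functions on `ℝ³` -/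

/-- `D²H(x)(v, w)` -/
def hess (H : E3 → ℝ) (x v w : E3) : ℝ := fderiv ℝ (fun y => fderiv ℝ H y v) x w

/-- `H` is smooth away from the origin and `H (c v) = c H v` for all real `c` -/
structure OddHomog (H : E3 → ℝ) : Prop where
  smooth : ContDiffOn ℝ ∞ H {0}ᶜ
  homog : ∀ (c : ℝ) (v : E3), H (c • v) = c * H v

/-! ## The chart -/

/-- the direction with coordinates `(φ, ζ)` -/
def XX (x : ℝ × ℝ) : E3 := !₂[Real.cos x.1, Real.sin x.1, x.2]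

/-- the derivative of `XX` at `x` in direction `k` -/
def XXd (x k : ℝ × ℝ) : E3 := !₂[-Real.sin x.1 * k.1, Real.cos x.1 * k.1, k.2]

/-- partial derivative in `φ` -/
def dx (f : ℝ × ℝ → ℝ) (x : ℝ × ℝ) : ℝ := fderiv ℝ f x (1, 0)

/-- partial derivative in `ζ` -/
def dy (f : ℝ × ℝ → ℝ) (x : ℝ × ℝ) : ℝ := fderiv ℝ f x (0, 1)

/-- The quadratic form of a function of degree one in the chart: `D²H(X)(X_* v, X_* w)`. -/
def MM (f : ℝ × ℝ → ℝ) (x v w : ℝ × ℝ) : ℝ :=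
  v.1 * w.1 * (dx (dx f) x + f x - x.2 * dy f x) + (v.1 * w.2 + v.2 * w.1) * dx (dy f) x
    + v.2 * w.2 * dy (dy f) x

/-- The quadratic form of a function of degree zero in the chart. -/
def M0 (f : ℝ × ℝ → ℝ) (x v w : ℝ × ℝ) : ℝ :=
  v.1 * w.1 * (dx (dx f) x - x.2 * dy f x) + (v.1 * w.2 + v.2 * w.1) * dx (dy f) x
    + v.2 * w.2 * dy (dy f) x

/-- the determinant of the form `MM f x` -/
def detM (f : ℝ × ℝ → ℝ) (x : ℝ × ℝ) : ℝ :=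
  (dx (dx f) x + f x - x.2 * dy f x) * dy (dy f) x - dx (dy f) x ^ 2

/-- the direction of the level curves of `ψ` -/
def tau (ψ : ℝ × ℝ → ℝ) (x : ℝ × ℝ) : ℝ × ℝ := (dy ψ x, -dx ψ x)

/-- the norm of `XX x` -/
def nu (x : ℝ × ℝ) : ℝ := Real.sqrt (1 + x.2 ^ 2)

/-- the antipodal map in the chart -/
def glide (x : ℝ × ℝ) : ℝ × ℝ := (x.1 + Real.pi, -x.2)

/-- Every degenerate point of the form `MM f` is of cuspidal edge type. -/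
def Good (f : ℝ × ℝ → ℝ) : Prop :=
  ∀ x k : ℝ × ℝ, k ≠ 0 → (∀ l, MM f x k l = 0) →
    (∃ l, MM f x l l ≠ 0) ∧ fderiv ℝ (fun y => MM f y k k) x k ≠ 0

/-! ## Leaf data -/

/-- The data `(ψ, w)`: near the curve `{ψ = 0}` this curve is asymptotic for `w`, the level curves
of `ψ` on the positive side are positive for `w`, and their inflections are controlled. -/
structure LeafData (ψ w : ℝ × ℝ → ℝ) (ε₀ b₀ n₀ K κ₀ : ℝ) : Prop where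
  smooth_psi : ContDiff ℝ ∞ ψ
  smooth_w : ContDiff ℝ ∞ w
  glide_psi : ∀ x, ψ (glide x) = -ψ x
  glide_w : ∀ x, w (glide x) = -w x
  far : ∀ x : ℝ × ℝ, 2 ≤ x.2 → 1 < ψ x
  eps_pos : 0 < ε₀
  eps_le : ε₀ ≤ 1
  b_pos : 0 < b₀
  n_pos : 0 < n₀
  kappa_pos : 0 < κ₀
  main : ∃ n : ℝ × ℝ → ℝ, ∀ x, 0 ≤ ψ x → ψ x ≤ ε₀ → n₀ ≤ n x ∧ n x ≤ K ∧
    |M0 ψ x (tau ψ x) (tau ψ x) - n x * (x.2 + κ₀ * nu x * ψ x)| ≤ K * ψ x * (|x.2| + ψ x)
  w_pos : ∀ x, 0 ≤ ψ x → ψ x ≤ ε₀ → b₀ * ψ x ≤ MM w x (tau ψ x) (tau ψ x)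
  w_det : ∀ x, 0 ≤ ψ x → ψ x ≤ ε₀ → detM w x < 0
  w_bdd : ∀ x, 0 ≤ ψ x → ψ x ≤ ε₀ → |w x| ≤ K
  nu_pos : ∀ x, 0 ≤ ψ x → ψ x ≤ ε₀ → b₀ ≤ MM nu x (tau ψ x) (tau ψ x)

/-! ## Local diffeomorphisms and cusps in the plane -/

/-- smooth local diffeomorphisms of normed spaces -/
def SmoothPH {A B : Type*} [NormedAddCommGroup A] [NormedSpace ℝ A] [NormedAddCommGroup B]
    [NormedSpace ℝ B] (e : OpenPartialHomeomorph A B) : Prop :=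
  ContDiffOn ℝ ∞ e e.source ∧ ContDiffOn ℝ ∞ e.symm e.target

/-- the germ of `F` at `0` is a cuspidal edge -/
def IsCusp (F : ℝ × ℝ → ℝ × ℝ × ℝ) : Prop :=
  ∃ (φ : OpenPartialHomeomorph (ℝ × ℝ) (ℝ × ℝ))
    (Ψ : OpenPartialHomeomorph (ℝ × ℝ × ℝ) (ℝ × ℝ × ℝ)),
    SmoothPH φ ∧ SmoothPH Ψ ∧ (0 : ℝ × ℝ) ∈ φ.source ∧ φ 0 = 0 ∧ F 0 ∈ Ψ.source ∧
    ∀ᶠ p in 𝓝 (0 : ℝ × ℝ), F (φ p) ∈ Ψ.source ∧ Ψ (F (φ p)) = (p.1, p.2 ^ 2, p.2 ^ 3)

/-- the map `(g_p, g_q, g - p g_p - q g_q)` -/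
def PP (g : ℝ × ℝ → ℝ) (x : ℝ × ℝ) : ℝ × ℝ × ℝ :=
  (dx g x, dy g x, g x - x.1 * dx g x - x.2 * dy g x)

/-! ## The explicit data -/

/-- `p(ζ) = ζ³ - ζ/2` -/
def pp (z : ℝ) : ℝ := z ^ 3 - z / 2

/-- the polynomial `G` -/
def GG (z : ℝ) : ℝ :=
  53 * (-225 - 25 * z ^ 2 + 255 * z ^ 4 - 253 * z ^ 6 + 113 * z ^ 8 - 20 * z ^ 10)

/-- the polynomial `V` -/
def VV (z : ℝ) : ℝ :=
  -22540 * z + 67350 * z ^ 3 - 160586 * z ^ 5 + 278702 * z ^ 7 - 282120 * z ^ 9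
    + 146520 * z ^ 11 - 30240 * z ^ 13

/-- `sin 3φ` -/
def SS (x : ℝ × ℝ) : ℝ := Real.sin (3 * x.1)

/-- `cos 3φ` -/
def CC (x : ℝ × ℝ) : ℝ := Real.cos (3 * x.1)

/-- the cubic curve -/
def psi0 (x : ℝ × ℝ) : ℝ := pp x.2 - CC x

/-- the factor of the leaf function -/
def EE (x : ℝ × ℝ) : ℝ := 2 + x.2 * SS x + x.2 ^ 2

/-- the leaf function -/
def psiD (x : ℝ × ℝ) : ℝ := psi0 x * EE x

/-- the main function for which the cubic is asymptotic -/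
def w1 (x : ℝ × ℝ) : ℝ := SS x * (GG x.2 + psi0 x * VV x.2)

/-- the correction -/
def w2 (x : ℝ × ℝ) : ℝ := x.2 * psi0 x ^ 2

/-- the asymptotic function -/
def wD (Λ : ℝ) (x : ℝ × ℝ) : ℝ := w1 x + Λ * w2 x

end Pool.Agent.Helper89.Hedge
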