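import Mathlib
import Pool.Agent.Helper89.Hedge.Defs

/-!
# Piece C1: the homogeneous function from the chart
-/

open scoped ContDiff Manifold Topology
noncomputable section
namespace Pool.Agent.Helper89.Hedge

namespace C1

/-- the first two coordinates as a complex number -/
def zz (v : E3) : ℂ := ⟨v 0, v 1⟩

/-- the homogeneous function -/
def HH (f : ℝ × ℝ → ℝ) (c : ℝ) (v : E3) : ℝ :=
  if zz v = 0 then c * v 2 else ‖zz v‖ * f (Complex.arg (zz v), v 2 / ‖zz v‖)

theorem zz_smul (r : ℝ) (v : E3) : zz (r • v) = (r : ℂ) * zz v := by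
  apply Complex.ext <;> simp [zz]

theorem norm_zz (v : E3) : ‖zz v‖ = Real.sqrt (v 0 ^ 2 + v 1 ^ 2) := by
  rw [Complex.norm_def, Complex.normSq_apply]
  simp only [zz]
  congr 1
  ring

theorem norm_eq (v : E3) : ‖v‖ = Real.sqrt (‖zz v‖ ^ 2 + v 2 ^ 2) := by
  rw [EuclideanSpace.norm_eq, norm_zz, Real.sq_sqrt (by positivity)]
  simp [Fin.sum_univ_three]

variable {f : ℝ × ℝ → ℝ} {c : ℝ}

theorem per (hg : ∀ x, f (glide x) = -f x) (z : ℝ) :
    Function.Periodic (fun t => f (t, z)) (2 * Real.pi) := by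
  intro t
  have h1 := hg (t, z)
  have h2 := hg (glide (t, z))
  simp only [glide] at h1 h2
  rw [h1, neg_neg, neg_neg] at h2
  show f (t + 2 * Real.pi, z) = f (t, z)
  rw [← h2]
  congr 2
  ring

theorem f_angle (hg : ∀ x, f (glide x) = -f x) (z a b : ℝ)
    (hab : (a : Real.Angle) = (b : Real.Angle)) : f (a, z) = f (b, z) := by
  obtain ⟨k, hk⟩ := Real.Angle.angle_eq_iff_two_pi_dvd_sub.mp hab
  have h := (per hg z).int_mul k b
  have ha : a = b + k * (2 * Real.pi) := by linarith
  rw [ha]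
  exact h

theorem f_neg (hg : ∀ x, f (glide x) = -f x) (z : ℝ) (w : ℂ) (hw : w ≠ 0) :
    f (Complex.arg (-w), -z) = -f (Complex.arg w, z) := by
  have h1 := hg (Complex.arg w, z)
  simp only [glide] at h1
  rw [← h1]
  apply f_angle hg
  rw [Complex.arg_neg_coe_angle hw, Real.Angle.coe_add]

theorem HH_neg (hg : ∀ x, f (glide x) = -f x) (v : E3) : HH f c (-v) = -HH f c v := by
  have hz : zz (-v) = -zz v := by
    have := zz_smul (-1) v
    simpa using this
  by_cases h : zz v = 0
  · have h' : zz (-v) = 0 := by rw [hz, h, neg_zero]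
    simp only [HH, h, h', if_true]
    simp
  · have h' : zz (-v) ≠ 0 := by rw [hz]; exact neg_ne_zero.mpr h
    simp only [HH, h, h', if_false]
    rw [hz, norm_neg]
    have h2 : (-v) 2 / ‖zz v‖ = -(v 2 / ‖zz v‖) := by
      simp [neg_div]
    rw [h2, f_neg hg _ _ h]
    ring

theorem HH_pos_smul (r : ℝ) (hr : 0 < r) (v : E3) : HH f c (r • v) = r * HH f c v := by
  have hz := zz_smul r v
  by_cases h : zz v = 0
  · have h' : zz (r • v) = 0 := by rw [hz, h, mul_zero]
    simp only [HH, h, h', if_true]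
    simp only [PiLp.smul_apply, smul_eq_mul]
    ring
  · have h' : zz (r • v) ≠ 0 := by
      rw [hz]; exact mul_ne_zero (by exact_mod_cast hr.ne') h
    simp only [HH, h, h', if_false]
    rw [hz, norm_mul, Complex.arg_real_mul _ hr]
    have hn : ‖(r : ℂ)‖ = r := by
      rw [Complex.norm_real, Real.norm_eq_abs, abs_of_pos hr]
    rw [hn]
    have h2 : (r • v) 2 / (r * ‖zz v‖) = v 2 / ‖zz v‖ := by
      simp only [PiLp.smul_apply, smul_eq_mul]
      exact mul_div_mul_left _ _ hr.ne'
    rw [h2]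
    ring

theorem HH_homog (hg : ∀ x, f (glide x) = -f x) (r : ℝ) (v : E3) :
    HH f c (r • v) = r * HH f c v := by
  rcases lt_trichotomy r 0 with hr | hr | hr
  · have h1 : r • v = -((-r) • v) := by simp
    rw [h1, HH_neg hg, HH_pos_smul (-r) (by linarith)]
    ring
  · subst hr
    have : zz (0 : E3) = 0 := by
      apply Complex.ext <;> simp [zz]
    simp [HH, this]
  · exact HH_pos_smul r hr v

theorem HH_far (hfar : ∀ x : ℝ × ℝ, 2 ≤ x.2 → f x = c * nu x) (v : E3)
    (hv : 2 * ‖zz v‖ ≤ v 2) : HH f c v = c * ‖v‖ := by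
  have h2 : 0 ≤ v 2 := le_trans (by positivity) hv
  by_cases h : zz v = 0
  · simp only [HH, h, if_true]
    rw [norm_eq, h, norm_zero]
    rw [zero_pow two_ne_zero, zero_add, Real.sqrt_sq h2]
  · simp only [HH, h, if_false]
    have hn : 0 < ‖zz v‖ := norm_pos_iff.mpr h
    rw [hfar _ (by simpa using (le_div_iff₀ hn).mpr hv), norm_eq]
    simp only [nu]
    have : ‖zz v‖ ^ 2 + v 2 ^ 2 = ‖zz v‖ ^ 2 * (1 + (v 2 / ‖zz v‖) ^ 2) := by
      field_simp
    rw [this, Real.sqrt_mul (by positivity), Real.sqrt_sq hn.le]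
    ring

theorem HH_XX (hg : ∀ x, f (glide x) = -f x) (x : ℝ × ℝ) : HH f c (XX x) = f x := by
  have hz : zz (XX x) = Complex.cos x.1 + Complex.sin x.1 * Complex.I := by
    apply Complex.ext
    · simp [zz, XX, Complex.cos_ofReal_re]
    · simp [zz, XX, Complex.sin_ofReal_re]
  have hn : ‖zz (XX x)‖ = 1 := by
    rw [norm_zz]
    simp [XX]
  have h0 : zz (XX x) ≠ 0 := by
    intro h
    rw [h, norm_zero] at hn
    exact zero_ne_one hn
  simp only [HH, h0, if_false]
  rw [hn]
  have h2 : (XX x) 2 = x.2 := by simp [XX]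
  rw [h2, div_one, one_mul]
  have hang : ((Complex.arg (zz (XX x)) : ℝ) : Real.Angle) = (x.1 : Real.Angle) := by
    rw [hz]
    have := Complex.arg_cos_add_sin_mul_I_coe_angle (x.1 : Real.Angle)
    rw [Real.Angle.cos_coe, Real.Angle.sin_coe] at this
    simpa using this
  have := f_angle hg x.2 _ _ hang
  simpa using this

/-! ### smoothness -/

theorem contDiff_coord (i : Fin 3) : ContDiff ℝ ∞ (fun v : E3 => v i) :=
  contDiff_piLp_apply 2

theorem contDiff_zz : ContDiff ℝ ∞ zz := by
  have : zz = fun v : E3 => ((v 0 : ℝ) : ℂ) + ((v 1 : ℝ) : ℂ) * Complex.I := by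
    funext v
    apply Complex.ext <;> simp [zz]
  rw [this]
  exact (Complex.ofRealCLM.contDiff.comp (contDiff_coord 0)).add
    ((Complex.ofRealCLM.contDiff.comp (contDiff_coord 1)).mul contDiff_const)

theorem contDiffAt_arg {z : ℂ} (hz : z ∈ Complex.slitPlane) : ContDiffAt ℝ ∞ Complex.arg z := by
  have h1 : ContDiffAt ℝ ∞ Complex.log z :=
    (Complex.contDiffAt_log hz).restrict_scalars ℝ
  have h2 : Complex.arg = fun w => (Complex.log w).im := by
    funext w
    rw [Complex.log_im]
  rw [h2]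
  exact Complex.imCLM.contDiff.contDiffAt.comp z h1

/-- the regular formula near a point off the axis -/
theorem smooth_aux (hf : ContDiff ℝ ∞ f) (s t : ℝ) (u : ℂ → ℂ) (hu : ContDiff ℝ ∞ u) (v : E3)
    (h0 : zz v ≠ 0) (hs : u (zz v) ∈ Complex.slitPlane) :
    ContDiffAt ℝ ∞ (fun w : E3 => s * (‖zz w‖ * f (Complex.arg (u (zz w)) + t,
      w 2 / ‖zz w‖))) v := by
  have hn : ContDiffAt ℝ ∞ (fun w : E3 => ‖zz w‖) v :=
    (contDiffAt_norm ℝ h0).comp v contDiff_zz.contDiffAt
  have ha : ContDiffAt ℝ ∞ (fun w : E3 => Complex.arg (u (zz w))) v :=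
    ContDiffAt.comp (g := Complex.arg) (f := fun w : E3 => u (zz w)) v (contDiffAt_arg hs)
      (hu.comp contDiff_zz).contDiffAt
  have hq : ContDiffAt ℝ ∞ (fun w : E3 => w 2 / ‖zz w‖) v :=
    (contDiff_coord 2).contDiffAt.div hn (norm_ne_zero_iff.mpr h0)
  exact contDiffAt_const.mul (hn.mul (hf.contDiffAt.comp v
    ((ha.add contDiffAt_const).prodMk hq)))

theorem HH_smooth (hf : ContDiff ℝ ∞ f) (hg : ∀ x, f (glide x) = -f x)
    (hfar : ∀ x : ℝ × ℝ, 2 ≤ x.2 → f x = c * nu x) (v : E3) (hv : v ≠ 0) :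
    ContDiffAt ℝ ∞ (HH f c) v := by
  by_cases h : zz v = 0
  · -- near the axis
    have hv2 : v 2 ≠ 0 := by
      intro h2
      apply hv
      have h0 : v 0 = 0 := by
        have := congrArg Complex.re h
        simpa [zz] using this
      have h1 : v 1 = 0 := by
        have := congrArg Complex.im h
        simpa [zz] using this
      ext i
      fin_cases i <;> simp_all
    have hnn : ContDiffAt ℝ ∞ (fun w : E3 => ‖w‖) v := contDiffAt_norm ℝ hv
    have hcz : Continuous zz := contDiff_zz.continuous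
    have hc2 : Continuous (fun w : E3 => w 2) := (contDiff_coord 2).continuous
    rcases lt_or_gt_of_ne hv2 with h2 | h2
    · have hev : ∀ᶠ w in 𝓝 v, 2 * ‖zz w‖ < -w 2 := by
        have hc : Continuous fun w : E3 => -w 2 - 2 * ‖zz w‖ := by fun_prop
        have h3 : 0 < -v 2 - 2 * ‖zz v‖ := by
          rw [h, norm_zero]
          linarith
        filter_upwards [hc.continuousAt.eventually (lt_mem_nhds h3)] with w hw
        linarith
      refine (contDiffAt_const.mul hnn : ContDiffAt ℝ ∞ (fun w : E3 => (-c) * ‖w‖) v).congr_of_eventuallyEq ?_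
      filter_upwards [hev] with w hw
      have hz : zz (-w) = -zz w := by
        have := zz_smul (-1) w
        simpa using this
      have h4 := HH_far (c := c) hfar (-w) (by
        rw [hz, norm_neg]
        simpa using hw.le)
      rw [HH_neg hg, norm_neg] at h4
      linarith
    · have hev : ∀ᶠ w in 𝓝 v, 2 * ‖zz w‖ < w 2 := by
        have hc : Continuous fun w : E3 => w 2 - 2 * ‖zz w‖ := by fun_prop
        have h3 : 0 < v 2 - 2 * ‖zz v‖ := by
          rw [h, norm_zero]
          linarith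
        filter_upwards [hc.continuousAt.eventually (lt_mem_nhds h3)] with w hw
        linarith
      refine (contDiffAt_const.mul hnn : ContDiffAt ℝ ∞ (fun w : E3 => c * ‖w‖) v).congr_of_eventuallyEq ?_
      filter_upwards [hev] with w hw
      exact HH_far hfar w hw.le
  · have hev : ∀ᶠ w in 𝓝 v, zz w ≠ 0 :=
      contDiff_zz.continuous.continuousAt.eventually_ne h
    by_cases hs : zz v ∈ Complex.slitPlane
    · refine (smooth_aux hf 1 0 id contDiff_id v h hs).congr_of_eventuallyEq ?_
      filter_upwards [hev] with w hw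
      simp [HH, hw]
    · have hs' : -zz v ∈ Complex.slitPlane := by
        rw [Complex.mem_slitPlane_iff] at hs ⊢
        push Not at hs
        left
        rw [Complex.neg_re]
        rcases lt_or_eq_of_le hs.1 with h3 | h3
        · linarith
        · exact absurd (Complex.ext h3 hs.2) h
      refine (smooth_aux hf 1 Real.pi (fun z => -z) contDiff_neg v h hs').congr_of_eventuallyEq ?_
      filter_upwards [hev] with w hw
      simp only [HH, hw, if_false, one_mul]
      congr 1
      apply f_angle hg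
      rw [Real.Angle.coe_add, Complex.arg_neg_coe_angle hw, add_assoc, ← Real.Angle.coe_add]
      have : ((Real.pi + Real.pi : ℝ) : Real.Angle) = 0 := by
        rw [← two_mul]
        exact Real.Angle.coe_two_pi
      rw [this, add_zero]

end C1

/-- C1. -/
theorem exists_H (f : ℝ × ℝ → ℝ) (c : ℝ) (hf : ContDiff ℝ ∞ f) (hg : ∀ x, f (glide x) = -f x)
    (hfar : ∀ x : ℝ × ℝ, 2 ≤ x.2 → f x = c * nu x) :
    ∃ H : E3 → ℝ, OddHomog H ∧ (∀ x, H (XX x) = f x) ∧
      ∀ v : E3, 2 * Real.sqrt (v 0 ^ 2 + v 1 ^ 2) ≤ v 2 → H v = c * ‖v‖ := by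
  refine ⟨C1.HH f c, ⟨?_, C1.HH_homog hg⟩, C1.HH_XX hg, ?_⟩
  · intro v hv
    exact (C1.HH_smooth hf hg hfar v (by simpa using hv)).contDiffWithinAt
  · intro v hv
    rw [← C1.norm_zz] at hv
    exact C1.HH_far hfar v hv

end Pool.Agent.Helper89.Hedge
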