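import Pool.Agent.Helper89.Hedge.Defs

open scoped ContDiff Manifold Topology
noncomputable section
namespace Pool.Agent.Helper89.Hedge

namespace C2

def E0 : E3 := !₂[1, 0, 0]
def E1 : E3 := !₂[0, 1, 0]
def E2 : E3 := !₂[0, 0, 1]

theorem XX_eq (x : ℝ × ℝ) : XX x = Real.cos x.1 • E0 + Real.sin x.1 • E1 + x.2 • E2 := by
  ext i
  fin_cases i <;> simp [XX, E0, E1, E2]

theorem XXd_eq (x k : ℝ × ℝ) : XXd x k =
    (-Real.sin x.1 * k.1) • E0 + (Real.cos x.1 * k.1) • E1 + k.2 • E2 := by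
  ext i
  fin_cases i <;> simp [XXd, E0, E1, E2]

theorem XX_ne (x : ℝ × ℝ) : XX x ≠ 0 := by
  intro h
  have h0 : (XX x) 0 = 0 := by rw [h]; rfl
  have h1 : (XX x) 1 = 0 := by rw [h]; rfl
  have h2 : Real.cos x.1 = 0 := by simpa [XX] using h0
  have h3 : Real.sin x.1 = 0 := by simpa [XX] using h1
  have := Real.sin_sq_add_cos_sq x.1
  rw [h2, h3] at this
  norm_num at this

theorem XXd_e3 (x : ℝ × ℝ) : XXd x (0, 1) = E2 := by
  ext i
  fin_cases i <;> simp [XXd, E2]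

/-- the derivative of `XX` as a continuous linear map -/
def XXL (x : ℝ × ℝ) : ℝ × ℝ →L[ℝ] E3 :=
  ((-Real.sin x.1) • ContinuousLinearMap.fst ℝ ℝ ℝ).smulRight E0 +
    ((Real.cos x.1) • ContinuousLinearMap.fst ℝ ℝ ℝ).smulRight E1 +
    (ContinuousLinearMap.snd ℝ ℝ ℝ).smulRight E2

theorem XXL_apply (x k : ℝ × ℝ) : XXL x k = XXd x k := by
  rw [XXd_eq]
  simp [XXL]

theorem hasFDerivAt_XX (x : ℝ × ℝ) : HasFDerivAt XX (XXL x) x := by
  have h1 : XX = fun x : ℝ × ℝ => Real.cos x.1 • E0 + Real.sin x.1 • E1 + x.2 • E2 := by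
    funext x; exact XX_eq x
  rw [h1]
  have hc : HasFDerivAt (fun x : ℝ × ℝ => Real.cos x.1)
      ((-Real.sin x.1) • ContinuousLinearMap.fst ℝ ℝ ℝ) x :=
    (Real.hasDerivAt_cos x.1).comp_hasFDerivAt x hasFDerivAt_fst
  have hs : HasFDerivAt (fun x : ℝ × ℝ => Real.sin x.1)
      ((Real.cos x.1) • ContinuousLinearMap.fst ℝ ℝ ℝ) x :=
    (Real.hasDerivAt_sin x.1).comp_hasFDerivAt x hasFDerivAt_fst
  exact ((hc.smul_const E0).add (hs.smul_const E1)).add (hasFDerivAt_snd.smul_const E2)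

/-- derivative of `XXd · k` -/
theorem hasFDerivAt_XXd (x k : ℝ × ℝ) : HasFDerivAt (fun y => XXd y k)
    (((-k.1) • ContinuousLinearMap.fst ℝ ℝ ℝ).smulRight (XX x - x.2 • E2)) x := by
  have h1 : (fun y => XXd y k) = fun y : ℝ × ℝ =>
      (-Real.sin y.1 * k.1) • E0 + (Real.cos y.1 * k.1) • E1 + k.2 • E2 := by
    funext x; exact XXd_eq x k
  rw [h1]
  have hc : HasFDerivAt (fun x : ℝ × ℝ => Real.cos x.1 * k.1)
      ((-Real.sin x.1 * k.1) • ContinuousLinearMap.fst ℝ ℝ ℝ) x :=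
    ((Real.hasDerivAt_cos x.1).mul_const k.1).comp_hasFDerivAt x hasFDerivAt_fst
  have hs : HasFDerivAt (fun x : ℝ × ℝ => -Real.sin x.1 * k.1)
      ((-Real.cos x.1 * k.1) • ContinuousLinearMap.fst ℝ ℝ ℝ) x :=
    ((Real.hasDerivAt_sin x.1).neg.mul_const k.1).comp_hasFDerivAt x hasFDerivAt_fst
  refine (((hs.smul_const E0).add (hc.smul_const E1)).add_const (k.2 • E2)).congr_fderiv ?_
  ext l
  all_goals simp [XX_eq, smul_smul]
  all_goals ring

variable {H : E3 → ℝ}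

theorem contDiffAt_H (hH : OddHomog H) {y : E3} (hy : y ≠ 0) : ContDiffAt ℝ ∞ H y :=
  hH.smooth.contDiffAt (isOpen_compl_singleton.mem_nhds hy)

theorem contDiffAt_DH (hH : OddHomog H) {y : E3} (hy : y ≠ 0) : ContDiffAt ℝ ∞ (fderiv ℝ H) y :=
  (contDiffAt_H hH hy).fderiv_right (m := ∞) (by simp)

theorem contDiffAt_D2H (hH : OddHomog H) {y : E3} (hy : y ≠ 0) :
    ContDiffAt ℝ ∞ (fderiv ℝ (fderiv ℝ H)) y :=
  (contDiffAt_DH hH hy).fderiv_right (m := ∞) (by simp)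

theorem diff_H (hH : OddHomog H) {y : E3} (hy : y ≠ 0) : HasFDerivAt H (fderiv ℝ H y) y :=
  ((contDiffAt_H hH hy).differentiableAt (by simp)).hasFDerivAt

theorem diff_DH (hH : OddHomog H) {y : E3} (hy : y ≠ 0) :
    HasFDerivAt (fderiv ℝ H) (fderiv ℝ (fderiv ℝ H) y) y :=
  ((contDiffAt_DH hH hy).differentiableAt (by simp)).hasFDerivAt

theorem diff_D2H (hH : OddHomog H) {y : E3} (hy : y ≠ 0) :
    HasFDerivAt (fderiv ℝ (fderiv ℝ H)) (fderiv ℝ (fderiv ℝ (fderiv ℝ H)) y) y :=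
  ((contDiffAt_D2H hH hy).differentiableAt (by simp)).hasFDerivAt

theorem hess_eq (hH : OddHomog H) {y : E3} (hy : y ≠ 0) (v w : E3) :
    hess H y v w = fderiv ℝ (fderiv ℝ H) y w v := by
  have h := (diff_DH hH hy).clm_apply (hasFDerivAt_const v y)
  unfold hess
  rw [h.fderiv]
  simp

theorem symm_D2H (hH : OddHomog H) {y : E3} (hy : y ≠ 0) (v w : E3) :
    fderiv ℝ (fderiv ℝ H) y v w = fderiv ℝ (fderiv ℝ H) y w v :=
  (contDiffAt_H hH hy).isSymmSndFDerivAt (by simp; exact WithTop.coe_le_coe.2 le_top) v w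

theorem euler (hH : OddHomog H) {y : E3} (hy : y ≠ 0) : fderiv ℝ H y y = H y := by
  have h1 : HasDerivAt (fun c : ℝ => H (c • y)) (fderiv ℝ H y y) 1 := by
    have h2 : HasDerivAt (fun c : ℝ => c • y) y 1 := by
      simpa using (hasDerivAt_id (1 : ℝ)).smul_const y
    have h3 : HasFDerivAt H (fderiv ℝ H y) ((1 : ℝ) • y) := by
      rw [one_smul]; exact diff_H hH hy
    exact h3.comp_hasDerivAt (1 : ℝ) h2
  have h4 : (fun c : ℝ => H (c • y)) = fun c => c * H y := by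
    funext c; exact hH.homog c y
  rw [h4] at h1
  have h5 : HasDerivAt (fun c : ℝ => c * H y) (H y) 1 := by
    simpa using (hasDerivAt_id (1 : ℝ)).mul_const (H y)
  exact h1.unique h5

variable {f : ℝ × ℝ → ℝ}

theorem hasFDerivAt_f (hH : OddHomog H) (hf : ∀ x, H (XX x) = f x) (x : ℝ × ℝ) :
    HasFDerivAt f ((fderiv ℝ H (XX x)).comp (XXL x)) x := by
  have h : f = fun x => H (XX x) := by funext x; exact (hf x).symm
  rw [h]
  exact (diff_H hH (XX_ne x)).comp x (hasFDerivAt_XX x)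

theorem fderiv_f (hH : OddHomog H) (hf : ∀ x, H (XX x) = f x) (x k : ℝ × ℝ) :
    fderiv ℝ f x k = fderiv ℝ H (XX x) (XXd x k) := by
  rw [(hasFDerivAt_f hH hf x).fderiv, ContinuousLinearMap.comp_apply, XXL_apply]

theorem snd_f (hH : OddHomog H) (hf : ∀ x, H (XX x) = f x) (x k l : ℝ × ℝ) :
    fderiv ℝ (fun y => fderiv ℝ f y k) x l =
      fderiv ℝ (fderiv ℝ H) (XX x) (XXd x l) (XXd x k) - k.1 * l.1 * (f x - x.2 * dy f x) := by
  have h1 : (fun y => fderiv ℝ f y k) = fun y => fderiv ℝ H (XX y) (XXd y k) := by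
    funext y; exact fderiv_f hH hf y k
  have h2 : HasFDerivAt (fun y => fderiv ℝ H (XX y))
      ((fderiv ℝ (fderiv ℝ H) (XX x)).comp (XXL x)) x :=
    (diff_DH hH (XX_ne x)).comp x (hasFDerivAt_XX x)
  rw [h1, (h2.clm_apply (hasFDerivAt_XXd x k)).fderiv]
  have h3 : fderiv ℝ H (XX x) (XX x) = f x := by rw [euler hH (XX_ne x), hf]
  have h4 : fderiv ℝ H (XX x) E2 = dy f x := by
    unfold dy
    rw [fderiv_f hH hf, XXd_e3]
  simp only [add_apply, ContinuousLinearMap.comp_apply, ContinuousLinearMap.flip_apply,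
    ContinuousLinearMap.smulRight_apply, smul_apply, map_smul, map_sub, h3, h4, XXL_apply,
    smul_eq_mul, ContinuousLinearMap.coe_fst']
  ring

theorem XXd_lin (x k : ℝ × ℝ) : XXd x k = k.1 • XXd x (1, 0) + k.2 • XXd x (0, 1) := by
  rw [← XXL_apply, ← XXL_apply, ← XXL_apply, ← map_smul, ← map_smul, ← map_add]
  congr 1
  ext <;> simp

end C2

open C2

theorem hess_XX (H : E3 → ℝ) (hH : OddHomog H) (f : ℝ × ℝ → ℝ) (hf : ∀ x, H (XX x) = f x)
    (x k l : ℝ × ℝ) : hess H (XX x) (XXd x k) (XXd x l) = MM f x k l := by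
  rw [hess_eq hH (XX_ne x)]
  unfold MM
  have h1 : dx (dx f) x = fderiv ℝ (fderiv ℝ H) (XX x) (XXd x (1, 0)) (XXd x (1, 0)) -
      (f x - x.2 * dy f x) := by
    have := snd_f hH hf x (1, 0) (1, 0)
    simp only [mul_one, one_mul] at this
    exact this
  have h2 : dx (dy f) x = fderiv ℝ (fderiv ℝ H) (XX x) (XXd x (1, 0)) (XXd x (0, 1)) := by
    have := snd_f hH hf x (0, 1) (1, 0)
    simp only [zero_mul, sub_zero] at this
    exact this
  have h3 : dy (dy f) x = fderiv ℝ (fderiv ℝ H) (XX x) (XXd x (0, 1)) (XXd x (0, 1)) := by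
    have := snd_f hH hf x (0, 1) (0, 1)
    simp only [zero_mul, sub_zero] at this
    exact this
  rw [h1, h2, h3, XXd_lin x k, XXd_lin x l]
  simp only [map_add, map_smul, add_apply, smul_apply, smul_eq_mul]
  rw [symm_D2H hH (XX_ne x) (XXd x (0, 1)) (XXd x (1, 0))]
  ring

theorem dhess_XX (H : E3 → ℝ) (hH : OddHomog H) (f : ℝ × ℝ → ℝ) (hf : ∀ x, H (XX x) = f x)
    (x k : ℝ × ℝ) (hk : ∀ y, hess H (XX x) (XXd x k) y = 0) :
    fderiv ℝ (fun y => hess H y (XXd x k) (XXd x k)) (XX x) (XXd x k) =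
      fderiv ℝ (fun y => MM f y k k) x k := by
  have h1 : (fun y => MM f y k k) = fun y => fderiv ℝ (fderiv ℝ H) (XX y) (XXd y k) (XXd y k) := by
    funext y
    rw [← hess_XX H hH f hf y k k, hess_eq hH (XX_ne y)]
  have h2 : (fun y => hess H y (XXd x k) (XXd x k)) =ᶠ[𝓝 (XX x)]
      fun y => fderiv ℝ (fderiv ℝ H) y (XXd x k) (XXd x k) := by
    filter_upwards [isOpen_compl_singleton.mem_nhds (XX_ne x)] with y hy
    exact hess_eq hH hy _ _
  rw [h2.fderiv_eq, h1]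
  have h3 := ((diff_D2H hH (XX_ne x)).clm_apply (hasFDerivAt_const (XXd x k) (XX x))).clm_apply
    (hasFDerivAt_const (XXd x k) (XX x))
  have h4 : HasFDerivAt (fun y => fderiv ℝ (fderiv ℝ H) (XX y))
      ((fderiv ℝ (fderiv ℝ (fderiv ℝ H)) (XX x)).comp (XXL x)) x :=
    HasFDerivAt.comp (g := fderiv ℝ (fderiv ℝ H)) x (diff_D2H hH (XX_ne x)) (hasFDerivAt_XX x)
  have h5 := (h4.clm_apply (hasFDerivAt_XXd x k)).clm_apply (hasFDerivAt_XXd x k)
  rw [h3.fderiv, h5.fderiv]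
  have h6 : ∀ y, fderiv ℝ (fderiv ℝ H) (XX x) y (XXd x k) = 0 := by
    intro y
    rw [← hess_eq hH (XX_ne x)]
    exact hk y
  have h7 : ∀ y, fderiv ℝ (fderiv ℝ H) (XX x) (XXd x k) y = 0 := by
    intro y
    rw [symm_D2H hH (XX_ne x)]
    exact h6 y
  simp only [add_apply, ContinuousLinearMap.comp_apply, ContinuousLinearMap.flip_apply,
    h6, h7, XXL_apply, zero_apply, map_zero, zero_add]

end Pool.Agent.Helper89.Hedge
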