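import Pool.Agent.Helper89.Hedge.Defs

/-!
# The hedgehog of a homogeneous function and the kernel at a singular point
-/

open scoped ContDiff Manifold Topology RealInnerProductSpace
noncomputable section
namespace Pool.Agent.Helper89.Hedge

theorem S2.norm_coe (u : S2) : ‖(u : E3)‖ = 1 := mem_sphere_zero_iff_norm.mp u.2

theorem S2.coe_ne_zero (u : S2) : (u : E3) ≠ 0 := by
  intro h
  have := S2.norm_coe u
  rw [h, norm_zero] at this
  exact zero_ne_one this

theorem OddHomog.contDiffAt {H : E3 → ℝ} (hH : OddHomog H) {x : E3} (hx : x ≠ 0) :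
    ContDiffAt ℝ ∞ H x :=
  hH.smooth.contDiffAt (isOpen_compl_singleton.mem_nhds (by simpa using hx))

/-- S1. `radialExt h v = H v / ‖v‖` for `v ≠ 0`, so its gradient at a unit vector `u` is
`∇H(u) - H(u) u`. -/
theorem hedgehog_eq (H : E3 → ℝ) (hH : OddHomog H) (u : S2) :
    hedgehog (fun v : S2 => H v) u = gradient H (u : E3) := by
  have hu0 := S2.coe_ne_zero u
  have hu1 := S2.norm_coe u
  have hev : radialExt (fun v : S2 => H v) =ᶠ[𝓝 (u : E3)] fun v => ‖v‖⁻¹ * H v := by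
    filter_upwards [isOpen_compl_singleton.mem_nhds
      (show (u : E3) ∈ ({0}ᶜ : Set E3) by simpa using hu0)] with v hv
    have hv' : v ≠ 0 := by simpa using hv
    simp only [radialExt, dif_pos hv', toSphere]
    exact hH.homog _ _
  have hHd : HasFDerivAt H (fderiv ℝ H (u : E3)) (u : E3) :=
    ((hH.contDiffAt hu0).differentiableAt (by simp)).hasFDerivAt
  have hn : HasFDerivAt (fun v : E3 => ‖v‖) (innerSL ℝ (u : E3)) (u : E3) := by
    have h2 : HasFDerivAt (fun v : E3 => ‖v‖ ^ 2) (2 • innerSL ℝ (u : E3)) (u : E3) :=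
      (hasStrictFDerivAt_norm_sq (u : E3)).hasFDerivAt
    have h3 := h2.sqrt (by rw [hu1]; norm_num)
    have h4 : (fun v : E3 => Real.sqrt (‖v‖ ^ 2)) = fun v => ‖v‖ := by
      funext v; exact Real.sqrt_sq (norm_nonneg v)
    rw [h4, hu1] at h3
    refine h3.congr_fderiv ?_
    ext w
    simp
  have hi : HasFDerivAt (fun v : E3 => ‖v‖⁻¹) (-(innerSL ℝ (u : E3))) (u : E3) := by
    have h5 := (hasDerivAt_inv (show ‖(u : E3)‖ ≠ 0 by rw [hu1]; norm_num)).comp_hasFDerivAt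
      (u : E3) hn
    refine h5.congr_fderiv ?_
    ext w
    simp [hu1]
  have hg : HasFDerivAt (fun v : E3 => ‖v‖⁻¹ * H v)
      (‖(u : E3)‖⁻¹ • fderiv ℝ H (u : E3) + H u • (-(innerSL ℝ (u : E3)))) (u : E3) :=
    hi.mul hHd
  have hfd : fderiv ℝ (radialExt (fun v : S2 => H v)) (u : E3) =
      ‖(u : E3)‖⁻¹ • fderiv ℝ H (u : E3) + H u • (-(innerSL ℝ (u : E3))) := by
    rw [hev.fderiv_eq, hg.fderiv]
  have key : gradient (radialExt (fun v : S2 => H v)) (u : E3) =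
      gradient H (u : E3) - H u • (u : E3) := by
    apply ext_inner_right ℝ
    intro w
    rw [inner_sub_left, inner_smul_left]
    unfold gradient
    rw [InnerProductSpace.toDual_symm_apply, InnerProductSpace.toDual_symm_apply, hfd]
    simp [hu1]
    ring
  rw [hedgehog, key]
  abel

theorem hess_eq (H : E3 → ℝ) (hH : OddHomog H) {x : E3} (hx : x ≠ 0) (v w : E3) :
    hess H x v w = fderiv ℝ (fderiv ℝ H) x w v := by
  have h1 : DifferentiableAt ℝ (fderiv ℝ H) x :=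
    ((hH.contDiffAt hx).fderiv_right (m := ∞) (by simp)).differentiableAt (by simp)
  unfold hess
  rw [fderiv_clm_apply h1 (differentiableAt_const v)]
  simp

theorem hess_symm (H : E3 → ℝ) (hH : OddHomog H) {x : E3} (hx : x ≠ 0) (v w : E3) :
    hess H x v w = hess H x w v := by
  rw [hess_eq H hH hx, hess_eq H hH hx]
  refine ((hH.contDiffAt hx).isSymmSndFDerivAt ?_) w v
  rw [minSmoothness_of_isRCLikeNormedField]
  exact WithTop.coe_le_coe.mpr le_top

/-- the real linear map `φ ↦` the vector representing `φ` -/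
def dualVec : StrongDual ℝ E3 →L[ℝ] E3 where
  toFun := (InnerProductSpace.toDual ℝ E3).symm
  map_add' := map_add _
  map_smul' c x := by
    rw [map_smulₛₗ]
    simp
  cont := (InnerProductSpace.toDual ℝ E3).symm.continuous

theorem dualVec_apply (φ : StrongDual ℝ E3) :
    dualVec φ = (InnerProductSpace.toDual ℝ E3).symm φ := rfl

set_option linter.deprecated false in
/-- S3. At a singular point of the hedgehog the Hessian has a kernel vector tangent to the
sphere. -/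
theorem singular_kernel (H : E3 → ℝ) (hH : OddHomog H) (u : S2)
    (hs : ¬ Function.Injective (mfderiv (𝓡 2) 𝓘(ℝ, E3) (hedgehog (fun v : S2 => H v)) u)) :
    ∃ v : E3, v ≠ 0 ∧ inner ℝ v (u : E3) = 0 ∧ ∀ y, hess H u v y = 0 := by
  have hu0 := S2.coe_ne_zero u
  haveI : Fact (Module.finrank ℝ E3 = 2 + 1) := ⟨by simp⟩
  have hF : hedgehog (fun v : S2 => H v) = (gradient H) ∘ ((↑) : S2 → E3) := by
    funext z
    exact hedgehog_eq H hH z
  have hfd : DifferentiableAt ℝ (fderiv ℝ H) (u : E3) :=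
    ((hH.contDiffAt hu0).fderiv_right (m := ∞) (by simp)).differentiableAt (by simp)
  have hgd : HasFDerivAt (gradient H)
      (dualVec.comp (fderiv ℝ (fderiv ℝ H) (u : E3))) (u : E3) :=
    (dualVec.hasFDerivAt (x := fderiv ℝ H (u : E3))).comp (u : E3) hfd.hasFDerivAt
  set L : E3 →L[ℝ] E3 := dualVec.comp (fderiv ℝ (fderiv ℝ H) (u : E3)) with hL
  have hcoe : MDifferentiableAt (𝓡 2) 𝓘(ℝ, E3) ((↑) : S2 → E3) u :=
    (contMDiff_coe_sphere (n := 2) (m := ∞)).mdifferentiableAt (by simp)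
  have hcm := hgd.hasMFDerivAt.comp u hcoe.hasMFDerivAt
  have hD : ∀ a : TangentSpace (𝓡 2) u,
      mfderiv (𝓡 2) 𝓘(ℝ, E3) (hedgehog (fun v : S2 => H v)) u a =
        L (mfderiv (𝓡 2) 𝓘(ℝ, E3) ((↑) : S2 → E3) u a) := by
    intro a
    have h1 : mfderiv (𝓡 2) 𝓘(ℝ, E3) (hedgehog (fun v : S2 => H v)) u =
        mfderiv (𝓡 2) 𝓘(ℝ, E3) ((gradient H) ∘ ((↑) : S2 → E3)) u := by rw [hF]
    rw [h1, hcm.mfderiv]
    rfl
  have hinj := mfderiv_coe_sphere_injective (n := 2) u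
  -- the kernel vector
  obtain ⟨a, ha0, ha⟩ : ∃ a : TangentSpace (𝓡 2) u, a ≠ 0 ∧
      L (mfderiv (𝓡 2) 𝓘(ℝ, E3) ((↑) : S2 → E3) u a) = 0 := by
    by_contra hcon
    apply hs
    intro a b hab
    by_contra hne
    apply hcon
    refine ⟨a - b, sub_ne_zero.mpr hne, ?_⟩
    have e1 : L ((mfderiv (𝓡 2) 𝓘(ℝ, E3) ((↑) : S2 → E3) u (a - b) : E3)) =
        L (mfderiv (𝓡 2) 𝓘(ℝ, E3) ((↑) : S2 → E3) u a) -
          L (mfderiv (𝓡 2) 𝓘(ℝ, E3) ((↑) : S2 → E3) u b) := by
      have e2 : mfderiv (𝓡 2) 𝓘(ℝ, E3) ((↑) : S2 → E3) u (a - b) =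
          mfderiv (𝓡 2) 𝓘(ℝ, E3) ((↑) : S2 → E3) u a -
            mfderiv (𝓡 2) 𝓘(ℝ, E3) ((↑) : S2 → E3) u b := map_sub _ _ _
      rw [e2]
      exact L.map_sub _ _
    have e3 : L (mfderiv (𝓡 2) 𝓘(ℝ, E3) ((↑) : S2 → E3) u a) =
        L (mfderiv (𝓡 2) 𝓘(ℝ, E3) ((↑) : S2 → E3) u b) := by
      have h1 := hD a
      have h2 := hD b
      rw [hab] at h1
      exact h1.symm.trans h2
    rw [e1, e3]
    exact sub_self _
  obtain ⟨v, hv⟩ : ∃ v : E3, v = mfderiv (𝓡 2) 𝓘(ℝ, E3) ((↑) : S2 → E3) u a := ⟨_, rfl⟩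
  have hv0 : v ≠ 0 := by
    intro h0
    apply ha0
    apply hinj
    rw [h0] at hv
    exact hv.symm.trans (map_zero _).symm
  have hr : v ∈ (ℝ ∙ (u : E3))ᗮ := by
    rw [← range_mfderiv_coe_sphere (n := 2) u]
    exact ⟨a, hv.symm⟩
  have hLv : L v = 0 := by
    rw [← hv] at ha
    exact ha
  refine ⟨v, hv0, ?_, ?_⟩
  · rw [Submodule.mem_orthogonal_singleton_iff_inner_right] at hr
    rw [real_inner_comm]
    exact hr
  · intro y
    rw [hess_symm H hH hu0, hess_eq H hH hu0]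
    have h1 : fderiv ℝ (fderiv ℝ H) (u : E3) v = 0 := by
      have h2 : (InnerProductSpace.toDual ℝ E3).symm (fderiv ℝ (fderiv ℝ H) (u : E3) v) = 0 := hLv
      exact (map_eq_zero_iff _ (InnerProductSpace.toDual ℝ E3).symm.injective).mp h2
    rw [h1]
    rfl

end Pool.Agent.Helper89.Hedge
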