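import Pool.Agent.Helper89.Hedge.Defs

/-!
# Hadamard's lemma with a parameter
-/

open scoped ContDiff Manifold Topology
noncomputable section
namespace Pool.Agent.Helper89.Hedge

/-- Smoothness (finite order) of integrals over `[0,1]` depending on a parameter. -/
theorem contDiff_nat_integral_param {E : Type} [NormedAddCommGroup E] [NormedSpace ℝ E]
    [ProperSpace E] (n : ℕ) : ∀ {G : Type} [NormedAddCommGroup G] [NormedSpace ℝ G]
    [CompleteSpace G] (F : E × ℝ → G), ContDiff ℝ n F →
    ContDiff ℝ n (fun x : E => ∫ r in (0:ℝ)..1, F (x, r)) := by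
  induction n with
  | zero =>
    intro G _ _ _ F hF
    rw [Nat.cast_zero, contDiff_zero] at hF ⊢
    exact intervalIntegral.continuous_parametric_intervalIntegral_of_continuous'
      (f := fun x r => F (x, r)) hF 0 1
  | succ n ih =>
    intro G _ _ _ F hF
    have hF1 : ContDiff ℝ n (fun p : E × ℝ => (fderiv ℝ F p).comp
        (ContinuousLinearMap.inl ℝ E ℝ)) := by
      have h1 : ContDiff ℝ n (fderiv ℝ F) :=
        hF.fderiv_right (by push_cast; exact le_rfl)
      exact h1.clm_comp contDiff_const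
    have hdiff : Differentiable ℝ F := hF.differentiable (by
      intro h
      have : ((n + 1 : ℕ) : WithTop ℕ∞) ≠ 0 := by exact_mod_cast Nat.succ_ne_zero n
      exact this h)
    have hpart : ∀ (x : E) (r : ℝ), HasFDerivAt (fun x : E => F (x, r))
        ((fderiv ℝ F (x, r)).comp (ContinuousLinearMap.inl ℝ E ℝ)) x := by
      intro x r
      have h1 := (hdiff (x, r)).hasFDerivAt
      have h2 : HasFDerivAt (fun x : E => (x, r)) (ContinuousLinearMap.inl ℝ E ℝ) x :=
        hasFDerivAt_prodMk_left x r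
      exact h1.comp x h2
    have hcont1 : Continuous (fun p : E × ℝ => (fderiv ℝ F p).comp
        (ContinuousLinearMap.inl ℝ E ℝ)) := hF1.continuous
    have hder : ∀ x : E, HasFDerivAt (fun x : E => ∫ r in (0:ℝ)..1, F (x, r))
        (∫ r in (0:ℝ)..1, (fderiv ℝ F (x, r)).comp (ContinuousLinearMap.inl ℝ E ℝ)) x := by
      intro x
      obtain ⟨C, hC⟩ := ((isCompact_closedBall x 1).prod
        (isCompact_uIcc (a := (0:ℝ)) (b := 1))).exists_bound_of_continuousOn
        hcont1.continuousOn
      refine intervalIntegral.hasFDerivAt_integral_of_dominated_of_fderiv_le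
        (μ := MeasureTheory.volume) (F := fun x r => F (x, r))
        (F' := fun x r => (fderiv ℝ F (x, r)).comp (ContinuousLinearMap.inl ℝ E ℝ))
        (bound := fun _ => C) (Metric.closedBall_mem_nhds x one_pos) ?_ ?_ ?_ ?_ ?_ ?_
      · refine Filter.Eventually.of_forall fun y => ?_
        exact (hF.continuous.comp (Continuous.prodMk_right y)).aestronglyMeasurable
      · exact (hF.continuous.comp (Continuous.prodMk_right x)).intervalIntegrable _ _
      · exact (hcont1.comp (Continuous.prodMk_right x)).aestronglyMeasurable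
      · refine Filter.Eventually.of_forall fun t ht y hy => ?_
        exact hC (y, t) ⟨hy, Set.uIoc_subset_uIcc ht⟩
      · exact intervalIntegrable_const
      · exact Filter.Eventually.of_forall fun t _ y _ => hpart y t
    have hfd : (fderiv ℝ (fun x : E => ∫ r in (0:ℝ)..1, F (x, r))) =
        fun x => ∫ r in (0:ℝ)..1, (fderiv ℝ F (x, r)).comp (ContinuousLinearMap.inl ℝ E ℝ) :=
      funext fun x => (hder x).fderiv
    rw [show ((n + 1 : ℕ) : WithTop ℕ∞) = (n : WithTop ℕ∞) + 1 by push_cast; rfl,
      contDiff_succ_iff_fderiv]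
    refine ⟨fun x => (hder x).differentiableAt, ?_, ?_⟩
    · intro h
      exact absurd h (by exact_mod_cast WithTop.coe_ne_top)
    · rw [hfd]
      exact ih (fun p : E × ℝ => (fderiv ℝ F p).comp (ContinuousLinearMap.inl ℝ E ℝ)) hF1

/-- Smoothness of integrals over `[0,1]` depending on a parameter. -/
theorem contDiff_integral_param {E G : Type} [NormedAddCommGroup E] [NormedSpace ℝ E]
    [ProperSpace E] [NormedAddCommGroup G] [NormedSpace ℝ G]
    [CompleteSpace G] (F : E × ℝ → G) (hF : ContDiff ℝ ∞ F) :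
    ContDiff ℝ ∞ (fun x : E => ∫ r in (0:ℝ)..1, F (x, r)) := by
  rw [contDiff_infty]
  intro n
  exact contDiff_nat_integral_param n F (contDiff_infty.1 hF n)

/-- K3a (Hadamard's lemma with a parameter). -/
theorem hadamard (f : ℝ × ℝ → ℝ) (hf : ContDiff ℝ ∞ f) (h0 : ∀ s, f (0, s) = 0) :
    ∃ g : ℝ × ℝ → ℝ, ContDiff ℝ ∞ g ∧ ∀ x, f x = x.1 * g x := by
  refine ⟨fun x => ∫ r in (0:ℝ)..1, dx f (r * x.1, x.2), ?_, ?_⟩
  · have hdx : ContDiff ℝ ∞ (dx f) := by
      have h1 : ContDiff ℝ ∞ (fderiv ℝ f) := hf.fderiv_right (by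
        rw [show (∞ : WithTop ℕ∞) + 1 = ∞ by rfl])
      exact h1.clm_apply contDiff_const
    have h2 : ContDiff ℝ ∞ (fun p : (ℝ × ℝ) × ℝ => dx f (p.2 * p.1.1, p.1.2)) := by
      refine hdx.comp ?_
      fun_prop
    exact contDiff_integral_param (fun p : (ℝ × ℝ) × ℝ => dx f (p.2 * p.1.1, p.1.2)) h2
  · intro x
    have hdiff : Differentiable ℝ f := hf.differentiable (by simp)
    have hd : ∀ r : ℝ, HasDerivAt (fun r : ℝ => f (r * x.1, x.2))
        (x.1 * dx f (r * x.1, x.2)) r := by
      intro r
      have h1 := (hdiff (r * x.1, x.2)).hasFDerivAt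
      have h2 : HasDerivAt (fun r : ℝ => ((r * x.1, x.2) : ℝ × ℝ)) (x.1, 0) r := by
        refine HasDerivAt.prodMk ?_ (hasDerivAt_const _ _)
        simpa using (hasDerivAt_id r).mul_const x.1
      have h3 := h1.comp_hasDerivAt r h2
      have h4 : (fderiv ℝ f (r * x.1, x.2)) (x.1, 0) = x.1 * dx f (r * x.1, x.2) := by
        rw [show ((x.1, 0) : ℝ × ℝ) = x.1 • ((1:ℝ), (0:ℝ)) by simp, map_smul]
        rfl
      rw [h4] at h3
      exact h3
    have hcont : Continuous (fun r : ℝ => x.1 * dx f (r * x.1, x.2)) := by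
      have h1 : Continuous (fderiv ℝ f) := hf.continuous_fderiv (by simp)
      have h2 : Continuous (dx f) := h1.clm_apply continuous_const
      refine continuous_const.mul (h2.comp ?_)
      fun_prop
    have h5 := intervalIntegral.integral_eq_sub_of_hasDerivAt (a := 0) (b := 1)
      (fun r _ => hd r) (hcont.intervalIntegrable 0 1)
    rw [intervalIntegral.integral_const_mul] at h5
    rw [h5]
    simp [h0]

end Pool.Agent.Helper89.Hedge
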