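import Pool.Agent.Helper89.Hedge.K1
import Pool.Agent.Helper89.Hedge.K3a

/-!
# Cuspidal edges: the family of parabolas (piece K3b)

Written by helper83 for helper89.
-/

open scoped ContDiff Manifold Topology
open Filter
noncomputable section
namespace Pool.Agent.Helper89.Hedge

namespace K3b

theorem contDiff_dx' {f : ℝ × ℝ → ℝ} (hf : ContDiff ℝ ∞ f) : ContDiff ℝ ∞ (dx f) := by
  have h : ContDiff ℝ ∞ (fderiv ℝ f) := hf.fderiv_right (by simp)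
  exact h.clm_apply contDiff_const

theorem hasDerivAt_dx {f : ℝ × ℝ → ℝ} (hf : ContDiff ℝ ∞ f) (r s : ℝ) :
    HasDerivAt (fun r => f (r, s)) (dx f (r, s)) r := by
  have h1 : HasFDerivAt f (fderiv ℝ f (r, s)) (r, s) :=
    (hf.differentiable (by simp) _).hasFDerivAt
  have h2 : HasDerivAt (fun r : ℝ => (r, s)) ((1 : ℝ), (0 : ℝ)) r :=
    (hasDerivAt_id r).prodMk (hasDerivAt_const r s)
  exact h1.comp_hasDerivAt r h2

/-- Hadamard's lemma with the value on the axis subtracted -/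
theorem hadamard' (f : ℝ × ℝ → ℝ) (hf : ContDiff ℝ ∞ f) :
    ∃ g : ℝ × ℝ → ℝ, ContDiff ℝ ∞ g ∧ ∀ r s, f (r, s) = f (0, s) + r * g (r, s) := by
  obtain ⟨g, hg, h⟩ := hadamard (fun x => f x - f (0, x.2))
    (hf.sub (hf.comp (contDiff_const.prodMk contDiff_snd))) (fun s => by simp)
  refine ⟨g, hg, fun r s => ?_⟩
  have := h (r, s)
  simp only at this
  linarith

theorem cont_slice {f : ℝ × ℝ → ℝ} (hf : ContDiff ℝ ∞ f) (s : ℝ) :
    Continuous (fun r => f (r, s)) :=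
  hf.continuous.comp (Continuous.prodMk_left s)

/-- cancelling a factor `r` near `r = 0` -/
theorem cancel_r {A B : ℝ → ℝ} (hA : Continuous A) (hB : Continuous B)
    (h : ∀ᶠ r in 𝓝 (0 : ℝ), r * A r = r * B r) : ∀ᶠ r in 𝓝 (0 : ℝ), A r = B r := by
  have h1 : A =ᶠ[𝓝[≠] (0 : ℝ)] B := by
    filter_upwards [h.filter_mono nhdsWithin_le_nhds, self_mem_nhdsWithin] with r hr hr0
    exact mul_left_cancel₀ hr0 hr
  exact (hA.continuousAt.eventuallyEq_nhds_iff_eventuallyEq_nhdsNE hB.continuousAt).mp h1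

/-- from a neighbourhood of the origin in the plane to slices -/
theorem slices {P : ℝ × ℝ → Prop} (h : ∀ᶠ p in 𝓝 (0 : ℝ × ℝ), P p) :
    ∀ᶠ s in 𝓝 (0 : ℝ), ∀ᶠ r in 𝓝 (0 : ℝ), P (r, s) := by
  have h1 := h.eventually_nhds
  have h2 : Tendsto (fun s : ℝ => ((0 : ℝ), s)) (𝓝 0) (𝓝 (0 : ℝ × ℝ)) := by
    have : Continuous (fun s : ℝ => ((0 : ℝ), s)) := by fun_prop
    exact this.tendsto' _ _ rfl
  filter_upwards [h2.eventually h1] with s hs
  have h3 : Tendsto (fun r : ℝ => (r, s)) (𝓝 0) (𝓝 ((0 : ℝ), s)) := by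
    have : Continuous (fun r : ℝ => (r, s)) := by fun_prop
    exact this.tendsto' _ _ rfl
  exact h3.eventually hs

/-- second order expansion of `X` along the curve of its critical points -/
theorem expand_X (X : ℝ × ℝ → ℝ) (hX : ContDiff ℝ ∞ X) (p0 : ℝ → ℝ) (hp0 : ContDiff ℝ ∞ p0)
    (hp00 : p0 0 = 0) (hcrit : ∀ᶠ s in 𝓝 (0 : ℝ), dx X (p0 s, s) = 0)
    (h2 : dx (dx X) 0 ≠ 0) :
    ∃ a : ℝ × ℝ → ℝ, ContDiff ℝ ∞ a ∧ a 0 ≠ 0 ∧
      ∀ᶠ s in 𝓝 (0 : ℝ), ∀ r, X (p0 s + r, s) = X (p0 s, s) + r ^ 2 * a (r, s) ∧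
        dx X (p0 s + r, s) = 2 * r * a (r, s) + r ^ 2 * dx a (r, s) := by
  have hXt : ContDiff ℝ ∞ (fun x : ℝ × ℝ => X (p0 x.2 + x.1, x.2)) :=
    hX.comp (((hp0.comp contDiff_snd).add contDiff_fst).prodMk contDiff_snd)
  obtain ⟨g, hg, hgX⟩ := hadamard' _ hXt
  obtain ⟨a, ha, hag⟩ := hadamard' g hg
  simp only [add_zero] at hgX
  have hexp : ∀ r s, X (p0 s + r, s) = X (p0 s, s) + r * (g (0, s) + r * a (r, s)) := by
    intro r s
    rw [hgX r s, hag r s]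
  have hder : ∀ r s, dx X (p0 s + r, s)
      = g (0, s) + 2 * r * a (r, s) + r ^ 2 * dx a (r, s) := by
    intro r s
    have e1 : HasDerivAt (fun r => X (p0 s + r, s)) (dx X (p0 s + r, s)) r :=
      HasDerivAt.comp_const_add (p0 s) r (hasDerivAt_dx hX (p0 s + r) s)
    have e2 : HasDerivAt (fun r => X (p0 s, s) + r * (g (0, s) + r * a (r, s)))
        (g (0, s) + 2 * r * a (r, s) + r ^ 2 * dx a (r, s)) r := by
      have e3 := (((hasDerivAt_id r).mul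
        (((hasDerivAt_id r).mul (hasDerivAt_dx ha r s)).const_add (g (0, s)))).const_add
          (X (p0 s, s)))
      refine e3.congr_deriv ?_
      simp only [Pi.mul_apply, id]
      ring
    have e4 : (fun r => X (p0 s + r, s)) = fun r => X (p0 s, s) + r * (g (0, s) + r * a (r, s)) :=
      funext fun r => hexp r s
    rw [e4] at e1
    exact e1.unique e2
  have hg0 : ∀ s, dx X (p0 s, s) = 0 → g (0, s) = 0 := by
    intro s hs
    have := hder 0 s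
    simp only [add_zero, mul_zero, zero_mul, ne_eq, OfNat.ofNat_ne_zero, not_false_eq_true,
      zero_pow] at this
    rw [← this, hs]
  refine ⟨a, ha, ?_, ?_⟩
  · have h00 : g (0, 0) = 0 := hg0 0 hcrit.self_of_nhds
    have e1 : HasDerivAt (fun r => dx X (r, 0)) (dx (dx X) (0, 0)) 0 :=
      hasDerivAt_dx (contDiff_dx' hX) 0 0
    have e2 : (fun r => dx X (r, 0)) = fun r => 2 * r * a (r, 0) + r ^ 2 * dx a (r, 0) := by
      funext r
      have := hder r 0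
      rw [hp00, zero_add, h00, zero_add] at this
      exact this
    have e3 : HasDerivAt (fun r : ℝ => 2 * r * a (r, 0) + r ^ 2 * dx a (r, 0)) (2 * a (0, 0)) 0 := by
      have e4 := (((hasDerivAt_id (0 : ℝ)).const_mul 2).mul (hasDerivAt_dx ha 0 0)).add
        ((hasDerivAt_pow 2 (0 : ℝ)).mul (hasDerivAt_dx (contDiff_dx' ha) 0 0))
      refine e4.congr_deriv ?_
      simp
    rw [e2] at e1
    have e5 := e1.unique e3
    intro h0
    apply h2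
    have : (0 : ℝ × ℝ) = (0, 0) := rfl
    rw [this] at h0 ⊢
    rw [e5, h0, mul_zero]
  · filter_upwards [hcrit] with s hs r
    constructor
    · rw [hexp r s, hg0 s hs]; ring
    · rw [hder r s, hg0 s hs]; ring

/-- third order expansion of `V + p0 X` -/
theorem expand_V (X V : ℝ × ℝ → ℝ) (hX : ContDiff ℝ ∞ X) (hV : ContDiff ℝ ∞ V)
    (hXV : ∀ᶠ p in 𝓝 (0 : ℝ × ℝ), dx V p = -p.1 * dx X p)
    (p0 : ℝ → ℝ) (hp0 : ContDiff ℝ ∞ p0) (hp00 : p0 0 = 0)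
    (a : ℝ × ℝ → ℝ) (ha : ContDiff ℝ ∞ a)
    (hda : ∀ᶠ s in 𝓝 (0 : ℝ), ∀ r, dx X (p0 s + r, s) = 2 * r * a (r, s) + r ^ 2 * dx a (r, s)) :
    ∃ c : ℝ × ℝ → ℝ, ContDiff ℝ ∞ c ∧ c 0 = - (2 / 3) * a 0 ∧
      ∀ᶠ s in 𝓝 (0 : ℝ), ∀ r, V (p0 s + r, s) =
        V (p0 s, s) - p0 s * (X (p0 s + r, s) - X (p0 s, s)) + r ^ 3 * c (r, s) := by
  have hsh : ContDiff ℝ ∞ (fun x : ℝ × ℝ => ((p0 x.2 + x.1, x.2) : ℝ × ℝ)) :=
    ((hp0.comp contDiff_snd).add contDiff_fst).prodMk contDiff_snd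
  have hsh0 : ContDiff ℝ ∞ (fun x : ℝ × ℝ => ((p0 x.2, x.2) : ℝ × ℝ)) :=
    (hp0.comp contDiff_snd).prodMk contDiff_snd
  have hU : ContDiff ℝ ∞ (fun x : ℝ × ℝ => V (p0 x.2 + x.1, x.2) - V (p0 x.2, x.2)
      + p0 x.2 * (X (p0 x.2 + x.1, x.2) - X (p0 x.2, x.2))) :=
    ((hV.comp hsh).sub (hV.comp hsh0)).add
      ((hp0.comp contDiff_snd).mul ((hX.comp hsh).sub (hX.comp hsh0)))
  obtain ⟨U1, hU1, hUU1⟩ := hadamard' _ hU
  obtain ⟨U2, hU2, hUU2⟩ := hadamard' U1 hU1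
  obtain ⟨U3, hU3, hUU3⟩ := hadamard' U2 hU2
  simp only [add_zero, sub_self, mul_zero, zero_add] at hUU1
  -- the expansion
  have hexp : ∀ r s, V (p0 s + r, s) - V (p0 s, s) + p0 s * (X (p0 s + r, s) - X (p0 s, s))
      = r * (U1 (0, s) + r * (U2 (0, s) + r * U3 (r, s))) := by
    intro r s
    rw [hUU1 r s, hUU2 r s, hUU3 r s]
  -- its derivative
  have hder : ∀ r s, dx V (p0 s + r, s) + p0 s * dx X (p0 s + r, s)
      = U1 (0, s) + r * (2 * U2 (0, s) + r * (3 * U3 (r, s) + r * dx U3 (r, s))) := by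
    intro r s
    have e1 : HasDerivAt (fun r => X (p0 s + r, s)) (dx X (p0 s + r, s)) r :=
      HasDerivAt.comp_const_add (p0 s) r (hasDerivAt_dx hX (p0 s + r) s)
    have e1' : HasDerivAt (fun r => V (p0 s + r, s)) (dx V (p0 s + r, s)) r :=
      HasDerivAt.comp_const_add (p0 s) r (hasDerivAt_dx hV (p0 s + r) s)
    have e2 : HasDerivAt (fun r => V (p0 s + r, s) - V (p0 s, s)
        + p0 s * (X (p0 s + r, s) - X (p0 s, s)))
        (dx V (p0 s + r, s) + p0 s * dx X (p0 s + r, s)) r :=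
      (e1'.sub_const _).add ((e1.sub_const _).const_mul _)
    have e3 : HasDerivAt (fun r => r * (U1 (0, s) + r * (U2 (0, s) + r * U3 (r, s))))
        (U1 (0, s) + r * (2 * U2 (0, s) + r * (3 * U3 (r, s) + r * dx U3 (r, s)))) r := by
      have e4 := (hasDerivAt_id r).mul (((hasDerivAt_id r).mul
        (((hasDerivAt_id r).mul (hasDerivAt_dx hU3 r s)).const_add (U2 (0, s)))).const_add
          (U1 (0, s)))
      refine e4.congr_deriv ?_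
      simp only [Pi.mul_apply, id]
      ring
    have e5 : (fun r => V (p0 s + r, s) - V (p0 s, s)
        + p0 s * (X (p0 s + r, s) - X (p0 s, s)))
        = fun r => r * (U1 (0, s) + r * (U2 (0, s) + r * U3 (r, s))) :=
      funext fun r => hexp r s
    rw [e5] at e2
    exact e2.unique e3
  -- the relation near the origin
  have hrel : ∀ᶠ s in 𝓝 (0 : ℝ), ∀ᶠ r in 𝓝 (0 : ℝ),
      dx V (p0 s + r, s) = -(p0 s + r) * dx X (p0 s + r, s) := by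
    apply slices (P := fun x : ℝ × ℝ =>
      dx V (p0 x.2 + x.1, x.2) = -(p0 x.2 + x.1) * dx X (p0 x.2 + x.1, x.2))
    have ht : Tendsto (fun x : ℝ × ℝ => ((p0 x.2 + x.1, x.2) : ℝ × ℝ)) (𝓝 0) (𝓝 0) :=
      hsh.continuous.tendsto' _ _ (by simp [hp00])
    exact ht.eventually hXV
  have hall : ∀ᶠ s in 𝓝 (0 : ℝ), U1 (0, s) = 0 ∧ U2 (0, s) = 0 ∧ 3 * U3 (0, s) = -2 * a (0, s) := by
    filter_upwards [hrel, hda] with s hs hs2
    have k1 : ∀ᶠ r in 𝓝 (0 : ℝ),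
        U1 (0, s) + r * (2 * U2 (0, s) + r * (3 * U3 (r, s) + r * dx U3 (r, s)))
          = r * (r * (-(2 * a (r, s) + r * dx a (r, s)))) := by
      filter_upwards [hs] with r hr
      rw [← hder r s, hr, hs2 r]
      ring
    have k2 : U1 (0, s) = 0 := by
      have := k1.self_of_nhds
      simpa using this
    have c1 := cont_slice hU3 s
    have c2 := cont_slice (contDiff_dx' hU3) s
    have c3 := cont_slice ha s
    have c4 := cont_slice (contDiff_dx' ha) s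
    have k3 : ∀ᶠ r in 𝓝 (0 : ℝ),
        2 * U2 (0, s) + r * (3 * U3 (r, s) + r * dx U3 (r, s))
          = r * (-(2 * a (r, s) + r * dx a (r, s))) := by
      apply cancel_r
      · fun_prop
      · fun_prop
      · filter_upwards [k1] with r hr
        rw [← hr, k2, zero_add]
    have k4 : U2 (0, s) = 0 := by
      have := k3.self_of_nhds
      simpa using this
    have k5 : ∀ᶠ r in 𝓝 (0 : ℝ),
        3 * U3 (r, s) + r * dx U3 (r, s) = -(2 * a (r, s) + r * dx a (r, s)) := by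
      apply cancel_r
      · fun_prop
      · fun_prop
      · filter_upwards [k3] with r hr
        rw [← hr, k4, mul_zero, zero_add]
    have k6 := k5.self_of_nhds
    simp only [zero_mul, add_zero] at k6
    exact ⟨k2, k4, by rw [k6]; ring⟩
  refine ⟨U3, hU3, ?_, ?_⟩
  · have := hall.self_of_nhds.2.2
    have e : (0 : ℝ × ℝ) = (0, 0) := rfl
    rw [e]
    linarith
  · filter_upwards [hall] with s hs r
    have := hexp r s
    rw [hs.1, hs.2.1] at this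
    linear_combination this

/-- the linear map `(a, b) ↦ (α a + β b, b)` -/
def triEquiv (α β : ℝ) (hα : α ≠ 0) : (ℝ × ℝ) ≃L[ℝ] (ℝ × ℝ) :=
  ContinuousLinearEquiv.equivOfInverse
    ((α • ContinuousLinearMap.fst ℝ ℝ ℝ + β • ContinuousLinearMap.snd ℝ ℝ ℝ).prod
      (ContinuousLinearMap.snd ℝ ℝ ℝ))
    ((α⁻¹ • ContinuousLinearMap.fst ℝ ℝ ℝ - (α⁻¹ * β) • ContinuousLinearMap.snd ℝ ℝ ℝ).prod
      (ContinuousLinearMap.snd ℝ ℝ ℝ))
    (by
      intro x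
      ext
      · simp
        field_simp
        ring
      · simp)
    (by
      intro x
      ext
      · simp
        field_simp
        ring
      · simp)

/-- local inversion of `(p, s) ↦ (F (p, s), s)` -/
theorem ph_of_triangular (F : ℝ × ℝ → ℝ) (hF : ContDiff ℝ ∞ F) (hF0 : F 0 = 0)
    (hd : dx F 0 ≠ 0) :
    ∃ e : OpenPartialHomeomorph (ℝ × ℝ) (ℝ × ℝ), SmoothPH e ∧ (0 : ℝ × ℝ) ∈ e.source ∧
      e 0 = 0 ∧ ∀ z ∈ e.target, F (e.symm z) = z.1 ∧ (e.symm z).2 = z.2 := by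
  have hG : ContDiff ℝ ∞ (fun x : ℝ × ℝ => ((F x, x.2) : ℝ × ℝ)) := hF.prodMk contDiff_snd
  have hder : HasFDerivAt (fun x : ℝ × ℝ => ((F x, x.2) : ℝ × ℝ))
      ((triEquiv (dx F 0) (dy F 0) hd : (ℝ × ℝ) ≃L[ℝ] (ℝ × ℝ)) : (ℝ × ℝ) →L[ℝ] (ℝ × ℝ)) 0 := by
    have h1 : HasFDerivAt F (fderiv ℝ F 0) 0 := (hF.differentiable (by simp) _).hasFDerivAt
    have h2 := h1.prodMk (hasFDerivAt_snd (𝕜 := ℝ) (E := ℝ) (F := ℝ) (p := (0 : ℝ × ℝ)))
    refine h2.congr_fderiv ?_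
    ext
    · simp [triEquiv, dx]
    · simp [triEquiv]
    · simp [triEquiv, dy]
    · simp [triEquiv]
  obtain ⟨e, he, h0, -, hev⟩ := smoothPH_of_invertible _ Set.univ isOpen_univ hG.contDiffOn 0
    (Set.mem_univ _) _ hder
  refine ⟨e, he, h0, ?_, ?_⟩
  · rw [hev 0 h0, hF0]; rfl
  · intro z hz
    have h1 := hev _ (e.map_target hz)
    rw [e.right_inv hz] at h1
    exact ⟨(congrArg Prod.fst h1).symm, (congrArg Prod.snd h1).symm⟩

/-- the curve of critical points -/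
theorem exists_crit (X : ℝ × ℝ → ℝ) (hX : ContDiff ℝ ∞ X) (h1 : dx X 0 = 0)
    (h2 : dx (dx X) 0 ≠ 0) :
    ∃ p0 : ℝ → ℝ, ContDiff ℝ ∞ p0 ∧ p0 0 = 0 ∧ ∀ᶠ s in 𝓝 (0 : ℝ), dx X (p0 s, s) = 0 := by
  obtain ⟨e, he, h0, he0, hev⟩ := ph_of_triangular (dx X) (contDiff_dx' hX) h1 h2
  have ht0 : (0 : ℝ × ℝ) ∈ e.target := by
    rw [← he0]; exact e.map_source h0
  have hi : ContDiff ℝ ∞ (fun s : ℝ => ((0, s) : ℝ × ℝ)) := contDiff_const.prodMk contDiff_id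
  have hT : IsOpen {s : ℝ | ((0, s) : ℝ × ℝ) ∈ e.target} := e.open_target.preimage hi.continuous
  have hsm : ContDiffOn ℝ ∞ (fun s : ℝ => (e.symm ((0, s) : ℝ × ℝ)).1)
      {s : ℝ | ((0, s) : ℝ × ℝ) ∈ e.target} :=
    contDiff_fst.comp_contDiffOn (he.2.comp hi.contDiffOn fun s hs => hs)
  obtain ⟨p0, hp0, hp⟩ := exists_global _ _ hT hsm (0 : ℝ) ht0
  have hsymm0 : e.symm 0 = 0 := by
    have := e.left_inv h0
    rwa [he0] at this
  refine ⟨p0, hp0, ?_, ?_⟩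
  · rw [hp.self_of_nhds]
    show (e.symm (0 : ℝ × ℝ)).1 = 0
    rw [hsymm0]; rfl
  · filter_upwards [hp, hT.mem_nhds ht0] with s hs hsT
    have := hev _ hsT
    have h3 : e.symm ((0, s) : ℝ × ℝ) = (p0 s, s) := Prod.ext hs.symm this.2
    rw [← h3]
    exact this.1

end K3b

open K3b

theorem cusp_family (X V : ℝ × ℝ → ℝ) (hX : ContDiff ℝ ∞ X) (hV : ContDiff ℝ ∞ V)
    (hXV : ∀ᶠ p in 𝓝 (0 : ℝ × ℝ), dx V p = -p.1 * dx X p) (h1 : dx X 0 = 0)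
    (h2 : dx (dx X) 0 ≠ 0) :
    ∃ (φ : OpenPartialHomeomorph (ℝ × ℝ) (ℝ × ℝ)) (X0 V0 p0 : ℝ → ℝ) (σ : ℝ) (e : ℝ × ℝ → ℝ),
      SmoothPH φ ∧ (0 : ℝ × ℝ) ∈ φ.source ∧ φ 0 = 0 ∧ ContDiff ℝ ∞ X0 ∧ ContDiff ℝ ∞ V0 ∧
      ContDiff ℝ ∞ p0 ∧ ContDiff ℝ ∞ e ∧ σ ≠ 0 ∧ e 0 ≠ 0 ∧
      ∀ᶠ p in 𝓝 (0 : ℝ × ℝ), (φ p).2 = p.2 ∧ X (φ p) = X0 p.2 + σ * p.1 ^ 2 ∧
        V (φ p) = V0 p.2 - p0 p.2 * (σ * p.1 ^ 2) + p.1 ^ 3 * e p := by
  obtain ⟨p0, hp0, hp00, hcrit⟩ := exists_crit X hX h1 h2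
  obtain ⟨a, ha, ha0, hexpX⟩ := expand_X X hX p0 hp0 hp00 hcrit h2
  obtain ⟨c, hc, hc0, hexpV⟩ := expand_V X V hX hV hXV p0 hp0 hp00 a ha
    (hexpX.mono fun s hs r => (hs r).2)
  -- the square root
  have hUo : IsOpen {x : ℝ × ℝ | 0 < a x / a 0} :=
    isOpen_lt continuous_const (ha.continuous.div_const _)
  have hU0 : (0 : ℝ × ℝ) ∈ {x : ℝ × ℝ | 0 < a x / a 0} := by
    show 0 < a 0 / a 0
    rw [div_self ha0]; exact one_pos
  obtain ⟨b, hb, hbe⟩ := exists_global (fun x => Real.sqrt (a x / a 0))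
    {x : ℝ × ℝ | 0 < a x / a 0} hUo
    ((ha.div_const (a 0)).contDiffOn.sqrt fun x hx => (ne_of_gt hx)) 0 hU0
  have hb0 : b 0 = 1 := by
    rw [hbe.self_of_nhds]; simp [div_self ha0]
  have hba : ∀ᶠ x in 𝓝 (0 : ℝ × ℝ), a x = a 0 * b x ^ 2 := by
    filter_upwards [hbe, hUo.mem_nhds hU0] with x hx hx2
    rw [hx, Real.sq_sqrt (le_of_lt hx2)]
    field_simp
  -- the inverse of the square root
  have hVo : IsOpen {x : ℝ × ℝ | b x ≠ 0} := isOpen_ne_fun hb.continuous continuous_const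
  have hV0 : (0 : ℝ × ℝ) ∈ {x : ℝ × ℝ | b x ≠ 0} := by
    simp [hb0]
  obtain ⟨ib, hib, hibe⟩ := exists_global (fun x => (b x)⁻¹) {x : ℝ × ℝ | b x ≠ 0} hVo
    (hb.contDiffOn.inv fun x hx => hx) 0 hV0
  have hib0 : ib 0 = 1 := by
    rw [hibe.self_of_nhds]
    simp [hb0]
  have hbib : ∀ᶠ x in 𝓝 (0 : ℝ × ℝ), b x * ib x = 1 := by
    filter_upwards [hibe, hVo.mem_nhds hV0] with x hx hx2
    rw [hx, mul_inv_cancel₀ hx2]
  -- the change of coordinates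
  have hr : ContDiff ℝ ∞ (fun x : ℝ × ℝ => x.1 - p0 x.2) :=
    contDiff_fst.sub (hp0.comp contDiff_snd)
  have hrs : ContDiff ℝ ∞ (fun x : ℝ × ℝ => ((x.1 - p0 x.2, x.2) : ℝ × ℝ)) :=
    hr.prodMk contDiff_snd
  have hΘ : ContDiff ℝ ∞ (fun x : ℝ × ℝ => (x.1 - p0 x.2) * b (x.1 - p0 x.2, x.2)) :=
    hr.mul (hb.comp hrs)
  have hdΘ : dx (fun x : ℝ × ℝ => (x.1 - p0 x.2) * b (x.1 - p0 x.2, x.2)) 0 = 1 := by
    have e1 := hasDerivAt_dx hΘ 0 0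
    have e2 : HasDerivAt (fun r : ℝ => (r - p0 0) * b (r - p0 0, 0)) 1 0 := by
      rw [hp00]
      simp only [sub_zero]
      refine ((hasDerivAt_id (0 : ℝ)).mul (hasDerivAt_dx hb 0 0)).congr_deriv ?_
      have : b (0, 0) = 1 := hb0
      simp [this]
    exact e1.unique e2
  obtain ⟨e₂, he₂, hs0, he₂0, hev⟩ := ph_of_triangular _ hΘ
    (by simp [hp00]) (by rw [hdΘ]; exact one_ne_zero)
  have ht0 : (0 : ℝ × ℝ) ∈ e₂.target := by
    rw [← he₂0]; exact e₂.map_source hs0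
  have hφ0 : e₂.symm 0 = 0 := by
    have := e₂.left_inv hs0
    rwa [he₂0] at this
  obtain ⟨Φ, hΦ, hΦe⟩ := exists_global (fun z => e₂.symm z) e₂.target e₂.open_target he₂.2 0 ht0
  have hρ : ContDiff ℝ ∞ (fun z : ℝ × ℝ => (((Φ z).1 - p0 z.2, z.2) : ℝ × ℝ)) :=
    ((contDiff_fst.comp hΦ).sub (hp0.comp contDiff_snd)).prodMk contDiff_snd
  have hρ0 : (((Φ 0).1 - p0 (0 : ℝ × ℝ).2, (0 : ℝ × ℝ).2) : ℝ × ℝ) = 0 := by
    rw [hΦe.self_of_nhds]
    simp [hp00, hφ0]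
  have hρt : Tendsto (fun z : ℝ × ℝ => (((Φ z).1 - p0 z.2, z.2) : ℝ × ℝ)) (𝓝 0) (𝓝 0) :=
    hρ.continuous.tendsto' _ _ hρ0
  have hst : Tendsto (fun z : ℝ × ℝ => z.2) (𝓝 0) (𝓝 0) := continuous_snd.tendsto' _ _ rfl
  refine ⟨e₂.symm, fun s => X (p0 s, s), fun s => V (p0 s, s), p0, a 0,
    fun z => c ((Φ z).1 - p0 z.2, z.2) * ib ((Φ z).1 - p0 z.2, z.2) ^ 3, ⟨he₂.2, ?_⟩, ht0, hφ0,
    hX.comp (hp0.prodMk contDiff_id), hV.comp (hp0.prodMk contDiff_id), hp0,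
    (hc.comp hρ).mul ((hib.comp hρ).pow 3), ha0, ?_, ?_⟩
  · simpa using he₂.1
  · show c (((Φ 0).1 - p0 (0 : ℝ × ℝ).2, (0 : ℝ × ℝ).2) : ℝ × ℝ) *
      ib (((Φ 0).1 - p0 (0 : ℝ × ℝ).2, (0 : ℝ × ℝ).2) : ℝ × ℝ) ^ 3 ≠ 0
    rw [hρ0, hib0, hc0]
    simp [ha0]
  · filter_upwards [e₂.open_target.mem_nhds ht0, hΦe, hρt.eventually hba, hρt.eventually hbib,
      hst.eventually hexpX, hst.eventually hexpV] with z hz hΦz hbz hibz hXz hVz
    obtain ⟨k1, k2⟩ := hev z hz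
    have hφz : e₂.symm z = (p0 z.2 + ((Φ z).1 - p0 z.2), z.2) := by
      apply Prod.ext
      · simp only [hΦz]; ring
      · exact k2
    have k3 : ((Φ z).1 - p0 z.2) * b ((Φ z).1 - p0 z.2, z.2) = z.1 := by
      rw [← k1, k2, hΦz]
    have hXX : X (e₂.symm z) = X (p0 z.2, z.2) + a 0 * z.1 ^ 2 := by
      rw [hφz, (hXz _).1, hbz, ← k3]
      ring
    refine ⟨k2, hXX, ?_⟩
    have hVV := hVz ((Φ z).1 - p0 z.2)
    rw [← hφz, hXX] at hVV
    rw [hVV]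
    have k4 : ((Φ z).1 - p0 z.2) ^ 3 * c ((Φ z).1 - p0 z.2, z.2)
        = z.1 ^ 3 * (c ((Φ z).1 - p0 z.2, z.2) * ib ((Φ z).1 - p0 z.2, z.2) ^ 3) := by
      have : ((Φ z).1 - p0 z.2) ^ 3
          = z.1 ^ 3 * ib ((Φ z).1 - p0 z.2, z.2) ^ 3 := by
        rw [← k3]
        have : (((Φ z).1 - p0 z.2) * b ((Φ z).1 - p0 z.2, z.2)) ^ 3
            * ib ((Φ z).1 - p0 z.2, z.2) ^ 3
            = ((Φ z).1 - p0 z.2) ^ 3 * (b ((Φ z).1 - p0 z.2, z.2)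
              * ib ((Φ z).1 - p0 z.2, z.2)) ^ 3 := by ring
        rw [this, hibz]; ring
      rw [this]; ring
    rw [k4]
    ring

end Pool.Agent.Helper89.Hedge
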