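import Pool.Agent.Helper89.Hedge.Defs

/-!
# Borel's lemma with a parameter (piece K4a)
-/

open scoped ContDiff Manifold Topology
noncomputable section
namespace Pool.Agent.Helper89.Hedge

namespace Borel

/-- a smooth cutoff, `1` on `[-1, 1]`, supported in `[-2, 2]` -/
def chi : ContDiffBump (0 : ℝ) := ⟨1, 2, one_pos, one_lt_two⟩

theorem chi_smooth : ContDiff ℝ ∞ (fun t : ℝ => chi t) := chi.contDiff

theorem chi_one {t : ℝ} (ht : |t| < 1) : chi t = 1 := by
  apply chi.one_of_mem_closedBall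
  rw [Metric.mem_closedBall, dist_zero_right, Real.norm_eq_abs]
  exact ht.le

theorem chi_zero {t : ℝ} (ht : 2 ≤ |t|) : chi t = 0 := by
  apply chi.zero_of_le_dist
  rw [dist_zero_right, Real.norm_eq_abs]
  exact ht

/-- the unscaled term -/
def base (a : ℝ → ℝ) (n : ℕ) (x : ℝ × ℝ) : ℝ := x.1 ^ n * chi x.1 * (chi x.2 * a x.2)

theorem contDiff_base {a : ℝ → ℝ} (ha : ContDiff ℝ ∞ a) (n : ℕ) : ContDiff ℝ ∞ (base a n) := by
  unfold base
  exact ((contDiff_fst.pow n).mul (chi_smooth.comp contDiff_fst)).mul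
    ((chi_smooth.comp contDiff_snd).mul (ha.comp contDiff_snd))

theorem base_support (a : ℝ → ℝ) (n : ℕ) : HasCompactSupport (base a n) := by
  apply HasCompactSupport.intro (isCompact_closedBall (0 : ℝ × ℝ) 2)
  intro x hx
  rw [Metric.mem_closedBall, dist_zero_right, Prod.norm_def, Real.norm_eq_abs, Real.norm_eq_abs,
    max_le_iff, not_and_or, not_le, not_le] at hx
  unfold base
  rcases hx with hx | hx
  · rw [chi_zero hx.le]; ring
  · rw [chi_zero hx.le]; ring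

theorem base_bound {a : ℝ → ℝ} (ha : ContDiff ℝ ∞ a) (n k : ℕ) :
    ∃ C : ℝ, ∀ x, ‖iteratedFDeriv ℝ k (base a n) x‖ ≤ C := by
  have h1 : Continuous (iteratedFDeriv ℝ k (base a n)) :=
    (contDiff_base ha n).continuous_iteratedFDeriv (by exact_mod_cast le_top)
  have h2 : HasCompactSupport (iteratedFDeriv ℝ k (base a n)) :=
    (base_support a n).iteratedFDeriv k
  exact h2.exists_bound_of_continuous h1

/-- the scaling `(t, s) ↦ (l t, s)` -/
def scal (l : ℝ) : ℝ × ℝ →L[ℝ] ℝ × ℝ :=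
  (l • ContinuousLinearMap.fst ℝ ℝ ℝ).prod (ContinuousLinearMap.snd ℝ ℝ ℝ)

@[simp] theorem scal_apply (l : ℝ) (x : ℝ × ℝ) : scal l x = (l * x.1, x.2) := rfl

theorem norm_scal_le {l : ℝ} (hl : 1 ≤ l) : ‖scal l‖ ≤ l := by
  apply ContinuousLinearMap.opNorm_le_bound _ (by linarith)
  intro x
  rw [scal_apply, Prod.norm_def, Prod.norm_def]
  have h0 : 0 ≤ max ‖x.1‖ ‖x.2‖ := le_trans (norm_nonneg _) (le_max_left _ _)
  apply max_le
  · rw [norm_mul, Real.norm_eq_abs l, abs_of_nonneg (by linarith)]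
    exact mul_le_mul_of_nonneg_left (le_max_left _ _) (by linarith)
  · calc ‖x.2‖ ≤ 1 * max ‖x.1‖ ‖x.2‖ := by rw [one_mul]; exact le_max_right _ _
      _ ≤ l * max ‖x.1‖ ‖x.2‖ := mul_le_mul_of_nonneg_right hl h0

/-- the scaled term -/
def term (a : ℝ → ℝ) (n : ℕ) (l : ℝ) (x : ℝ × ℝ) : ℝ := (l ^ n)⁻¹ * base a n (scal l x)

theorem contDiff_term {a : ℝ → ℝ} (ha : ContDiff ℝ ∞ a) (n : ℕ) (l : ℝ) :
    ContDiff ℝ ∞ (term a n l) :=
  contDiff_const.mul ((contDiff_base ha n).comp (scal l).contDiff)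

theorem term_bound {a : ℝ → ℝ} (ha : ContDiff ℝ ∞ a) (n k : ℕ) {l : ℝ} (hl : 1 ≤ l) {C : ℝ}
    (hC : ∀ x, ‖iteratedFDeriv ℝ k (base a n) x‖ ≤ C) (x : ℝ × ℝ) :
    ‖iteratedFDeriv ℝ k (term a n l) x‖ ≤ (l ^ n)⁻¹ * (C * l ^ k) := by
  have hl0 : 0 < l := by linarith
  have h1 : term a n l = (l ^ n)⁻¹ • (base a n ∘ scal l) := by
    ext x; rfl
  have h2 : ContDiff ℝ ∞ (base a n ∘ scal l) := (contDiff_base ha n).comp (scal l).contDiff
  have hk : ((k : ℕ∞) : WithTop ℕ∞) ≤ ∞ := by exact_mod_cast le_top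
  rw [h1, iteratedFDeriv_const_smul_apply (h2.of_le hk).contDiffAt, norm_smul, norm_inv, norm_pow,
    Real.norm_eq_abs, abs_of_pos hl0]
  apply mul_le_mul_of_nonneg_left _ (by positivity)
  rw [(scal l).iteratedFDeriv_comp_right (contDiff_base ha n) x hk]
  refine (ContinuousMultilinearMap.norm_compContinuousLinearMap_le _ _).trans ?_
  rw [Finset.prod_const, Finset.card_univ, Fintype.card_fin]
  have hC0 : 0 ≤ C := (norm_nonneg _).trans (hC x)
  exact mul_le_mul (hC _) (pow_le_pow_left₀ (norm_nonneg _) (norm_scal_le hl) _)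
    (by positivity) hC0

theorem exists_scale {a : ℝ → ℝ} (ha : ContDiff ℝ ∞ a) (n : ℕ) :
    ∃ l : ℝ, 1 ≤ l ∧ ∀ k < n, ∀ x, ‖iteratedFDeriv ℝ k (term a n l) x‖ ≤ (1 / 2) ^ n := by
  choose C hC using fun k => base_bound ha n k
  have hC0 : ∀ k, 0 ≤ C k := fun k => (norm_nonneg _).trans (hC k 0)
  set S : ℝ := ∑ k ∈ Finset.range n, C k with hS
  have hS0 : 0 ≤ S := Finset.sum_nonneg fun k _ => hC0 k
  have hp' : (0 : ℝ) < 2 ^ n := by positivity
  refine ⟨1 + S * 2 ^ n, by nlinarith [mul_nonneg hS0 hp'.le], ?_⟩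
  intro k hk x
  set l : ℝ := 1 + S * 2 ^ n with hl
  have hp : (0 : ℝ) < 2 ^ n := by positivity
  have hl1 : 1 ≤ l := by nlinarith [mul_nonneg hS0 hp.le]
  have hl0 : 0 < l := by linarith
  refine (term_bound ha n k hl1 (hC k) x).trans ?_
  have hCS : C k ≤ S := Finset.single_le_sum (fun i _ => hC0 i) (Finset.mem_range.mpr hk)
  have h1 : l ^ k * l ≤ l ^ n := by
    rw [← pow_succ]
    exact pow_le_pow_right₀ hl1 hk
  have h2 : C k * 2 ^ n ≤ l := by nlinarith
  rw [div_pow, one_pow, inv_mul_le_iff₀ (by positivity), mul_one_div, le_div_iff₀ hp]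
  calc C k * l ^ k * 2 ^ n = l ^ k * (C k * 2 ^ n) := by ring
    _ ≤ l ^ k * l := mul_le_mul_of_nonneg_left h2 (by positivity)
    _ ≤ l ^ n := h1

/-- the derivatives of a slice -/
theorem slice {G : ℝ × ℝ → ℝ} (hG : ContDiff ℝ ∞ G) (s : ℝ) (k : ℕ) (t : ℝ) :
    iteratedDeriv k (fun r => G (r, s)) t = iteratedFDeriv ℝ k G (t, s) (fun _ => (1, 0)) := by
  have hk : ((k : ℕ∞) : WithTop ℕ∞) ≤ ∞ := by exact_mod_cast le_top
  have h1 : (fun r => G (r, s)) =
      (fun z : ℝ × ℝ => G (z + (0, s))) ∘ (ContinuousLinearMap.inl ℝ ℝ ℝ) := by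
    ext r; simp
  have h2 : ContDiff ℝ ∞ (fun z : ℝ × ℝ => G (z + (0, s))) :=
    hG.comp (contDiff_id.add contDiff_const)
  rw [iteratedDeriv_eq_iteratedFDeriv, h1,
    (ContinuousLinearMap.inl ℝ ℝ ℝ).iteratedFDeriv_comp_right h2 t hk,
    iteratedFDeriv_comp_add_right]
  simp

theorem term_slice (a : ℝ → ℝ) (n k : ℕ) {l : ℝ} (hl : 1 ≤ l) {s : ℝ} (hs : |s| < 1) :
    iteratedDeriv k (fun t => term a n l (t, s)) 0 = if k = n then (n.factorial : ℝ) * a s else 0 := by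
  have hl0 : 0 < l := by linarith
  have h1 : (fun t => term a n l (t, s)) =ᶠ[𝓝 0] fun t => a s * t ^ n := by
    have : ∀ᶠ t : ℝ in 𝓝 0, |l * t| < 1 := by
      have hc : Continuous fun t : ℝ => |l * t| := by fun_prop
      have := hc.tendsto 0
      simp only [mul_zero, abs_zero] at this
      exact this.eventually (gt_mem_nhds one_pos)
    filter_upwards [this] with t ht
    simp only [term, base, scal_apply]
    rw [chi_one ht, chi_one hs, mul_pow]
    field_simp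
  rw [h1.iteratedDeriv_eq, iteratedDeriv_const_mul_field, iteratedDeriv_fun_pow_zero]
  split_ifs <;> ring

end Borel

open Borel in
/-- Borel's lemma with a parameter. -/
theorem borel (c : ℕ → ℝ → ℝ) (hc : ∀ n, ContDiff ℝ ∞ (c n)) :
    ∃ B : ℝ × ℝ → ℝ, ContDiff ℝ ∞ B ∧ ∀ n s, |s| < 1 →
      iteratedDeriv n (fun t => B (t, s)) 0 = c n s := by
  set a : ℕ → ℝ → ℝ := fun n s => c n s / n.factorial with ha
  have hac : ∀ n, ContDiff ℝ ∞ (a n) := fun n => (hc n).div_const _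
  choose l hl1 hl using fun n => exists_scale (hac n) n
  set F : ℕ → ℝ × ℝ → ℝ := fun n => term (a n) n (l n) with hF
  have hFs : ∀ n, ContDiff ℝ ∞ (F n) := fun n => contDiff_term (hac n) n (l n)
  have hb : ∀ k n, ∃ D : ℝ, ∀ x, ‖iteratedFDeriv ℝ k (F n) x‖ ≤ D := by
    intro k n
    obtain ⟨C, hC⟩ := base_bound (hac n) n k
    exact ⟨_, fun x => term_bound (hac n) n k (hl1 n) hC x⟩
  choose D hD using hb
  set v : ℕ → ℕ → ℝ := fun k n => if k < n then (1 / 2) ^ n else D k n with hv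
  have hvb : ∀ (k n : ℕ) (x : ℝ × ℝ), ‖iteratedFDeriv ℝ k (F n) x‖ ≤ v k n := by
    intro k n x
    simp only [hv]
    split_ifs with h
    · exact hl n k h x
    · exact hD k n x
  have hvs : ∀ k, Summable (v k) := by
    intro k
    have h1 : Summable (fun n : ℕ => (1 / 2 : ℝ) ^ n) := summable_geometric_two
    refine h1.congr_cofinite ?_
    rw [Nat.cofinite_eq_atTop]
    filter_upwards [Filter.eventually_gt_atTop k] with n hn
    simp only [hv, if_pos hn]
  have hB : ContDiff ℝ ∞ (fun x => ∑' n, F n x) :=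
    contDiff_tsum (N := ⊤) (v := v) hFs (fun k _ => hvs k) (fun k n x _ => hvb k n x)
  refine ⟨fun x => ∑' n, F n x, hB, ?_⟩
  intro n s hs
  rw [slice hB s n 0, iteratedFDeriv_tsum_apply (N := ⊤) (v := v) hFs (fun k _ => hvs k)
    (fun k n x _ => hvb k n x) le_top]
  have hsum : Summable (fun i => iteratedFDeriv ℝ n (F i) (0, s)) :=
    Summable.of_norm_bounded (hvs n) (fun i => hvb n i _)
  have happ : (∑' i, iteratedFDeriv ℝ n (F i) (0, s)) (fun _ => ((1 : ℝ), (0 : ℝ))) =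
      ∑' i, iteratedFDeriv ℝ n (F i) (0, s) (fun _ => ((1 : ℝ), (0 : ℝ))) := by
    have := (ContinuousMultilinearMap.apply ℝ (fun _ : Fin n => ℝ × ℝ) ℝ
      (fun _ => ((1 : ℝ), (0 : ℝ)))).map_tsum hsum
    simpa using this
  rw [happ]
  have hterm : ∀ i, iteratedFDeriv ℝ n (F i) (0, s) (fun _ => ((1 : ℝ), (0 : ℝ))) =
      if i = n then c n s else 0 := by
    intro i
    rw [← slice (hFs i) s n 0, term_slice (a i) i n (hl1 i) hs]
    by_cases h : n = i
    · subst h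
      simp only [if_true, ha]
      field_simp
    · rw [if_neg h, if_neg (Ne.symm h)]
  simp_rw [hterm]
  exact tsum_ite_eq n _

end Pool.Agent.Helper89.Hedge
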