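import Pool.Agent.Helper89.Hedge.K3a

/-!
# Flat functions of `t` are smooth functions of `t²`
-/

open scoped ContDiff Manifold Topology
noncomputable section
namespace Pool.Agent.Helper89.Hedge

namespace FlatSqrt

/-- iterated derivatives of `t * g t` -/
theorem iteratedDeriv_id_mul (g : ℝ → ℝ) (hg : ContDiff ℝ ∞ g) (n : ℕ) :
    iteratedDeriv (n + 1) (fun t => t * g t) =
      fun t => t * iteratedDeriv (n + 1) g t + (n + 1) * iteratedDeriv n g t := by
  have hd : ∀ k : ℕ, ∀ t, HasDerivAt (iteratedDeriv k g) (iteratedDeriv (k + 1) g t) t := by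
    intro k t
    have h1 : Differentiable ℝ (iteratedDeriv k g) :=
      hg.differentiable_iteratedDeriv k (by exact_mod_cast ENat.natCast_lt_top k)
    rw [iteratedDeriv_succ]
    exact (h1 t).hasDerivAt
  induction n with
  | zero =>
    funext t
    rw [iteratedDeriv_one]
    have h1 : HasDerivAt (fun t => t * g t) (1 * g t + t * iteratedDeriv 1 g t) t := by
      have h2 := hd 0 t
      rw [iteratedDeriv_zero] at h2
      exact (hasDerivAt_id t).mul h2
    rw [h1.deriv]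
    simp [iteratedDeriv_zero]
    ring
  | succ n ih =>
    funext t
    rw [iteratedDeriv_succ, ih]
    have h1 : HasDerivAt (fun t => t * iteratedDeriv (n + 1) g t + (n + 1) * iteratedDeriv n g t)
        (1 * iteratedDeriv (n + 1) g t + t * iteratedDeriv (n + 1 + 1) g t
          + (n + 1) * iteratedDeriv (n + 1) g t) t := by
      exact ((hasDerivAt_id t).mul (hd (n + 1) t)).add ((hd n t).const_mul _)
    rw [h1.deriv]
    push_cast
    ring

/-- Functions divisible by all powers of `t`. -/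
def Q (d : ℝ × ℝ → ℝ) : Prop := ∀ n : ℕ, ∃ g : ℝ × ℝ → ℝ, ContDiff ℝ ∞ g ∧ ∀ x, d x = x.1 ^ n * g x

theorem Q.smooth {d : ℝ × ℝ → ℝ} (h : Q d) : ContDiff ℝ ∞ d := by
  obtain ⟨g, hg, hd⟩ := h 0
  have : d = g := by funext x; rw [hd x]; simp
  rw [this]; exact hg

theorem Q_of_flat (n : ℕ) : ∀ (d : ℝ × ℝ → ℝ), ContDiff ℝ ∞ d →
    (∀ n s, iteratedDeriv n (fun t => d (t, s)) 0 = 0) →
    ∃ g : ℝ × ℝ → ℝ, ContDiff ℝ ∞ g ∧ ∀ x, d x = x.1 ^ n * g x := by
  induction n with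
  | zero => intro d hd _; exact ⟨d, hd, fun x => by simp⟩
  | succ n ih =>
    intro d hd h0
    obtain ⟨g, hg, hdg⟩ := hadamard d hd (fun s => by simpa using h0 0 s)
    have hflat : ∀ n s, iteratedDeriv n (fun t => g (t, s)) 0 = 0 := by
      intro n s
      have h1 := h0 (n + 1) s
      have h2 : (fun t => d (t, s)) = fun t => t * (fun t => g (t, s)) t := by
        funext t; rw [hdg]
      have hgs : ContDiff ℝ ∞ (fun t => g (t, s)) := hg.comp (by fun_prop)
      rw [h2, iteratedDeriv_id_mul _ hgs n] at h1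
      simp only [zero_mul, zero_add] at h1
      rcases mul_eq_zero.1 h1 with h | h
      · exfalso; have : (0:ℝ) < (n:ℝ) + 1 := by positivity
        linarith
      · exact h
    obtain ⟨g', hg', hgg'⟩ := ih g hg hflat
    exact ⟨g', hg', fun x => by rw [hdg, hgg']; ring⟩

theorem Q_of_iteratedDeriv (d : ℝ × ℝ → ℝ) (hd : ContDiff ℝ ∞ d)
    (h0 : ∀ n s, iteratedDeriv n (fun t => d (t, s)) 0 = 0) : Q d :=
  fun n => Q_of_flat n d hd h0

/-- the function of `t²` -/
def DD (d : ℝ × ℝ → ℝ) (x : ℝ × ℝ) : ℝ := if 0 < x.1 then d (Real.sqrt x.1, x.2) else 0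

theorem smooth_dx {f : ℝ × ℝ → ℝ} (hf : ContDiff ℝ ∞ f) : ContDiff ℝ ∞ (dx f) := by
  have h1 : ContDiff ℝ ∞ (fderiv ℝ f) := hf.fderiv_right (by
    rw [show (∞ : WithTop ℕ∞) + 1 = ∞ by rfl])
  exact h1.clm_apply contDiff_const

theorem smooth_dy {f : ℝ × ℝ → ℝ} (hf : ContDiff ℝ ∞ f) : ContDiff ℝ ∞ (dy f) := by
  have h1 : ContDiff ℝ ∞ (fderiv ℝ f) := hf.fderiv_right (by
    rw [show (∞ : WithTop ℕ∞) + 1 = ∞ by rfl])
  exact h1.clm_apply contDiff_const

theorem fderiv_dx_dy (f : ℝ × ℝ → ℝ) (x : ℝ × ℝ) :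
    fderiv ℝ f x = dx f x • ContinuousLinearMap.fst ℝ ℝ ℝ
      + dy f x • ContinuousLinearMap.snd ℝ ℝ ℝ := by
  ext <;> simp [dx, dy]

theorem dy_pow_mul {g : ℝ × ℝ → ℝ} (hg : ContDiff ℝ ∞ g) (n : ℕ) (x : ℝ × ℝ) :
    dy (fun x : ℝ × ℝ => x.1 ^ n * g x) x = x.1 ^ n * dy g x := by
  have hgd : DifferentiableAt ℝ g x := hg.differentiable (by simp) x
  have h1 : HasFDerivAt (fun x : ℝ × ℝ => x.1 ^ n)
      ((n * x.1 ^ (n - 1)) • ContinuousLinearMap.fst ℝ ℝ ℝ) x := by
    have h := (hasDerivAt_pow n x.1).comp_hasFDerivAt x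
      (ContinuousLinearMap.fst ℝ ℝ ℝ).hasFDerivAt
    exact h
  have h2 := h1.mul hgd.hasFDerivAt
  unfold dy
  rw [show (fun x : ℝ × ℝ => x.1 ^ n * g x) = (fun x : ℝ × ℝ => x.1 ^ n) * g from rfl, h2.fderiv]
  simp

theorem dx_pow_mul {g : ℝ × ℝ → ℝ} (hg : ContDiff ℝ ∞ g) (n : ℕ) (x : ℝ × ℝ) :
    dx (fun x : ℝ × ℝ => x.1 ^ n * g x) x = x.1 ^ n * dx g x + n * x.1 ^ (n - 1) * g x := by
  have hgd : DifferentiableAt ℝ g x := hg.differentiable (by simp) x
  have h1 : HasFDerivAt (fun x : ℝ × ℝ => x.1 ^ n)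
      ((n * x.1 ^ (n - 1)) • ContinuousLinearMap.fst ℝ ℝ ℝ) x := by
    have h := (hasDerivAt_pow n x.1).comp_hasFDerivAt x
      (ContinuousLinearMap.fst ℝ ℝ ℝ).hasFDerivAt
    exact h
  have h2 := h1.mul hgd.hasFDerivAt
  unfold dx
  rw [show (fun x : ℝ × ℝ => x.1 ^ n * g x) = (fun x : ℝ × ℝ => x.1 ^ n) * g from rfl, h2.fderiv]
  simp
  ring

theorem Q.dy {d : ℝ × ℝ → ℝ} (h : Q d) : Q (dy d) := by
  intro n
  obtain ⟨g, hg, hd⟩ := h n
  refine ⟨Hedge.dy g, smooth_dy hg, fun x => ?_⟩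
  rw [show d = fun x => x.1 ^ n * g x from funext hd]
  exact dy_pow_mul hg n x

theorem Q.exists_dx {d : ℝ × ℝ → ℝ} (h : Q d) :
    ∃ e, Q e ∧ ∀ x, dx d x = 2 * x.1 * e x := by
  obtain ⟨g, hg, hd⟩ := h 2
  have hdx2 : ∀ x, dx d x = 2 * x.1 * (g x + x.1 * dx g x / 2) := by
    intro x
    rw [show d = fun x => x.1 ^ 2 * g x from funext hd, dx_pow_mul hg 2 x]
    push_cast
    ring
  have he : ContDiff ℝ ∞ (fun x : ℝ × ℝ => g x + x.1 * dx g x / 2) := by
    have := smooth_dx hg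
    fun_prop
  refine ⟨fun x => g x + x.1 * dx g x / 2, ?_, hdx2⟩
  intro n
  obtain ⟨g', hg', hd'⟩ := h (n + 2)
  refine ⟨fun x => ((n + 2 : ℕ) : ℝ) / 2 * g' x + x.1 * dx g' x / 2, ?_, ?_⟩
  · have := smooth_dx hg'
    fun_prop
  · have h2 : (fun x : ℝ × ℝ => g x + x.1 * dx g x / 2) =
        fun x => x.1 ^ n * (((n + 2 : ℕ) : ℝ) / 2 * g' x + x.1 * dx g' x / 2) := by
      have hdense : Dense {x : ℝ × ℝ | x.1 ≠ 0} := by
        have h3 : Dense ({0}ᶜ : Set ℝ) := dense_compl_singleton 0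
        have h4 : IsOpenMap (Prod.fst : ℝ × ℝ → ℝ) := isOpenMap_fst
        exact h3.preimage h4
      refine Continuous.ext_on hdense he.continuous ?_ ?_
      · have := smooth_dx hg'
        have h5 : Continuous (dx g') := this.continuous
        have h6 : Continuous g' := hg'.continuous
        fun_prop
      · intro x hx
        have hx' : x.1 ≠ 0 := hx
        have h7 := hdx2 x
        rw [show d = fun x => x.1 ^ (n + 2) * g' x from funext hd', dx_pow_mul hg' (n + 2) x] at h7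
        have h8 : (2 * x.1) * (g x + x.1 * dx g x / 2) =
            (2 * x.1) * (x.1 ^ n * (((n + 2 : ℕ) : ℝ) / 2 * g' x + x.1 * dx g' x / 2)) := by
          rw [← h7]
          simp only [Nat.add_succ_sub_one]
          ring
        exact mul_left_cancel₀ (mul_ne_zero two_ne_zero hx') h8
    intro x
    exact congrFun h2 x

/-- the derivative of `DD d` -/
theorem hasFDerivAt_DD {d e : ℝ × ℝ → ℝ} (h : Q d) (_he : Q e)
    (hde : ∀ x, dx d x = 2 * x.1 * e x) (x : ℝ × ℝ) :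
    HasFDerivAt (DD d) (DD e x • ContinuousLinearMap.fst ℝ ℝ ℝ
      + DD (dy d) x • ContinuousLinearMap.snd ℝ ℝ ℝ) x := by
  rcases lt_trichotomy x.1 0 with hx | hx | hx
  · have h1 : DD d =ᶠ[𝓝 x] fun _ => 0 := by
      have : ∀ᶠ y : ℝ × ℝ in 𝓝 x, y.1 < 0 :=
        continuous_fst.continuousAt.eventually_lt continuousAt_const hx
      filter_upwards [this] with y hy
      simp [DD, hy.not_gt]
    have h2 : DD e x • ContinuousLinearMap.fst ℝ ℝ ℝ
      + DD (dy d) x • ContinuousLinearMap.snd ℝ ℝ ℝ = 0 := by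
      simp [DD, hx.not_gt]
    rw [h2]
    exact (hasFDerivAt_const 0 x).congr_of_eventuallyEq h1
  · have h2 : DD e x • ContinuousLinearMap.fst ℝ ℝ ℝ
      + DD (dy d) x • ContinuousLinearMap.snd ℝ ℝ ℝ = 0 := by
      simp [DD, hx]
    rw [h2]
    obtain ⟨g, hg, hd⟩ := h 4
    obtain ⟨C, hC⟩ := ((isCompact_closedBall (Real.sqrt x.1, x.2)
      1)).exists_bound_of_continuousOn hg.continuous.continuousOn
    rw [hasFDerivAt_iff_isLittleO_nhds_zero]
    have h3 : (fun h : ℝ × ℝ => DD d (x + h) - DD d x - (0 : ℝ × ℝ →L[ℝ] ℝ) h) =O[𝓝 0]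
        fun h : ℝ × ℝ => h.1 ^ 2 := by
      refine Asymptotics.IsBigO.of_bound C ?_
      have h4 : ∀ᶠ h : ℝ × ℝ in 𝓝 0, (Real.sqrt (x.1 + h.1), x.2 + h.2) ∈
          Metric.closedBall (Real.sqrt x.1, x.2) 1 := by
        have h5 : Continuous (fun h : ℝ × ℝ => (Real.sqrt (x.1 + h.1), x.2 + h.2)) := by
          fun_prop
        have h6 := h5.continuousAt (x := 0)
        refine h6.eventually_mem ?_
        simpa using Metric.closedBall_mem_nhds (Real.sqrt x.1, x.2) one_pos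
      filter_upwards [h4] with h hh
      have h7 : DD d x = 0 := by simp [DD, hx]
      rw [h7, sub_zero, zero_apply, sub_zero]
      unfold DD
      split_ifs with h8
      · have h9 := hC _ hh
        simp only [Prod.fst_add, Prod.snd_add] at h8 ⊢
        rw [hd, norm_mul, mul_comm]
        refine mul_le_mul h9 ?_ (norm_nonneg _) (le_trans (norm_nonneg _) h9)
        simp only
        rw [hx, zero_add] at h8 ⊢
        rw [show Real.sqrt h.1 ^ 4 = (Real.sqrt h.1 ^ 2) ^ 2 by ring, Real.sq_sqrt h8.le]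
      · rw [norm_zero]
        have : 0 ≤ C := le_trans (norm_nonneg _) (hC _ hh)
        positivity
    refine h3.trans_isLittleO ?_
    have h4 : (fun h : ℝ × ℝ => h.1 ^ 2) =O[𝓝 0] fun h : ℝ × ℝ => ‖h‖ ^ 2 := by
      refine Asymptotics.IsBigO.of_bound 1 (Filter.Eventually.of_forall fun h => ?_)
      rw [one_mul, norm_pow, norm_pow, norm_norm]
      exact pow_le_pow_left₀ (norm_nonneg _) (norm_fst_le h) 2
    refine h4.trans_isLittleO ?_
    exact Asymptotics.isLittleO_norm_pow_id one_lt_two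
  · have h1 : DD d =ᶠ[𝓝 x] fun y => d (Real.sqrt y.1, y.2) := by
      have : ∀ᶠ y : ℝ × ℝ in 𝓝 x, 0 < y.1 :=
        continuousAt_const.eventually_lt continuous_fst.continuousAt hx
      filter_upwards [this] with y hy
      simp [DD, hy]
    refine HasFDerivAt.congr_of_eventuallyEq ?_ h1
    have hdiff : DifferentiableAt ℝ d (Real.sqrt x.1, x.2) :=
      h.smooth.differentiable (by simp) _
    have h2 : HasFDerivAt (fun y : ℝ × ℝ => (Real.sqrt y.1, y.2))
        (((1 / (2 * Real.sqrt x.1)) • ContinuousLinearMap.fst ℝ ℝ ℝ).prod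
          (ContinuousLinearMap.snd ℝ ℝ ℝ)) x := by
      refine HasFDerivAt.prodMk ?_ (ContinuousLinearMap.snd ℝ ℝ ℝ).hasFDerivAt
      exact (Real.hasDerivAt_sqrt hx.ne').comp_hasFDerivAt x
        (ContinuousLinearMap.fst ℝ ℝ ℝ).hasFDerivAt
    have h3 := hdiff.hasFDerivAt.comp x h2
    refine h3.congr_fderiv ?_
    rw [fderiv_dx_dy, hde]
    have hs : 0 < Real.sqrt x.1 := Real.sqrt_pos.2 hx
    ext
    · simp [DD, hx]
      field_simp
    · simp [DD, hx]

theorem contDiff_DD (n : ℕ) : ∀ d : ℝ × ℝ → ℝ, Q d → ContDiff ℝ n (DD d) := by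
  induction n with
  | zero =>
    intro d h
    obtain ⟨e, he, hde⟩ := h.exists_dx
    rw [Nat.cast_zero, contDiff_zero]
    exact continuous_iff_continuousAt.2 fun x => (hasFDerivAt_DD h he hde x).continuousAt
  | succ n ih =>
    intro d h
    obtain ⟨e, he, hde⟩ := h.exists_dx
    rw [show ((n + 1 : ℕ) : WithTop ℕ∞) = (n : WithTop ℕ∞) + 1 by push_cast; rfl,
      contDiff_succ_iff_fderiv]
    refine ⟨fun x => (hasFDerivAt_DD h he hde x).differentiableAt, ?_, ?_⟩
    · intro h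
      exact absurd h (by exact_mod_cast WithTop.coe_ne_top)
    · rw [show fderiv ℝ (DD d) = fun x => DD e x • ContinuousLinearMap.fst ℝ ℝ ℝ
          + DD (dy d) x • ContinuousLinearMap.snd ℝ ℝ ℝ from
        funext fun x => (hasFDerivAt_DD h he hde x).fderiv]
      exact ((ih e he).smul contDiff_const).add ((ih (dy d) h.dy).smul contDiff_const)

end FlatSqrt

open FlatSqrt in
/-- K4b. A function `d(t,s)` that is flat at `t = 0` is a smooth function of `(t², s)` for `t > 0`,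
extended by 0. -/
theorem flat_sqrt (d : ℝ × ℝ → ℝ) (hd : ContDiff ℝ ∞ d)
    (h0 : ∀ n s, iteratedDeriv n (fun t => d (t, s)) 0 = 0) :
    ContDiff ℝ ∞ (fun x : ℝ × ℝ => if 0 < x.1 then d (Real.sqrt x.1, x.2) else 0) := by
  rw [contDiff_infty]
  intro n
  exact contDiff_DD n d (Q_of_iteratedDeriv d hd h0)

end Pool.Agent.Helper89.Hedge
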