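import Pool.Agent.Helper89.Hedge.K4cCore
import Pool.Agent.Helper89.Hedge.K3a
import Pool.Agent.Helper89.Hedge.K4a
import Pool.Agent.Helper89.Hedge.K4b

/-!
# Whitney's even/odd decomposition (local, with a parameter)
-/

open scoped ContDiff Manifold Topology
noncomputable section
namespace Pool.Agent.Helper89.Hedge

/-- Locally, a smooth function of `(t, s)` is `a (t², s) + t * b (t², s)` with `a, b` smooth. -/
theorem even_odd (f : ℝ × ℝ → ℝ) (hf : ContDiff ℝ ∞ f) :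
    ∃ a b : ℝ × ℝ → ℝ, ContDiff ℝ ∞ a ∧ ContDiff ℝ ∞ b ∧
      ∀ᶠ x in 𝓝 (0 : ℝ × ℝ), f x = a (x.1 ^ 2, x.2) + x.1 * b (x.1 ^ 2, x.2) :=
  K4c.even_odd_of hadamard borel flat_sqrt f hf

end Pool.Agent.Helper89.Hedge
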