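import Pool.Agent.Helper89.Hedge.K5Aux
import Pool.Agent.Helper89.Hedge.K4c

/-! # The model family is a cuspidal edge (piece K5) -/

open scoped ContDiff Manifold Topology
noncomputable section
namespace Pool.Agent.Helper89.Hedge

theorem isCusp_model (X0 V0 p0 : ℝ → ℝ) (σ s₀ : ℝ) (e : ℝ × ℝ → ℝ) (hX0 : ContDiff ℝ ∞ X0)
    (hV0 : ContDiff ℝ ∞ V0) (hp0 : ContDiff ℝ ∞ p0) (he : ContDiff ℝ ∞ e) (hσ : σ ≠ 0)
    (he0 : e 0 ≠ 0) :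
    IsCusp (fun p => (X0 p.2 + σ * p.1 ^ 2, p.2 + s₀,
      V0 p.2 - p0 p.2 * (σ * p.1 ^ 2) + p.1 ^ 3 * e p)) := by
  obtain ⟨a, b, ha, hb, hev⟩ := even_odd e he
  exact isCusp_model_of X0 V0 p0 σ s₀ e hX0 hV0 hp0 hσ he0 a b ha hb hev

end Pool.Agent.Helper89.Hedge
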