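import Pool.Agent.Helper89.Hedge.K2
import Pool.Agent.Helper89.Hedge.K3b
import Pool.Agent.Helper89.Hedge.K5

/-! # The planar normal form -/

open scoped ContDiff Manifold Topology
noncomputable section
namespace Pool.Agent.Helper89.Hedge

theorem planar_normal_form (g : ℝ × ℝ → ℝ) (hg : ContDiff ℝ ∞ g) (h1 : dx (dx g) 0 = 0)
    (h2 : dx (dy g) 0 = 0) (h3 : dy (dy g) 0 ≠ 0) (h4 : dx (dx (dx g)) 0 ≠ 0) :
    IsCusp (PP g) := by
  obtain ⟨φ, X, V, hφ, hφ0, hφ00, hX, hV, hPP, hXV, h5, h6⟩ := legendre_step g hg h1 h2 h3 h4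
  obtain ⟨φ2, X0, V0, p0, σ, e, hφ2, hφ20, hφ200, hX0, hV0, hp0, he, hσ, he0, hev⟩ :=
    cusp_family X V hX hV hXV h5 h6
  have hG := isCusp_model X0 V0 p0 σ (dy g 0) e hX0 hV0 hp0 he hσ he0
  have h7 : IsCusp (fun p : ℝ × ℝ => (X p, p.2 + dy g 0, V p)) := by
    refine IsCusp.of_comp φ2 hφ2 hφ20 hφ200 ?_ hG
    filter_upwards [hev] with p hp
    obtain ⟨ha, hb, hc⟩ := hp
    simp only [ha, hb, hc]
  refine IsCusp.of_comp φ hφ hφ0 hφ00 hPP h7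

end Pool.Agent.Helper89.Hedge
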