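import Pool.Agent.Helper89.Hedge.S2Core
import Pool.Agent.Helper89.Hedge.S13
import Pool.Agent.Helper89.Hedge.Planar

/-! # The criterion for cuspidal edges (piece S2) -/

open scoped ContDiff Manifold Topology
noncomputable section
namespace Pool.Agent.Helper89.Hedge

theorem crit (H : E3 → ℝ) (hH : OddHomog H) (x v w : E3) (hli : LinearIndependent ℝ ![x, v, w])
    (hv : ∀ y, hess H x v y = 0) (hw : hess H x w w ≠ 0)
    (h3 : fderiv ℝ (fun y => hess H y v v) x v ≠ 0) (u : S2) (r : ℝ) (hr : 0 < r)
    (hu : x = r • (u : E3)) : IsCuspidalEdgeAt (hedgehog (fun v : S2 => H v)) u :=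
  crit_of planar_normal_form H hH (hedgehog_eq H hH) x v w hli hv hw h3 u r hr hu

end Pool.Agent.Helper89.Hedge
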