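import Pool.Agent.Helper89.Hedge.C3Aux
import Pool.Agent.Helper89.Hedge.C1
import Pool.Agent.Helper89.Hedge.C2
import Pool.Agent.Helper89.Hedge.S13
import Pool.Agent.Helper89.Hedge.S2

/-!
# From the chart to the sphere (piece C3)
-/

open scoped ContDiff Manifold Topology
noncomputable section
namespace Pool.Agent.Helper89.Hedge

/-- C3. -/
theorem chart_to_sphere (f : ℝ × ℝ → ℝ) (c : ℝ) (hc : 0 < c) (hf : ContDiff ℝ ∞ f)
    (hg : ∀ x, f (glide x) = -f x) (hfar : ∀ x : ℝ × ℝ, 2 ≤ x.2 → f x = c * nu x)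
    (hgood : Good f) :
    ∃ h : S2 → ℝ, ContMDiff (𝓡 2) 𝓘(ℝ, ℝ) ∞ h ∧ (∀ u, h (-u) = -h u) ∧
      ∀ u, ¬ Function.Injective (mfderiv (𝓡 2) 𝓘(ℝ, E3) (hedgehog h) u) →
        IsCuspidalEdgeAt (hedgehog h) u :=
  C3.chart_to_sphere_aux crit singular_kernel exists_H hess_XX dhess_XX f c hc hf hg hfar hgood

end Pool.Agent.Helper89.Hedge
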