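import Pool.Agent.Helper89.Hedge.Defs

/-!
# From the chart to the sphere (piece C3), auxiliary part

`chart_to_sphere_aux` is the statement `chart_to_sphere` with the theorems `crit`,
`singular_kernel`, `exists_H`, `hess_XX`, `dhess_XX` of the other pieces as hypotheses.
-/

open scoped ContDiff Manifold Topology
noncomputable section
namespace Pool.Agent.Helper89.Hedge.C3


theorem oh_contDiffAt {H : E3 → ℝ} (hH : OddHomog H) {x : E3} (hx : x ≠ 0) :
    ContDiffAt ℝ ∞ H x :=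
  hH.smooth.contDiffAt (isOpen_compl_singleton.mem_nhds hx)

theorem oh_differentiableAt {H : E3 → ℝ} (hH : OddHomog H) {x : E3} (hx : x ≠ 0) :
    DifferentiableAt ℝ H x :=
  (oh_contDiffAt hH hx).differentiableAt (by simp)

theorem oh_contDiffAt_fderiv {H : E3 → ℝ} (hH : OddHomog H) {x : E3} (hx : x ≠ 0) :
    ContDiffAt ℝ ∞ (fderiv ℝ H) x :=
  (oh_contDiffAt hH hx).fderiv_right (by simp)

theorem oh_differentiableAt_fderiv {H : E3 → ℝ} (hH : OddHomog H) {x : E3} (hx : x ≠ 0) :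
    DifferentiableAt ℝ (fderiv ℝ H) x :=
  (oh_contDiffAt_fderiv hH hx).differentiableAt (by simp)

theorem oh_differentiableAt_fderiv_apply {H : E3 → ℝ} (hH : OddHomog H) {x : E3}
    (hx : x ≠ 0) (v : E3) : DifferentiableAt ℝ (fun y => fderiv ℝ H y v) x :=
  (oh_differentiableAt_fderiv hH hx).clm_apply (differentiableAt_const v)

theorem hess_eq {H : E3 → ℝ} (hH : OddHomog H) {x : E3} (hx : x ≠ 0) (v w : E3) :
    hess H x v w = fderiv ℝ (fderiv ℝ H) x w v := by
  have h := ((oh_differentiableAt_fderiv hH hx).hasFDerivAt.clm_apply (hasFDerivAt_const v x)).fderiv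
  unfold hess
  rw [h]
  simp

theorem hess_symm {H : E3 → ℝ} (hH : OddHomog H) {x : E3} (hx : x ≠ 0) (v w : E3) :
    hess H x v w = hess H x w v := by
  rw [hess_eq hH hx, hess_eq hH hx]
  have h : IsSymmSndFDerivAt ℝ H x := (oh_contDiffAt hH hx).isSymmSndFDerivAt
    (by rw [minSmoothness_of_isRCLikeNormedField]; exact WithTop.coe_le_coe.2 le_top)
  exact h w v

theorem hess_add_left {H : E3 → ℝ} (hH : OddHomog H) {x : E3} (hx : x ≠ 0) (v v' w : E3) :
    hess H x (v + v') w = hess H x v w + hess H x v' w := by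
  rw [hess_eq hH hx, hess_eq hH hx, hess_eq hH hx, map_add]

theorem hess_smul_left {H : E3 → ℝ} (hH : OddHomog H) {x : E3} (hx : x ≠ 0) (a : ℝ) (v w : E3) :
    hess H x (a • v) w = a * hess H x v w := by
  rw [hess_eq hH hx, hess_eq hH hx, map_smul, smul_eq_mul]

theorem hess_smul_right (H : E3 → ℝ) (x : E3) (a : ℝ) (v w : E3) :
    hess H x v (a • w) = a * hess H x v w := by
  unfold hess
  rw [map_smul, smul_eq_mul]

/-- the derivative is constant on rays -/
theorem fderiv_smul_ray {H : E3 → ℝ} (hH : OddHomog H) {c : ℝ} (hc : c ≠ 0) {x : E3}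
    (hx : x ≠ 0) : fderiv ℝ H (c • x) = fderiv ℝ H x := by
  have h1 : HasFDerivAt (fun y : E3 => H (c • y)) ((fderiv ℝ H (c • x)).comp
      (c • ContinuousLinearMap.id ℝ E3)) x := by
    have h2 := (oh_differentiableAt hH (smul_ne_zero hc hx)).hasFDerivAt
    exact h2.comp x ((hasFDerivAt_id x).const_smul c)
  have h3 : HasFDerivAt (fun y : E3 => H (c • y)) (c • fderiv ℝ H x) x := by
    have : (fun y : E3 => H (c • y)) = fun y => c * H y := by
      funext y; exact hH.homog c y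
    rw [this]
    exact (oh_differentiableAt hH hx).hasFDerivAt.const_mul c
  have h4 := h1.unique h3
  ext v
  have h5 := congrArg (fun L => L v) h4
  simp only [ContinuousLinearMap.comp_apply, smul_apply,
    ContinuousLinearMap.id_apply, map_smul, smul_eq_mul] at h5
  exact mul_left_cancel₀ hc h5

/-- the Hessian is homogeneous of degree `-1` -/
theorem hess_ray {H : E3 → ℝ} (hH : OddHomog H) {c : ℝ} (hc : c ≠ 0) {x : E3}
    (hx : x ≠ 0) (v w : E3) : hess H x v w = c * hess H (c • x) v w := by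
  have h1 : HasFDerivAt (fun y : E3 => fderiv ℝ H (c • y) v)
      ((fderiv ℝ (fun y => fderiv ℝ H y v) (c • x)).comp (c • ContinuousLinearMap.id ℝ E3)) x := by
    have h2 := (oh_differentiableAt_fderiv_apply hH (smul_ne_zero hc hx) v).hasFDerivAt
    exact h2.comp x ((hasFDerivAt_id x).const_smul c)
  have h3 : HasFDerivAt (fun y : E3 => fderiv ℝ H (c • y) v)
      (fderiv ℝ (fun y => fderiv ℝ H y v) x) x := by
    refine (oh_differentiableAt_fderiv_apply hH hx v).hasFDerivAt.congr_of_eventuallyEq ?_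
    filter_upwards [isOpen_compl_singleton.mem_nhds hx] with y hy
    rw [fderiv_smul_ray hH hc hy]
  have h4 := congrArg (fun L => L w) (h1.unique h3)
  simp only [ContinuousLinearMap.comp_apply, smul_apply,
    ContinuousLinearMap.id_apply, map_smul, smul_eq_mul] at h4
  unfold hess
  rw [← h4]

/-- the radial direction is in the kernel of the Hessian -/
theorem hess_radial {H : E3 → ℝ} (hH : OddHomog H) {x : E3} (hx : x ≠ 0) (y : E3) :
    hess H x y x = 0 := by
  have h1 : HasDerivAt (fun t : ℝ => fderiv ℝ H (t • x) y) (hess H x y x) 1 := by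
    have h2 : HasFDerivAt (fun z => fderiv ℝ H z y) (fderiv ℝ (fun z => fderiv ℝ H z y) x)
        ((1 : ℝ) • x) := by
      rw [one_smul]; exact (oh_differentiableAt_fderiv_apply hH hx y).hasFDerivAt
    have h3 : HasDerivAt (fun t : ℝ => t • x) ((1 : ℝ) • x) 1 := (hasDerivAt_id (1 : ℝ)).smul_const x
    have h4 := h2.comp_hasDerivAt (1 : ℝ) h3
    rw [one_smul] at h4
    exact h4
  have h5 : HasDerivAt (fun t : ℝ => fderiv ℝ H (t • x) y) 0 1 := by
    refine (hasDerivAt_const (1 : ℝ) (fderiv ℝ H x y)).congr_of_eventuallyEq ?_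
    filter_upwards [isOpen_compl_singleton.mem_nhds (one_ne_zero : (1 : ℝ) ≠ 0)] with t ht
    rw [fderiv_smul_ray hH ht hx]
  exact h1.unique h5

theorem hess_axis {H : E3 → ℝ} (hH : OddHomog H) {c : ℝ} (hc : c ≠ 0) {u : E3} (hu : u ≠ 0)
    (h : ∀ᶠ y in 𝓝 u, H y * H y = c ^ 2 * inner ℝ y y) {v : E3} (hv : v ≠ 0)
    (hvu : inner ℝ v u = 0) : hess H u v v ≠ 0 := by
  have hder : ∀ᶠ y in 𝓝 u, fderiv ℝ H y v * H y = c ^ 2 * inner ℝ y v := by
    filter_upwards [h.eventually_nhds, isOpen_compl_singleton.mem_nhds hu] with y hy hy0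
    have hd := (oh_differentiableAt hH hy0).hasFDerivAt
    have h1 := hd.mul hd
    have h2 : HasFDerivAt (fun z : E3 => c ^ 2 * inner ℝ z z)
        (c ^ 2 • (fderivInnerCLM ℝ (y, y)).comp ((ContinuousLinearMap.id ℝ E3).prod
          (ContinuousLinearMap.id ℝ E3))) y :=
      ((hasFDerivAt_id y).inner ℝ (hasFDerivAt_id y)).const_mul (c ^ 2)
    have h3 := h1.unique (h2.congr_of_eventuallyEq hy)
    have h4 := congrArg (fun L => L v) h3
    simp only [add_apply, smul_apply, smul_eq_mul,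
      ContinuousLinearMap.comp_apply, ContinuousLinearMap.prod_apply,
      ContinuousLinearMap.id_apply, fderivInnerCLM_apply] at h4
    rw [real_inner_comm y v] at h4
    linarith
  have hd := (oh_differentiableAt hH hu).hasFDerivAt
  have hd2 := (oh_differentiableAt_fderiv_apply hH hu v).hasFDerivAt
  have h1 := hd2.mul hd
  have h2 : HasFDerivAt (fun z : E3 => c ^ 2 * inner ℝ z v)
        (c ^ 2 • (fderivInnerCLM ℝ (u, v)).comp ((ContinuousLinearMap.id ℝ E3).prod 0)) u :=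
      ((hasFDerivAt_id u).inner ℝ (hasFDerivAt_const v u)).const_mul (c ^ 2)
  have h3 := h1.unique (h2.congr_of_eventuallyEq hder)
  have h4 := congrArg (fun L => L v) h3
  simp only [add_apply, smul_apply, smul_eq_mul,
      ContinuousLinearMap.comp_apply, ContinuousLinearMap.prod_apply,
      ContinuousLinearMap.id_apply, fderivInnerCLM_apply, zero_apply,
      inner_zero_right, zero_add] at h4
  have h5 := hder.self_of_nhds
  rw [real_inner_comm, hvu, mul_zero] at h5
  have hHu : H u ≠ 0 := by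
    intro h0
    have h6 := h.self_of_nhds
    rw [h0, zero_mul] at h6
    have h7 : inner ℝ u u ≠ 0 := inner_self_ne_zero.mpr hu
    exact (mul_ne_zero (pow_ne_zero 2 hc) h7) h6.symm
  have h6 : fderiv ℝ H u v = 0 := by
    rcases mul_eq_zero.mp h5 with h7 | h7
    · exact h7
    · exact absurd h7 hHu
  intro h7
  unfold hess at h7
  rw [h6, h7] at h4
  have h8 : inner ℝ v v ≠ 0 := inner_self_ne_zero.mpr hv
  apply mul_ne_zero (pow_ne_zero 2 hc) h8
  rw [← h4]; ring

theorem XX_ne_zero (x : ℝ × ℝ) : XX x ≠ 0 := by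
  intro h
  have h0 := congrArg (fun z : E3 => z 0) h
  have h1 := congrArg (fun z : E3 => z 1) h
  simp [XX] at h0 h1
  have := Real.sin_sq_add_cos_sq x.1
  rw [h0, h1] at this
  norm_num at this

theorem decomp (x : ℝ × ℝ) (v : E3) :
    ∃ (a : ℝ) (k : ℝ × ℝ), v = a • XX x + XXd x k := by
  refine ⟨v 0 * Real.cos x.1 + v 1 * Real.sin x.1,
    (-v 0 * Real.sin x.1 + v 1 * Real.cos x.1,
      v 2 - (v 0 * Real.cos x.1 + v 1 * Real.sin x.1) * x.2), ?_⟩
  have h := Real.sin_sq_add_cos_sq x.1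
  ext i
  fin_cases i
  · simp [XX, XXd]
    linear_combination (-v 0) * h
  · simp [XX, XXd]
    linear_combination (-v 1) * h
  · simp [XX, XXd]

theorem XXd_smul (x : ℝ × ℝ) (a : ℝ) (k : ℝ × ℝ) : XXd x (a • k) = a • XXd x k := by
  ext i
  fin_cases i <;> simp [XXd] <;> ring

theorem XXd_zero (x : ℝ × ℝ) : XXd x 0 = 0 := by
  ext i
  fin_cases i <;> simp [XXd]

theorem linInd (x k l : ℝ × ℝ) (h : k.1 * l.2 - k.2 * l.1 ≠ 0) :
    LinearIndependent ℝ ![XX x, XXd x k, XXd x l] := by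
  rw [Fintype.linearIndependent_iff]
  intro g hg
  rw [Fin.sum_univ_three] at hg
  have hs := Real.sin_sq_add_cos_sq x.1
  have e0 := congrArg (fun z : E3 => z 0) hg
  have e1 := congrArg (fun z : E3 => z 1) hg
  have e2 := congrArg (fun z : E3 => z 2) hg
  simp [XX, XXd] at e0 e1 e2
  have g0 : g 0 = 0 := by
    linear_combination Real.cos x.1 * e0 + Real.sin x.1 * e1 - g 0 * hs
  have a1 : g 1 * k.1 + g 2 * l.1 = 0 := by
    linear_combination -Real.sin x.1 * e0 + Real.cos x.1 * e1 - (g 1 * k.1 + g 2 * l.1) * hs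
  have a2 : g 1 * k.2 + g 2 * l.2 = 0 := by
    linear_combination e2 - x.2 * g0
  have g1 : g 1 = 0 := by
    have : g 1 * (k.1 * l.2 - k.2 * l.1) = 0 := by linear_combination l.2 * a1 - l.1 * a2
    exact (mul_eq_zero.mp this).resolve_right h
  have g2 : g 2 = 0 := by
    have : g 2 * (k.1 * l.2 - k.2 * l.1) = 0 := by linear_combination k.1 * a2 - k.2 * a1
    exact (mul_eq_zero.mp this).resolve_right h
  intro i
  fin_cases i
  · exact g0
  · exact g1
  · exact g2

theorem MM_smul_left (f : ℝ × ℝ → ℝ) (x v w : ℝ × ℝ) (a : ℝ) :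
    MM f x (a • v) w = a * MM f x v w := by
  simp only [MM, Prod.smul_fst, Prod.smul_snd, smul_eq_mul]
  ring

theorem arg_cos {a b ρ : ℝ} (hρ : 0 < ρ) (h : ρ = Real.sqrt (a ^ 2 + b ^ 2)) :
    ∃ φ : ℝ, Real.cos φ = a / ρ ∧ Real.sin φ = b / ρ := by
  have hz : (⟨a, b⟩ : ℂ) ≠ 0 := by
    intro h0
    have ha := congrArg Complex.re h0
    have hb := congrArg Complex.im h0
    simp at ha hb
    rw [h, ha, hb] at hρ
    simp at hρ
  have hn : ‖(⟨a, b⟩ : ℂ)‖ = ρ := by
    rw [Complex.norm_def, Complex.normSq_mk, h]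
    congr 1; ring
  refine ⟨Complex.arg ⟨a, b⟩, ?_, ?_⟩
  · rw [Complex.cos_arg hz, hn]
  · rw [Complex.sin_arg, hn]

theorem exists_polar {u : E3} (hu : u 0 ^ 2 + u 1 ^ 2 ≠ 0) :
    ∃ (x : ℝ × ℝ) (r : ℝ), 0 < r ∧ XX x = r • u := by
  have h1 : 0 < u 0 ^ 2 + u 1 ^ 2 := lt_of_le_of_ne (by positivity) (Ne.symm hu)
  set ρ := Real.sqrt (u 0 ^ 2 + u 1 ^ 2) with hρ
  have hρ0 : 0 < ρ := Real.sqrt_pos.mpr h1
  obtain ⟨φ, hc, hs⟩ := arg_cos hρ0 hρ
  refine ⟨(φ, u 2 / ρ), ρ⁻¹, inv_pos.mpr hρ0, ?_⟩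
  ext i
  fin_cases i
  · simp [XX, hc]; ring
  · simp [XX, hs]; ring
  · simp [XX]; ring

/-- the points of the axis are regular -/
theorem axis_regular {H : E3 → ℝ} (hH : OddHomog H) {c : ℝ} (_hc : c ≠ 0)
    (hax : ∀ v : E3, 2 * Real.sqrt (v 0 ^ 2 + v 1 ^ 2) ≤ v 2 → H v = c * ‖v‖)
    {u : E3} (hu : u ≠ 0) (hu0 : u 0 ^ 2 + u 1 ^ 2 = 0) :
    ∀ᶠ y in 𝓝 u, H y * H y = c ^ 2 * inner ℝ y y := by
  have h2 : u 2 ≠ 0 := by
    intro h
    apply hu
    have a0 : u 0 = 0 := by nlinarith [sq_nonneg (u 0), sq_nonneg (u 1)]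
    have a1 : u 1 = 0 := by nlinarith [sq_nonneg (u 0), sq_nonneg (u 1)]
    ext i
    fin_cases i
    · exact a0
    · exact a1
    · exact h
  have key : ∀ᶠ y in 𝓝 u, 2 * Real.sqrt (y 0 ^ 2 + y 1 ^ 2) < |y 2| := by
    have hc1 : Continuous fun y : E3 => 2 * Real.sqrt (y 0 ^ 2 + y 1 ^ 2) := by fun_prop
    have hc2 : Continuous fun y : E3 => |y 2| := by fun_prop
    refine (isOpen_lt hc1 hc2).mem_nhds ?_
    simp only [Set.mem_ofPred_eq, hu0, Real.sqrt_zero, mul_zero]
    exact abs_pos.mpr h2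
  filter_upwards [key] with y hy
  rcases le_or_gt 0 (y 2) with h | h
  · rw [abs_of_nonneg h] at hy
    rw [hax y hy.le, real_inner_self_eq_norm_sq]
    ring
  · rw [abs_of_neg h] at hy
    have h3 : H (-y) = c * ‖-y‖ := by
      apply hax
      simp only [PiLp.neg_apply, neg_sq]
      exact hy.le
    have h4 : H (-y) = -H y := by
      have := hH.homog (-1) y
      simpa using this
    have h5 : H y = -(c * ‖y‖) := by
      rw [h4, norm_neg] at h3
      linarith
    rw [h5, real_inner_self_eq_norm_sq]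
    ring

theorem chart_to_sphere_aux
    (crit : ∀ (H : E3 → ℝ), OddHomog H → ∀ (x v w : E3), LinearIndependent ℝ ![x, v, w] →
      (∀ y, hess H x v y = 0) → hess H x w w ≠ 0 →
      fderiv ℝ (fun y => hess H y v v) x v ≠ 0 → ∀ (u : S2) (r : ℝ), 0 < r →
      x = r • (u : E3) → IsCuspidalEdgeAt (hedgehog (fun v : S2 => H v)) u)
    (singular_kernel : ∀ (H : E3 → ℝ), OddHomog H → ∀ (u : S2),
      ¬ Function.Injective (mfderiv (𝓡 2) 𝓘(ℝ, E3) (hedgehog (fun v : S2 => H v)) u) →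
      ∃ v : E3, v ≠ 0 ∧ inner ℝ v (u : E3) = 0 ∧ ∀ y, hess H u v y = 0)
    (exists_H : ∀ (f : ℝ × ℝ → ℝ) (c : ℝ), ContDiff ℝ ∞ f → (∀ x, f (glide x) = -f x) →
      (∀ x : ℝ × ℝ, 2 ≤ x.2 → f x = c * nu x) →
      ∃ H : E3 → ℝ, OddHomog H ∧ (∀ x, H (XX x) = f x) ∧
        ∀ v : E3, 2 * Real.sqrt (v 0 ^ 2 + v 1 ^ 2) ≤ v 2 → H v = c * ‖v‖)
    (hess_XX : ∀ (H : E3 → ℝ), OddHomog H → ∀ (f : ℝ × ℝ → ℝ), (∀ x, H (XX x) = f x) →
      ∀ (x k l : ℝ × ℝ), hess H (XX x) (XXd x k) (XXd x l) = MM f x k l)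
    (dhess_XX : ∀ (H : E3 → ℝ), OddHomog H → ∀ (f : ℝ × ℝ → ℝ), (∀ x, H (XX x) = f x) →
      ∀ (x k : ℝ × ℝ), (∀ y, hess H (XX x) (XXd x k) y = 0) →
      fderiv ℝ (fun y => hess H y (XXd x k) (XXd x k)) (XX x) (XXd x k) =
        fderiv ℝ (fun y => MM f y k k) x k)
    (f : ℝ × ℝ → ℝ) (c : ℝ) (hc : 0 < c) (hf : ContDiff ℝ ∞ f)
    (hg : ∀ x, f (glide x) = -f x) (hfar : ∀ x : ℝ × ℝ, 2 ≤ x.2 → f x = c * nu x)
    (hgood : Good f) :
    ∃ h : S2 → ℝ, ContMDiff (𝓡 2) 𝓘(ℝ, ℝ) ∞ h ∧ (∀ u, h (-u) = -h u) ∧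
      ∀ u, ¬ Function.Injective (mfderiv (𝓡 2) 𝓘(ℝ, E3) (hedgehog h) u) →
        IsCuspidalEdgeAt (hedgehog h) u := by
  obtain ⟨H, hH, hHf, hax⟩ := exists_H f c hf hg hfar
  refine ⟨fun u : S2 => H u, ?_, ?_, ?_⟩
  · intro u
    have hu0 : (u : E3) ≠ 0 := by
      have := norm_eq_of_mem_sphere u
      intro h; rw [h] at this; simp at this
    have h1 : ContMDiffAt 𝓘(ℝ, E3) 𝓘(ℝ, ℝ) ∞ H (u : E3) := (oh_contDiffAt hH hu0).contMDiffAt
    have : Fact (Module.finrank ℝ E3 = 2 + 1) := ⟨by simp⟩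
    exact h1.comp u (contMDiff_coe_sphere u)
  · intro u
    have := hH.homog (-1) (u : E3)
    simpa using this
  · intro u hs
    obtain ⟨v, hv0, hvu, hker⟩ := singular_kernel H hH u hs
    have hu0 : (u : E3) ≠ 0 := by
      have := norm_eq_of_mem_sphere u
      intro h; rw [h] at this; simp at this
    by_cases hax0 : (u : E3) 0 ^ 2 + (u : E3) 1 ^ 2 = 0
    · exfalso
      exact hess_axis hH hc.ne' hu0 (axis_regular hH hc.ne' hax hu0 hax0) hv0 hvu (hker v)
    · obtain ⟨x, r, hr, hx⟩ := exists_polar hax0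
      obtain ⟨a, k, hak⟩ := decomp x v
      have hX0 := XX_ne_zero x
      have hk0 : k ≠ 0 := by
        intro h
        rw [h, XXd_zero, add_zero, hx, smul_smul] at hak
        rw [hak, inner_smul_left] at hvu
        have h2 : inner ℝ (u : E3) (u : E3) ≠ 0 := inner_self_ne_zero.mpr hu0
        have h3 : a * r = 0 := by
          rcases mul_eq_zero.mp hvu with h4 | h4
          · simpa using h4
          · exact absurd h4 h2
        rw [h3, zero_smul] at hak
        exact hv0 hak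
      have hkerX : ∀ y, hess H (XX x) (XXd x k) y = 0 := by
        intro y
        have h1 : hess H (XX x) v y = 0 := by
          have h2 := hess_ray hH hr.ne' hu0 v y
          rw [← hx, hker y] at h2
          exact (mul_eq_zero.mp h2.symm).resolve_left hr.ne'
        rw [hak, hess_add_left hH hX0, hess_smul_left hH hX0, hess_symm hH hX0 (XX x) y,
          hess_radial hH hX0] at h1
        simpa using h1
      obtain ⟨⟨l, hl⟩, h3⟩ := hgood x k hk0 (fun l => by
        rw [← hess_XX H hH f hHf x k l]; exact hkerX _)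
      have hkl : ∀ l, MM f x k l = 0 := fun l => by
        rw [← hess_XX H hH f hHf x k l]; exact hkerX _
      have hdet : k.1 * l.2 - k.2 * l.1 ≠ 0 := by
        intro hd
        have : ∃ b : ℝ, l = b • k := by
          by_cases hk1 : k.1 = 0
          · have hk2 : k.2 ≠ 0 := by
              intro h; exact hk0 (Prod.ext hk1 h)
            refine ⟨l.2 / k.2, ?_⟩
            have hl1 : l.1 = 0 := by
              rw [hk1, zero_mul, zero_sub, neg_eq_zero] at hd
              exact (mul_eq_zero.mp hd).resolve_left hk2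
            ext
            · simp [hk1, hl1]
            · simp [hk2]
          · refine ⟨l.1 / k.1, ?_⟩
            ext
            · simp [hk1]
            · simp only [Prod.smul_snd, smul_eq_mul]
              field_simp
              linarith
        obtain ⟨b, hb⟩ := this
        apply hl
        conv_lhs => rw [hb]
        rw [MM_smul_left, ← hb, hkl l, mul_zero]
      refine crit H hH (XX x) (XXd x k) (XXd x l) (linInd x k l hdet) hkerX ?_ ?_ u r hr hx
      · rw [hess_XX H hH f hHf]; exact hl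
      · rw [dhess_XX H hH f hHf x k hkerX]; exact h3

end Pool.Agent.Helper89.Hedge.C3
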