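import Pool.Agent.Helper89.Hedge.Defs

/-!
# Local diffeomorphisms: inverse function theorem, composition of cusps, global extension
-/

open scoped ContDiff Manifold Topology
noncomputable section
namespace Pool.Agent.Helper89.Hedge

/-- K1a. Inverse function theorem, C^∞ version on an open set. -/
theorem smoothPH_of_invertible {E : Type*} [NormedAddCommGroup E] [NormedSpace ℝ E]
    [CompleteSpace E] (f : E → E) (U : Set E) (hU : IsOpen U) (hf : ContDiffOn ℝ ∞ f U) (x : E)
    (hx : x ∈ U) (e' : E ≃L[ℝ] E) (he : HasFDerivAt f (e' : E →L[ℝ] E) x) :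
    ∃ e : OpenPartialHomeomorph E E, SmoothPH e ∧ x ∈ e.source ∧ e.source ⊆ U ∧
      ∀ y ∈ e.source, e y = f y := by
  have hfx : ContDiffAt ℝ ∞ f x := hf.contDiffAt (hU.mem_nhds hx)
  set e0 := hfx.toOpenPartialHomeomorph f he (by simp) with he0
  have hcont : ContinuousOn (fderiv ℝ f) U := hf.continuousOn_fderiv_of_isOpen hU (by simp)
  set V : Set E := U ∩ (fderiv ℝ f) ⁻¹' (Set.range ((↑) : (E ≃L[ℝ] E) → (E →L[ℝ] E))) with hV
  have hopenV : IsOpen V := hcont.isOpen_inter_preimage hU ContinuousLinearEquiv.isOpen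
  refine ⟨e0.restrOpen V hopenV, ⟨?_, ?_⟩, ?_, ?_, ?_⟩
  · intro y hy
    have hyV : y ∈ V := by
      have := hy
      rw [OpenPartialHomeomorph.restrOpen_source] at this
      exact this.2
    exact (hf.contDiffAt (hU.mem_nhds hyV.1)).contDiffWithinAt
  · intro z hz
    set e := e0.restrOpen V hopenV with he_def
    have hy : e.symm z ∈ e.source := e.map_target hz
    have hyV : e.symm z ∈ V := by
      have := hy
      rw [OpenPartialHomeomorph.restrOpen_source] at this
      exact this.2
    obtain ⟨e'', he''⟩ := hyV.2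
    have hd : ContDiffAt ℝ ∞ f (e.symm z) := hf.contDiffAt (hU.mem_nhds hyV.1)
    have hfd : HasFDerivAt f (e'' : E →L[ℝ] E) (e.symm z) := by
      rw [he'']
      exact (hd.differentiableAt (by simp)).hasFDerivAt
    exact (e.contDiffAt_symm hz hfd hd).contDiffWithinAt
  · rw [OpenPartialHomeomorph.restrOpen_source]
    refine ⟨hfx.mem_toOpenPartialHomeomorph_source he (by simp), hx, e', ?_⟩
    exact he.fderiv.symm
  · rw [OpenPartialHomeomorph.restrOpen_source]
    exact fun y hy => hy.2.1
  · intro y _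
    rfl

/-- K1b. Compose the source diffeomorphisms. -/
theorem IsCusp.of_comp {F G : ℝ × ℝ → ℝ × ℝ × ℝ}
    (φ : OpenPartialHomeomorph (ℝ × ℝ) (ℝ × ℝ)) (hφ : SmoothPH φ) (h0 : (0 : ℝ × ℝ) ∈ φ.source)
    (h00 : φ 0 = 0) (hFG : ∀ᶠ p in 𝓝 (0 : ℝ × ℝ), F (φ p) = G p) (hG : IsCusp G) : IsCusp F := by
  obtain ⟨φ', Ψ, hφ', hΨ, h0', h00', hG0, hev⟩ := hG
  refine ⟨φ'.trans φ, Ψ, ⟨?_, ?_⟩, hΨ, ?_, ?_, ?_, ?_⟩
  · rw [OpenPartialHomeomorph.coe_trans, OpenPartialHomeomorph.trans_source]
    exact hφ.1.comp (hφ'.1.mono Set.inter_subset_left) (fun y hy => hy.2)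
  · rw [OpenPartialHomeomorph.coe_trans_symm, OpenPartialHomeomorph.trans_target]
    exact hφ'.2.comp (hφ.2.mono Set.inter_subset_left) (fun y hy => hy.2)
  · rw [OpenPartialHomeomorph.trans_source]
    refine ⟨h0', ?_⟩
    rw [Set.mem_preimage, h00']
    exact h0
  · rw [OpenPartialHomeomorph.coe_trans, Function.comp_apply, h00', h00]
  · have := hFG.self_of_nhds
    rw [h00] at this
    rw [this]
    exact hG0
  · have hcont : Filter.Tendsto φ' (𝓝 0) (𝓝 0) := by
      have := φ'.continuousAt h0'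
      rw [ContinuousAt, h00'] at this
      exact this
    filter_upwards [hev, hcont.eventually hFG] with p hp hq
    rw [OpenPartialHomeomorph.coe_trans, Function.comp_apply, hq]
    exact hp

/-- K1c. Multiply by a bump function. -/
theorem exists_global {E F : Type*} [NormedAddCommGroup E] [NormedSpace ℝ E]
    [FiniteDimensional ℝ E] [NormedAddCommGroup F] [NormedSpace ℝ F] (f : E → F) (U : Set E)
    (hU : IsOpen U) (hf : ContDiffOn ℝ ∞ f U) (x : E) (hx : x ∈ U) :
    ∃ g : E → F, ContDiff ℝ ∞ g ∧ g =ᶠ[𝓝 x] f := by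
  obtain ⟨r, hr, hrU⟩ := Metric.isOpen_iff.1 hU x hx
  let b : ContDiffBump x := ⟨r / 4, r / 2, by positivity, by linarith⟩
  refine ⟨fun y => b y • f y, ?_, ?_⟩
  · rw [contDiff_iff_contDiffAt]
    intro y
    by_cases hy : y ∈ Metric.ball x r
    · exact b.contDiffAt.smul (hf.contDiffAt (hU.mem_nhds (hrU hy)))
    · have hev : (fun y => b y • f y) =ᶠ[𝓝 y] fun _ => 0 := by
        have hcl : IsClosed (Metric.closedBall x (r / 2)) := Metric.isClosed_closedBall
        have hy2 : y ∈ (Metric.closedBall x (r / 2))ᶜ := by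
          rw [Metric.mem_ball, not_lt] at hy
          rw [Set.mem_compl_iff, Metric.mem_closedBall, not_le]
          linarith
        filter_upwards [hcl.isOpen_compl.mem_nhds hy2] with z hz
        have : b z = 0 := by
          apply b.zero_of_le_dist
          rw [Set.mem_compl_iff, Metric.mem_closedBall, not_le] at hz
          exact hz.le
        rw [this, zero_smul]
      exact contDiffAt_const.congr_of_eventuallyEq hev
  · filter_upwards [b.eventuallyEq_one] with y hy
    rw [hy]
    simp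

end Pool.Agent.Helper89.Hedge
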