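import Pool.Agent.Helper89.Hedge.K1

/-!
# The partial Legendre transform
-/

open scoped ContDiff Manifold Topology
noncomputable section
namespace Pool.Agent.Helper89.Hedge

namespace Legendre

theorem cd_dx {f : ℝ × ℝ → ℝ} (hf : ContDiff ℝ ∞ f) : ContDiff ℝ ∞ (dx f) := by
  unfold dx
  exact (hf.fderiv_right (m := ∞) (by simp)).clm_apply contDiff_const

theorem cd_dy {f : ℝ × ℝ → ℝ} (hf : ContDiff ℝ ∞ f) : ContDiff ℝ ∞ (dy f) := by
  unfold dy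
  exact (hf.fderiv_right (m := ∞) (by simp)).clm_apply contDiff_const

theorem fderiv_eq {f : ℝ × ℝ → ℝ} (x v : ℝ × ℝ) :
    fderiv ℝ f x v = v.1 * dx f x + v.2 * dy f x := by
  have hv : v = v.1 • ((1 : ℝ), (0 : ℝ)) + v.2 • ((0 : ℝ), (1 : ℝ)) := by
    ext <;> simp
  conv_lhs => rw [hv]
  rw [map_add, map_smul, map_smul]
  rfl

theorem symm2 {f : ℝ × ℝ → ℝ} (hf : ContDiff ℝ ∞ f) (x : ℝ × ℝ) :
    dy (dx f) x = dx (dy f) x := by
  have hd : DifferentiableAt ℝ (fderiv ℝ f) x :=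
    ((hf.fderiv_right (m := ∞) (by simp)).differentiable (by simp)) x
  have hs : IsSymmSndFDerivAt ℝ f x := by
    apply ContDiffAt.isSymmSndFDerivAt (n := ∞) hf.contDiffAt
    rw [minSmoothness_of_isRCLikeNormedField]
    exact WithTop.coe_le_coe.2 (le_top : (2 : ℕ∞) ≤ ⊤)
  have e1 : ∀ a b : ℝ × ℝ, fderiv ℝ (fun y => fderiv ℝ f y a) x b
      = fderiv ℝ (fderiv ℝ f) x b a := by
    intro a b
    rw [fderiv_clm_apply hd (differentiableAt_const a)]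
    simp
  unfold dx dy
  rw [e1, e1]
  exact hs _ _

/-- derivative of `p ↦ f (p.1, Q p)` in the first coordinate -/
theorem dx_comp {f Q : ℝ × ℝ → ℝ} (hf : ContDiff ℝ ∞ f) (hQ : ContDiff ℝ ∞ Q) (p : ℝ × ℝ) :
    dx (fun p => f (p.1, Q p)) p = dx f (p.1, Q p) + dx Q p * dy f (p.1, Q p) := by
  have hD : HasFDerivAt (fun p : ℝ × ℝ => (p.1, Q p))
      ((ContinuousLinearMap.fst ℝ ℝ ℝ).prod (fderiv ℝ Q p)) p :=
    hasFDerivAt_fst.prodMk ((hQ.differentiable (by simp)) p).hasFDerivAt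
  have hf' : HasFDerivAt f (fderiv ℝ f (p.1, Q p)) (p.1, Q p) :=
    ((hf.differentiable (by simp)) _).hasFDerivAt
  have := (hf'.comp p hD).fderiv
  have h2 : dx (fun p => f (p.1, Q p)) p = fderiv ℝ f (p.1, Q p) (1, dx Q p) := by
    have h3 : (fun p : ℝ × ℝ => f (p.1, Q p)) = f ∘ fun p : ℝ × ℝ => (p.1, Q p) := rfl
    unfold dx
    rw [h3, this]
    simp
  rw [h2, fderiv_eq]
  simp

theorem dx_mul {f g : ℝ × ℝ → ℝ} (hf : ContDiff ℝ ∞ f) (hg : ContDiff ℝ ∞ g) (p : ℝ × ℝ) :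
    dx (fun p => f p * g p) p = f p * dx g p + g p * dx f p := by
  unfold dx
  rw [fderiv_fun_mul ((hf.differentiable (by simp)) p) ((hg.differentiable (by simp)) p)]
  simp

theorem dx_add {f g : ℝ × ℝ → ℝ} (hf : ContDiff ℝ ∞ f) (hg : ContDiff ℝ ∞ g) (p : ℝ × ℝ) :
    dx (fun p => f p + g p) p = dx f p + dx g p := by
  unfold dx
  rw [fderiv_fun_add ((hf.differentiable (by simp)) p) ((hg.differentiable (by simp)) p)]
  simp

theorem dx_sub {f g : ℝ × ℝ → ℝ} (hf : ContDiff ℝ ∞ f) (hg : ContDiff ℝ ∞ g) (p : ℝ × ℝ) :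
    dx (fun p => f p - g p) p = dx f p - dx g p := by
  unfold dx
  rw [fderiv_fun_sub ((hf.differentiable (by simp)) p) ((hg.differentiable (by simp)) p)]
  simp

theorem dx_fst (p : ℝ × ℝ) : dx (fun p => p.1) p = 1 := by
  unfold dx
  rw [fderiv_fst]
  simp

theorem dx_congr {f g : ℝ × ℝ → ℝ} {p : ℝ × ℝ} (h : f =ᶠ[𝓝 p] g) : dx f p = dx g p := by
  unfold dx
  rw [h.fderiv_eq]

theorem dx_snd_add_const (c : ℝ) (p : ℝ × ℝ) : dx (fun p => p.2 + c) p = 0 := by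
  unfold dx
  rw [fderiv_add_const, fderiv_snd]
  simp

end Legendre

open Legendre

/-- K2. Partial Legendre transform. -/
theorem legendre_step (g : ℝ × ℝ → ℝ) (hg : ContDiff ℝ ∞ g) (h1 : dx (dx g) 0 = 0)
    (h2 : dx (dy g) 0 = 0) (h3 : dy (dy g) 0 ≠ 0) (h4 : dx (dx (dx g)) 0 ≠ 0) :
    ∃ (φ : OpenPartialHomeomorph (ℝ × ℝ) (ℝ × ℝ)) (X V : ℝ × ℝ → ℝ), SmoothPH φ ∧
      (0 : ℝ × ℝ) ∈ φ.source ∧ φ 0 = 0 ∧ ContDiff ℝ ∞ X ∧ ContDiff ℝ ∞ V ∧
      (∀ᶠ p in 𝓝 (0 : ℝ × ℝ), PP g (φ p) = (X p, p.2 + dy g 0, V p)) ∧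
      (∀ᶠ p in 𝓝 (0 : ℝ × ℝ), dx V p = -p.1 * dx X p) ∧ dx X 0 = 0 ∧ dx (dx X) 0 ≠ 0 := by
  have hgx := cd_dx hg
  have hgy := cd_dy hg
  have hgxx := cd_dx hgx
  have hgxy := cd_dy hgx
  have hgyx := cd_dx hgy
  have hgyy := cd_dy hgy
  -- the map `F`
  set F : ℝ × ℝ → ℝ × ℝ := fun x => (x.1, dy g x - dy g 0) with hF
  have hFs : ContDiff ℝ ∞ F := contDiff_fst.prodMk (hgy.sub contDiff_const)
  have hF0 : F 0 = 0 := by simp [hF]
  let e' : (ℝ × ℝ) ≃L[ℝ] (ℝ × ℝ) :=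
    (ContinuousLinearEquiv.refl ℝ ℝ).prodCongr (ContinuousLinearEquiv.smulLeft (Units.mk0 _ h3))
  have hFd : HasFDerivAt F (e' : ℝ × ℝ →L[ℝ] ℝ × ℝ) 0 := by
    have h5 : HasFDerivAt F ((ContinuousLinearMap.fst ℝ ℝ ℝ).prod (fderiv ℝ (dy g) 0)) 0 := by
      have h6 : HasFDerivAt (fun x => dy g x - dy g 0) (fderiv ℝ (dy g) 0) 0 :=
        ((hgy.differentiable (by simp)) 0).hasFDerivAt.sub_const _
      exact hasFDerivAt_fst.prodMk h6
    have h7 : (e' : ℝ × ℝ →L[ℝ] ℝ × ℝ) =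
        (ContinuousLinearMap.fst ℝ ℝ ℝ).prod (fderiv ℝ (dy g) 0) := by
      apply ContinuousLinearMap.ext
      intro v
      rw [ContinuousLinearMap.prod_apply, fderiv_eq, h2]
      have h8 : (e' : ℝ × ℝ →L[ℝ] ℝ × ℝ) v = (v.1, dy (dy g) 0 * v.2) := rfl
      rw [h8]
      simp [mul_comm]
    rw [h7]
    exact h5
  obtain ⟨e, he, he0, -, hee⟩ := smoothPH_of_invertible F Set.univ isOpen_univ hFs.contDiffOn 0
    (Set.mem_univ _) e' hFd
  have he00 : e 0 = 0 := by rw [hee 0 he0, hF0]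
  have het : (0 : ℝ × ℝ) ∈ e.target := by
    have := e.map_source he0
    rwa [he00] at this
  have hes0 : e.symm 0 = 0 := by
    have := e.left_inv he0
    rwa [he00] at this
  have hinv : ∀ x ∈ e.target, F (e.symm x) = x := by
    intro x hx
    rw [← hee _ (e.map_target hx)]
    exact e.right_inv hx
  -- the global function `Q`
  have hQ1 : ContDiffOn ℝ ∞ (fun x => (e.symm x).2) e.target := he.2.snd
  obtain ⟨Q, hQ, hQe⟩ := exists_global (fun x => (e.symm x).2) e.target e.open_target hQ1 0 het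
  have hsymm : ∀ᶠ p in 𝓝 (0 : ℝ × ℝ), e.symm p = (p.1, Q p) := by
    filter_upwards [hQe, e.open_target.mem_nhds het] with p hp hpt
    have h5 : (e.symm p).1 = p.1 := by
      have := congrArg Prod.fst (hinv p hpt)
      simpa [hF] using this
    rw [hp, ← h5]
  have hyQ : ∀ᶠ p in 𝓝 (0 : ℝ × ℝ), dy g (p.1, Q p) = p.2 + dy g 0 := by
    filter_upwards [hsymm, e.open_target.mem_nhds het] with p hp hpt
    have := congrArg Prod.snd (hinv p hpt)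
    rw [hp] at this
    simp only [hF] at this
    linarith
  have hQ0 : Q 0 = 0 := by
    have := hsymm.self_of_nhds
    rw [hes0] at this
    exact (congrArg Prod.snd this).symm
  -- derivative of the relation
  have hyQd : ∀ᶠ p in 𝓝 (0 : ℝ × ℝ), dx (fun p => dy g (p.1, Q p)) p = 0 := by
    filter_upwards [hyQ.eventually_nhds] with p hp
    rw [dx_congr (g := fun p => p.2 + dy g 0) hp, dx_snd_add_const]
  have hD : ContDiff ℝ ∞ (fun p : ℝ × ℝ => (p.1, Q p)) := contDiff_fst.prodMk hQ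
  have hQx0 : dx Q 0 = 0 := by
    have h5 := hyQd.self_of_nhds
    rw [dx_comp hgy hQ, hQ0] at h5
    have h6 : ((0 : ℝ × ℝ).1, (0 : ℝ)) = (0 : ℝ × ℝ) := rfl
    rw [h6, h2, zero_add] at h5
    exact (mul_eq_zero.1 h5).resolve_right h3
  -- `X` and `V`
  set X : ℝ × ℝ → ℝ := fun p => dx g (p.1, Q p) with hX
  set V : ℝ × ℝ → ℝ := fun p => g (p.1, Q p) - p.1 * X p - Q p * dy g (p.1, Q p) with hV
  have hXs : ContDiff ℝ ∞ X := hgx.comp hD
  have hgD : ContDiff ℝ ∞ (fun p : ℝ × ℝ => g (p.1, Q p)) := hg.comp hD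
  have hgyD : ContDiff ℝ ∞ (fun p : ℝ × ℝ => dy g (p.1, Q p)) := hgy.comp hD
  have hpX : ContDiff ℝ ∞ (fun p : ℝ × ℝ => p.1 * X p) := contDiff_fst.mul hXs
  have hQy : ContDiff ℝ ∞ (fun p : ℝ × ℝ => Q p * dy g (p.1, Q p)) := hQ.mul hgyD
  have hVs : ContDiff ℝ ∞ V := (hgD.sub hpX).sub hQy
  have hXd : ∀ p, dx X p = dx (dx g) (p.1, Q p) + dx Q p * dy (dx g) (p.1, Q p) :=
    fun p => dx_comp hgx hQ p
  refine ⟨e.symm, X, V, ⟨he.2, he.1⟩, het, hes0, hXs, hVs, ?_, ?_, ?_, ?_⟩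
  · filter_upwards [hsymm, hyQ] with p hp hq
    rw [hp]
    unfold PP
    simp only [hV, hX, hq]
  · filter_upwards [hyQd] with p hp
    have h5 : dx V p = dx (fun p : ℝ × ℝ => g (p.1, Q p)) p - dx (fun p : ℝ × ℝ => p.1 * X p) p
        - dx (fun p : ℝ × ℝ => Q p * dy g (p.1, Q p)) p := by
      have e1 := dx_sub (hgD.sub hpX) hQy p
      have e2 := dx_sub hgD hpX p
      have e3 : dx V p = dx (fun p : ℝ × ℝ => (g (p.1, Q p) - p.1 * X p)
        - Q p * dy g (p.1, Q p)) p := rfl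
      rw [e3, e1, e2]
    rw [h5, dx_comp hg hQ, dx_mul contDiff_fst hXs, dx_mul hQ hgyD, hp, dx_fst]
    simp only [hX]
    ring
  · rw [hXd, hQ0, hQx0]
    have h6 : ((0 : ℝ × ℝ).1, (0 : ℝ)) = (0 : ℝ × ℝ) := rfl
    rw [h6, h1]
    simp
  · have h5 : dx X = fun p => dx (dx g) (p.1, Q p) + dx Q p * dy (dx g) (p.1, Q p) :=
      funext hXd
    have hQx := cd_dx hQ
    have hA : ContDiff ℝ ∞ (fun p : ℝ × ℝ => dx (dx g) (p.1, Q p)) := hgxx.comp hD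
    have hB : ContDiff ℝ ∞ (fun p : ℝ × ℝ => dy (dx g) (p.1, Q p)) := hgxy.comp hD
    rw [h5, dx_add hA (hQx.mul hB), dx_mul hQx hB, dx_comp hgxx hQ, hQx0, hQ0]
    have h6 : ((0 : ℝ × ℝ).1, (0 : ℝ)) = (0 : ℝ × ℝ) := rfl
    rw [h6, symm2 hg, h2]
    simpa using h4

end Pool.Agent.Helper89.Hedge
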