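import Pool.Agent.Helper89.Hedge.Defs

/-! Whitney's theorem on even functions with a parameter (piece K4c of MP_528454_gt),
relative to the statements of `hadamard`, `borel`, `flat_sqrt`, which are hypotheses here. -/

open scoped ContDiff Manifold Topology
noncomputable section
namespace Pool.Agent.Helper89.Hedge

namespace K4c

theorem contDiff_dfst {f : ℝ × ℝ → ℝ} (hf : ContDiff ℝ ∞ f) :
    ContDiff ℝ ∞ (fun x => fderiv ℝ f x (1, 0)) := by
  have h1 : ContDiff ℝ ∞ (fderiv ℝ f) := hf.fderiv_right (by simp)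
  exact h1.clm_apply contDiff_const

theorem deriv_fst {f : ℝ × ℝ → ℝ} (hf : ContDiff ℝ ∞ f) (t s : ℝ) :
    deriv (fun t => f (t, s)) t = fderiv ℝ f (t, s) (1, 0) := by
  have h1 : HasFDerivAt f (fderiv ℝ f (t, s)) (t, s) :=
    (hf.differentiable (by simp)).differentiableAt.hasFDerivAt
  have h2 : HasDerivAt (fun t : ℝ => (t, s)) ((1 : ℝ), (0 : ℝ)) t :=
    (hasDerivAt_id t).prodMk (hasDerivAt_const t s)
  exact (h1.comp_hasDerivAt t h2).deriv

/-- partial derivatives in the first variable are smooth functions of both variables -/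
theorem iter_fst (n : ℕ) : ∀ f : ℝ × ℝ → ℝ, ContDiff ℝ ∞ f →
    ∃ F : ℝ × ℝ → ℝ, ContDiff ℝ ∞ F ∧ ∀ t s, iteratedDeriv n (fun t => f (t, s)) t = F (t, s) := by
  induction n with
  | zero => exact fun f hf => ⟨f, hf, fun t s => by rw [iteratedDeriv_zero]⟩
  | succ n ih =>
    intro f hf
    obtain ⟨F, hF, h⟩ := ih _ (contDiff_dfst hf)
    refine ⟨F, hF, fun t s => ?_⟩
    rw [iteratedDeriv_succ', ← h]
    congr 1
    funext t
    exact deriv_fst hf t s

theorem slice {f : ℝ × ℝ → ℝ} (hf : ContDiff ℝ ∞ f) (s : ℝ) : ContDiff ℝ ∞ (fun t => f (t, s)) :=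
  hf.comp (contDiff_id.prodMk contDiff_const)

theorem iteratedDeriv_id_mul {g : ℝ → ℝ} (hg : ContDiff ℝ ∞ g) (n : ℕ) :
    iteratedDeriv (n + 1) (fun t => t * g t) =
      fun t => t * iteratedDeriv (n + 1) g t + (n + 1) * iteratedDeriv n g t := by
  have hd : ∀ m : ℕ, Differentiable ℝ (iteratedDeriv m g) := fun m =>
    hg.differentiable_iteratedDeriv m (by exact_mod_cast WithTop.coe_lt_top m)
  induction n with
  | zero =>
    funext t
    rw [iteratedDeriv_one, iteratedDeriv_one, iteratedDeriv_zero]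
    have hg' : DifferentiableAt ℝ g t := (hg.differentiable (by simp)).differentiableAt
    have := ((hasDerivAt_id t).mul hg'.hasDerivAt).deriv
    have h2 : (fun t => t * g t) = (id * g : ℝ → ℝ) := by funext t; simp
    rw [h2, this]
    simp
    ring
  | succ n ih =>
    rw [iteratedDeriv_succ, ih]
    funext t
    have h1 : HasDerivAt (iteratedDeriv (n + 1) g) (iteratedDeriv (n + 2) g t) t := by
      rw [iteratedDeriv_succ (n := n + 1)]
      exact (hd (n + 1)).differentiableAt.hasDerivAt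
    have h2 : HasDerivAt (iteratedDeriv n g) (iteratedDeriv (n + 1) g t) t := by
      rw [iteratedDeriv_succ (n := n)]
      exact (hd n).differentiableAt.hasDerivAt
    have h3 := ((hasDerivAt_id t).mul h1).add (h2.const_mul ((n : ℝ) + 1))
    have h4 : (fun t => t * iteratedDeriv (n + 1) g t + (n + 1) * iteratedDeriv n g t) =
        (id * iteratedDeriv (n + 1) g + fun y => ((n : ℝ) + 1) * iteratedDeriv n g y) := by
      funext t; simp
    rw [h4, h3.deriv]
    simp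
    ring

/-- derivatives of even order at `0` of `β (t ^ 2)` -/
theorem iter_sq (m : ℕ) : ∀ β : ℝ → ℝ, ContDiff ℝ ∞ β →
    iteratedDeriv (2 * m) (fun t => β (t ^ 2)) 0 =
      (∏ j ∈ Finset.range m, (2 * (2 * (j : ℝ) + 1))) * iteratedDeriv m β 0 := by
  induction m with
  | zero =>
    intro β _
    simp
  | succ m ih =>
    intro β hβ
    have hβ' : ContDiff ℝ ∞ (deriv β) := (contDiff_infty_iff_deriv.1 hβ).2
    have h1 : deriv (fun t => β (t ^ 2)) = fun t => t * (2 * deriv β (t ^ 2)) := by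
      funext t
      have ha : HasDerivAt β (deriv β (t ^ 2)) (t ^ 2) :=
        (hβ.differentiable (by simp)).differentiableAt.hasDerivAt
      have hb : HasDerivAt (fun t : ℝ => t ^ 2) (2 * t) t := by
        simpa using hasDerivAt_pow 2 t
      have hc : HasDerivAt (β ∘ fun t : ℝ => t ^ 2) (deriv β (t ^ 2) * (2 * t)) t :=
        HasDerivAt.comp (h₂ := β) (h := fun t : ℝ => t ^ 2) t ha hb
      rw [show (fun t => β (t ^ 2)) = β ∘ fun t => t ^ 2 from rfl, hc.deriv]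
      ring
    have hsq : ContDiff ℝ ∞ (fun t : ℝ => 2 * deriv β (t ^ 2)) :=
      contDiff_const.mul (hβ'.comp (contDiff_id.pow 2))
    rw [show 2 * (m + 1) = (2 * m + 1) + 1 by ring, iteratedDeriv_succ', h1,
      iteratedDeriv_id_mul hsq]
    simp only [zero_mul, zero_add]
    rw [iteratedDeriv_const_mul_field, ih _ hβ', Finset.prod_range_succ, iteratedDeriv_succ']
    push_cast
    ring

theorem iter_odd {g : ℝ → ℝ} (hg : ∀ t, g (-t) = g t) (m : ℕ) :
    iteratedDeriv (2 * m + 1) g 0 = 0 := by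
  have h1 := iteratedDeriv_comp_neg (2 * m + 1) g 0
  have h2 : (fun x => g (-x)) = g := funext hg
  rw [h2, neg_zero, pow_succ, pow_mul] at h1
  simp at h1
  linarith

/-- the statement of `hadamard` -/
def HadamardStmt : Prop := ∀ (f : ℝ × ℝ → ℝ) (_ : ContDiff ℝ ∞ f) (_ : ∀ s, f (0, s) = 0),
    ∃ g : ℝ × ℝ → ℝ, ContDiff ℝ ∞ g ∧ ∀ x, f x = x.1 * g x

/-- the statement of `borel` -/
def BorelStmt : Prop := ∀ (c : ℕ → ℝ → ℝ) (_ : ∀ n, ContDiff ℝ ∞ (c n)),
    ∃ B : ℝ × ℝ → ℝ, ContDiff ℝ ∞ B ∧ ∀ n s, |s| < 1 →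
      iteratedDeriv n (fun t => B (t, s)) 0 = c n s

/-- the statement of `flat_sqrt` -/
def FlatSqrtStmt : Prop := ∀ (d : ℝ × ℝ → ℝ) (_ : ContDiff ℝ ∞ d)
    (_ : ∀ n s, iteratedDeriv n (fun t => d (t, s)) 0 = 0),
    ContDiff ℝ ∞ (fun x : ℝ × ℝ => if 0 < x.1 then d (Real.sqrt x.1, x.2) else 0)

/-- the even case -/
theorem even_case (borel : BorelStmt) (flat_sqrt : FlatSqrtStmt) (f : ℝ × ℝ → ℝ) (hf : ContDiff ℝ ∞ f) (he : ∀ t s, f (-t, s) = f (t, s)) :
    ∃ a : ℝ × ℝ → ℝ, ContDiff ℝ ∞ a ∧ ∀ᶠ x in 𝓝 (0 : ℝ × ℝ), f x = a (x.1 ^ 2, x.2) := by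
  choose F hF hF' using fun n : ℕ => iter_fst (2 * n) f hf
  obtain ⟨k, hk⟩ : ∃ k : ℕ → ℝ, k = fun m => ∏ j ∈ Finset.range m, (2 * (2 * (j : ℝ) + 1)) :=
    ⟨_, rfl⟩
  have hk0 : ∀ m, k m ≠ 0 := by
    intro m
    rw [hk]
    exact Finset.prod_ne_zero_iff.2 fun j _ => by positivity
  obtain ⟨B, hB, hB'⟩ := borel (fun n s => (k n)⁻¹ * F n (0, s)) (fun n =>
    contDiff_const.mul ((hF n).comp (contDiff_const.prodMk contDiff_id)))
  obtain ⟨χ, -, hχ2, -, hχ3, -⟩ : ∃ χ : ContDiffBump (0 : ℝ), True ∧ χ.rIn = 1 / 4 ∧ True ∧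
      χ.rOut = 1 / 2 ∧ True := ⟨⟨1 / 4, 1 / 2, by norm_num, by norm_num⟩, trivial, rfl, trivial, rfl,
        trivial⟩
  have hBsq : ContDiff ℝ ∞ (fun x : ℝ × ℝ => B (x.1 ^ 2, x.2)) :=
    hB.comp ((contDiff_fst.pow 2).prodMk contDiff_snd)
  obtain ⟨d, hd⟩ : ∃ d : ℝ × ℝ → ℝ, d = fun x => χ x.2 * (f x - B (x.1 ^ 2, x.2)) := ⟨_, rfl⟩
  have hdsm : ContDiff ℝ ∞ d := by
    rw [hd]
    exact (χ.contDiff.comp contDiff_snd).mul (hf.sub hBsq)
  have hflat : ∀ n s, iteratedDeriv n (fun t => d (t, s)) 0 = 0 := by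
    intro n s
    have h1 : (fun t => d (t, s)) = fun t => χ s * ((fun t => f (t, s)) - fun t => B (t ^ 2, s)) t := by
      funext t
      rw [hd]
      simp
    rw [h1, iteratedDeriv_const_mul_field]
    rcases le_or_gt 1 |s| with hs | hs
    · have : χ s = 0 := by
        apply χ.zero_of_le_dist
        rw [hχ3, Real.dist_eq, sub_zero]
        linarith
      rw [this, zero_mul]
    · have h2 : ContDiff ℝ ∞ (fun t => B (t ^ 2, s)) := slice hBsq s
      have h3 : iteratedDeriv n (fun t => f (t, s)) 0 = iteratedDeriv n (fun t => B (t ^ 2, s)) 0 := by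
        rcases Nat.even_or_odd' n with ⟨m, rfl | rfl⟩
        · rw [hF' m 0 s, iter_sq m (fun t => B (t, s)) (slice hB s), hB' m s hs]
          rw [show (∏ j ∈ Finset.range m, (2 * (2 * (j : ℝ) + 1))) = k m by rw [hk],
            mul_inv_cancel_left₀ (hk0 m)]
        · rw [iter_odd (fun t => he t s), iter_odd (fun t => by rw [neg_sq])]
      rw [iteratedDeriv_sub ((slice hf s).contDiffAt.of_le (by exact_mod_cast le_top))
        (h2.contDiffAt.of_le (by exact_mod_cast le_top)), h3, sub_self, mul_zero]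
  have hA := flat_sqrt d hdsm hflat
  refine ⟨fun x => B x + (if 0 < x.1 then d (Real.sqrt x.1, x.2) else 0), hB.add hA, ?_⟩
  have hnear : ∀ᶠ x in 𝓝 (0 : ℝ × ℝ), |x.2| < 1 / 4 := by
    have : Filter.Tendsto (fun x : ℝ × ℝ => |x.2|) (𝓝 0) (𝓝 0) := by
      have h := (continuous_abs.comp continuous_snd).tendsto (0 : ℝ × ℝ)
      simpa [Function.comp_def] using h
    exact this.eventually (gt_mem_nhds (by norm_num))
  filter_upwards [hnear] with x hx
  have hχ : χ x.2 = 1 := by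
    apply χ.one_of_mem_closedBall
    rw [hχ2, Metric.mem_closedBall, Real.dist_eq, sub_zero]
    exact hx.le
  by_cases ht : x.1 = 0
  · have h1 : ¬ (0 < x.1 ^ 2) := by rw [ht]; simp
    rw [if_neg h1, add_zero, ht]
    have h2 := hB' 0 x.2 (by linarith)
    rw [iteratedDeriv_zero] at h2
    have h3 := hF' 0 0 x.2
    rw [mul_zero, iteratedDeriv_zero] at h3
    have h4 : k 0 = 1 := by rw [hk]; simp
    rw [h4, inv_one, one_mul, ← h3] at h2
    rw [show ((0 : ℝ) ^ 2) = 0 by norm_num, h2, ← ht]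
  · have h1 : 0 < x.1 ^ 2 := by positivity
    rw [if_pos h1, Real.sqrt_sq_eq_abs, hd]
    simp only [hχ, one_mul, sq_abs]
    rcases abs_choice x.1 with h | h
    · rw [h]; ring
    · rw [h, he]; ring

theorem even_odd_of (hadamard : HadamardStmt) (borel : BorelStmt) (flat_sqrt : FlatSqrtStmt)
    (f : ℝ × ℝ → ℝ) (hf : ContDiff ℝ ∞ f) :
    ∃ a b : ℝ × ℝ → ℝ, ContDiff ℝ ∞ a ∧ ContDiff ℝ ∞ b ∧
      ∀ᶠ x in 𝓝 (0 : ℝ × ℝ), f x = a (x.1 ^ 2, x.2) + x.1 * b (x.1 ^ 2, x.2) := by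
  have hneg : ContDiff ℝ ∞ (fun x : ℝ × ℝ => f (-x.1, x.2)) :=
    hf.comp (contDiff_fst.neg.prodMk contDiff_snd)
  have hev : ContDiff ℝ ∞ (fun x : ℝ × ℝ => (f x + f (-x.1, x.2)) / 2) := (hf.add hneg).div_const 2
  have hod : ContDiff ℝ ∞ (fun x : ℝ × ℝ => (f x - f (-x.1, x.2)) / 2) := (hf.sub hneg).div_const 2
  obtain ⟨a, ha, ha'⟩ := even_case borel flat_sqrt _ hev (fun t s => by simp [add_comm])
  obtain ⟨g, hg, hg'⟩ := hadamard _ hod (fun s => by simp)
  have hge : ∀ t s, g (-t, s) = g (t, s) := by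
    intro t s
    by_cases ht : t = 0
    · rw [ht, neg_zero]
    · have h1 := hg' (t, s)
      have h2 := hg' (-t, s)
      simp only [neg_neg] at h1 h2
      have h3 : t * (g (-t, s) - g (t, s)) = 0 := by linarith
      rcases mul_eq_zero.1 h3 with h | h
      · exact absurd h ht
      · linarith
  obtain ⟨b, hb, hb'⟩ := even_case borel flat_sqrt g hg hge
  refine ⟨a, b, ha, hb, ?_⟩
  filter_upwards [ha', hb'] with x h1 h2
  rw [← h1, ← h2, ← hg' x]
  ring

end K4c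

end Pool.Agent.Helper89.Hedge
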