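import Pool.Agent.Helper89.Hedge.Defs

/-!
# Normal form of the model map (piece K5)
-/

open scoped ContDiff Manifold Topology
noncomputable section
namespace Pool.Agent.Helper89.Hedge

namespace Model

/-- swap of the coordinates -/
def swapPH : OpenPartialHomeomorph (ℝ × ℝ) (ℝ × ℝ) :=
  (Homeomorph.prodComm ℝ ℝ).toOpenPartialHomeomorph

theorem swapPH_apply (p : ℝ × ℝ) : swapPH p = (p.2, p.1) := rfl

theorem smooth_swapPH : SmoothPH swapPH := by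
  constructor
  · exact (contDiff_snd.prodMk contDiff_fst).contDiffOn
  · exact (contDiff_snd.prodMk contDiff_fst).contDiffOn

variable (X0 V0 p0 : ℝ → ℝ) (σ s₀ : ℝ) (a b : ℝ × ℝ → ℝ)

/-- the coordinates `(Y, s)` -/
def ys (x : ℝ × ℝ × ℝ) : ℝ × ℝ := ((x.1 - X0 (x.2.1 - s₀)) / σ, x.2.1 - s₀)

/-- the straightening map -/
def fwd (x : ℝ × ℝ × ℝ) : ℝ × ℝ × ℝ :=
  (x.2.1 - s₀, (x.1 - X0 (x.2.1 - s₀)) / σ,
    (x.2.2 - V0 (x.2.1 - s₀) + p0 (x.2.1 - s₀) * (x.1 - X0 (x.2.1 - s₀))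
      - ((x.1 - X0 (x.2.1 - s₀)) / σ) ^ 2 * b (ys X0 σ s₀ x)) / a (ys X0 σ s₀ x))

/-- its inverse -/
def bwd (y : ℝ × ℝ × ℝ) : ℝ × ℝ × ℝ :=
  (X0 y.1 + σ * y.2.1, y.1 + s₀,
    V0 y.1 - p0 y.1 * (σ * y.2.1) + y.2.1 ^ 2 * b (y.2.1, y.1) + y.2.2 * a (y.2.1, y.1))

variable {X0 V0 p0 σ s₀ a b}

theorem contDiff_ys (hX0 : ContDiff ℝ ∞ X0) : ContDiff ℝ ∞ (ys X0 σ s₀) := by
  have h1 : ContDiff ℝ ∞ fun x : ℝ × ℝ × ℝ => x.2.1 - s₀ :=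
    (contDiff_fst.comp contDiff_snd).sub contDiff_const
  exact ((contDiff_fst.sub (hX0.comp h1)).div_const _).prodMk h1

theorem contDiffOn_fwd (hX0 : ContDiff ℝ ∞ X0) (hV0 : ContDiff ℝ ∞ V0) (hp0 : ContDiff ℝ ∞ p0)
    (ha : ContDiff ℝ ∞ a) (hb : ContDiff ℝ ∞ b) :
    ContDiffOn ℝ ∞ (fwd X0 V0 p0 σ s₀ a b) {x | a (ys X0 σ s₀ x) ≠ 0} := by
  have h1 : ContDiff ℝ ∞ fun x : ℝ × ℝ × ℝ => x.2.1 - s₀ :=
    (contDiff_fst.comp contDiff_snd).sub contDiff_const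
  have h2 : ContDiff ℝ ∞ fun x : ℝ × ℝ × ℝ => x.1 - X0 (x.2.1 - s₀) :=
    contDiff_fst.sub (hX0.comp h1)
  have h3 : ContDiff ℝ ∞ fun x : ℝ × ℝ × ℝ => (x.1 - X0 (x.2.1 - s₀)) / σ := h2.div_const _
  have hy : ContDiff ℝ ∞ (ys X0 σ s₀) := contDiff_ys hX0
  have h4 : ContDiff ℝ ∞ fun x : ℝ × ℝ × ℝ => x.2.2 - V0 (x.2.1 - s₀) +
      p0 (x.2.1 - s₀) * (x.1 - X0 (x.2.1 - s₀))
      - ((x.1 - X0 (x.2.1 - s₀)) / σ) ^ 2 * b (ys X0 σ s₀ x) :=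
    (((contDiff_snd.comp contDiff_snd).sub (hV0.comp h1)).add ((hp0.comp h1).mul h2)).sub
      ((h3.pow 2).mul (hb.comp hy))
  exact h1.contDiffOn.prodMk (h3.contDiffOn.prodMk
    (h4.contDiffOn.div (ha.comp hy).contDiffOn fun x hx => hx))

theorem contDiff_bwd (hX0 : ContDiff ℝ ∞ X0) (hV0 : ContDiff ℝ ∞ V0) (hp0 : ContDiff ℝ ∞ p0)
    (ha : ContDiff ℝ ∞ a) (hb : ContDiff ℝ ∞ b) : ContDiff ℝ ∞ (bwd X0 V0 p0 σ s₀ a b) := by
  have h1 : ContDiff ℝ ∞ fun x : ℝ × ℝ × ℝ => x.1 := contDiff_fst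
  have h2 : ContDiff ℝ ∞ fun x : ℝ × ℝ × ℝ => x.2.1 := contDiff_fst.comp contDiff_snd
  have h3 : ContDiff ℝ ∞ fun x : ℝ × ℝ × ℝ => x.2.2 := contDiff_snd.comp contDiff_snd
  have h4 : ContDiff ℝ ∞ fun x : ℝ × ℝ × ℝ => (x.2.1, x.1) := h2.prodMk h1
  have h5 : ContDiff ℝ ∞ fun x : ℝ × ℝ × ℝ => σ * x.2.1 := contDiff_const.mul h2
  exact ((hX0.comp h1).add h5).prodMk ((h1.add contDiff_const).prodMk
    ((((hV0.comp h1).sub ((hp0.comp h1).mul h5)).add ((h2.pow 2).mul (hb.comp h4))).add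
      (h3.mul (ha.comp h4))))

/-- the straightening diffeomorphism -/
def straight (hX0 : ContDiff ℝ ∞ X0) (hV0 : ContDiff ℝ ∞ V0) (hp0 : ContDiff ℝ ∞ p0)
    (ha : ContDiff ℝ ∞ a) (hb : ContDiff ℝ ∞ b) (hσ : σ ≠ 0) :
    OpenPartialHomeomorph (ℝ × ℝ × ℝ) (ℝ × ℝ × ℝ) where
  toFun := fwd X0 V0 p0 σ s₀ a b
  invFun := bwd X0 V0 p0 σ s₀ a b
  source := {x | a (ys X0 σ s₀ x) ≠ 0}
  target := {y | a (y.2.1, y.1) ≠ 0}
  map_source' := by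
    intro x hx
    exact hx
  map_target' := by
    intro y hy
    have h : ys X0 σ s₀ (bwd X0 V0 p0 σ s₀ a b y) = (y.2.1, y.1) := by
      simp only [ys, bwd, add_sub_cancel_right, add_sub_cancel_left, mul_div_cancel_left₀ _ hσ]
    show a (ys X0 σ s₀ (bwd X0 V0 p0 σ s₀ a b y)) ≠ 0
    rw [h]
    exact hy
  left_inv' := by
    intro x hx
    have h1 : a ((x.1 - X0 (x.2.1 - s₀)) / σ, x.2.1 - s₀) ≠ 0 := hx
    obtain ⟨x1, x2, x3⟩ := x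
    simp only [fwd, bwd, ys] at h1 ⊢
    refine Prod.ext ?_ (Prod.ext ?_ ?_)
    · simp only
      field_simp
      ring
    · simp only
      ring
    · simp only
      rw [div_mul_cancel₀ _ h1]
      field_simp
      ring
  right_inv' := by
    intro y hy
    have h1 : a (y.2.1, y.1) ≠ 0 := hy
    have h : ys X0 σ s₀ (bwd X0 V0 p0 σ s₀ a b y) = (y.2.1, y.1) := by
      simp only [ys, bwd, add_sub_cancel_right, add_sub_cancel_left, mul_div_cancel_left₀ _ hσ]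
    unfold fwd
    rw [h]
    obtain ⟨y1, y2, y3⟩ := y
    simp only [bwd, add_sub_cancel_right, add_sub_cancel_left, mul_div_cancel_left₀ _ hσ] at h1 ⊢
    refine Prod.ext rfl (Prod.ext rfl ?_)
    simp only
    rw [div_eq_iff h1]
    ring
  open_source := by
    exact isOpen_ne_fun (ha.continuous.comp (contDiff_ys hX0).continuous) continuous_const
  open_target := by
    exact isOpen_ne_fun (ha.continuous.comp (by fun_prop)) continuous_const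
  continuousOn_toFun := (contDiffOn_fwd hX0 hV0 hp0 ha hb).continuousOn
  continuousOn_invFun := (contDiff_bwd hX0 hV0 hp0 ha hb).continuous.continuousOn

end Model

open Model

theorem isCusp_model_of (X0 V0 p0 : ℝ → ℝ) (σ s₀ : ℝ) (e : ℝ × ℝ → ℝ) (hX0 : ContDiff ℝ ∞ X0)
    (hV0 : ContDiff ℝ ∞ V0) (hp0 : ContDiff ℝ ∞ p0) (hσ : σ ≠ 0)
    (he0 : e 0 ≠ 0) (a b : ℝ × ℝ → ℝ) (ha : ContDiff ℝ ∞ a) (hb : ContDiff ℝ ∞ b)
    (hev : ∀ᶠ x in 𝓝 (0 : ℝ × ℝ), e x = a (x.1 ^ 2, x.2) + x.1 * b (x.1 ^ 2, x.2)) :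
    IsCusp (fun p => (X0 p.2 + σ * p.1 ^ 2, p.2 + s₀,
      V0 p.2 - p0 p.2 * (σ * p.1 ^ 2) + p.1 ^ 3 * e p)) := by
  have ha0 : a 0 ≠ 0 := by
    have h := hev.self_of_nhds
    simp only [Prod.fst_zero, Prod.snd_zero, zero_mul, add_zero, ne_eq, OfNat.ofNat_ne_zero,
      not_false_eq_true, zero_pow] at h
    rw [h] at he0
    exact he0
  have ha0' : a (0, 0) ≠ 0 := ha0
  refine ⟨swapPH, straight (s₀ := s₀) hX0 hV0 hp0 ha hb hσ, smooth_swapPH,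
    ⟨contDiffOn_fwd hX0 hV0 hp0 ha hb, (contDiff_bwd hX0 hV0 hp0 ha hb).contDiffOn⟩,
    Set.mem_univ _, rfl, ?_, ?_⟩
  · show a (ys X0 σ s₀ _) ≠ 0
    simp only [ys, Prod.fst_zero, Prod.snd_zero, zero_add, sub_self]
    simpa using ha0'
  · have hsw : Filter.Tendsto (fun p : ℝ × ℝ => (p.2, p.1)) (𝓝 0) (𝓝 0) := by
      have : Continuous fun p : ℝ × ℝ => (p.2, p.1) := by fun_prop
      exact this.tendsto 0
    have hane : ∀ᶠ p : ℝ × ℝ in 𝓝 0, a (p.2 ^ 2, p.1) ≠ 0 := by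
      have hc : Continuous fun p : ℝ × ℝ => a (p.2 ^ 2, p.1) :=
        ha.continuous.comp (by fun_prop)
      apply hc.continuousAt.eventually_ne
      simpa using ha0'
    filter_upwards [hsw.eventually hev, hane] with p hp hap
    have hys : ys X0 σ s₀ (X0 p.1 + σ * p.2 ^ 2, p.1 + s₀,
        V0 p.1 - p0 p.1 * (σ * p.2 ^ 2) + p.2 ^ 3 * e (p.2, p.1)) = (p.2 ^ 2, p.1) := by
      simp only [ys, add_sub_cancel_right, add_sub_cancel_left, mul_div_cancel_left₀ _ hσ]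
    constructor
    · show a (ys X0 σ s₀ (X0 p.1 + σ * p.2 ^ 2, p.1 + s₀,
        V0 p.1 - p0 p.1 * (σ * p.2 ^ 2) + p.2 ^ 3 * e (p.2, p.1))) ≠ 0
      rw [hys]
      exact hap
    · show fwd X0 V0 p0 σ s₀ a b (X0 p.1 + σ * p.2 ^ 2, p.1 + s₀,
        V0 p.1 - p0 p.1 * (σ * p.2 ^ 2) + p.2 ^ 3 * e (p.2, p.1)) = (p.1, p.2 ^ 2, p.2 ^ 3)
      unfold fwd
      rw [hys, hp]
      simp only [add_sub_cancel_right, add_sub_cancel_left, mul_div_cancel_left₀ _ hσ]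
      refine Prod.ext rfl (Prod.ext rfl ?_)
      simp only
      rw [div_eq_iff hap]
      ring

end Pool.Agent.Helper89.Hedge
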