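import Pool.Agent.Helper89.Hedge.Defs

/-!
# L1: three one-variable cutoff functions
-/

set_option autoImplicit false

open scoped ContDiff Manifold Topology
noncomputable section
namespace Pool.Agent.Helper89.Hedge

namespace L1

open MeasureTheory intervalIntegral

/-- a smooth function which is positive exactly on `(a, b)` -/
def dens (a b t : ℝ) : ℝ := expNegInvGlue (t - a) * expNegInvGlue (b - t)

theorem contDiff_dens (a b : ℝ) : ContDiff ℝ ∞ (dens a b) := by
  unfold dens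
  exact (expNegInvGlue.contDiff.comp (contDiff_id.sub contDiff_const)).mul
    (expNegInvGlue.contDiff.comp (contDiff_const.sub contDiff_id))

theorem dens_nonneg (a b t : ℝ) : 0 ≤ dens a b t :=
  mul_nonneg (expNegInvGlue.nonneg _) (expNegInvGlue.nonneg _)

theorem dens_pos {a b t : ℝ} (h1 : a < t) (h2 : t < b) : 0 < dens a b t :=
  mul_pos (expNegInvGlue.pos_of_pos (sub_pos.2 h1)) (expNegInvGlue.pos_of_pos (sub_pos.2 h2))

theorem dens_left {a b t : ℝ} (h : t ≤ a) : dens a b t = 0 := by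
  rw [dens, expNegInvGlue.zero_of_nonpos (sub_nonpos.2 h), zero_mul]

theorem dens_right {a b t : ℝ} (h : b ≤ t) : dens a b t = 0 := by
  rw [dens, expNegInvGlue.zero_of_nonpos (sub_nonpos.2 h), mul_zero]

theorem glue_le_one (x : ℝ) : expNegInvGlue x ≤ 1 := by
  rw [expNegInvGlue]
  split_ifs with h
  · exact zero_le_one
  · push Not at h
    rw [Real.exp_le_one_iff]
    have := inv_pos.2 h
    linarith

theorem dens_le_one (a b t : ℝ) : dens a b t ≤ 1 :=
  mul_le_one₀ (glue_le_one _) (expNegInvGlue.nonneg _) (glue_le_one _)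

/-- the odd extension -/
def od (a b t : ℝ) : ℝ := dens a b t - dens a b (-t)

theorem contDiff_od (a b : ℝ) : ContDiff ℝ ∞ (od a b) := by
  unfold od
  exact (contDiff_dens a b).sub ((contDiff_dens a b).comp contDiff_neg)

theorem od_neg (a b t : ℝ) : od a b (-t) = -od a b t := by
  unfold od
  rw [neg_neg]
  ring

theorem od_of_nonneg {a b t : ℝ} (ha : 0 ≤ a) (ht : 0 ≤ t) : od a b t = dens a b t := by
  rw [od, dens_left (by linarith : -t ≤ a), sub_zero]

/-- the mass -/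
def mass (a b : ℝ) : ℝ := ∫ t in a..b, dens a b t

theorem mass_pos {a b : ℝ} (h : a < b) : 0 < mass a b :=
  intervalIntegral_pos_of_pos_on ((contDiff_dens a b).continuous.intervalIntegrable _ _)
    (fun _ hx => dens_pos hx.1 hx.2) h

/-- the even cutoff -/
def cut (a b t : ℝ) : ℝ := 1 - (mass a b)⁻¹ * ∫ r in (0 : ℝ)..t, od a b r

theorem hasDerivAt_cut (a b t : ℝ) : HasDerivAt (cut a b) (-((mass a b)⁻¹ * od a b t)) t := by
  have h := (contDiff_od a b).continuous.integral_hasStrictDerivAt 0 t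
  have h2 := (h.hasDerivAt.const_mul (mass a b)⁻¹).const_sub 1
  exact h2

theorem deriv_cut (a b : ℝ) : deriv (cut a b) = fun t => -((mass a b)⁻¹ * od a b t) :=
  funext fun t => (hasDerivAt_cut a b t).deriv

theorem contDiff_cut (a b : ℝ) : ContDiff ℝ ∞ (cut a b) := by
  rw [contDiff_infty_iff_deriv]
  refine ⟨fun t => (hasDerivAt_cut a b t).differentiableAt, ?_⟩
  rw [deriv_cut]
  exact (contDiff_const.mul (contDiff_od a b)).neg

theorem cut_neg (a b t : ℝ) : cut a b (-t) = cut a b t := by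
  unfold cut
  congr 2
  have h1 := intervalIntegral.integral_comp_neg (a := 0) (b := t) (fun r => od a b r)
  rw [neg_zero] at h1
  have h2 : (∫ r in (0 : ℝ)..t, od a b (-r)) = -∫ r in (0 : ℝ)..t, od a b r := by
    rw [← intervalIntegral.integral_neg]
    exact intervalIntegral.integral_congr fun r _ => od_neg a b r
  rw [h2] at h1
  rw [intervalIntegral.integral_symm, ← h1]
  ring

theorem cut_zero (a b : ℝ) : cut a b 0 = 1 := by simp [cut]

theorem cut_sub (a b u t : ℝ) : cut a b t - cut a b u = -((mass a b)⁻¹ * ∫ r in u..t, od a b r) := by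
  unfold cut
  have h := intervalIntegral.integral_add_adjacent_intervals
    ((contDiff_od a b).continuous.intervalIntegrable (μ := volume) 0 u)
    ((contDiff_od a b).continuous.intervalIntegrable (μ := volume) u t)
  rw [← h]
  ring

theorem cut_eq_one {a b t : ℝ} (ha : 0 ≤ a) (ht : |t| ≤ a) : cut a b t = 1 := by
  have key : ∀ t, 0 ≤ t → t ≤ a → cut a b t = 1 := by
    intro t h0 h1
    have h2 := cut_sub a b 0 t
    have h3 : (∫ r in (0 : ℝ)..t, od a b r) = 0 := by
      rw [intervalIntegral.integral_congr (g := fun _ => (0 : ℝ)), intervalIntegral.integral_zero]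
      intro r hr
      rw [Set.uIcc_of_le h0] at hr
      change od a b r = 0
      rw [od_of_nonneg ha hr.1, dens_left (hr.2.trans h1)]
    rw [h3, cut_zero] at h2
    linarith
  rcases le_total 0 t with h | h
  · exact key t h (by rwa [abs_of_nonneg h] at ht)
  · rw [← cut_neg]
    exact key (-t) (by linarith) (by rwa [abs_of_nonpos h] at ht)

theorem cut_eq_zero {a b t : ℝ} (ha : 0 ≤ a) (hab : a < b) (ht : b ≤ |t|) : cut a b t = 0 := by
  have h1 : cut a b b = 0 := by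
    have h2 := cut_sub a b a b
    rw [cut_eq_one (t := a) ha (by rw [abs_of_nonneg ha])] at h2
    have h3 : (∫ r in a..b, od a b r) = mass a b := by
      rw [mass]
      refine intervalIntegral.integral_congr fun r hr => ?_
      rw [Set.uIcc_of_le hab.le] at hr
      exact od_of_nonneg ha (ha.trans hr.1)
    rw [h3, inv_mul_cancel₀ (mass_pos hab).ne'] at h2
    linarith
  have key : ∀ t, b ≤ t → cut a b t = 0 := by
    intro t h0
    have h2 := cut_sub a b b t
    have h3 : (∫ r in b..t, od a b r) = 0 := by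
      rw [intervalIntegral.integral_congr (g := fun _ => (0 : ℝ)), intervalIntegral.integral_zero]
      intro r hr
      rw [Set.uIcc_of_le h0] at hr
      change od a b r = 0
      rw [od_of_nonneg ha (by linarith [hr.1]), dens_right hr.1]
    rw [h3, h1] at h2
    linarith
  rcases le_total 0 t with h | h
  · exact key t (by rwa [abs_of_nonneg h] at ht)
  · rw [← cut_neg]
    exact key (-t) (by rwa [abs_of_nonpos h] at ht)

theorem deriv_cut_nonpos {a b t : ℝ} (ha : 0 ≤ a) (hab : a < b) (ht : 0 ≤ t) :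
    deriv (cut a b) t ≤ 0 := by
  rw [deriv_cut]
  have h1 := mass_pos hab
  have h2 := dens_nonneg a b t
  have h3 : 0 ≤ (mass a b)⁻¹ * od a b t := by
    rw [od_of_nonneg ha ht]
    positivity
  simp only
  linarith

theorem cut_antitone {a b : ℝ} (ha : 0 ≤ a) (hab : a < b) : AntitoneOn (cut a b) (Set.Ici 0) := by
  apply antitoneOn_of_deriv_nonpos (convex_Ici 0) (contDiff_cut a b).continuous.continuousOn
  · exact fun x _ => (hasDerivAt_cut a b x).differentiableAt.differentiableWithinAt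
  · intro x hx
    rw [interior_Ici] at hx
    exact deriv_cut_nonpos ha hab (le_of_lt hx)

theorem cut_mem {a b : ℝ} (ha : 0 ≤ a) (hab : a < b) (t : ℝ) : 0 ≤ cut a b t ∧ cut a b t ≤ 1 := by
  have key : ∀ t, 0 ≤ t → 0 ≤ cut a b t ∧ cut a b t ≤ 1 := by
    intro t ht
    constructor
    · rcases le_total t b with h | h
      · rw [← cut_eq_zero ha hab (t := b) (le_abs_self b)]
        exact cut_antitone ha hab ht (by simp only [Set.mem_Ici]; linarith) h
      · rw [cut_eq_zero ha hab (by rw [abs_of_nonneg ht]; exact h)]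
    · rw [← cut_zero a b]
      exact cut_antitone ha hab (Set.mem_Ici.2 le_rfl) ht ht
  rcases le_total 0 t with h | h
  · exact key t h
  · rw [← cut_neg]
    exact key (-t) (by linarith)

theorem abs_od_neg (a b t : ℝ) : |od a b (-t)| = |od a b t| := by rw [od_neg, abs_neg]

theorem abs_od_le {a b : ℝ} (ha : 0 ≤ a) (t : ℝ) : |od a b t| ≤ 1 := by
  rcases le_total 0 t with h | h
  · rw [od_of_nonneg ha h, abs_of_nonneg (dens_nonneg a b t)]
    exact dens_le_one a b t
  · rw [← abs_od_neg, od_of_nonneg ha (by linarith), abs_of_nonneg (dens_nonneg a b _)]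
    exact dens_le_one a b _

/-- a lower bound -/
theorem dens_lower {t : ℝ} (h1 : 2 ≤ t) (h2 : t ≤ 3) :
    expNegInvGlue 1 * expNegInvGlue 1 ≤ dens 1 4 t := by
  have h3 : expNegInvGlue 1 ≤ expNegInvGlue (t - 1) := expNegInvGlue.monotone (by linarith)
  have h4 : expNegInvGlue 1 ≤ expNegInvGlue (4 - t) := expNegInvGlue.monotone (by linarith)
  exact mul_le_mul h3 h4 (expNegInvGlue.nonneg _) (expNegInvGlue.nonneg _)

theorem abs_od_compare (t : ℝ) :
    (expNegInvGlue 1 * expNegInvGlue 1) * |od 2 3 t| ≤ |od 1 4 t| := by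
  have key : ∀ t, 0 ≤ t → (expNegInvGlue 1 * expNegInvGlue 1) * |od 2 3 t| ≤ |od 1 4 t| := by
    intro t ht
    rw [od_of_nonneg (by norm_num) ht, od_of_nonneg (by norm_num) ht,
      abs_of_nonneg (dens_nonneg _ _ _), abs_of_nonneg (dens_nonneg _ _ _)]
    by_cases h : 2 ≤ t ∧ t ≤ 3
    · calc (expNegInvGlue 1 * expNegInvGlue 1) * dens 2 3 t
          ≤ (expNegInvGlue 1 * expNegInvGlue 1) * 1 :=
            mul_le_mul_of_nonneg_left (dens_le_one _ _ _)
              (mul_nonneg (expNegInvGlue.nonneg _) (expNegInvGlue.nonneg _))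
        _ = expNegInvGlue 1 * expNegInvGlue 1 := mul_one _
        _ ≤ _ := dens_lower h.1 h.2
    · have h0 : dens 2 3 t = 0 := by
        rcases lt_or_ge t 2 with h2 | h2
        · exact dens_left h2.le
        · have : 3 < t := by
            by_contra h3
            exact h ⟨h2, not_lt.1 h3⟩
          exact dens_right this.le
      rw [h0, mul_zero]
      exact dens_nonneg _ _ _
  rcases le_total 0 t with h | h
  · exact key t h
  · rw [← abs_od_neg 2 3, ← abs_od_neg 1 4]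
    exact key (-t) (by linarith)

/-! ### the function `s` -/

/-- the derivative of `s` -/
def sd (κ₀ t : ℝ) : ℝ := κ₀ * (mass 1 4)⁻¹ * (t * od 1 4 t)

/-- the odd profile -/
def sf (κ₀ t : ℝ) : ℝ := ∫ r in (0 : ℝ)..t, sd κ₀ r

theorem contDiff_sd (κ₀ : ℝ) : ContDiff ℝ ∞ (sd κ₀) := by
  unfold sd
  exact contDiff_const.mul (contDiff_id.mul (contDiff_od 1 4))

theorem hasDerivAt_sf (κ₀ t : ℝ) : HasDerivAt (sf κ₀) (sd κ₀ t) t :=
  ((contDiff_sd κ₀).continuous.integral_hasStrictDerivAt 0 t).hasDerivAt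

theorem deriv_sf (κ₀ : ℝ) : deriv (sf κ₀) = sd κ₀ :=
  funext fun t => (hasDerivAt_sf κ₀ t).deriv

theorem contDiff_sf (κ₀ : ℝ) : ContDiff ℝ ∞ (sf κ₀) := by
  rw [contDiff_infty_iff_deriv]
  refine ⟨fun t => (hasDerivAt_sf κ₀ t).differentiableAt, ?_⟩
  rw [deriv_sf]
  exact contDiff_sd κ₀

theorem sd_neg (κ₀ t : ℝ) : sd κ₀ (-t) = sd κ₀ t := by
  unfold sd
  rw [od_neg]
  ring

theorem sf_neg (κ₀ t : ℝ) : sf κ₀ (-t) = -sf κ₀ t := by
  unfold sf
  have h1 := intervalIntegral.integral_comp_neg (a := 0) (b := t) (fun r => sd κ₀ r)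
  rw [neg_zero] at h1
  have h2 : (∫ r in (0 : ℝ)..t, sd κ₀ (-r)) = ∫ r in (0 : ℝ)..t, sd κ₀ r :=
    intervalIntegral.integral_congr fun r _ => sd_neg κ₀ r
  rw [h2] at h1
  rw [intervalIntegral.integral_symm, h1]

theorem sd_nonneg {κ₀ t : ℝ} (hκ : 0 < κ₀) (ht : 0 ≤ t) : 0 ≤ sd κ₀ t := by
  unfold sd
  rw [od_of_nonneg (by norm_num) ht]
  have := mass_pos (a := 1) (b := 4) (by norm_num)
  have := dens_nonneg 1 4 t
  positivity

theorem sf_sub (κ₀ u t : ℝ) : sf κ₀ t - sf κ₀ u = ∫ r in u..t, sd κ₀ r := by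
  unfold sf
  have h := intervalIntegral.integral_add_adjacent_intervals
    ((contDiff_sd κ₀).continuous.intervalIntegrable (μ := volume) 0 u)
    ((contDiff_sd κ₀).continuous.intervalIntegrable (μ := volume) u t)
  rw [← h]
  ring

theorem sf_zero (κ₀ : ℝ) : sf κ₀ 0 = 0 := by simp [sf]

theorem sf_mono {κ₀ u t : ℝ} (hκ : 0 < κ₀) (hu : 0 ≤ u) (hut : u ≤ t) : sf κ₀ u ≤ sf κ₀ t := by
  have h := sf_sub κ₀ u t
  have h2 : 0 ≤ ∫ r in u..t, sd κ₀ r :=
    intervalIntegral.integral_nonneg hut fun r hr => sd_nonneg hκ (hu.trans hr.1)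
  linarith

theorem sd_left {κ₀ t : ℝ} (h0 : 0 ≤ t) (h1 : t ≤ 1) : sd κ₀ t = 0 := by
  rw [sd, od_of_nonneg (by norm_num) h0, dens_left h1, mul_zero, mul_zero]

theorem sd_right {κ₀ t : ℝ} (h1 : 4 ≤ t) : sd κ₀ t = 0 := by
  rw [sd, od_of_nonneg (by norm_num) (by linarith), dens_right h1, mul_zero, mul_zero]

theorem sf_left {κ₀ t : ℝ} (ht : |t| ≤ 1) : sf κ₀ t = 0 := by
  have key : ∀ t, 0 ≤ t → t ≤ 1 → sf κ₀ t = 0 := by
    intro t h0 h1
    unfold sf
    rw [intervalIntegral.integral_congr (g := fun _ => (0 : ℝ)), intervalIntegral.integral_zero]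
    intro r hr
    rw [Set.uIcc_of_le h0] at hr
    exact sd_left hr.1 (hr.2.trans h1)
  rcases le_total 0 t with h | h
  · exact key t h (by rwa [abs_of_nonneg h] at ht)
  · rw [← neg_neg t, sf_neg, key (-t) (by linarith) (by rwa [abs_of_nonpos h] at ht), neg_zero]

theorem sf_two_pos {κ₀ : ℝ} (hκ : 0 < κ₀) : 0 < sf κ₀ 2 := by
  have h1 := sf_sub κ₀ 1 2
  rw [sf_left (by norm_num : |(1 : ℝ)| ≤ 1), sub_zero] at h1
  rw [h1]
  refine intervalIntegral_pos_of_pos_on ((contDiff_sd κ₀).continuous.intervalIntegrable _ _)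
    (fun x hx => ?_) (by norm_num)
  rw [sd, od_of_nonneg (by norm_num) (by linarith [hx.1])]
  have h2 := mass_pos (a := 1) (b := 4) (by norm_num)
  have h3 := dens_pos (a := 1) (b := 4) hx.1 (by linarith [hx.2])
  have h4 : 0 < x := by linarith [hx.1]
  positivity

theorem sf_right {κ₀ t : ℝ} (ht : 4 ≤ t) : sf κ₀ t = sf κ₀ 4 := by
  have h1 := sf_sub κ₀ 4 t
  have h2 : (∫ r in (4 : ℝ)..t, sd κ₀ r) = 0 := by
    rw [intervalIntegral.integral_congr (g := fun _ => (0 : ℝ)), intervalIntegral.integral_zero]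
    intro r hr
    rw [Set.uIcc_of_le ht] at hr
    exact sd_right hr.1
  rw [h2] at h1
  linarith

end L1

open L1 in
/-- L1. `β` even, strictly decreasing on `[1,4]`, `s t = ∫_0^t -κ₀ r β'(r) dr`, `Θ` an even cutoff. -/
theorem profiles (κ₀ : ℝ) (hκ : 0 < κ₀) :
    ∃ (β s Θ : ℝ → ℝ) (C s₂ : ℝ), ContDiff ℝ ∞ β ∧ ContDiff ℝ ∞ s ∧ ContDiff ℝ ∞ Θ ∧
      (∀ t, β (-t) = β t) ∧ (∀ t, s (-t) = -s t) ∧ (∀ t, Θ (-t) = Θ t) ∧
      (∀ t, |t| ≤ 1 → β t = 1) ∧ (∀ t, 4 ≤ |t| → β t = 0) ∧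
      (∀ t, 0 ≤ t → deriv β t ≤ 0) ∧ (∀ t, |deriv β t| ≤ C) ∧
      (∀ t, deriv s t = -κ₀ * t * deriv β t) ∧ (∀ t, |t| ≤ 1 → s t = 0) ∧
      (∀ t, 0 ≤ t → 0 ≤ s t) ∧ 0 < s₂ ∧ (∀ t, 2 ≤ t → s₂ ≤ s t) ∧
      (∀ t, 4 ≤ t → s t = s 4) ∧
      (∀ t, |t| ≤ 2 → Θ t = 1) ∧ (∀ t, 3 ≤ |t| → Θ t = 0) ∧ (∀ t, 0 ≤ Θ t ∧ Θ t ≤ 1) ∧
      (∀ t, |deriv Θ t| ≤ C * |deriv β t|) ∧ 0 < C := by
  have hI := mass_pos (a := 1) (b := 4) (by norm_num)
  have hJ := mass_pos (a := 2) (b := 3) (by norm_num)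
  have hg : 0 < expNegInvGlue 1 := expNegInvGlue.pos_of_pos one_pos
  set g := expNegInvGlue 1 * expNegInvGlue 1 with hgdef
  have hg0 : 0 < g := mul_pos hg hg
  refine ⟨cut 1 4, sf κ₀, cut 2 3, (mass 1 4)⁻¹ + (mass 2 3)⁻¹ * mass 1 4 * g⁻¹, sf κ₀ 2,
    contDiff_cut _ _, contDiff_sf _, contDiff_cut _ _, cut_neg _ _, sf_neg _, cut_neg _ _,
    fun t ht => cut_eq_one (by norm_num) ht, fun t ht => cut_eq_zero (by norm_num) (by norm_num) ht,
    fun t ht => deriv_cut_nonpos (by norm_num) (by norm_num) ht, fun t => ?_, fun t => ?_,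
    fun t ht => sf_left ht, fun t ht => ?_, sf_two_pos hκ, fun t ht => sf_mono hκ (by norm_num) ht,
    fun t ht => sf_right ht, fun t ht => cut_eq_one (by norm_num) ht,
    fun t ht => cut_eq_zero (by norm_num) (by norm_num) ht, cut_mem (by norm_num) (by norm_num),
    fun t => ?_, by positivity⟩
  · rw [deriv_cut]
    simp only [abs_neg, abs_mul]
    rw [abs_of_pos (inv_pos.2 hI)]
    have h1 := abs_od_le (a := 1) (b := 4) (by norm_num) t
    have h2 : (mass 1 4)⁻¹ * |od 1 4 t| ≤ (mass 1 4)⁻¹ * 1 :=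
      mul_le_mul_of_nonneg_left h1 (inv_pos.2 hI).le
    have h3 : 0 ≤ (mass 2 3)⁻¹ * mass 1 4 * g⁻¹ := by positivity
    linarith
  · rw [deriv_sf, deriv_cut, sd]
    ring
  · have := sf_mono (κ₀ := κ₀) hκ le_rfl ht
    rwa [sf_zero] at this
  · rw [deriv_cut, deriv_cut]
    simp only [abs_neg, abs_mul]
    rw [abs_of_pos (inv_pos.2 hI), abs_of_pos (inv_pos.2 hJ)]
    have h1 := abs_od_compare t
    rw [← hgdef] at h1
    have h2 : |od 2 3 t| ≤ g⁻¹ * |od 1 4 t| := by
      rw [inv_mul_eq_div, le_div_iff₀ hg0, mul_comm]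
      exact h1
    have h3 : 0 ≤ (mass 1 4)⁻¹ * ((mass 1 4)⁻¹ * |od 1 4 t|) := by positivity
    calc (mass 2 3)⁻¹ * |od 2 3 t| ≤ (mass 2 3)⁻¹ * (g⁻¹ * |od 1 4 t|) :=
          mul_le_mul_of_nonneg_left h2 (inv_pos.2 hJ).le
      _ = (mass 2 3)⁻¹ * mass 1 4 * g⁻¹ * ((mass 1 4)⁻¹ * |od 1 4 t|) := by
          field_simp
      _ ≤ _ := by
          rw [add_mul]
          linarith

end Pool.Agent.Helper89.Hedge
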