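import Pool.Agent.Helper89.Hedge.Cal
import Pool.Agent.Helper89.Hedge.L1

/-!
# L2: the leaf lemma
-/

set_option autoImplicit false

open scoped ContDiff Manifold Topology
noncomputable section
namespace Pool.Agent.Helper89.Hedge

/-! ### auxiliary one-variable lemmas -/

theorem lf_deriv_zero_closed {g : ℝ → ℝ} (hg : Continuous g) {a : ℝ} (ha : 0 < a)
    (h : ∀ t, |t| < a → g t = 0) (t : ℝ) (ht : |t| ≤ a) : g t = 0 := by
  have hcl : IsClosed {t | g t = 0} := isClosed_eq hg continuous_const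
  have hsub : Set.Ioo (-a) a ⊆ {t | g t = 0} := fun t ht => h t (abs_lt.2 ht)
  have h2 : closure (Set.Ioo (-a) a) ⊆ {t | g t = 0} := closure_minimal hsub hcl
  rw [closure_Ioo (by linarith)] at h2
  exact h2 (abs_le.1 ht)

theorem lf_deriv_of_const {g : ℝ → ℝ} (hg : ContDiff ℝ ∞ g) {a c : ℝ} (ha : 0 < a)
    (h : ∀ t, |t| ≤ a → g t = c) (t : ℝ) (ht : |t| ≤ a) : deriv g t = 0 := by
  have hc : Continuous (deriv g) := hg.continuous_deriv (by norm_num)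
  refine lf_deriv_zero_closed hc ha ?_ t ht
  intro r hr
  have : g =ᶠ[𝓝 r] fun _ => c := by
    have hmem : {t : ℝ | |t| < a} ∈ 𝓝 r := (isOpen_lt continuous_abs continuous_const).mem_nhds hr
    filter_upwards [hmem] with y hy
    exact h y (le_of_lt hy)
  rw [this.deriv_eq]
  simp

theorem lf_contDiff_deriv' {g : ℝ → ℝ} (hg : ContDiff ℝ ∞ g) : ContDiff ℝ ∞ (deriv g) := by
  have : ContDiff ℝ (∞ + 1) g := by simpa using hg
  exact (contDiff_succ_iff_deriv.1 this).2.2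

/-- scaling -/
theorem lf_deriv_scale {g : ℝ → ℝ} (δ : ℝ) (t : ℝ) :
    deriv (fun r => g (r / δ)) t = deriv g (t / δ) / δ := by
  have h := deriv_comp_mul_left (f := g) (c := δ⁻¹) (x := t)
  simp only [div_eq_inv_mul]
  rw [h, smul_eq_mul]

theorem lf_MM_mul_comp {f ψ : ℝ × ℝ → ℝ} (hf : ContDiff ℝ ∞ f) (hψ : ContDiff ℝ ∞ ψ) {η : ℝ → ℝ}
    (hη : ContDiff ℝ ∞ η) (x v w : ℝ × ℝ) :
    MM (fun y => f y * η (ψ y)) x v w = η (ψ x) * MM f x v w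
      + deriv η (ψ x) * (fderiv ℝ f x v * fderiv ℝ ψ x w + fderiv ℝ f x w * fderiv ℝ ψ x v
        + f x * M0 ψ x v w)
      + deriv (deriv η) (ψ x) * (f x * (fderiv ℝ ψ x v * fderiv ℝ ψ x w)) := by
  have hc : ContDiff ℝ ∞ (fun y => η (ψ y)) := hη.comp hψ
  have hd : ∀ u, fderiv ℝ (fun y => η (ψ y)) x u = deriv η (ψ x) * fderiv ℝ ψ x u := by
    intro u
    have h1 : HasDerivAt η (deriv η (ψ x)) (ψ x) :=
      (hη.differentiable (by norm_num) _).hasDerivAt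
    have h2 : HasFDerivAt ψ (fderiv ℝ ψ x) x := (hψ.differentiable (by norm_num) _).hasFDerivAt
    have h3 := h1.comp_hasFDerivAt x h2
    have h4 : fderiv ℝ (fun y => η (ψ y)) x = deriv η (ψ x) • fderiv ℝ ψ x := h3.fderiv
    rw [h4]
    simp
  rw [MM_mul hf hc, hd, hd, M0_comp hψ hη]
  ring

/-- the three terms of `F0` -/
def lfF (ψ w : ℝ × ℝ → ℝ) (β s Θ : ℝ → ℝ) (δ μ : ℝ) (x : ℝ × ℝ) : ℝ :=
  (-x.2) * β (ψ x / δ) + (δ * nu x) * s (ψ x / δ) + (δ * μ * w x) * Θ (ψ x / δ)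

theorem lf_MM_FF {ψ w : ℝ × ℝ → ℝ} (hψ : ContDiff ℝ ∞ ψ) (hw : ContDiff ℝ ∞ w) {β s Θ : ℝ → ℝ}
    (hβ : ContDiff ℝ ∞ β) (hs : ContDiff ℝ ∞ s) (hΘ : ContDiff ℝ ∞ Θ) (δ μ : ℝ)
    (x v u : ℝ × ℝ) :
    MM (lfF ψ w β s Θ δ μ) x v u =
      (deriv β (ψ x / δ) / δ * (fderiv ℝ (fun y : ℝ × ℝ => -y.2) x v * fderiv ℝ ψ x u
          + fderiv ℝ (fun y : ℝ × ℝ => -y.2) x u * fderiv ℝ ψ x v + (-x.2) * M0 ψ x v u)
        + deriv (deriv β) (ψ x / δ) / δ / δ * ((-x.2) * (fderiv ℝ ψ x v * fderiv ℝ ψ x u)))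
      + (s (ψ x / δ) * (δ * MM nu x v u)
        + deriv s (ψ x / δ) / δ * (fderiv ℝ (fun y => δ * nu y) x v * fderiv ℝ ψ x u
          + fderiv ℝ (fun y => δ * nu y) x u * fderiv ℝ ψ x v + (δ * nu x) * M0 ψ x v u)
        + deriv (deriv s) (ψ x / δ) / δ / δ * ((δ * nu x) * (fderiv ℝ ψ x v * fderiv ℝ ψ x u)))
      + (Θ (ψ x / δ) * (δ * μ * MM w x v u)
        + deriv Θ (ψ x / δ) / δ * (fderiv ℝ (fun y => δ * μ * w y) x v * fderiv ℝ ψ x u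
          + fderiv ℝ (fun y => δ * μ * w y) x u * fderiv ℝ ψ x v + (δ * μ * w x) * M0 ψ x v u)
        + deriv (deriv Θ) (ψ x / δ) / δ / δ
          * ((δ * μ * w x) * (fderiv ℝ ψ x v * fderiv ℝ ψ x u))) := by
  have hsc : ∀ {g : ℝ → ℝ}, ContDiff ℝ ∞ g → ContDiff ℝ ∞ (fun t => g (t / δ)) := by
    intro g hg
    exact hg.comp (contDiff_id.div_const δ)
  have hsnd : ContDiff ℝ ∞ (fun y : ℝ × ℝ => -y.2) := contDiff_snd.neg
  have hnu : ContDiff ℝ ∞ (fun y : ℝ × ℝ => δ * nu y) := contDiff_const.mul contDiff_nu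
  have hww : ContDiff ℝ ∞ (fun y : ℝ × ℝ => δ * μ * w y) := contDiff_const.mul hw
  have h1 := lf_MM_mul_comp (f := fun y : ℝ × ℝ => -y.2) hsnd hψ (hsc hβ) x v u
  have h2 := lf_MM_mul_comp (f := fun y : ℝ × ℝ => δ * nu y) hnu hψ (hsc hs) x v u
  have h3 := lf_MM_mul_comp (f := fun y : ℝ × ℝ => δ * μ * w y) hww hψ (hsc hΘ) x v u
  have d1 : ∀ {g : ℝ → ℝ}, deriv (fun r => g (r / δ)) = fun t => deriv g (t / δ) / δ := by
    intro g; funext t; exact lf_deriv_scale δ t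
  have d2 : ∀ {g : ℝ → ℝ} (t : ℝ), deriv (fun t => deriv g (t / δ) / δ) t =
      deriv (deriv g) (t / δ) / δ / δ := by
    intro g t
    rw [deriv_div_const, lf_deriv_scale]
  simp only [d1, d2] at h1 h2 h3
  have hneg : MM (fun y : ℝ × ℝ => -y.2) x v u = 0 := by
    have := MM_const_mul (f := fun y : ℝ × ℝ => y.2) contDiff_snd (-1) x v u
    rw [MM_snd, mul_zero] at this
    rw [← this]
    congr 1
    funext y
    ring
  have hc1 : ContDiff ℝ ∞ (fun y : ℝ × ℝ => (-y.2) * β (ψ y / δ)) := hsnd.mul ((hsc hβ).comp hψ)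
  have hc2 : ContDiff ℝ ∞ (fun y : ℝ × ℝ => (δ * nu y) * s (ψ y / δ)) :=
    hnu.mul ((hsc hs).comp hψ)
  have hc3 : ContDiff ℝ ∞ (fun y : ℝ × ℝ => (δ * μ * w y) * Θ (ψ y / δ)) :=
    hww.mul ((hsc hΘ).comp hψ)
  have hsum : MM (lfF ψ w β s Θ δ μ) x v u =
      MM (fun y : ℝ × ℝ => (-y.2) * β (ψ y / δ)) x v u
      + MM (fun y : ℝ × ℝ => (δ * nu y) * s (ψ y / δ)) x v u
      + MM (fun y : ℝ × ℝ => (δ * μ * w y) * Θ (ψ y / δ)) x v u := by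
    rw [← MM_add hc1 hc2, ← MM_add (hc1.add hc2) hc3]
    rfl
  rw [hsum, h1, h2, h3, hneg, MM_const_mul contDiff_nu, MM_const_mul hw]
  ring

theorem lf_MM_FF_tau {ψ w : ℝ × ℝ → ℝ} (hψ : ContDiff ℝ ∞ ψ) (hw : ContDiff ℝ ∞ w) {β s Θ : ℝ → ℝ}
    (hβ : ContDiff ℝ ∞ β) (hs : ContDiff ℝ ∞ s) (hΘ : ContDiff ℝ ∞ Θ) {δ : ℝ} (hδ : 0 < δ)
    (μ κ₀ : ℝ) (hsβ : ∀ t, deriv s t = -κ₀ * t * deriv β t) (x : ℝ × ℝ) :
    MM (lfF ψ w β s Θ δ μ) x (tau ψ x) (tau ψ x) =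
      δ * μ * Θ (ψ x / δ) * MM w x (tau ψ x) (tau ψ x)
      + (-deriv β (ψ x / δ)) / δ * (M0 ψ x (tau ψ x) (tau ψ x) * (x.2 + κ₀ * nu x * ψ x))
      + δ * s (ψ x / δ) * MM nu x (tau ψ x) (tau ψ x)
      + μ * w x * deriv Θ (ψ x / δ) * M0 ψ x (tau ψ x) (tau ψ x) := by
  rw [lf_MM_FF hψ hw hβ hs hΘ, hsβ]
  simp only [fderiv_tau, mul_zero, add_zero, zero_add]
  field_simp
  ring

/-- the region `0 ≤ ψ ≤ 1` is in `|ζ| < 2` -/
theorem LeafData.abs_lt {ψ w : ℝ × ℝ → ℝ} {ε₀ b₀ n₀ K κ₀ : ℝ} (hd : LeafData ψ w ε₀ b₀ n₀ K κ₀)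
    (x : ℝ × ℝ) (h0 : 0 ≤ ψ x) (h1 : ψ x ≤ 1) : |x.2| < 2 := by
  rw [_root_.abs_lt]
  constructor
  · by_contra h
    have h2 : 2 ≤ (glide x).2 := by
      change 2 ≤ -x.2
      linarith [not_lt.1 h]
    have := hd.far _ h2
    rw [hd.glide_psi] at this
    linarith
  · by_contra h
    have := hd.far x (not_lt.1 h)
    linarith

theorem lf_nu_le_three {x : ℝ × ℝ} (h : |x.2| < 2) : nu x ≤ 3 := by
  unfold nu
  rw [Real.sqrt_le_left (by norm_num)]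
  have : x.2 ^ 2 < 4 := by
    rw [← sq_abs]
    nlinarith [abs_nonneg x.2]
  linarith

theorem lf_nu_nonneg (x : ℝ × ℝ) : 0 ≤ nu x := Real.sqrt_nonneg _

/-- the quadratic estimate -/
theorem lf_quad_low {n a z : ℝ} (hn : 0 < n) : -(a ^ 2 / (2 * n)) ≤ n / 2 * z ^ 2 - a * z := by
  have : 0 ≤ (n * z - a) ^ 2 / (2 * n) := div_nonneg (sq_nonneg _) (by linarith)
  have h2 : (n * z - a) ^ 2 / (2 * n) = n / 2 * z ^ 2 - a * z + a ^ 2 / (2 * n) := by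
    field_simp
    ring
  linarith

/-- estimates of `m = M0 ψ (τ, τ)` -/
theorem LeafData.m_est {ψ w : ℝ × ℝ → ℝ} {ε₀ b₀ n₀ K κ₀ : ℝ} (hd : LeafData ψ w ε₀ b₀ n₀ K κ₀)
    (hK : 0 < K) {K₁ : ℝ} (hK₁ : K₁ = K * (3 * κ₀ + 1)) (x : ℝ × ℝ) (h0 : 0 ≤ ψ x)
    (h1 : ψ x ≤ ε₀) (h2 : K₁ * ψ x ≤ n₀ / 2) :
    n₀ / 2 * |x.2 + κ₀ * nu x * ψ x| ^ 2 - K₁ * ψ x ^ 2 * |x.2 + κ₀ * nu x * ψ x|
        ≤ M0 ψ x (tau ψ x) (tau ψ x) * (x.2 + κ₀ * nu x * ψ x) ∧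
      |M0 ψ x (tau ψ x) (tau ψ x)| ≤ (K + K₁) * (|x.2 + κ₀ * nu x * ψ x| + ψ x ^ 2) := by
  obtain ⟨n, hn⟩ := hd.main
  obtain ⟨hn1, hn2, hn3⟩ := hn x h0 h1
  have h11 : ψ x ≤ 1 := h1.trans hd.eps_le
  have hz := hd.abs_lt x h0 h11
  have hnu := lf_nu_le_three hz
  have hnu0 := lf_nu_nonneg x
  have hκ := hd.kappa_pos
  obtain ⟨z', hz'⟩ : ∃ z', z' = x.2 + κ₀ * nu x * ψ x := ⟨_, rfl⟩
  obtain ⟨m, hm⟩ : ∃ m, m = M0 ψ x (tau ψ x) (tau ψ x) := ⟨_, rfl⟩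
  rw [← hm, ← hz'] at hn3
  rw [← hm, ← hz']
  have hK₁0 : 0 < K₁ := by rw [hK₁]; positivity
  have hzz : |x.2| ≤ |z'| + 3 * κ₀ * ψ x := by
    have h3 : x.2 = z' - κ₀ * nu x * ψ x := by rw [hz']; ring
    have h4 : κ₀ * nu x * ψ x ≤ 3 * κ₀ * ψ x := by
      have : κ₀ * nu x ≤ κ₀ * 3 := mul_le_mul_of_nonneg_left hnu hκ.le
      nlinarith
    have h5 : 0 ≤ κ₀ * nu x * ψ x := by positivity
    calc |x.2| = |z' - κ₀ * nu x * ψ x| := by rw [← h3]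
      _ ≤ |z'| + |κ₀ * nu x * ψ x| := abs_sub _ _
      _ = |z'| + κ₀ * nu x * ψ x := by rw [abs_of_nonneg h5]
      _ ≤ _ := by linarith
  have he : |m - n x * z'| ≤ K₁ * ψ x * (|z'| + ψ x) := by
    refine hn3.trans ?_
    have h6 : |x.2| + ψ x ≤ (3 * κ₀ + 1) * (|z'| + ψ x) := by
      have := abs_nonneg z'
      nlinarith
    calc K * ψ x * (|x.2| + ψ x) ≤ K * ψ x * ((3 * κ₀ + 1) * (|z'| + ψ x)) :=
          mul_le_mul_of_nonneg_left h6 (by positivity)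
      _ = K₁ * ψ x * (|z'| + ψ x) := by rw [hK₁]; ring
  have hz0 := abs_nonneg z'
  constructor
  · have h7 : m * z' = n x * z' ^ 2 + (m - n x * z') * z' := by ring
    have h8 : -(K₁ * ψ x * (|z'| + ψ x) * |z'|) ≤ (m - n x * z') * z' := by
      have : |(m - n x * z') * z'| ≤ K₁ * ψ x * (|z'| + ψ x) * |z'| := by
        rw [abs_mul]
        exact mul_le_mul_of_nonneg_right he hz0
      linarith [neg_abs_le ((m - n x * z') * z')]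
    have h9 : n₀ * z' ^ 2 ≤ n x * z' ^ 2 := mul_le_mul_of_nonneg_right hn1 (sq_nonneg _)
    have h10 : K₁ * ψ x * |z'| ^ 2 ≤ n₀ / 2 * |z'| ^ 2 :=
      mul_le_mul_of_nonneg_right h2 (sq_nonneg _)
    have h12 : |z'| ^ 2 = z' ^ 2 := sq_abs z'
    rw [h7]
    nlinarith
  · have h7 : m = n x * z' + (m - n x * z') := by ring
    have h8 : |m| ≤ n x * |z'| + K₁ * ψ x * (|z'| + ψ x) := by
      calc |m| = |n x * z' + (m - n x * z')| := by rw [← h7]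
        _ ≤ |n x * z'| + |m - n x * z'| := abs_add_le _ _
        _ = n x * |z'| + |m - n x * z'| := by
            rw [abs_mul, abs_of_nonneg (hd.n_pos.le.trans hn1)]
        _ ≤ _ := by linarith
    have h9 : n x * |z'| ≤ K * |z'| := mul_le_mul_of_nonneg_right hn2 hz0
    have h10 : K₁ * ψ x * |z'| ≤ K₁ * |z'| := by
      have : K₁ * ψ x ≤ K₁ * 1 := mul_le_mul_of_nonneg_left h11 hK₁0.le
      nlinarith
    have h13 : 0 ≤ K * ψ x ^ 2 := by positivity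
    nlinarith

theorem LeafData.mono {ψ w : ℝ × ℝ → ℝ} {ε₀ b₀ n₀ K K' κ₀ : ℝ}
    (hd : LeafData ψ w ε₀ b₀ n₀ K κ₀) (hK : K ≤ K') : LeafData ψ w ε₀ b₀ n₀ K' κ₀ := by
  refine ⟨hd.smooth_psi, hd.smooth_w, hd.glide_psi, hd.glide_w, hd.far, hd.eps_pos, hd.eps_le,
    hd.b_pos, hd.n_pos, hd.kappa_pos, ?_, hd.w_pos, hd.w_det,
    fun x h0 h1 => (hd.w_bdd x h0 h1).trans hK, hd.nu_pos⟩
  obtain ⟨n, hn⟩ := hd.main
  refine ⟨n, fun x h0 h1 => ?_⟩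
  obtain ⟨ha, hb, hc⟩ := hn x h0 h1
  refine ⟨ha, hb.trans hK, hc.trans ?_⟩
  have : 0 ≤ |x.2| + ψ x := add_nonneg (abs_nonneg _) h0
  exact mul_le_mul_of_nonneg_right (mul_le_mul_of_nonneg_right hK h0) this

theorem lf_detM_eq (f : ℝ × ℝ → ℝ) (x : ℝ × ℝ) :
    detM f x = MM f x (1, 0) (1, 0) * MM f x (0, 1) (0, 1) - MM f x (1, 0) (0, 1) ^ 2 := by
  unfold detM MM
  simp

theorem lf_exists_small {P : ℝ → Prop} {c : ℝ} (hc : 0 < c) (h : ∀ t, 0 < t → t ≤ c → P t) :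
    ∃ t, 0 < t ∧ P t := ⟨c, hc, h c hc le_rfl⟩

theorem leaf {ψ w : ℝ × ℝ → ℝ} {ε₀ b₀ n₀ K κ₀ : ℝ} (hd : LeafData ψ w ε₀ b₀ n₀ K κ₀) :
    ∃ (F0 : ℝ × ℝ → ℝ) (δ s₀ : ℝ), 0 < δ ∧ δ ≤ 1 / 5 ∧ 0 < s₀ ∧ ContDiff ℝ ∞ F0 ∧
      (∀ x, F0 (glide x) = -F0 x) ∧ (∀ x, 0 ≤ ψ x → ψ x ≤ δ → detM F0 x < 0) ∧
      (∀ x, δ / 2 ≤ ψ x → ψ x ≤ 5 * δ → 0 < MM F0 x (tau ψ x) (tau ψ x)) ∧
      (∀ x, 4 * δ < ψ x → F0 x = s₀ * nu x) := by
  -- replace `K` by a positive number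
  obtain ⟨K', hK'⟩ : ∃ K', K' = max K 1 := ⟨_, rfl⟩
  replace hd := hd.mono (K' := K') (hK' ▸ le_max_left _ _)
  have hK0 : 0 < K' := by rw [hK']; exact lt_of_lt_of_le one_pos (le_max_right _ _)
  clear hK'
  have hκ := hd.kappa_pos
  have hb := hd.b_pos
  have hn := hd.n_pos
  have hε := hd.eps_pos
  have hε1 := hd.eps_le
  obtain ⟨β, s, Θ, C, s₂, hβs, hss, hΘs, hβe, hse, hΘe, hβ1, hβ4, hβd, hβC, hsβ, hs1, hs0, hs₂,
    hs₂', hs4, hΘ2, hΘ3, hΘ01, hΘC, hC⟩ := profiles κ₀ hκ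
  obtain ⟨K₁, hK₁⟩ : ∃ K₁, K₁ = K' * (3 * κ₀ + 1) := ⟨_, rfl⟩
  have hK₁0 : 0 < K₁ := by rw [hK₁]; positivity
  obtain ⟨K₂, hK₂⟩ : ∃ K₂, K₂ = K' * C * (K' + K₁) := ⟨_, rfl⟩
  have hK₂0 : 0 < K₂ := by rw [hK₂]; positivity
  obtain ⟨μ, hμ0, hμ⟩ : ∃ μ : ℝ, 0 < μ ∧ 2 * C * μ ^ 2 * K₂ ^ 2 / n₀ ≤ s₂ * b₀ / 4 := by
    have hc : 0 < min 1 (s₂ * b₀ * n₀ / (8 * C * K₂ ^ 2)) := by
      apply lt_min one_pos
      positivity
    refine lf_exists_small hc ?_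
    intro μ hμ0 hμ
    have h1 : μ ≤ 1 := hμ.trans (min_le_left _ _)
    have h2 : μ ≤ s₂ * b₀ * n₀ / (8 * C * K₂ ^ 2) := hμ.trans (min_le_right _ _)
    rw [le_div_iff₀ (by positivity)] at h2
    rw [div_le_iff₀ hn]
    have h3 : μ ^ 2 ≤ μ := by nlinarith
    have h4 : 2 * C * μ ^ 2 * K₂ ^ 2 ≤ 2 * C * μ * K₂ ^ 2 := by
      have : 0 ≤ 2 * C * K₂ ^ 2 := by positivity
      nlinarith
    nlinarith
  obtain ⟨δ, hδ0, hδ1, hδ2, hδ3, hδ4, hδ5⟩ : ∃ δ : ℝ, 0 < δ ∧ 5 * δ ≤ ε₀ ∧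
      K₁ * (5 * δ) ≤ n₀ / 2 ∧ 4 * C * K₁ ^ 2 * δ / n₀ < μ * b₀ ∧ 25 * K₁ * δ ≤ μ * K₂ ∧
      25 * C * μ * K₂ * δ ≤ s₂ * b₀ / 4 := by
    have hc : 0 < min (ε₀ / 5) (min (n₀ / (10 * K₁)) (min (μ * b₀ * n₀ / (8 * C * K₁ ^ 2))
        (min (μ * K₂ / (25 * K₁)) (s₂ * b₀ / (100 * C * μ * K₂))))) := by
      refine lt_min (by positivity) (lt_min (by positivity) (lt_min (by positivity)
        (lt_min (by positivity) (by positivity))))
    refine lf_exists_small hc ?_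
    intro δ hδ0 hδ
    obtain ⟨h1, hδ⟩ := le_min_iff.1 hδ
    obtain ⟨h2, hδ⟩ := le_min_iff.1 hδ
    obtain ⟨h3, hδ⟩ := le_min_iff.1 hδ
    obtain ⟨h4, h5⟩ := le_min_iff.1 hδ
    rw [le_div_iff₀ (by positivity)] at h1 h2 h3 h4 h5
    refine ⟨by linarith, by linarith, ?_, by linarith, by linarith⟩
    rw [div_lt_iff₀ hn]
    have : 0 < μ * b₀ * n₀ := by positivity
    nlinarith
  have hδ' : δ ≤ 1 / 5 := by linarith
  have hs40 : 0 < s 4 := lt_of_lt_of_le hs₂ (hs₂' 4 (by norm_num))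
  have hF : ContDiff ℝ ∞ (lfF ψ w β s Θ δ μ) := by
    have hsc : ∀ {g : ℝ → ℝ}, ContDiff ℝ ∞ g → ContDiff ℝ ∞ (fun x => g (ψ x / δ)) := by
      intro g hg
      exact hg.comp (hd.smooth_psi.div_const δ)
    unfold lfF
    exact (((contDiff_snd.neg).mul (hsc hβs)).add ((contDiff_const.mul contDiff_nu).mul
      (hsc hss))).add ((contDiff_const.mul hd.smooth_w).mul (hsc hΘs))
  refine ⟨lfF ψ w β s Θ δ μ, δ, δ * s 4, hδ0, hδ', mul_pos hδ0 hs40, hF, ?_, ?_, ?_, ?_⟩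
  · -- glide symmetry
    intro x
    have h1 : nu (glide x) = nu x := by
      unfold nu glide
      simp
    have h2 : (glide x).2 = -x.2 := rfl
    have h3 : ψ (glide x) / δ = -(ψ x / δ) := by rw [hd.glide_psi]; ring
    unfold lfF
    rw [h3, hβe, hse, hΘe, h1, h2, hd.glide_w]
    ring
  · -- the determinant near the curve
    intro x hx0 hx1
    have hY : |ψ x / δ| ≤ 1 := by
      rw [abs_of_nonneg (div_nonneg hx0 hδ0.le), div_le_one hδ0]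
      exact hx1
    have hY2 : |ψ x / δ| ≤ 2 := hY.trans (by norm_num)
    have b1 : deriv β (ψ x / δ) = 0 := lf_deriv_of_const hβs one_pos hβ1 _ hY
    have b2 : deriv (deriv β) (ψ x / δ) = 0 :=
      lf_deriv_of_const (lf_contDiff_deriv' hβs) one_pos
        (fun t ht => lf_deriv_of_const hβs one_pos hβ1 t ht) _ hY
    have c1 : deriv s (ψ x / δ) = 0 := lf_deriv_of_const hss one_pos hs1 _ hY
    have c2 : deriv (deriv s) (ψ x / δ) = 0 :=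
      lf_deriv_of_const (lf_contDiff_deriv' hss) one_pos
        (fun t ht => lf_deriv_of_const hss one_pos hs1 t ht) _ hY
    have e1 : deriv Θ (ψ x / δ) = 0 := lf_deriv_of_const hΘs two_pos hΘ2 _ hY2
    have e2 : deriv (deriv Θ) (ψ x / δ) = 0 :=
      lf_deriv_of_const (lf_contDiff_deriv' hΘs) two_pos
        (fun t ht => lf_deriv_of_const hΘs two_pos hΘ2 t ht) _ hY2
    have hM : ∀ v u, MM (lfF ψ w β s Θ δ μ) x v u = δ * μ * MM w x v u := by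
      intro v u
      rw [lf_MM_FF hd.smooth_psi hd.smooth_w hβs hss hΘs, b1, b2, c1, c2, e1, e2, hs1 _ hY, hΘ2 _ hY2]
      ring
    have hdet : detM (lfF ψ w β s Θ δ μ) x = (δ * μ) ^ 2 * detM w x := by
      rw [lf_detM_eq, lf_detM_eq, hM, hM, hM]
      ring
    rw [hdet]
    have := hd.w_det x hx0 (by linarith)
    have h2 : 0 < (δ * μ) ^ 2 := by positivity
    exact mul_neg_of_pos_of_neg h2 this
  · -- positivity on the level curves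
    intro x hx0 hx1
    have hψ0 : 0 < ψ x := by linarith
    have hψε : ψ x ≤ ε₀ := by linarith
    have hψK : K₁ * ψ x ≤ n₀ / 2 := by
      have := mul_le_mul_of_nonneg_left hx1 hK₁0.le
      linarith
    obtain ⟨hm1, hm2⟩ := hd.m_est hK0 hK₁ x hψ0.le hψε hψK
    have hw := hd.w_pos x hψ0.le hψε
    have hnu := hd.nu_pos x hψ0.le hψε
    have hwb := hd.w_bdd x hψ0.le hψε
    rw [lf_MM_FF_tau hd.smooth_psi hd.smooth_w hβs hss hΘs hδ0 μ κ₀ hsβ]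
    obtain ⟨z, hz⟩ : ∃ z, z = x.2 + κ₀ * nu x * ψ x := ⟨_, rfl⟩
    obtain ⟨m, hm⟩ : ∃ m, m = M0 ψ x (tau ψ x) (tau ψ x) := ⟨_, rfl⟩
    obtain ⟨W, hW⟩ : ∃ W, W = MM w x (tau ψ x) (tau ψ x) := ⟨_, rfl⟩
    obtain ⟨N, hN⟩ : ∃ N, N = MM nu x (tau ψ x) (tau ψ x) := ⟨_, rfl⟩
    obtain ⟨Y, hY⟩ : ∃ Y, Y = ψ x / δ := ⟨_, rfl⟩
    have hYψ : ψ x = δ * Y := by rw [hY]; field_simp
    have hY0 : 0 < Y := by rw [hY]; positivity
    rw [← hz, ← hm] at hm1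
    rw [← hz, ← hm] at hm2
    rw [← hz, ← hm, ← hW, ← hN, ← hY]
    rw [← hW] at hw
    rw [← hN] at hnu
    have hb' : 0 ≤ -deriv β Y := by linarith [hβd Y hY0.le]
    have hbC : -deriv β Y ≤ C := (neg_le_abs _).trans (hβC Y)
    have hW0 : 0 ≤ W := le_trans (by positivity) hw
    have hs0' : 0 ≤ δ * s Y * N := by
      have := hs0 Y hY0.le
      have hN0 : 0 ≤ N := hb.le.trans hnu
      positivity
    have hz0 := abs_nonneg z
    rcases lt_or_ge Y 2 with hY2 | hY2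
    · -- `Y < 2`
      have hYa : |Y| ≤ 2 := by rw [abs_of_pos hY0]; exact hY2.le
      rw [hΘ2 Y hYa, lf_deriv_of_const hΘs two_pos hΘ2 Y hYa]
      have h1 : -((K₁ * ψ x ^ 2) ^ 2 / (2 * n₀)) ≤ m * z :=
        (lf_quad_low hn).trans hm1
      have h2 : -(deriv β Y) / δ * -((K₁ * ψ x ^ 2) ^ 2 / (2 * n₀)) ≤ -(deriv β Y) / δ * (m * z) :=
        mul_le_mul_of_nonneg_left h1 (div_nonneg hb' hδ0.le)
      have h3 : -(C / δ * ((K₁ * ψ x ^ 2) ^ 2 / (2 * n₀))) ≤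
          -(deriv β Y) / δ * -((K₁ * ψ x ^ 2) ^ 2 / (2 * n₀)) := by
        have h4 : -(deriv β Y) / δ ≤ C / δ := div_le_div_of_nonneg_right hbC hδ0.le
        have h5 : 0 ≤ (K₁ * ψ x ^ 2) ^ 2 / (2 * n₀) := by positivity
        have := mul_le_mul_of_nonneg_right h4 h5
        linarith
      have h6 : C / δ * ((K₁ * ψ x ^ 2) ^ 2 / (2 * n₀)) ≤ 4 * C * K₁ ^ 2 * δ / n₀ * (δ * ψ x) := by
        have h7 : C / δ * ((K₁ * ψ x ^ 2) ^ 2 / (2 * n₀)) =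
            C * K₁ ^ 2 / (2 * n₀) * (Y ^ 3 * (δ ^ 2 * ψ x)) := by
          have : (K₁ * ψ x ^ 2) ^ 2 = K₁ ^ 2 * (δ * Y) ^ 3 * ψ x := by rw [hYψ]; ring
          rw [this]
          field_simp
        have h8 : Y ^ 3 ≤ 8 := by
          have : Y ^ 3 ≤ 2 ^ 3 := pow_le_pow_left₀ hY0.le hY2.le 3
          linarith
        have h9 : Y ^ 3 * (δ ^ 2 * ψ x) ≤ 8 * (δ ^ 2 * ψ x) :=
          mul_le_mul_of_nonneg_right h8 (by positivity)
        rw [h7]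
        calc C * K₁ ^ 2 / (2 * n₀) * (Y ^ 3 * (δ ^ 2 * ψ x))
            ≤ C * K₁ ^ 2 / (2 * n₀) * (8 * (δ ^ 2 * ψ x)) :=
              mul_le_mul_of_nonneg_left h9 (by positivity)
          _ = 4 * C * K₁ ^ 2 * δ / n₀ * (δ * ψ x) := by
              field_simp
              ring
      have h10 : 4 * C * K₁ ^ 2 * δ / n₀ * (δ * ψ x) < μ * b₀ * (δ * ψ x) :=
        mul_lt_mul_of_pos_right hδ3 (by positivity)
      have h11 : μ * b₀ * (δ * ψ x) ≤ δ * μ * 1 * W := by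
        have : δ * μ * (b₀ * ψ x) ≤ δ * μ * W := mul_le_mul_of_nonneg_left hw (by positivity)
        linarith
      have h12 : μ * w x * 0 * m = 0 := by ring
      rw [h12]
      linarith
    · -- `2 ≤ Y`
      have hΘ' := hΘC Y
      have h0 : 0 ≤ δ * μ * Θ Y * W := by
        have := (hΘ01 Y).1
        positivity
      have h1 : δ * s₂ * b₀ ≤ δ * s Y * N := by
        have h2 := hs₂' Y hY2
        have h3 : s₂ * b₀ ≤ s Y * N := mul_le_mul h2 hnu hb.le (hs₂.le.trans h2)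
        have := mul_le_mul_of_nonneg_left h3 hδ0.le
        linarith
      have hbb : |deriv β Y| = -deriv β Y := abs_of_nonpos (by linarith)
      have h4 : |μ * w x * deriv Θ Y * m| ≤ (-deriv β Y) * (μ * K₂ * (|z| + ψ x ^ 2)) := by
        rw [abs_mul, abs_mul, abs_mul, abs_of_pos hμ0]
        have h5 : |w x| * |deriv Θ Y| ≤ K' * (C * (-deriv β Y)) := by
          rw [← hbb]
          exact mul_le_mul hwb hΘ' (abs_nonneg _) hK0.le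
        have h6 : |w x| * |deriv Θ Y| * |m| ≤
            K' * (C * (-deriv β Y)) * ((K' + K₁) * (|z| + ψ x ^ 2)) :=
          mul_le_mul h5 hm2 (abs_nonneg _) (by positivity)
        calc μ * |w x| * |deriv Θ Y| * |m| = μ * (|w x| * |deriv Θ Y| * |m|) := by ring
          _ ≤ μ * (K' * (C * (-deriv β Y)) * ((K' + K₁) * (|z| + ψ x ^ 2))) :=
              mul_le_mul_of_nonneg_left h6 hμ0.le
          _ = _ := by rw [hK₂]; ring
      have h7 : -((-deriv β Y) * (μ * K₂ * (|z| + ψ x ^ 2))) ≤ μ * w x * deriv Θ Y * m := by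
        linarith [neg_abs_le (μ * w x * deriv Θ Y * m)]
      obtain ⟨A, hA⟩ : ∃ A, A = K₁ * ψ x ^ 2 + δ * μ * K₂ := ⟨_, rfl⟩
      have hA0 : 0 ≤ A := by rw [hA]; positivity
      have hψ5 : ψ x ^ 2 ≤ 25 * δ ^ 2 := by nlinarith
      have hA2 : A ≤ 2 * δ * μ * K₂ := by
        have h8 : K₁ * ψ x ^ 2 ≤ K₁ * (25 * δ ^ 2) := mul_le_mul_of_nonneg_left hψ5 hK₁0.le
        have h9 : δ * (25 * K₁ * δ) ≤ δ * (μ * K₂) := mul_le_mul_of_nonneg_left hδ4 hδ0.le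
        rw [hA]
        linarith
      have h8 : -(A ^ 2 / (2 * n₀)) ≤ n₀ / 2 * |z| ^ 2 - A * |z| := lf_quad_low hn
      -- the part with `β'`
      have h9 : (-deriv β Y) / δ * (-(A ^ 2 / (2 * n₀)) - δ * μ * K₂ * ψ x ^ 2) ≤
          (-deriv β Y) / δ * (m * z) - (-deriv β Y) * (μ * K₂ * (|z| + ψ x ^ 2)) := by
        have h10 : -(A ^ 2 / (2 * n₀)) - δ * μ * K₂ * ψ x ^ 2 ≤
            m * z - δ * (μ * K₂ * (|z| + ψ x ^ 2)) := by
          have h11 : A * |z| = K₁ * ψ x ^ 2 * |z| + δ * μ * K₂ * |z| := by rw [hA]; ring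
          linarith
        have h12 := mul_le_mul_of_nonneg_left h10 (div_nonneg hb' hδ0.le)
        have h13 : (-deriv β Y) / δ * (m * z - δ * (μ * K₂ * (|z| + ψ x ^ 2))) =
            (-deriv β Y) / δ * (m * z) - (-deriv β Y) * (μ * K₂ * (|z| + ψ x ^ 2)) := by
          field_simp
          ring
        rw [h13] at h12
        exact h12
      have h14 : -(C / δ * (A ^ 2 / (2 * n₀) + δ * μ * K₂ * ψ x ^ 2)) ≤
          (-deriv β Y) / δ * (-(A ^ 2 / (2 * n₀)) - δ * μ * K₂ * ψ x ^ 2) := by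
        have h4 : -(deriv β Y) / δ ≤ C / δ := div_le_div_of_nonneg_right hbC hδ0.le
        have h5 : 0 ≤ A ^ 2 / (2 * n₀) + δ * μ * K₂ * ψ x ^ 2 := by positivity
        have := mul_le_mul_of_nonneg_right h4 h5
        linarith
      have h15 : C / δ * (A ^ 2 / (2 * n₀)) ≤ δ * (s₂ * b₀ / 4) := by
        have h16 : A ^ 2 ≤ (2 * δ * μ * K₂) ^ 2 := pow_le_pow_left₀ hA0 hA2 2
        calc C / δ * (A ^ 2 / (2 * n₀)) ≤ C / δ * ((2 * δ * μ * K₂) ^ 2 / (2 * n₀)) := by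
              refine mul_le_mul_of_nonneg_left ?_ (by positivity)
              exact div_le_div_of_nonneg_right h16 (by positivity)
          _ = δ * (2 * C * μ ^ 2 * K₂ ^ 2 / n₀) := by
              field_simp
          _ ≤ _ := mul_le_mul_of_nonneg_left hμ hδ0.le
      have h17 : C / δ * (δ * μ * K₂ * ψ x ^ 2) ≤ δ * (s₂ * b₀ / 4) := by
        calc C / δ * (δ * μ * K₂ * ψ x ^ 2) = C * μ * K₂ * ψ x ^ 2 := by field_simp
          _ ≤ C * μ * K₂ * (25 * δ ^ 2) := mul_le_mul_of_nonneg_left hψ5 (by positivity)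
          _ = δ * (25 * C * μ * K₂ * δ) := by ring
          _ ≤ _ := mul_le_mul_of_nonneg_left hδ5 hδ0.le
      have h18 : 0 < δ * s₂ * b₀ := by positivity
      have h19 : C / δ * (A ^ 2 / (2 * n₀) + δ * μ * K₂ * ψ x ^ 2) =
          C / δ * (A ^ 2 / (2 * n₀)) + C / δ * (δ * μ * K₂ * ψ x ^ 2) := by ring
      rw [h19] at h14
      linarith
  · -- far away
    intro x hx
    have hY : 4 < ψ x / δ := by rw [lt_div_iff₀ hδ0]; exact hx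
    have hYa : |ψ x / δ| = ψ x / δ := abs_of_pos (by linarith)
    unfold lfF
    rw [hβ4 _ (by rw [hYa]; exact hY.le), hs4 _ hY.le, hΘ3 _ (by rw [hYa]; linarith)]
    ring

end Pool.Agent.Helper89.Hedge
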