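import Pool.Agent.Helper89.Hedge.Defs

/-!
# Piece O1: an explicit oscillating function
-/

open scoped ContDiff Manifold Topology
noncomputable section
namespace Pool.Agent.Helper89.Hedge

namespace O1

/-- the oscillating bump on `[a, a + L]` -/
def GO (a L c k : ℝ) (t : ℝ) : ℝ :=
  -(c * (1 - Real.cos (2 * Real.pi * k * ((t - a) / L)))) *
    Real.smoothTransition (4 * k * ((t - a) / L)) *
    Real.smoothTransition (4 * k * (1 - (t - a) / L))

lemma contDiff_GO (a L c k : ℝ) : ContDiff ℝ ∞ (GO a L c k) := by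
  unfold GO
  have h1 : ContDiff ℝ ∞ (fun t : ℝ => (t - a) / L) := by fun_prop
  have h2 : ContDiff ℝ ∞ (fun t : ℝ => Real.smoothTransition (4 * k * ((t - a) / L))) :=
    Real.smoothTransition.contDiff.comp (by fun_prop)
  have h3 : ContDiff ℝ ∞ (fun t : ℝ => Real.smoothTransition (4 * k * (1 - (t - a) / L))) :=
    Real.smoothTransition.contDiff.comp (by fun_prop)
  exact ((contDiff_const.mul (contDiff_const.sub (Real.contDiff_cos.comp (by fun_prop)))).neg.mul
    h2).mul h3

lemma GO_left {a L c k : ℝ} (hL : 0 < L) (hk : 0 < k) {t : ℝ} (ht : t ≤ a) :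
    GO a L c k t = 0 := by
  unfold GO
  have : 4 * k * ((t - a) / L) ≤ 0 := by
    have h : (t - a) / L ≤ 0 := div_nonpos_of_nonpos_of_nonneg (by linarith) hL.le
    nlinarith
  rw [Real.smoothTransition.zero_of_nonpos this]
  ring

lemma GO_right {a L c k : ℝ} (hL : 0 < L) (hk : 0 < k) {t : ℝ} (ht : a + L ≤ t) :
    GO a L c k t = 0 := by
  unfold GO
  have : 4 * k * (1 - (t - a) / L) ≤ 0 := by
    have h : 1 ≤ (t - a) / L := by rw [le_div_iff₀ hL]; linarith
    nlinarith
  rw [Real.smoothTransition.zero_of_nonpos this]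
  ring

lemma GO_abs {a L c k : ℝ} (hc : 0 ≤ c) (t : ℝ) : |GO a L c k t| ≤ 2 * c := by
  unfold GO
  have h1 := Real.smoothTransition.nonneg (4 * k * ((t - a) / L))
  have h2 := Real.smoothTransition.le_one (4 * k * ((t - a) / L))
  have h3 := Real.smoothTransition.nonneg (4 * k * (1 - (t - a) / L))
  have h4 := Real.smoothTransition.le_one (4 * k * (1 - (t - a) / L))
  have h5 := Real.cos_le_one (2 * Real.pi * k * ((t - a) / L))
  have h6 := Real.neg_one_le_cos (2 * Real.pi * k * ((t - a) / L))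
  set A := Real.smoothTransition (4 * k * ((t - a) / L))
  set B := Real.smoothTransition (4 * k * (1 - (t - a) / L))
  set C := Real.cos (2 * Real.pi * k * ((t - a) / L))
  rw [abs_mul, abs_mul, abs_neg, abs_of_nonneg (mul_nonneg hc (by linarith : 0 ≤ 1 - C)),
    abs_of_nonneg h1, abs_of_nonneg h3]
  calc c * (1 - C) * A * B ≤ c * (1 - C) * A * 1 :=
        mul_le_mul_of_nonneg_left h4 (mul_nonneg (mul_nonneg hc (by linarith)) h1)
    _ ≤ c * (1 - C) * 1 * 1 := by
        have := mul_le_mul_of_nonneg_left h2 (mul_nonneg hc (by linarith : 0 ≤ 1 - C))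
        nlinarith
    _ ≤ 2 * c := by nlinarith

lemma GO_nonpos {a L c k : ℝ} (hc : 0 ≤ c) (t : ℝ) : GO a L c k t ≤ 0 := by
  unfold GO
  have h1 := Real.smoothTransition.nonneg (4 * k * ((t - a) / L))
  have h3 := Real.smoothTransition.nonneg (4 * k * (1 - (t - a) / L))
  have h5 := Real.cos_le_one (2 * Real.pi * k * ((t - a) / L))
  have h7 := mul_nonneg (mul_nonneg (mul_nonneg hc (sub_nonneg.2 h5)) h1) h3
  linarith

lemma GO_antitone {a L c k : ℝ} (hc : 0 ≤ c) (hL : 0 < L) (hk : 1 ≤ k) :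
    AntitoneOn (GO a L c k) (Set.Iic (a + L / (2 * k))) := by
  intro s hs t ht hst
  have hk0 : 0 < k := by linarith
  rcases le_or_gt s a with hsa | hsa
  · rw [GO_left hL hk0 hsa]
    exact GO_nonpos hc t
  have key : ∀ r, r ≤ a + L / (2 * k) → (r - a) / L ≤ 1 / (2 * k) := by
    intro r hr
    rw [div_le_iff₀ hL]
    have : 1 / (2 * k) * L = L / (2 * k) := by ring
    linarith
  have hxs := key s hs
  have hxt := key t ht
  have h0s : 0 ≤ (s - a) / L := div_nonneg (by linarith) hL.le
  have hxy : (s - a) / L ≤ (t - a) / L := by gcongr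
  have hk2 : 1 / (2 * k) ≤ 1 / 2 := by
    apply one_div_le_one_div_of_le <;> linarith
  have hkk : k * (1 / (2 * k)) = 1 / 2 := by field_simp
  unfold GO
  set x := (s - a) / L
  set y := (t - a) / L
  have h1 : ∀ z, z ≤ 1 / (2 * k) → Real.smoothTransition (4 * k * (1 - z)) = 1 := by
    intro z hz
    apply Real.smoothTransition.one_of_one_le
    nlinarith
  rw [h1 x hxs, h1 y hxt]
  have h2 : Real.smoothTransition (4 * k * x) ≤ Real.smoothTransition (4 * k * y) := by
    apply Real.smoothTransition.monotone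
    nlinarith
  have hpi := Real.pi_pos
  have h3 : Real.cos (2 * Real.pi * k * y) ≤ Real.cos (2 * Real.pi * k * x) := by
    apply Real.cos_le_cos_of_nonneg_of_le_pi
    · positivity
    · have : k * y ≤ 1 / 2 := by
        have := mul_le_mul_of_nonneg_left hxt hk0.le
        linarith
      nlinarith
    · have : 2 * Real.pi * k * x = (2 * Real.pi * k) * x := rfl
      apply mul_le_mul_of_nonneg_left hxy
      positivity
  have h4 := Real.smoothTransition.nonneg (4 * k * x)
  have h5 := Real.cos_le_one (2 * Real.pi * k * x)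
  have h6 : c * (1 - Real.cos (2 * Real.pi * k * x)) ≤ c * (1 - Real.cos (2 * Real.pi * k * y)) :=
    mul_le_mul_of_nonneg_left (by linarith) hc
  have h7 := mul_le_mul h6 h2 h4 (mul_nonneg hc (by linarith))
  linarith

lemma deriv_GO_nonpos {a L c k : ℝ} (hc : 0 ≤ c) (hL : 0 < L) (hk : 1 ≤ k) {t : ℝ}
    (ht : t < a + L / (2 * k)) : deriv (GO a L c k) t ≤ 0 := by
  have h := (GO_antitone hc hL hk (a := a)).derivWithin_nonpos (x := t)
  rwa [derivWithin_of_mem_nhds (Iic_mem_nhds ht)] at h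

lemma GO_symm {a L c : ℝ} (hL : 0 < L) (k : ℕ) (t : ℝ) :
    GO a L c k (2 * a + L - t) = GO a L c k t := by
  unfold GO
  have h1 : (2 * a + L - t - a) / L = 1 - (t - a) / L := by field_simp; ring
  have h2 : Real.cos (2 * Real.pi * k * (1 - (t - a) / L))
      = Real.cos (2 * Real.pi * k * ((t - a) / L)) := by
    have : 2 * Real.pi * k * (1 - (t - a) / L)
      = (k : ℕ) * (2 * Real.pi) - 2 * Real.pi * k * ((t - a) / L) := by ring
    rw [this, Real.cos_nat_mul_two_pi_sub]
  rw [h1, h2, sub_sub_cancel]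
  ring

lemma deriv_GO_nonneg {a L c : ℝ} (hc : 0 ≤ c) (hL : 0 < L) {k : ℕ} (hk : 1 ≤ k) {t : ℝ}
    (ht : a + L - L / (2 * k) < t) : 0 ≤ deriv (GO a L c k) t := by
  have h1 : GO a L c k = fun s => GO a L c k (2 * a + L - s) := by
    funext s
    rw [GO_symm hL]
  have h2 : deriv (GO a L c k) t = -deriv (GO a L c k) (2 * a + L - t) := by
    conv_lhs => rw [h1]
    rw [deriv_comp_const_sub]
  have h3 : deriv (GO a L c k) (2 * a + L - t) ≤ 0 := by
    apply deriv_GO_nonpos hc hL
    · exact_mod_cast hk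
    · linarith
  rw [h2]
  linarith

lemma GO_mid {a L c k : ℝ} (hL : 0 < L) (hk : 0 < k) {t : ℝ}
    (h1 : a + L / (4 * k) ≤ t) (h2 : t ≤ a + L - L / (4 * k)) :
    GO a L c k t = -(c * (1 - Real.cos (2 * Real.pi * k / L * (t - a)))) := by
  unfold GO
  have h3 : 1 ≤ 4 * k * ((t - a) / L) := by
    have : 1 / (4 * k) ≤ (t - a) / L := by
      rw [le_div_iff₀ hL]
      have : 1 / (4 * k) * L = L / (4 * k) := by ring
      linarith
    calc (1 : ℝ) = 4 * k * (1 / (4 * k)) := by field_simp
      _ ≤ _ := mul_le_mul_of_nonneg_left this (by positivity)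
  have h4 : 1 ≤ 4 * k * (1 - (t - a) / L) := by
    have : 1 / (4 * k) ≤ 1 - (t - a) / L := by
      have : (t - a) / L ≤ 1 - 1 / (4 * k) := by
        rw [div_le_iff₀ hL]
        have : (1 - 1 / (4 * k)) * L = L - L / (4 * k) := by ring
        linarith
      linarith
    calc (1 : ℝ) = 4 * k * (1 / (4 * k)) := by field_simp
      _ ≤ _ := mul_le_mul_of_nonneg_left this (by positivity)
  rw [Real.smoothTransition.one_of_one_le h3, Real.smoothTransition.one_of_one_le h4]
  have : 2 * Real.pi * k * ((t - a) / L) = 2 * Real.pi * k / L * (t - a) := by ring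
  rw [this]
  ring

lemma deriv_mid {a L c k : ℝ} (hL : 0 < L) (hk : 0 < k) {t : ℝ}
    (h1 : a + L / (4 * k) < t) (h2 : t < a + L - L / (4 * k)) :
    deriv (GO a L c k) t
      = -(c * (2 * Real.pi * k / L) * Real.sin (2 * Real.pi * k / L * (t - a))) := by
  have h3 : GO a L c k =ᶠ[𝓝 t]
      fun t => -(c * (1 - Real.cos (2 * Real.pi * k / L * (t - a)))) := by
    filter_upwards [Ioo_mem_nhds h1 h2] with s hs
    exact GO_mid hL hk hs.1.le hs.2.le
  rw [h3.deriv_eq]
  have h4 : HasDerivAt (fun t => 2 * Real.pi * k / L * (t - a)) (2 * Real.pi * k / L) t := by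
    simpa using ((hasDerivAt_id t).sub_const a).const_mul (2 * Real.pi * k / L)
  have h5 := (((h4.cos.const_sub 1).const_mul c).fun_neg).deriv
  rw [h5]
  ring

lemma deriv2_mid {a L c k : ℝ} (hL : 0 < L) (hk : 0 < k) {t : ℝ}
    (h1 : a + L / (4 * k) < t) (h2 : t < a + L - L / (4 * k)) :
    deriv (deriv (GO a L c k)) t
      = -(c * (2 * Real.pi * k / L) ^ 2 * Real.cos (2 * Real.pi * k / L * (t - a))) := by
  have h3 : deriv (GO a L c k) =ᶠ[𝓝 t]
      fun t => -(c * (2 * Real.pi * k / L) * Real.sin (2 * Real.pi * k / L * (t - a))) := by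
    filter_upwards [Ioo_mem_nhds h1 h2] with s hs
    exact deriv_mid hL hk hs.1 hs.2
  rw [h3.deriv_eq]
  have h4 : HasDerivAt (fun t => 2 * Real.pi * k / L * (t - a)) (2 * Real.pi * k / L) t := by
    simpa using ((hasDerivAt_id t).sub_const a).const_mul (2 * Real.pi * k / L)
  have h5 := ((h4.sin.const_mul (c * (2 * Real.pi * k / L))).fun_neg).deriv
  rw [h5]
  ring

lemma mid_alt {a L c k Q Λ : ℝ} (hc : 0 < c) (hL : 0 < L) (hk : 0 < k)
    (hQ : 2 * Q ≤ c * (2 * Real.pi * k / L)) (hΛ : 2 * Λ ≤ c * (2 * Real.pi * k / L) ^ 2)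
    {t : ℝ} (h1 : a + L / (4 * k) < t) (h2 : t < a + L - L / (4 * k))
    (h3 : |deriv (GO a L c k) t| ≤ Q) : Λ ≤ |deriv (deriv (GO a L c k)) t| := by
  rw [deriv_mid hL hk h1 h2] at h3
  rw [deriv2_mid hL hk h1 h2]
  have hpi := Real.pi_pos
  set om := 2 * Real.pi * k / L with homeq
  have hom0 : 0 < om := by positivity
  set θ := om * (t - a)
  rw [abs_neg, abs_mul, abs_of_pos (by positivity : 0 < c * om)] at h3
  rw [abs_neg, abs_mul, abs_of_pos (by positivity : 0 < c * om ^ 2)]
  have h4 : |Real.sin θ| ≤ 1 / 2 := by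
    by_contra h
    push Not at h
    have : c * om * (1 / 2) < c * om * |Real.sin θ| := mul_lt_mul_of_pos_left h (by positivity)
    linarith
  have h5 : 1 / 2 ≤ |Real.cos θ| := by
    by_contra h
    push Not at h
    have h6 := Real.sin_sq_add_cos_sq θ
    rw [← sq_abs (Real.sin θ), ← sq_abs (Real.cos θ)] at h6
    nlinarith [abs_nonneg (Real.sin θ), abs_nonneg (Real.cos θ)]
  have : c * om ^ 2 * (1 / 2) ≤ c * om ^ 2 * |Real.cos θ| :=
    mul_le_mul_of_nonneg_left h5 (by positivity)
  linarith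

end O1

/-- O1. -/
theorem osc_function (a b θ Q Λ r : ℝ) (ha : 0 < a) (hab : a < b) (hθ : 0 < θ) (hr : 0 < r) :
    ∃ η : ℝ → ℝ, ContDiff ℝ ∞ η ∧ (∀ t, η (-t) = -η t) ∧ (∀ t, |t| ≤ a → η t = 0) ∧
      (∀ t, b ≤ t → η t = η b) ∧ (∀ t, |η t| ≤ θ) ∧ (∀ t, |deriv η t| ≤ θ) ∧
      ∀ t, a ≤ t → t ≤ b →
        (t ≤ a + r ∧ deriv (deriv η) t ≤ 0) ∨ (b - r ≤ t ∧ 0 ≤ deriv (deriv η) t) ∨
        (|deriv (deriv η) t| ≤ Q → Λ ≤ |deriv (deriv (deriv η)) t|) := by
  have hpi := Real.pi_pos
  have hb : 0 < b := by linarith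
  obtain ⟨L, hL⟩ : ∃ L, L = b - a := ⟨_, rfl⟩
  have hL0 : 0 < L := by linarith
  obtain ⟨c, hc⟩ : ∃ c, c = θ / (2 * (1 + b)) := ⟨_, rfl⟩
  have hc0 : 0 < c := by rw [hc]; positivity
  have hc1 : 2 * c * (1 + b) = θ := by rw [hc]; field_simp
  obtain ⟨k, hk⟩ := exists_nat_ge (max 1 (max (L / (4 * r)) (max (L / (2 * Real.pi))
    (max (2 * |Q| * L / (2 * Real.pi * c)) (2 * |Λ| * L / (2 * Real.pi * c))))))
  simp only [max_le_iff] at hk
  obtain ⟨hk1, hk2, hk3, hk4, hk5⟩ := hk
  have hk0 : (0 : ℝ) < k := by linarith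
  have hk1' : 1 ≤ k := by exact_mod_cast hk1
  have hkr : L / (4 * k) ≤ r := by
    rw [div_le_iff₀ (by positivity)] at hk2 ⊢
    linarith
  have hom1 : 1 ≤ 2 * Real.pi * k / L := by
    rw [div_le_iff₀ (by positivity)] at hk3
    rw [le_div_iff₀ hL0]
    linarith
  have hQ : 2 * Q ≤ c * (2 * Real.pi * k / L) := by
    rw [div_le_iff₀ (by positivity)] at hk4
    have h1 : c * (2 * Real.pi * k / L) = k * (2 * Real.pi * c) / L := by ring
    rw [h1, le_div_iff₀ hL0]
    have := le_abs_self Q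
    nlinarith
  have hΛ : 2 * Λ ≤ c * (2 * Real.pi * k / L) ^ 2 := by
    rw [div_le_iff₀ (by positivity)] at hk5
    have h1 : c * (2 * Real.pi * k / L) = k * (2 * Real.pi * c) / L := by ring
    have h2 : 2 * Λ ≤ c * (2 * Real.pi * k / L) := by
      rw [h1, le_div_iff₀ hL0]
      have := le_abs_self Λ
      nlinarith
    have h3 : c * (2 * Real.pi * k / L) * 1 ≤ c * (2 * Real.pi * k / L) * (2 * Real.pi * k / L) :=
      mul_le_mul_of_nonneg_left hom1 (by positivity)
    nlinarith
  set G : ℝ → ℝ := O1.GO a L c k with hG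
  have hGc : ContDiff ℝ ∞ G := O1.contDiff_GO a L c k
  have hGl : ∀ t, t ≤ a → G t = 0 := fun t ht => O1.GO_left hL0 hk0 ht
  have hGr : ∀ t, b ≤ t → G t = 0 := fun t ht => O1.GO_right hL0 hk0 (by linarith)
  set g : ℝ → ℝ := fun t => G t + G (-t) with hg
  have hgc : ContDiff ℝ ∞ g := hGc.add (hGc.comp contDiff_neg)
  have hgcont : Continuous g := hgc.continuous
  have hgeven : ∀ t, g (-t) = g t := by
    intro t
    simp only [hg, neg_neg]
    ring
  have hgabs : ∀ t, |g t| ≤ 2 * c := by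
    intro t
    rcases le_total t 0 with ht | ht
    · have : g t = G (-t) := by simp only [hg]; rw [hGl t (by linarith), zero_add]
      rw [this]
      exact O1.GO_abs hc0.le _
    · have : g t = G t := by simp only [hg]; rw [hGl (-t) (by linarith), add_zero]
      rw [this]
      exact O1.GO_abs hc0.le _
  have hgz : ∀ t, |t| ≤ a → g t = 0 := by
    intro t ht
    rw [abs_le] at ht
    simp only [hg]
    rw [hGl t ht.2, hGl (-t) (by linarith), add_zero]
  have hgr : ∀ t, b ≤ t → g t = 0 := by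
    intro t ht
    simp only [hg]
    rw [hGr t ht, hGl (-t) (by linarith), add_zero]
  set η : ℝ → ℝ := fun t => ∫ s in (0 : ℝ)..t, g s with hη
  have hderiv : ∀ t, HasDerivAt η (g t) t := fun t =>
    intervalIntegral.integral_hasDerivAt_right (hgcont.intervalIntegrable _ _)
      (hgcont.stronglyMeasurableAtFilter _ _) hgcont.continuousAt
  have hd : deriv η = g := funext fun t => (hderiv t).deriv
  have hgG : ∀ t, a ≤ t → g =ᶠ[𝓝 t] G := by
    intro t ht
    filter_upwards [Ioi_mem_nhds (show (-a : ℝ) < t by linarith)] with s hs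
    simp only [hg]
    rw [hGl (-s) (by simp only [Set.mem_Ioi] at hs; linarith), add_zero]
  have hηb : ∀ t, b ≤ t → η t = η b := by
    intro t ht
    have h1 : η b + ∫ s in b..t, g s = η t :=
      intervalIntegral.integral_add_adjacent_intervals (hgcont.intervalIntegrable _ _)
        (hgcont.intervalIntegrable _ _)
    have h2 : ∫ s in b..t, g s = ∫ s in b..t, (0 : ℝ) := by
      apply intervalIntegral.integral_congr
      intro s hs
      rw [Set.uIcc_of_le ht] at hs
      exact hgr s hs.1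
    rw [h2, intervalIntegral.integral_zero, add_zero] at h1
    exact h1.symm
  have hηodd : ∀ t, η (-t) = -η t := by
    intro t
    simp only [hη]
    have h1 := intervalIntegral.integral_comp_neg (a := 0) (b := t) g
    simp only [hgeven, neg_zero] at h1
    rw [h1, intervalIntegral.integral_symm]
  have hbound : ∀ t, 0 ≤ t → t ≤ b → |η t| ≤ θ := by
    intro t ht0 ht
    have h1 := intervalIntegral.norm_integral_le_of_norm_le_const (a := 0) (b := t) (f := g)
      (C := 2 * c) (fun x _ => hgabs x)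
    rw [Real.norm_eq_abs, sub_zero, abs_of_nonneg ht0] at h1
    nlinarith
  have hbound2 : ∀ t, 0 ≤ t → |η t| ≤ θ := by
    intro t ht0
    rcases le_total t b with h | h
    · exact hbound t ht0 h
    · rw [hηb t h]
      exact hbound b hb.le le_rfl
  refine ⟨η, ?_, hηodd, ?_, hηb, ?_, ?_, ?_⟩
  · rw [contDiff_infty_iff_deriv]
    exact ⟨fun t => (hderiv t).differentiableAt, by rw [hd]; exact hgc⟩
  · intro t ht
    have h2 : ∫ s in (0 : ℝ)..t, g s = ∫ s in (0 : ℝ)..t, (0 : ℝ) := by
      apply intervalIntegral.integral_congr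
      intro s hs
      apply hgz
      rw [abs_le] at ht ⊢
      rw [Set.mem_uIcc] at hs
      rcases hs with hs | hs <;> constructor <;> linarith [hs.1, hs.2, ht.1, ht.2]
    simp only [hη]
    rw [h2, intervalIntegral.integral_zero]
  · intro t
    rcases le_total 0 t with h | h
    · exact hbound2 t h
    · have := hbound2 (-t) (by linarith)
      rw [hηodd, abs_neg] at this
      exact this
  · intro t
    rw [hd]
    have := hgabs t
    nlinarith
  · intro t hat htb
    have e1 : deriv (deriv η) t = deriv G t := by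
      rw [hd]
      exact (hgG t hat).deriv_eq
    have e2 : deriv (deriv (deriv η)) t = deriv (deriv G) t := by
      rw [hd]
      exact (hgG t hat).deriv.deriv_eq
    rw [e1, e2]
    have hlt : L / (4 * k) < L / (2 * k) := by
      apply div_lt_div_of_pos_left hL0 (by positivity)
      linarith
    rcases le_or_gt t (a + L / (4 * k)) with h1 | h1
    · left
      exact ⟨by linarith, O1.deriv_GO_nonpos hc0.le hL0 hk1 (by linarith)⟩
    · rcases lt_or_ge t (a + L - L / (4 * k)) with h2 | h2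
      · right; right
        intro h3
        exact O1.mid_alt hc0 hL0 hk0 hQ hΛ h1 h2 h3
      · right; left
        exact ⟨by linarith, O1.deriv_GO_nonneg hc0.le hL0 hk1' (by linarith)⟩

end Pool.Agent.Helper89.Hedge
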