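import Pool.Agent.Helper89.Hedge.Cal

/-!
# Projective hedgehogs without swallowtails: the form of an oscillating function
-/

open scoped ContDiff Manifold Topology
noncomputable section

namespace Pool.Agent.Helper89.Hedge

/-- O2. Product and chain rule for `F0 + nu * η(ψ)`. -/
theorem MM_osc (F0 ψ : ℝ × ℝ → ℝ) (hF : ContDiff ℝ ∞ F0) (hψ : ContDiff ℝ ∞ ψ) (η : ℝ → ℝ)
    (hη : ContDiff ℝ ∞ η) (x v w : ℝ × ℝ) :
    MM (fun y => F0 y + nu y * η (ψ y)) x v w = MM F0 x v w + η (ψ x) * MM nu x v w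
      + deriv η (ψ x) * (fderiv ℝ nu x v * fderiv ℝ ψ x w + fderiv ℝ ψ x v * fderiv ℝ nu x w
        + nu x * M0 ψ x v w)
      + deriv (deriv η) (ψ x) * (nu x * (fderiv ℝ ψ x v * fderiv ℝ ψ x w)) := by
  have hc : ContDiff ℝ ∞ (fun y => η (ψ y)) := hη.comp hψ
  have hd : ∀ u : ℝ × ℝ, fderiv ℝ (fun y => η (ψ y)) x u = deriv η (ψ x) * fderiv ℝ ψ x u := by
    intro u
    have h1 : HasDerivAt η (deriv η (ψ x)) (ψ x) :=
      ((hη.differentiable (by simp)) (ψ x)).hasDerivAt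
    have h2 : HasFDerivAt ψ (fderiv ℝ ψ x) x := ((hψ.differentiable (by simp)) x).hasFDerivAt
    have h3 := h1.comp_hasFDerivAt x h2
    rw [show (fun y => η (ψ y)) = η ∘ ψ from rfl, h3.fderiv]
    simp
  rw [MM_add hF (contDiff_nu.mul hc), MM_mul contDiff_nu hc, M0_comp hψ hη, hd v, hd w]
  ring

end Pool.Agent.Helper89.Hedge
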