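import Pool.Agent.Helper89.Hedge.Defs
import Pool.Agent.Helper89.Hedge.Cal
import Pool.Agent.Helper89.Hedge.O1
import Pool.Agent.Helper89.Hedge.O2

open scoped ContDiff Manifold Topology
open Set Filter
noncomputable section
namespace Pool.Agent.Helper89.Hedge


/-! ### Generic lemmas -/

/-- `Good` at one point -/
def O3GoodAt (f : ℝ × ℝ → ℝ) (x : ℝ × ℝ) : Prop :=
  ∀ k : ℝ × ℝ, k ≠ 0 → (∀ l, MM f x k l = 0) →
    (∃ l, MM f x l l ≠ 0) ∧ fderiv ℝ (fun y => MM f y k k) x k ≠ 0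

/-- the gradient -/
def o3gr (ψ : ℝ × ℝ → ℝ) (x : ℝ × ℝ) : ℝ × ℝ := (dx ψ x, dy ψ x)

/-- the term that is multiplied by `η'` -/
def o3RR (ψ : ℝ × ℝ → ℝ) (x v w : ℝ × ℝ) : ℝ :=
  fderiv ℝ nu x v * fderiv ℝ ψ x w + fderiv ℝ ψ x v * fderiv ℝ nu x w + nu x * M0 ψ x v w

theorem o3_MM_smul (f : ℝ × ℝ → ℝ) (x : ℝ × ℝ) (c : ℝ) (v w : ℝ × ℝ) :
    MM f x (c • v) w = c * MM f x v w := by
  simp only [MM, Prod.smul_fst, Prod.smul_snd, smul_eq_mul]; ring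

theorem o3_MM_smul_smul (f : ℝ × ℝ → ℝ) (x : ℝ × ℝ) (c : ℝ) (v : ℝ × ℝ) :
    MM f x (c • v) (c • v) = c ^ 2 * MM f x v v := by
  simp only [MM, Prod.smul_fst, Prod.smul_snd, smul_eq_mul]; ring

theorem o3_MM_comm (f : ℝ × ℝ → ℝ) (x v w : ℝ × ℝ) : MM f x v w = MM f x w v := by
  simp only [MM]; ring

theorem o3_detM_kernel (f : ℝ × ℝ → ℝ) (x k : ℝ × ℝ) (hk : k ≠ 0) (h : ∀ l, MM f x k l = 0) :
    detM f x = 0 := by
  have h1 := detM_basis f x k (-k.2, k.1)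
  rw [h k, h (-k.2, k.1)] at h1
  have h2 : k.1 * k.1 - k.2 * -k.2 ≠ 0 := by
    intro h0
    apply hk
    have h3 : k.1 ^ 2 + k.2 ^ 2 = 0 := by linarith [h0, sq k.1, sq k.2]
    have h4 : k.1 = 0 := by nlinarith [sq_nonneg k.1, sq_nonneg k.2]
    have h5 : k.2 = 0 := by nlinarith [sq_nonneg k.1, sq_nonneg k.2]
    exact Prod.ext h4 h5
  have h6 : (k.1 * k.1 - k.2 * -k.2) ^ 2 * detM f x = 0 := by rw [← h1]; ring
  rcases mul_eq_zero.mp h6 with h7 | h7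
  · exact absurd (pow_eq_zero_iff (two_ne_zero) |>.mp h7) h2
  · exact h7

theorem o3_goodAt_of_det {f : ℝ × ℝ → ℝ} {x : ℝ × ℝ} (h : detM f x ≠ 0) : O3GoodAt f x := by
  intro k hk hl
  exact absurd (o3_detM_kernel f x k hk hl) h

theorem o3_goodAt_of_pos {f : ℝ × ℝ → ℝ} {x : ℝ × ℝ} (h : ∀ k, k ≠ 0 → MM f x k k ≠ 0) :
    O3GoodAt f x := by
  intro k hk hl
  exact absurd (hl k) (h k hk)

/-! ### joint smoothness -/

theorem o3_smooth_form {A B C : ℝ × ℝ → ℝ} (hA : ContDiff ℝ ∞ A) (hB : ContDiff ℝ ∞ B)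
    (hC : ContDiff ℝ ∞ C) :
    ContDiff ℝ ∞ (fun q : (ℝ × ℝ) × (ℝ × ℝ) × (ℝ × ℝ) =>
      q.2.1.1 * q.2.2.1 * A q.1 + (q.2.1.1 * q.2.2.2 + q.2.1.2 * q.2.2.1) * B q.1
        + q.2.1.2 * q.2.2.2 * C q.1) := by
  fun_prop

theorem o3_smooth_MM {f : ℝ × ℝ → ℝ} (hf : ContDiff ℝ ∞ f) :
    ContDiff ℝ ∞ (fun q : (ℝ × ℝ) × (ℝ × ℝ) × (ℝ × ℝ) => MM f q.1 q.2.1 q.2.2) := by
  have h1 := contDiff_dx (contDiff_dx hf)
  have h2 := contDiff_dx (contDiff_dy hf)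
  have h3 := contDiff_dy (contDiff_dy hf)
  have h4 := contDiff_dy hf
  exact o3_smooth_form (A := fun y => dx (dx f) y + f y - y.2 * dy f y)
    ((h1.add hf).sub (contDiff_snd.mul h4)) h2 h3

theorem o3_smooth_M0 {f : ℝ × ℝ → ℝ} (hf : ContDiff ℝ ∞ f) :
    ContDiff ℝ ∞ (fun q : (ℝ × ℝ) × (ℝ × ℝ) × (ℝ × ℝ) => M0 f q.1 q.2.1 q.2.2) := by
  have h1 := contDiff_dx (contDiff_dx hf)
  have h2 := contDiff_dx (contDiff_dy hf)
  have h3 := contDiff_dy (contDiff_dy hf)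
  have h4 := contDiff_dy hf
  exact o3_smooth_form (A := fun y => dx (dx f) y - y.2 * dy f y)
    (h1.sub (contDiff_snd.mul h4)) h2 h3

theorem o3_smooth_fderiv {f : ℝ × ℝ → ℝ} (hf : ContDiff ℝ ∞ f) :
    ContDiff ℝ ∞ (fun q : (ℝ × ℝ) × (ℝ × ℝ) => fderiv ℝ f q.1 q.2) := by
  have h1 := contDiff_dx hf
  have h2 := contDiff_dy hf
  have h : (fun q : (ℝ × ℝ) × (ℝ × ℝ) => fderiv ℝ f q.1 q.2) =
      fun q => q.2.1 * dx f q.1 + q.2.2 * dy f q.1 := by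
    funext q
    exact fderiv_eq_dx_dy _ _
  rw [h]
  exact ((contDiff_fst.comp contDiff_snd).mul (h1.comp contDiff_fst)).add
    ((contDiff_snd.comp contDiff_snd).mul (h2.comp contDiff_fst))

theorem o3_smooth_RR {ψ : ℝ × ℝ → ℝ} (hψ : ContDiff ℝ ∞ ψ) :
    ContDiff ℝ ∞ (fun q : (ℝ × ℝ) × (ℝ × ℝ) × (ℝ × ℝ) => o3RR ψ q.1 q.2.1 q.2.2) := by
  have e1 : ContDiff ℝ ∞ (fun q : (ℝ × ℝ) × (ℝ × ℝ) × (ℝ × ℝ) => (q.1, q.2.1)) := by fun_prop
  have e2 : ContDiff ℝ ∞ (fun q : (ℝ × ℝ) × (ℝ × ℝ) × (ℝ × ℝ) => (q.1, q.2.2)) := by fun_prop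
  have h1 := (o3_smooth_fderiv contDiff_nu).comp e1
  have h2 := (o3_smooth_fderiv contDiff_nu).comp e2
  have h3 := (o3_smooth_fderiv hψ).comp e1
  have h4 := (o3_smooth_fderiv hψ).comp e2
  have h5 : ContDiff ℝ ∞ (fun q : (ℝ × ℝ) × (ℝ × ℝ) × (ℝ × ℝ) => nu q.1) :=
    contDiff_nu.comp contDiff_fst
  exact ((h1.mul h4).add (h3.mul h2)).add (h5.mul (o3_smooth_M0 hψ))

/-- joint continuity of the directional derivative -/
theorem o3_continuous_deriv {G : (ℝ × ℝ) × (ℝ × ℝ) → ℝ} (hG : ContDiff ℝ ∞ G) :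
    Continuous (fun q : (ℝ × ℝ) × (ℝ × ℝ) => fderiv ℝ (fun y => G (y, q.2)) q.1 q.2) := by
  have h : ContDiff ℝ 0 (fun q : (ℝ × ℝ) × (ℝ × ℝ) =>
      fderiv ℝ ((fun (q : (ℝ × ℝ) × (ℝ × ℝ)) (y : ℝ × ℝ) => G (y, q.2)) q) (Prod.fst q)
        (Prod.snd q)) := by
    apply ContDiff.fderiv_apply (m := ∞) _ contDiff_fst contDiff_snd (by simp)
    exact hG.comp (by fun_prop : ContDiff ℝ ∞ (fun p : ((ℝ × ℝ) × (ℝ × ℝ)) × (ℝ × ℝ) =>
      (p.2, p.1.2)))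
  exact h.continuous

theorem o3_bdd {X : Type*} [TopologicalSpace X] {K : Set X} (hK : IsCompact K)
    (fs : List (X → ℝ)) (h : ∀ f ∈ fs, Continuous f) :
    ∃ B : ℝ, 1 ≤ B ∧ ∀ f ∈ fs, ∀ x ∈ K, |f x| ≤ B := by
  induction fs with
  | nil => exact ⟨1, le_refl _, by simp⟩
  | cons g gs ih =>
    obtain ⟨B, hB1, hB⟩ := ih (fun f hf => h f (List.mem_cons_of_mem _ hf))
    obtain ⟨C, hC⟩ := hK.exists_bound_of_continuousOn
      (h g (List.mem_cons_self)).continuousOn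
    refine ⟨max B C, le_max_of_le_left hB1, ?_⟩
    intro f hf x hx
    rcases List.mem_cons.mp hf with h1 | h1
    · subst h1
      exact (hC x hx).trans (le_max_right _ _)
    · exact (hB f h1 x hx).trans (le_max_left _ _)

/-! ### reductions -/

theorem o3_translate {f : ℝ × ℝ → ℝ} {c : ℝ × ℝ} (h : ∀ y, f (y + c) = f y) (x : ℝ × ℝ) :
    fderiv ℝ f (x + c) = fderiv ℝ f x := by
  have h1 : (fun y => f (y + c)) = f := funext h
  rw [← fderiv_comp_add_right c, h1]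

theorem o3_goodAt_translate {f : ℝ × ℝ → ℝ} {c : ℝ} (h : ∀ y, f (y + (c, 0)) = f y) (x : ℝ × ℝ)
    (hg : O3GoodAt f (x + (c, 0))) : O3GoodAt f x := by
  have hdx : ∀ y, dx f (y + (c, 0)) = dx f y := fun y => by
    simp only [dx, o3_translate h]
  have hdy : ∀ y, dy f (y + (c, 0)) = dy f y := fun y => by
    simp only [dy, o3_translate h]
  have hdxx : ∀ y, dx (dx f) (y + (c, 0)) = dx (dx f) y := fun y => by
    rw [dx, o3_translate hdx]; rfl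
  have hdxy : ∀ y, dx (dy f) (y + (c, 0)) = dx (dy f) y := fun y => by
    rw [dx, o3_translate hdy]; rfl
  have hdyy : ∀ y, dy (dy f) (y + (c, 0)) = dy (dy f) y := fun y => by
    rw [dy, o3_translate hdy]; rfl
  have hM : ∀ y v w, MM f (y + (c, 0)) v w = MM f y v w := by
    intro y v w
    simp only [MM, hdxx, hdxy, hdyy, h, hdy, Prod.snd_add, add_zero]
  intro k hk hl
  obtain ⟨⟨l, hl1⟩, h2⟩ := hg k hk (fun l => by rw [hM]; exact hl l)
  refine ⟨⟨l, by rwa [hM] at hl1⟩, ?_⟩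
  rwa [o3_translate (f := fun y => MM f y k k) (fun y => hM y k k)] at h2

theorem o3_goodAt_glide {f : ℝ × ℝ → ℝ} (hf : ContDiff ℝ ∞ f) (hg : ∀ x, f (glide x) = -f x)
    (x : ℝ × ℝ) (h : O3GoodAt f (glide x)) : O3GoodAt f x := by
  intro k hk hl
  have hk' : (k.1, -k.2) ≠ (0 : ℝ × ℝ) := by
    intro h0
    apply hk
    have h1 : k.1 = 0 := congrArg Prod.fst h0
    have h2 : -k.2 = 0 := congrArg Prod.snd h0
    exact Prod.ext h1 (by simpa using h2)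
  have hM := MM_glide hf hg
  obtain ⟨⟨l, hl1⟩, h2⟩ := h (k.1, -k.2) hk' (fun l => by
    rw [hM]
    simp only [neg_neg]
    rw [hl, neg_zero])
  refine ⟨⟨(l.1, -l.2), ?_⟩, ?_⟩
  · rw [hM] at hl1
    exact fun h0 => hl1 (by rw [h0, neg_zero])
  · have h3 : (fun y => MM f y k k) = fun y => -((fun z => MM f z (k.1, -k.2) (k.1, -k.2)) (glide y)) := by
      funext y
      simp only [hM, neg_neg]
    have hgl : HasFDerivAt glide ((ContinuousLinearMap.fst ℝ ℝ ℝ).prod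
        (-(ContinuousLinearMap.snd ℝ ℝ ℝ))) x := by
      have h4 : HasFDerivAt (fun x : ℝ × ℝ => (x.1 + Real.pi, -x.2))
          ((ContinuousLinearMap.fst ℝ ℝ ℝ).prod (-(ContinuousLinearMap.snd ℝ ℝ ℝ))) x :=
        ((hasFDerivAt_fst).add_const _).prodMk (hasFDerivAt_snd.neg)
      exact h4
    have hsm : ContDiff ℝ ∞ (fun z => MM f z (k.1, -k.2) (k.1, -k.2)) :=
      (o3_smooth_MM hf).comp (contDiff_id.prodMk (contDiff_const (c := ((k.1, -k.2), (k.1, -k.2)))))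
    have h5 : DifferentiableAt ℝ (fun z => MM f z (k.1, -k.2) (k.1, -k.2)) (glide x) :=
      (hsm.differentiable (by simp)).differentiableAt
    have h6 := (h5.hasFDerivAt.comp x hgl).neg
    have h7 : fderiv ℝ (fun y => MM f y k k) x =
        -((fderiv ℝ (fun z => MM f z (k.1, -k.2) (k.1, -k.2)) (glide x)).comp
          ((ContinuousLinearMap.fst ℝ ℝ ℝ).prod (-(ContinuousLinearMap.snd ℝ ℝ ℝ)))) := by
      rw [h3]
      exact h6.fderiv
    rw [h7]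
    intro h8
    apply h2
    have h9 : -(fderiv ℝ (fun z => MM f z (k.1, -k.2) (k.1, -k.2)) (glide x) (k.1, -k.2)) = 0 := h8
    linarith

/-! ### the derivative along the kernel -/

theorem o3_fderiv_mul {ψ G : ℝ × ℝ → ℝ} (hψ : ContDiff ℝ ∞ ψ) (hG : ContDiff ℝ ∞ G) {h : ℝ → ℝ}
    (hh : ContDiff ℝ ∞ h) (x : ℝ × ℝ) :
    HasFDerivAt (fun y => h (ψ y) * G y)
      (h (ψ x) • fderiv ℝ G x + G x • (deriv h (ψ x) • fderiv ℝ ψ x)) x := by
  have h1 : HasFDerivAt ψ (fderiv ℝ ψ x) x :=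
    ((hψ.differentiable (by simp)) x).hasFDerivAt
  have h2 : HasFDerivAt G (fderiv ℝ G x) x :=
    ((hG.differentiable (by simp)) x).hasFDerivAt
  have h3 : HasDerivAt h (deriv h (ψ x)) (ψ x) :=
    ((hh.differentiable (by simp)) (ψ x)).hasDerivAt
  have h4 := (h3.comp_hasFDerivAt x h1).mul h2
  exact h4

theorem o3_contDiff_deriv {h : ℝ → ℝ} (hh : ContDiff ℝ ∞ h) : ContDiff ℝ ∞ (deriv h) :=
  (contDiff_infty_iff_deriv.mp hh).2

theorem o3_deriv_formula {F0 ψ : ℝ × ℝ → ℝ} (hF : ContDiff ℝ ∞ F0) (hψ : ContDiff ℝ ∞ ψ)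
    {η : ℝ → ℝ} (hη : ContDiff ℝ ∞ η) (x k : ℝ × ℝ) :
    fderiv ℝ (fun y => MM (fun y => F0 y + nu y * η (ψ y)) y k k) x k =
      fderiv ℝ (fun y => MM F0 y k k) x k
      + (deriv η (ψ x) * fderiv ℝ ψ x k * MM nu x k k
        + η (ψ x) * fderiv ℝ (fun y => MM nu y k k) x k)
      + (deriv (deriv η) (ψ x) * fderiv ℝ ψ x k * o3RR ψ x k k
        + deriv η (ψ x) * fderiv ℝ (fun y => o3RR ψ y k k) x k)
      + (deriv (deriv (deriv η)) (ψ x) * fderiv ℝ ψ x k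
          * (nu x * (fderiv ℝ ψ x k * fderiv ℝ ψ x k))
        + deriv (deriv η) (ψ x)
          * fderiv ℝ (fun y => nu y * (fderiv ℝ ψ y k * fderiv ℝ ψ y k)) x k) := by
  have hη1 := o3_contDiff_deriv hη
  have hη2 := o3_contDiff_deriv hη1
  have c1 : ContDiff ℝ ∞ (fun y => MM F0 y k k) :=
    (o3_smooth_MM hF).comp (contDiff_id.prodMk (contDiff_const (c := (k, k))))
  have c2 : ContDiff ℝ ∞ (fun y => MM nu y k k) :=
    (o3_smooth_MM contDiff_nu).comp (contDiff_id.prodMk (contDiff_const (c := (k, k))))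
  have c3 : ContDiff ℝ ∞ (fun y => o3RR ψ y k k) :=
    (o3_smooth_RR hψ).comp (contDiff_id.prodMk (contDiff_const (c := (k, k))))
  have c4 : ContDiff ℝ ∞ (fun y => fderiv ℝ ψ y k) :=
    (o3_smooth_fderiv hψ).comp (contDiff_id.prodMk (contDiff_const (c := k)))
  have c5 : ContDiff ℝ ∞ (fun y => nu y * (fderiv ℝ ψ y k * fderiv ℝ ψ y k)) :=
    contDiff_nu.mul (c4.mul c4)
  have h1 : HasFDerivAt (fun y => MM F0 y k k) (fderiv ℝ (fun y => MM F0 y k k) x) x :=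
    ((c1.differentiable (by simp)) x).hasFDerivAt
  have h2 := o3_fderiv_mul hψ c2 hη x
  have h3 := o3_fderiv_mul hψ c3 hη1 x
  have h4 := o3_fderiv_mul hψ c5 hη2 x
  have h5 : (fun y => MM (fun y => F0 y + nu y * η (ψ y)) y k k) = fun y => MM F0 y k k
      + η (ψ y) * MM nu y k k + deriv η (ψ y) * o3RR ψ y k k
      + deriv (deriv η) (ψ y) * (nu y * (fderiv ℝ ψ y k * fderiv ℝ ψ y k)) := by
    funext y
    rw [MM_osc F0 ψ hF hψ η hη]
    rfl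
  have h6 := ((h1.add h2).add h3).add h4
  rw [h5]
  have h7 := h6.fderiv
  have h8 := congrArg (fun L : (ℝ × ℝ) →L[ℝ] ℝ => L k) h7
  simp only [add_apply, smul_apply, smul_eq_mul] at h8
  refine Eq.trans h8 ?_
  ring

/-- rescaling of the kernel vector -/
theorem o3_rescale {f : ℝ × ℝ → ℝ} (hf : ContDiff ℝ ∞ f) (x k : ℝ × ℝ) (c : ℝ) :
    fderiv ℝ (fun y => MM f y (c • k) (c • k)) x (c • k) =
      c ^ 3 * fderiv ℝ (fun y => MM f y k k) x k := by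
  have c1 : ContDiff ℝ ∞ (fun y => MM f y k k) :=
    (o3_smooth_MM hf).comp (contDiff_id.prodMk (contDiff_const (c := (k, k))))
  have h1 : (fun y => MM f y (c • k) (c • k)) = fun y => c ^ 2 * MM f y k k := by
    funext y; exact o3_MM_smul_smul f y c k
  rw [h1, fderiv_const_mul ((c1.differentiable (by simp)) x), map_smul,
    smul_apply, smul_eq_mul, smul_eq_mul]
  ring

/-- real-number lemma for the first alternative -/
theorem o3_det_neg {t0 u0 w0 t1 u1 w1 t2 u2 w2 h0 h1 q B θ d : ℝ} (hB : 1 ≤ B) (hθ : 0 ≤ θ)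
    (hθ1 : θ ≤ 1) (ht0 : |t0| ≤ B) (hu0 : |u0| ≤ B) (hw0 : |w0| ≤ B) (ht1 : |t1| ≤ B)
    (hu1 : |u1| ≤ B) (hw1 : |w1| ≤ B) (ht2 : |t2| ≤ B) (hu2 : |u2| ≤ B) (hw2 : |w2| ≤ B)
    (hh0 : |h0| ≤ θ) (hh1 : |h1| ≤ θ) (hq : q ≤ 0) (hd : t0 * w0 - u0 ^ 2 ≤ -d)
    (hsmall : 16 * θ * B ^ 2 < d) (htpos : 0 ≤ t0 + h0 * t1 + h1 * t2) :
    (t0 + h0 * t1 + h1 * t2) * (w0 + h0 * w1 + h1 * w2 + q) - (u0 + h0 * u1 + h1 * u2) ^ 2 < 0 := by
  have key : ∀ a b : ℝ, |a| ≤ B → |b| ≤ B → |h0 * a + h1 * b| ≤ 2 * θ * B := by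
    intro a b ha hb
    calc |h0 * a + h1 * b| ≤ |h0 * a| + |h1 * b| := abs_add_le _ _
      _ = |h0| * |a| + |h1| * |b| := by rw [abs_mul, abs_mul]
      _ ≤ θ * B + θ * B := by gcongr
      _ = 2 * θ * B := by ring
  have hT := key t1 t2 ht1 ht2
  have hU := key u1 u2 hu1 hu2
  have hW := key w1 w2 hw1 hw2
  set T := h0 * t1 + h1 * t2 with hTd
  set U := h0 * u1 + h1 * u2 with hUd
  set W := h0 * w1 + h1 * w2 with hWd
  have e1 : (t0 + h0 * t1 + h1 * t2) * (w0 + h0 * w1 + h1 * w2 + q)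
      - (u0 + h0 * u1 + h1 * u2) ^ 2 = (t0 * w0 - u0 ^ 2) + t0 * W + T * w0 + T * W - 2 * (u0 * U)
        - U ^ 2 + (t0 + h0 * t1 + h1 * t2) * q := by rw [hTd, hUd, hWd]; ring
  have b1 : t0 * W ≤ B * (2 * θ * B) := by
    calc t0 * W ≤ |t0 * W| := le_abs_self _
      _ = |t0| * |W| := abs_mul _ _
      _ ≤ B * (2 * θ * B) := by gcongr
  have b2 : T * w0 ≤ (2 * θ * B) * B := by
    calc T * w0 ≤ |T * w0| := le_abs_self _
      _ = |T| * |w0| := abs_mul _ _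
      _ ≤ (2 * θ * B) * B := by gcongr
  have b3 : T * W ≤ (2 * θ * B) * (2 * θ * B) := by
    calc T * W ≤ |T * W| := le_abs_self _
      _ = |T| * |W| := abs_mul _ _
      _ ≤ (2 * θ * B) * (2 * θ * B) := by gcongr
  have b4 : -(u0 * U) ≤ B * (2 * θ * B) := by
    calc -(u0 * U) ≤ |u0 * U| := neg_le_abs _
      _ = |u0| * |U| := abs_mul _ _
      _ ≤ B * (2 * θ * B) := by gcongr
  have b5 : (t0 + h0 * t1 + h1 * t2) * q ≤ 0 := mul_nonpos_of_nonneg_of_nonpos htpos hq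
  have b6 : θ * θ * B ^ 2 ≤ θ * B ^ 2 := by
    have : θ * θ ≤ θ * 1 := by gcongr
    nlinarith [sq_nonneg B]
  rw [e1]
  nlinarith [sq_nonneg U]

/-- real-number lemma for the third alternative -/
theorem o3_third {E1 E2 E3 E4 E5 E6 E7 n h0 h1 h2 h3 B : ℝ} (hB : 1 ≤ B) (hn : 1 ≤ n)
    (b1 : |E1| ≤ B) (b2 : |E2| ≤ B) (b3 : |E3| ≤ B) (b4 : |E4| ≤ B) (b5 : |E5| ≤ B)
    (b6 : |E6| ≤ B) (b7 : |E7| ≤ B) (hh0 : |h0| ≤ 1) (hh1 : |h1| ≤ 1)
    (hk : E1 + h0 * E2 + h1 * E3 + h2 * n = 0)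
    (hthird : |h2| ≤ 3 * B → 4 * B + 6 * B ^ 2 + 1 ≤ |h3|) :
    E4 + (h1 * E2 + h0 * E5) + (h2 * E3 + h1 * E6) + (h3 * n + h2 * E7) ≠ 0 := by
  have c1 : |h0 * E2| ≤ B := by
    rw [abs_mul]
    calc |h0| * |E2| ≤ 1 * B := by gcongr
      _ = B := one_mul _
  have c2 : |h1 * E3| ≤ B := by
    rw [abs_mul]
    calc |h1| * |E3| ≤ 1 * B := by gcongr
      _ = B := one_mul _
  have c3 : |h2| ≤ 3 * B := by
    have e : h2 * n = -(E1 + h0 * E2 + h1 * E3) := by linarith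
    have e2 : |h2| * n = |E1 + h0 * E2 + h1 * E3| := by
      rw [← abs_neg (E1 + h0 * E2 + h1 * E3), ← e, abs_mul, abs_of_pos (by linarith : 0 < n)]
    have e3 : |E1 + h0 * E2 + h1 * E3| ≤ 3 * B := by
      calc |E1 + h0 * E2 + h1 * E3| ≤ |E1 + h0 * E2| + |h1 * E3| := abs_add_le _ _
        _ ≤ |E1| + |h0 * E2| + |h1 * E3| := by gcongr; exact abs_add_le _ _
        _ ≤ 3 * B := by linarith
    calc |h2| = |h2| * 1 := (mul_one _).symm
      _ ≤ |h2| * n := by gcongr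
      _ ≤ 3 * B := by rw [e2]; exact e3
  have c4 := hthird c3
  have d1 : |h1 * E2| ≤ B := by
    rw [abs_mul]
    calc |h1| * |E2| ≤ 1 * B := by gcongr
      _ = B := one_mul _
  have d2 : |h0 * E5| ≤ B := by
    rw [abs_mul]
    calc |h0| * |E5| ≤ 1 * B := by gcongr
      _ = B := one_mul _
  have d3 : |h2 * E3| ≤ 3 * B * B := by
    rw [abs_mul]; gcongr
  have d4 : |h1 * E6| ≤ B := by
    rw [abs_mul]
    calc |h1| * |E6| ≤ 1 * B := by gcongr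
      _ = B := one_mul _
  have d5 : |h2 * E7| ≤ 3 * B * B := by
    rw [abs_mul]; gcongr
  have d6 : 4 * B + 6 * B ^ 2 + 1 ≤ |h3 * n| := by
    rw [abs_mul, abs_of_pos (by linarith : 0 < n)]
    calc 4 * B + 6 * B ^ 2 + 1 ≤ |h3| := c4
      _ = |h3| * 1 := (mul_one _).symm
      _ ≤ |h3| * n := by gcongr
  intro h
  have e : h3 * n = -(E4 + (h1 * E2 + h0 * E5) + (h2 * E3 + h1 * E6) + h2 * E7) := by linarith
  rw [e, abs_neg] at d6
  rw [abs_le] at b4 d1 d2 d3 d4 d5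
  have : |E4 + (h1 * E2 + h0 * E5) + (h2 * E3 + h1 * E6) + h2 * E7| ≤ 4 * B + 6 * B ^ 2 := by
    rw [abs_le]
    constructor <;> nlinarith
  linarith

/-! ### the kernel vector -/

theorem o3_basis (f ψ : ℝ × ℝ → ℝ) (x k : ℝ × ℝ) :
    (dx ψ x ^ 2 + dy ψ x ^ 2) * MM f x k (tau ψ x) =
      (k.1 * dy ψ x - k.2 * dx ψ x) * MM f x (tau ψ x) (tau ψ x)
        + fderiv ℝ ψ x k * MM f x (tau ψ x) (o3gr ψ x) := by
  rw [fderiv_eq_dx_dy]
  simp only [MM, tau, o3gr]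
  ring

theorem o3_kernel_ne {f ψ : ℝ × ℝ → ℝ} {x k : ℝ × ℝ} (hk : k ≠ 0)
    (hker : MM f x k (tau ψ x) = 0) (htt : 0 < MM f x (tau ψ x) (tau ψ x))
    (hN : 0 < dx ψ x ^ 2 + dy ψ x ^ 2) : fderiv ℝ ψ x k ≠ 0 := by
  intro h0
  have h1 := o3_basis f ψ x k
  rw [hker, h0, mul_zero, zero_mul, add_zero] at h1
  have h2 : k.1 * dy ψ x - k.2 * dx ψ x = 0 := by
    rcases mul_eq_zero.mp h1.symm with h | h
    · exact h
    · exact absurd h htt.ne'
  rw [fderiv_eq_dx_dy] at h0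
  apply hk
  have e1 : (dx ψ x ^ 2 + dy ψ x ^ 2) * k.1 = 0 := by
    have : (dx ψ x ^ 2 + dy ψ x ^ 2) * k.1 = (k.1 * dx ψ x + k.2 * dy ψ x) * dx ψ x
      + (k.1 * dy ψ x - k.2 * dx ψ x) * dy ψ x := by ring
    rw [this, h0, h2]; ring
  have e2 : (dx ψ x ^ 2 + dy ψ x ^ 2) * k.2 = 0 := by
    have : (dx ψ x ^ 2 + dy ψ x ^ 2) * k.2 = (k.1 * dx ψ x + k.2 * dy ψ x) * dy ψ x
      - (k.1 * dy ψ x - k.2 * dx ψ x) * dx ψ x := by ring
    rw [this, h0, h2]; ring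
  exact Prod.ext ((mul_eq_zero.mp e1).resolve_left hN.ne')
    ((mul_eq_zero.mp e2).resolve_left hN.ne')

theorem o3_kernel_bound {f ψ : ℝ × ℝ → ℝ} {x k : ℝ × ℝ} {a₀ B N₀ : ℝ} (ha : 0 < a₀)
    (hN : 0 < N₀) (hB : 1 ≤ B) (hk1 : fderiv ℝ ψ x k = 1) (hker : MM f x k (tau ψ x) = 0)
    (htt : a₀ / 2 ≤ MM f x (tau ψ x) (tau ψ x)) (htg : |MM f x (tau ψ x) (o3gr ψ x)| ≤ 3 * B)
    (hN0 : N₀ ≤ dx ψ x ^ 2 + dy ψ x ^ 2) (hx : |dx ψ x| ≤ B) (hy : |dy ψ x| ≤ B) :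
    ‖k‖ ≤ ((6 * B / a₀) * B + B) / N₀ := by
  have h1 := o3_basis f ψ x k
  rw [hker, hk1, mul_zero, one_mul] at h1
  set κ := k.1 * dy ψ x - k.2 * dx ψ x with hκ
  have h2 : |κ| ≤ 6 * B / a₀ := by
    rw [le_div_iff₀ ha]
    have h3 : κ * MM f x (tau ψ x) (tau ψ x) = -MM f x (tau ψ x) (o3gr ψ x) := by linarith
    have h4 : |κ| * MM f x (tau ψ x) (tau ψ x) ≤ 3 * B := by
      calc |κ| * MM f x (tau ψ x) (tau ψ x) = |κ * MM f x (tau ψ x) (tau ψ x)| := by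
            rw [abs_mul, abs_of_pos (by linarith : 0 < MM f x (tau ψ x) (tau ψ x))]
        _ = |MM f x (tau ψ x) (o3gr ψ x)| := by rw [h3, abs_neg]
        _ ≤ 3 * B := htg
    nlinarith [abs_nonneg κ]
  have hk1' := hk1
  rw [fderiv_eq_dx_dy] at hk1'
  have hNN : 0 < dx ψ x ^ 2 + dy ψ x ^ 2 := lt_of_lt_of_le hN hN0
  have e1 : (dx ψ x ^ 2 + dy ψ x ^ 2) * k.1 = dx ψ x + κ * dy ψ x := by
    have : (dx ψ x ^ 2 + dy ψ x ^ 2) * k.1 = (k.1 * dx ψ x + k.2 * dy ψ x) * dx ψ x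
      + κ * dy ψ x := by rw [hκ]; ring
    rw [this, hk1']; ring
  have e2 : (dx ψ x ^ 2 + dy ψ x ^ 2) * k.2 = dy ψ x - κ * dx ψ x := by
    have : (dx ψ x ^ 2 + dy ψ x ^ 2) * k.2 = (k.1 * dx ψ x + k.2 * dy ψ x) * dy ψ x
      - κ * dx ψ x := by rw [hκ]; ring
    rw [this, hk1']; ring
  have key : ∀ t u : ℝ, (dx ψ x ^ 2 + dy ψ x ^ 2) * t = u → |u| ≤ (6 * B / a₀) * B + B →
      |t| ≤ ((6 * B / a₀) * B + B) / N₀ := by
    intro t u htu hu
    rw [le_div_iff₀ hN]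
    calc |t| * N₀ ≤ |t| * (dx ψ x ^ 2 + dy ψ x ^ 2) := by gcongr
      _ = |(dx ψ x ^ 2 + dy ψ x ^ 2) * t| := by
          rw [abs_mul, abs_of_pos hNN]; ring
      _ = |u| := by rw [htu]
      _ ≤ _ := hu
  have hκ0 : 0 ≤ 6 * B / a₀ := by positivity
  rw [Prod.norm_def]
  apply max_le
  · apply key _ _ e1
    calc |dx ψ x + κ * dy ψ x| ≤ |dx ψ x| + |κ * dy ψ x| := abs_add_le _ _
      _ = |dx ψ x| + |κ| * |dy ψ x| := by rw [abs_mul]
      _ ≤ B + (6 * B / a₀) * B := by gcongr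
      _ = (6 * B / a₀) * B + B := by ring
  · apply key _ _ e2
    calc |dy ψ x - κ * dx ψ x| ≤ |dy ψ x| + |κ * dx ψ x| := abs_sub _ _
      _ = |dy ψ x| + |κ| * |dx ψ x| := by rw [abs_mul]
      _ ≤ B + (6 * B / a₀) * B := by gcongr
      _ = (6 * B / a₀) * B + B := by ring

theorem o3_exists_theta {a₀ d₀ s₀ c₃ B B₂ : ℝ} (ha : 0 < a₀) (hd : 0 < d₀) (hs : 0 < s₀)
    (hc : 0 < c₃) :
    ∃ θ : ℝ, 0 < θ ∧ θ < 1 ∧ 2 * θ * B < a₀ / 2 ∧ 16 * θ * B ^ 2 < d₀ ∧ θ < s₀ ∧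
      θ * B₂ < (s₀ - θ) * c₃ := by
  have key : ∀ (g : ℝ → ℝ) (c : ℝ), Continuous g → g 0 < c → ∀ᶠ θ in 𝓝[>] (0 : ℝ), g θ < c := by
    intro g c hg h0
    exact (hg.continuousAt.tendsto.mono_left nhdsWithin_le_nhds).eventually_lt_const h0
  have h0 : ∀ᶠ θ in 𝓝[>] (0 : ℝ), 0 < θ := eventually_mem_nhdsWithin
  have h1 := key (fun θ => θ) 1 continuous_id (by norm_num)
  have h2 := key (fun θ => 2 * θ * B) (a₀ / 2) (by fun_prop) (by simpa using ha)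
  have h3 := key (fun θ => 16 * θ * B ^ 2) d₀ (by fun_prop) (by simpa using hd)
  have h4 := key (fun θ => θ) s₀ continuous_id hs
  have h5 := key (fun θ => θ * B₂ - (s₀ - θ) * c₃) 0 (by fun_prop) (by
    simp only [zero_mul, sub_zero, zero_sub, Left.neg_neg_iff]
    positivity)
  obtain ⟨θ, g0, g1, g2, g3, g4, g5⟩ := (h0.and (h1.and (h2.and (h3.and (h4.and h5))))).exists
  exact ⟨θ, g0, g1, g2, g3, g4, by linarith⟩

theorem o3_MM_congr {f g : ℝ × ℝ → ℝ} {x : ℝ × ℝ} (h : f =ᶠ[𝓝 x] g) (v w : ℝ × ℝ) :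
    MM f x v w = MM g x v w := by
  have h1 : dx f =ᶠ[𝓝 x] dx g := by
    filter_upwards [h.fderiv (𝕜 := ℝ)] with y hy
    rw [dx, dx, hy]
  have h2 : dy f =ᶠ[𝓝 x] dy g := by
    filter_upwards [h.fderiv (𝕜 := ℝ)] with y hy
    rw [dy, dy, hy]
  have e1 : dx (dx f) x = dx (dx g) x := by
    rw [dx, dx, h1.fderiv_eq]
  have e2 : dx (dy f) x = dx (dy g) x := by
    rw [dx, dx, h2.fderiv_eq]
  have e3 : dy (dy f) x = dy (dy g) x := by
    rw [dy, dy, h2.fderiv_eq]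
  rw [MM, MM, e1, e2, e3, h.eq_of_nhds, h2.eq_of_nhds]

theorem o3_abs_ge {t0 t1 t2 h0 h1 B θ a₀ : ℝ} (ht1 : |t1| ≤ B) (ht2 : |t2| ≤ B)
    (hh0 : |h0| ≤ θ) (hh1 : |h1| ≤ θ) (h : 2 * θ * B < a₀ / 2) (h2 : a₀ ≤ t0) :
    a₀ / 2 ≤ t0 + h0 * t1 + h1 * t2 := by
  have b1 : |h0 * t1| ≤ θ * B := by
    rw [abs_mul]
    exact mul_le_mul hh0 ht1 (abs_nonneg _) ((abs_nonneg _).trans hh0)
  have b2 : |h1 * t2| ≤ θ * B := by
    rw [abs_mul]
    exact mul_le_mul hh1 ht2 (abs_nonneg _) ((abs_nonneg _).trans hh1)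
  rw [abs_le] at b1 b2
  linarith

theorem oscillation (F0 ψ : ℝ × ℝ → ℝ) (hF : ContDiff ℝ ∞ F0) (hψ : ContDiff ℝ ∞ ψ)
    (hFg : ∀ x, F0 (glide x) = -F0 x) (hψg : ∀ x, ψ (glide x) = -ψ x) (δ s₀ : ℝ) (hδ : 0 < δ)
    (hs : 0 < s₀) (hfar : ∀ x : ℝ × ℝ, 2 ≤ x.2 → 5 * δ < ψ x)
    (ho2 : ∀ x, 0 ≤ ψ x → ψ x ≤ δ → detM F0 x < 0)
    (ho3 : ∀ x, δ / 2 ≤ ψ x → ψ x ≤ 5 * δ → 0 < MM F0 x (tau ψ x) (tau ψ x))
    (ho4 : ∀ x, 4 * δ < ψ x → F0 x = s₀ * nu x) :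
    ∃ (f : ℝ × ℝ → ℝ) (c : ℝ), 0 < c ∧ ContDiff ℝ ∞ f ∧ (∀ x, f (glide x) = -f x) ∧
      (∀ x : ℝ × ℝ, 2 ≤ x.2 → f x = c * nu x) ∧ Good f := by
  have hpi := Real.pi_pos
  have hnu1 : ∀ x, 1 ≤ nu x := by
    intro x
    rw [nu]
    apply Real.one_le_sqrt.mpr
    nlinarith [sq_nonneg x.2]
  have hx2 : ∀ x : ℝ × ℝ, 0 ≤ ψ x → ψ x ≤ 5 * δ → x.2 ∈ Icc (-2 : ℝ) 2 := by
    intro x h0 h1
    constructor
    · by_contra hc
      push Not at hc
      have h2 := hfar (glide x) (by simp only [glide]; linarith)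
      rw [hψg] at h2
      linarith
    · by_contra hc
      push Not at hc
      have := hfar x hc.le
      linarith
  set K : Set (ℝ × ℝ) := (Icc 0 (4 * Real.pi) ×ˢ Icc (-2) 2) ∩ ψ ⁻¹' Icc (δ / 2) (5 * δ)
    with hKdef
  have hK : IsCompact K :=
    (isCompact_Icc.prod isCompact_Icc).inter_right (isClosed_Icc.preimage hψ.continuous)
  have cx : Continuous (dx ψ) := (contDiff_dx hψ).continuous
  have cy : Continuous (dy ψ) := (contDiff_dy hψ).continuous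
  have cτ : Continuous (tau ψ) := cy.prodMk cx.neg
  have cg : Continuous (o3gr ψ) := cx.prodMk cy
  have cMF := (o3_smooth_MM hF).continuous
  have cMn := (o3_smooth_MM contDiff_nu).continuous
  have cR := (o3_smooth_RR hψ).continuous
  have cττ : Continuous (fun x => (x, tau ψ x, tau ψ x)) := continuous_id.prodMk (cτ.prodMk cτ)
  have cτg : Continuous (fun x => (x, tau ψ x, o3gr ψ x)) := continuous_id.prodMk (cτ.prodMk cg)
  have cgg : Continuous (fun x => (x, o3gr ψ x, o3gr ψ x)) := continuous_id.prodMk (cg.prodMk cg)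
  have k1 : Continuous (fun x => MM F0 x (tau ψ x) (tau ψ x)) := cMF.comp cττ
  have k2 : Continuous (fun x => MM F0 x (tau ψ x) (o3gr ψ x)) := cMF.comp cτg
  have k3 : Continuous (fun x => MM F0 x (o3gr ψ x) (o3gr ψ x)) := cMF.comp cgg
  have k4 : Continuous (fun x => MM nu x (tau ψ x) (tau ψ x)) := cMn.comp cττ
  have k5 : Continuous (fun x => MM nu x (tau ψ x) (o3gr ψ x)) := cMn.comp cτg
  have k6 : Continuous (fun x => MM nu x (o3gr ψ x) (o3gr ψ x)) := cMn.comp cgg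
  have k7 : Continuous (fun x => o3RR ψ x (tau ψ x) (tau ψ x)) := cR.comp cττ
  have k8 : Continuous (fun x => o3RR ψ x (tau ψ x) (o3gr ψ x)) := cR.comp cτg
  have k9 : Continuous (fun x => o3RR ψ x (o3gr ψ x) (o3gr ψ x)) := cR.comp cgg
  -- lower bounds
  obtain ⟨a₀, ha₀, haK⟩ := hK.exists_forall_le' k1.continuousOn (a := 0)
    (fun x hx => ho3 x hx.2.1 hx.2.2)
  have hNpos : ∀ x ∈ K, 0 < dx ψ x ^ 2 + dy ψ x ^ 2 := by
    intro x hx
    have h1 := ho3 x hx.2.1 hx.2.2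
    by_contra hc
    have h2 : dx ψ x = 0 := by nlinarith [sq_nonneg (dx ψ x), sq_nonneg (dy ψ x)]
    have h3 : dy ψ x = 0 := by nlinarith [sq_nonneg (dx ψ x), sq_nonneg (dy ψ x)]
    have h4 : MM F0 x (tau ψ x) (tau ψ x) = 0 := by
      simp only [MM, tau, h2, h3]; ring
    linarith
  obtain ⟨N₀, hN₀, hNK⟩ := hK.exists_forall_le' (f := fun x => dx ψ x ^ 2 + dy ψ x ^ 2)
    ((cx.pow 2).add (cy.pow 2)).continuousOn (a := 0) hNpos
  obtain ⟨d₀, hd₀, hdK⟩ :=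
    (hK.inter_right ((isClosed_Iic (a := δ)).preimage hψ.continuous)).exists_forall_le'
    (f := fun x => -(MM F0 x (tau ψ x) (tau ψ x) * MM F0 x (o3gr ψ x) (o3gr ψ x)
      - MM F0 x (tau ψ x) (o3gr ψ x) ^ 2))
    ((k1.mul k3).sub (k2.pow 2)).neg.continuousOn (a := 0) (by
      rintro x ⟨hx, hxd⟩
      rw [detM_basis]
      have h1 := ho2 x (by have := hx.2.1; linarith) hxd
      have h2 := hNpos x hx
      have h3 : (tau ψ x).1 * (o3gr ψ x).2 - (tau ψ x).2 * (o3gr ψ x).1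
        = dx ψ x ^ 2 + dy ψ x ^ 2 := by simp only [tau, o3gr]; ring
      rw [h3]
      have h4 : 0 < (dx ψ x ^ 2 + dy ψ x ^ 2) ^ 2 := by positivity
      nlinarith)
  obtain ⟨B, hB1, hB⟩ := o3_bdd hK [fun x => MM F0 x (tau ψ x) (tau ψ x),
    fun x => MM F0 x (tau ψ x) (o3gr ψ x), fun x => MM F0 x (o3gr ψ x) (o3gr ψ x),
    fun x => MM nu x (tau ψ x) (tau ψ x),
    fun x => MM nu x (tau ψ x) (o3gr ψ x), fun x => MM nu x (o3gr ψ x) (o3gr ψ x),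
    fun x => o3RR ψ x (tau ψ x) (tau ψ x),
    fun x => o3RR ψ x (tau ψ x) (o3gr ψ x), fun x => o3RR ψ x (o3gr ψ x) (o3gr ψ x),
    dx ψ, dy ψ] (by
      intro f hf
      simp only [List.mem_cons, List.not_mem_nil, or_false] at hf
      rcases hf with rfl | rfl | rfl | rfl | rfl | rfl | rfl | rfl | rfl | rfl | rfl <;> assumption)
  set C₂ := ((6 * B / a₀) * B + B) / N₀ with hC₂
  have hK₂ : IsCompact (K ×ˢ Metric.closedBall (0 : ℝ × ℝ) C₂) :=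
    hK.prod (isCompact_closedBall _ _)
  have cdiag : ContDiff ℝ ∞ (fun q : (ℝ × ℝ) × (ℝ × ℝ) => (q.1, q.2, q.2)) := by fun_prop
  have s1 := (o3_smooth_MM hF).comp cdiag
  have s2 := (o3_smooth_MM contDiff_nu).comp cdiag
  have s3 := (o3_smooth_RR hψ).comp cdiag
  have s4 := o3_smooth_fderiv hψ
  have s5 : ContDiff ℝ ∞ (fun q : (ℝ × ℝ) × (ℝ × ℝ) => nu q.1 * (fderiv ℝ ψ q.1 q.2
    * fderiv ℝ ψ q.1 q.2)) := (contDiff_nu.comp contDiff_fst).mul (s4.mul s4)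
  have m1 : Continuous (fun q : (ℝ × ℝ) × (ℝ × ℝ) => MM F0 q.1 q.2 q.2) := s1.continuous
  have m2 : Continuous (fun q : (ℝ × ℝ) × (ℝ × ℝ) => MM nu q.1 q.2 q.2) := s2.continuous
  have m3 : Continuous (fun q : (ℝ × ℝ) × (ℝ × ℝ) => o3RR ψ q.1 q.2 q.2) := s3.continuous
  have m4 : Continuous (fun q : (ℝ × ℝ) × (ℝ × ℝ) =>
    fderiv ℝ (fun y => MM F0 y q.2 q.2) q.1 q.2) := o3_continuous_deriv s1
  have m5 : Continuous (fun q : (ℝ × ℝ) × (ℝ × ℝ) =>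
    fderiv ℝ (fun y => MM nu y q.2 q.2) q.1 q.2) := o3_continuous_deriv s2
  have m6 : Continuous (fun q : (ℝ × ℝ) × (ℝ × ℝ) =>
    fderiv ℝ (fun y => o3RR ψ y q.2 q.2) q.1 q.2) := o3_continuous_deriv s3
  have m7 : Continuous (fun q : (ℝ × ℝ) × (ℝ × ℝ) =>
    fderiv ℝ (fun y => nu y * (fderiv ℝ ψ y q.2 * fderiv ℝ ψ y q.2)) q.1 q.2) :=
    o3_continuous_deriv s5
  obtain ⟨B₂, hB₂1, hB₂⟩ := o3_bdd hK₂ [fun q : (ℝ × ℝ) × (ℝ × ℝ) => MM F0 q.1 q.2 q.2,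
    fun q => MM nu q.1 q.2 q.2, fun q => o3RR ψ q.1 q.2 q.2,
    fun q => fderiv ℝ (fun y => MM F0 y q.2 q.2) q.1 q.2,
    fun q => fderiv ℝ (fun y => MM nu y q.2 q.2) q.1 q.2,
    fun q => fderiv ℝ (fun y => o3RR ψ y q.2 q.2) q.1 q.2,
    fun q => fderiv ℝ (fun y => nu y * (fderiv ℝ ψ y q.2 * fderiv ℝ ψ y q.2)) q.1 q.2] (by
      intro f hf
      simp only [List.mem_cons, List.not_mem_nil, or_false] at hf
      rcases hf with rfl | rfl | rfl | rfl | rfl | rfl | rfl <;> assumption)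
  have m8 : Continuous (fun q : (ℝ × ℝ) × (ℝ × ℝ) => fderiv ℝ ψ q.1 q.2) := s4.continuous
  obtain ⟨c₃, hc₃, hcK⟩ :=
    (hK₂.inter_right ((isClosed_singleton (x := (1 : ℝ))).preimage m8)).exists_forall_le'
    m2.continuousOn (a := 0) (by
      rintro q ⟨_, hq⟩
      have hq1 : fderiv ℝ ψ q.1 q.2 = 1 := hq
      have h1 : q.2 ≠ 0 := by
        intro h0
        rw [h0, map_zero] at hq1
        exact zero_ne_one hq1
      rw [MM_nu]
      have h2 := hnu1 q.1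
      have h3 : 0 < nu q.1 := by linarith
      by_cases h4 : q.2.1 = 0
      · have h5 : q.2.2 ≠ 0 := fun h5 => h1 (Prod.ext h4 h5)
        rw [h4]
        have h6 : 0 < q.2.2 * q.2.2 := mul_self_pos.mpr h5
        positivity
      · have h5 : 0 < q.2.1 * q.2.1 := mul_self_pos.mpr h4
        have h6 : 0 ≤ q.2.2 * q.2.2 := mul_self_nonneg _
        positivity)
  obtain ⟨θ, hθ, hθ1, hθa, hθd, hθs, hθc⟩ := o3_exists_theta (B := B) (B₂ := B₂) ha₀ hd₀ hs hc₃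
  obtain ⟨η, hη, hodd, hzero, hfin, hη0, hη1, halt⟩ := osc_function (δ / 2) (5 * δ) θ (3 * B₂)
    (4 * B₂ + 6 * B₂ ^ 2 + 1) (δ / 2) (by linarith) (by linarith) hθ (by linarith)
  have hηs := o3_contDiff_deriv hη
  have hηs2 := o3_contDiff_deriv hηs
  set f : ℝ × ℝ → ℝ := fun y => F0 y + nu y * η (ψ y) with hfdef
  have hfs : ContDiff ℝ ∞ f := hF.add (contDiff_nu.mul (hη.comp hψ))
  have hfg : ∀ x, f (glide x) = -f x := by
    intro x
    have h1 : nu (glide x) = nu x := by simp only [nu, glide, neg_sq]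
    simp only [hfdef, hFg, hψg, hodd, h1]
    ring
  have hMf : ∀ x v w, MM f x v w = MM F0 x v w + η (ψ x) * MM nu x v w
      + deriv η (ψ x) * o3RR ψ x v w
      + deriv (deriv η) (ψ x) * (nu x * (fderiv ℝ ψ x v * fderiv ℝ ψ x w)) := by
    intro x v w
    exact MM_osc F0 ψ hF hψ η hη x v w
  have hnusq : ∀ x k : ℝ × ℝ, k ≠ 0 → 0 < MM nu x k k := by
    intro x k hk
    rw [MM_nu]
    have h3 : 0 < nu x := by have := hnu1 x; linarith
    by_cases h4 : k.1 = 0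
    · have h5 : k.2 ≠ 0 := fun h5 => hk (Prod.ext h4 h5)
      rw [h4]
      have h6 : 0 < k.2 * k.2 := mul_self_pos.mpr h5
      positivity
    · have h5 : 0 < k.1 * k.1 := mul_self_pos.mpr h4
      have h6 : 0 ≤ k.2 * k.2 := mul_self_nonneg _
      positivity
  -- F0 near the far region
  have hF0far : ∀ x, 4 * δ < ψ x → ∀ v w, MM F0 x v w = s₀ * MM nu x v w := by
    intro x hx v w
    have h1 : F0 =ᶠ[𝓝 x] fun y => s₀ * nu y := by
      have h2 : ∀ᶠ y in 𝓝 x, 4 * δ < ψ y := hψ.continuous.continuousAt.eventually_const_lt hx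
      filter_upwards [h2] with y hy
      exact ho4 y hy
    rw [o3_MM_congr h1, MM_const_mul contDiff_nu]
  -- the strip
  have strip : ∀ x ∈ K, O3GoodAt f x := by
    intro x hx k hk hker
    have hττ : a₀ / 2 ≤ MM f x (tau ψ x) (tau ψ x) := by
      rw [hMf, fderiv_tau, mul_zero, mul_zero, mul_zero, add_zero]
      exact o3_abs_ge (hB (fun x => MM nu x (tau ψ x) (tau ψ x)) (by simp) x hx)
        (hB (fun x => o3RR ψ x (tau ψ x) (tau ψ x)) (by simp) x hx) (hη0 _) (hη1 _) hθa (haK x hx)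
    have hττ0 : 0 < MM f x (tau ψ x) (tau ψ x) := by linarith
    have hp := o3_kernel_ne hk (hker _) hττ0 (hNpos x hx)
    set p := fderiv ℝ ψ x k with hpdef
    refine ⟨⟨tau ψ x, hττ0.ne'⟩, ?_⟩
    -- normalise
    set k' := p⁻¹ • k with hk'
    have hkk' : k = p • k' := by rw [hk', smul_smul, mul_inv_cancel₀ hp, one_smul]
    have hker' : ∀ l, MM f x k' l = 0 := by
      intro l
      rw [hk', o3_MM_smul, hker, mul_zero]
    have hp' : fderiv ℝ ψ x k' = 1 := by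
      rw [hk', map_smul, smul_eq_mul]
      exact inv_mul_cancel₀ hp
    have hk'0 : k' ≠ 0 := by
      intro h0
      rw [h0, map_zero] at hp'
      exact zero_ne_one hp'
    have hτg : |MM f x (tau ψ x) (o3gr ψ x)| ≤ 3 * B := by
      rw [hMf, fderiv_tau, zero_mul, mul_zero, mul_zero, add_zero]
      have b1 : |MM F0 x (tau ψ x) (o3gr ψ x)| ≤ B :=
        hB (fun x => MM F0 x (tau ψ x) (o3gr ψ x)) (by simp) x hx
      have b2 : |η (ψ x) * MM nu x (tau ψ x) (o3gr ψ x)| ≤ 1 * B := by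
        rw [abs_mul]
        exact mul_le_mul ((hη0 _).trans hθ1.le)
          (hB (fun x => MM nu x (tau ψ x) (o3gr ψ x)) (by simp) x hx) (abs_nonneg _) zero_le_one
      have b3 : |deriv η (ψ x) * o3RR ψ x (tau ψ x) (o3gr ψ x)| ≤ 1 * B := by
        rw [abs_mul]
        exact mul_le_mul ((hη1 _).trans hθ1.le)
          (hB (fun x => o3RR ψ x (tau ψ x) (o3gr ψ x)) (by simp) x hx) (abs_nonneg _) zero_le_one
      rw [abs_le] at b1 b2 b3 ⊢
      constructor <;> linarith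
    have hbd : ‖k'‖ ≤ C₂ := o3_kernel_bound ha₀ hN₀ hB1 hp' (hker' _) hττ hτg (hNK x hx)
      (hB (dx ψ) (by simp) x hx) (hB (dy ψ) (by simp) x hx)
    have hmem : (x, k') ∈ K ×ˢ Metric.closedBall (0 : ℝ × ℝ) C₂ :=
      ⟨hx, by simpa using hbd⟩
    have hE1 := hB₂ (fun q : (ℝ × ℝ) × (ℝ × ℝ) => MM F0 q.1 q.2 q.2) (by simp) _ hmem
    have hE2 := hB₂ (fun q : (ℝ × ℝ) × (ℝ × ℝ) => MM nu q.1 q.2 q.2) (by simp) _ hmem
    have hE3 := hB₂ (fun q : (ℝ × ℝ) × (ℝ × ℝ) => o3RR ψ q.1 q.2 q.2) (by simp) _ hmem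
    have hE4 := hB₂ (fun q : (ℝ × ℝ) × (ℝ × ℝ) => fderiv ℝ (fun y => MM F0 y q.2 q.2) q.1 q.2)
      (by simp) _ hmem
    have hE5 := hB₂ (fun q : (ℝ × ℝ) × (ℝ × ℝ) => fderiv ℝ (fun y => MM nu y q.2 q.2) q.1 q.2)
      (by simp) _ hmem
    have hE6 := hB₂ (fun q : (ℝ × ℝ) × (ℝ × ℝ) => fderiv ℝ (fun y => o3RR ψ y q.2 q.2) q.1 q.2)
      (by simp) _ hmem
    have hE7 := hB₂ (fun q : (ℝ × ℝ) × (ℝ × ℝ) =>
      fderiv ℝ (fun y => nu y * (fderiv ℝ ψ y q.2 * fderiv ℝ ψ y q.2)) q.1 q.2)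
      (by simp) _ hmem
    simp only at hE1 hE2 hE3 hE4 hE5 hE6 hE7
    have hkk : MM F0 x k' k' + η (ψ x) * MM nu x k' k' + deriv η (ψ x) * o3RR ψ x k' k'
        + deriv (deriv η) (ψ x) * nu x = 0 := by
      have h1 := hker' k'
      rw [hMf, hp', mul_one, mul_one] at h1
      exact h1
    have hT : fderiv ℝ (fun y => MM f y k' k') x k' ≠ 0 := by
      rcases halt (ψ x) hx.2.1 hx.2.2 with ⟨hle, hsign⟩ | ⟨hge, hsign⟩ | hthird
      · -- first alternative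
        exfalso
        have hxd : ψ x ≤ δ := by linarith
        have h1 := o3_det_neg (q := deriv (deriv η) (ψ x) * (nu x *
            (fderiv ℝ ψ x (o3gr ψ x) * fderiv ℝ ψ x (o3gr ψ x)))) hB1 hθ.le hθ1.le
          (hB (fun x => MM F0 x (tau ψ x) (tau ψ x)) (by simp) x hx)
          (hB (fun x => MM F0 x (tau ψ x) (o3gr ψ x)) (by simp) x hx)
          (hB (fun x => MM F0 x (o3gr ψ x) (o3gr ψ x)) (by simp) x hx)
          (hB (fun x => MM nu x (tau ψ x) (tau ψ x)) (by simp) x hx)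
          (hB (fun x => MM nu x (tau ψ x) (o3gr ψ x)) (by simp) x hx)
          (hB (fun x => MM nu x (o3gr ψ x) (o3gr ψ x)) (by simp) x hx)
          (hB (fun x => o3RR ψ x (tau ψ x) (tau ψ x)) (by simp) x hx)
          (hB (fun x => o3RR ψ x (tau ψ x) (o3gr ψ x)) (by simp) x hx)
          (hB (fun x => o3RR ψ x (o3gr ψ x) (o3gr ψ x)) (by simp) x hx)
          (hη0 (ψ x)) (hη1 (ψ x))
          (mul_nonpos_of_nonpos_of_nonneg hsign
            (mul_nonneg (zero_le_one.trans (hnu1 x)) (mul_self_nonneg _)))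
          (by have := hdK x ⟨hx, hxd⟩; linarith) hθd
          (by
            have h2 := hMf x (tau ψ x) (tau ψ x)
            rw [fderiv_tau, mul_zero, mul_zero, mul_zero, add_zero] at h2
            rw [← h2]
            exact hττ0.le)
        have h2 : MM f x (tau ψ x) (tau ψ x) * MM f x (o3gr ψ x) (o3gr ψ x)
            - MM f x (tau ψ x) (o3gr ψ x) ^ 2 < 0 := by
          rw [hMf x (tau ψ x) (tau ψ x), hMf x (o3gr ψ x) (o3gr ψ x), hMf x (tau ψ x) (o3gr ψ x),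
            fderiv_tau]
          simp only [zero_mul, mul_zero, add_zero]
          exact h1
        rw [detM_basis, o3_detM_kernel f x k hk hker, mul_zero] at h2
        exact lt_irrefl _ h2
      · -- second alternative
        exfalso
        have hx4 : 4 * δ < ψ x := by linarith
        rw [hF0far x hx4] at hkk
        have h1 : c₃ ≤ MM nu x k' k' := hcK (x, k') ⟨hmem, hp'⟩
        have h2 : 0 ≤ deriv (deriv η) (ψ x) * nu x :=
          mul_nonneg hsign (zero_le_one.trans (hnu1 x))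
        have h3 := abs_le.mp (hη0 (ψ x))
        have h4 : -(θ * B₂) ≤ deriv η (ψ x) * o3RR ψ x k' k' := by
          have h5 : |deriv η (ψ x) * o3RR ψ x k' k'| ≤ θ * B₂ := by
            rw [abs_mul]
            exact mul_le_mul (hη1 _) hE3 (abs_nonneg _) hθ.le
          exact (abs_le.mp h5).1
        have h5 : (s₀ - θ) * c₃ ≤ (s₀ + η (ψ x)) * MM nu x k' k' := by
          apply mul_le_mul _ h1 hc₃.le
          · linarith [h3.1]
          · linarith [h3.1]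
        nlinarith
      · -- third alternative
        rw [o3_deriv_formula hF hψ hη, hp', mul_one, mul_one, mul_one, mul_one, mul_one]
        exact o3_third hB₂1 (hnu1 x) hE1 hE2 hE3 hE4 hE5 hE6 hE7 ((hη0 _).trans hθ1.le)
          ((hη1 _).trans hθ1.le) hkk hthird
    rw [hkk', o3_rescale hfs]
    exact mul_ne_zero (pow_ne_zero _ hp) hT
  -- zero derivatives
  have hlow : ∀ t, |t| < δ / 2 → η t = 0 ∧ deriv η t = 0 ∧ deriv (deriv η) t = 0 := by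
    intro t ht
    have hopen : IsOpen {s : ℝ | |s| < δ / 2} := isOpen_lt continuous_abs continuous_const
    have h0 : η =ᶠ[𝓝 t] fun _ => 0 := by
      filter_upwards [hopen.mem_nhds ht] with s hs
      exact hzero s (le_of_lt hs)
    have h1 : deriv η =ᶠ[𝓝 t] fun _ => 0 := by
      have := h0.deriv
      filter_upwards [this] with s hs
      rw [hs, deriv_const]
    refine ⟨h0.eq_of_nhds, h1.eq_of_nhds, ?_⟩
    rw [h1.deriv_eq, deriv_const]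
  have hhigh : ∀ t, 5 * δ < t → η t = η (5 * δ) ∧ deriv η t = 0 ∧ deriv (deriv η) t = 0 := by
    intro t ht
    have h0 : η =ᶠ[𝓝 t] fun _ => η (5 * δ) := by
      filter_upwards [isOpen_Ioi.mem_nhds ht] with s hs
      exact hfin s (le_of_lt hs)
    have h1 : deriv η =ᶠ[𝓝 t] fun _ => 0 := by
      have := h0.deriv
      filter_upwards [this] with s hs
      rw [hs, deriv_const]
    refine ⟨h0.eq_of_nhds, h1.eq_of_nhds, ?_⟩
    rw [h1.deriv_eq, deriv_const]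
  have hcpos : 0 < s₀ + η (5 * δ) := by
    have := (abs_le.mp (hη0 (5 * δ))).1
    linarith
  have nonneg : ∀ x : ℝ × ℝ, x.1 ∈ Icc 0 (4 * Real.pi) → 0 ≤ ψ x → O3GoodAt f x := by
    intro x hx1 hx0
    by_cases hA : ψ x < δ / 2
    · obtain ⟨e0, e1, e2⟩ := hlow (ψ x) (by rw [abs_of_nonneg hx0]; exact hA)
      apply o3_goodAt_of_det
      have h1 : ∀ v w, MM f x v w = MM F0 x v w := by
        intro v w
        rw [hMf, e0, e1, e2]; ring
      have h2 : detM f x = detM F0 x := by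
        have h3 := detM_basis f x (1, 0) (0, 1)
        have h4 := detM_basis F0 x (1, 0) (0, 1)
        rw [h1, h1, h1, h4] at h3
        norm_num at h3
        exact h3.symm
      rw [h2]
      exact (ho2 x hx0 (by linarith)).ne
    · push Not at hA
      by_cases hB' : ψ x ≤ 5 * δ
      · exact strip x ⟨⟨hx1, hx2 x hx0 hB'⟩, hA, hB'⟩
      · push Not at hB'
        obtain ⟨e0, e1, e2⟩ := hhigh (ψ x) hB'
        apply o3_goodAt_of_pos
        intro k hk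
        rw [hMf, e0, e1, e2, hF0far x (by linarith)]
        have h1 := hnusq x k hk
        have h2 : s₀ * MM nu x k k + η (5 * δ) * MM nu x k k + 0 * o3RR ψ x k k
          + 0 * (nu x * (fderiv ℝ ψ x k * fderiv ℝ ψ x k)) = (s₀ + η (5 * δ)) * MM nu x k k := by
          ring
        rw [h2]
        exact (mul_pos hcpos h1).ne'
  have base : ∀ x : ℝ × ℝ, x.1 ∈ Icc 0 (2 * Real.pi) → O3GoodAt f x := by
    intro x hx1
    by_cases h0 : 0 ≤ ψ x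
    · exact nonneg x ⟨hx1.1, by linarith [hx1.2]⟩ h0
    · push Not at h0
      apply o3_goodAt_glide hfs hfg
      apply nonneg
      · simp only [glide]
        exact ⟨by linarith [hx1.1], by linarith [hx1.2]⟩
      · rw [hψg]; linarith
  refine ⟨f, s₀ + η (5 * δ), hcpos, hfs, hfg, ?_, ?_⟩
  · intro x hx
    have h1 := hfar x hx
    have h2 := hfin (ψ x) h1.le
    simp only [hfdef]
    rw [h2, ho4 x (by linarith)]
    ring
  · intro x
    have hper : ∀ z, Function.Periodic (fun t => f (t, z)) (2 * Real.pi) := by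
      intro z t
      exact periodic_of_glide hfg (t, z)
    set n : ℤ := ⌊x.1 / (2 * Real.pi)⌋ with hn
    have hc : ∀ y : ℝ × ℝ, f (y + ((-n : ℤ) * (2 * Real.pi), 0)) = f y := by
      intro y
      have h1 := (hper y.2).int_mul (-n) y.1
      have h2 : y + (((-n : ℤ) : ℝ) * (2 * Real.pi), 0) = (y.1 + ((-n : ℤ) : ℝ) * (2 * Real.pi), y.2) := by
        ext <;> simp
      rw [h2]
      exact h1
    have h2pi : 0 < 2 * Real.pi := by positivity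
    refine o3_goodAt_translate hc x (base _ ?_)
    have h3 : (n : ℝ) ≤ x.1 / (2 * Real.pi) := Int.floor_le _
    have h4 : x.1 / (2 * Real.pi) < n + 1 := Int.lt_floor_add_one _
    rw [le_div_iff₀ h2pi] at h3
    rw [div_lt_iff₀ h2pi] at h4
    simp only [Prod.fst_add]
    push_cast
    constructor <;> linarith

end Pool.Agent.Helper89.Hedge
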