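import Pool.Agent.Helper89.Hedge.Defs

/-!
# Piece S2: cuspidal edge criterion on the sphere, from the planar normal form
-/

open scoped ContDiff Manifold Topology
noncomputable section
namespace Pool.Agent.Helper89.Hedge

namespace CritAux

theorem factE3 : Fact (Module.finrank ℝ E3 = 2 + 1) := ⟨by simp⟩

attribute [local instance] factE3

/-- the affine map `(p, q) ↦ x + p v + q w` -/
def AA (x v w : E3) (p : ℝ × ℝ) : E3 := x + p.1 • v + p.2 • w

theorem contDiff_AA (x v w : E3) : ContDiff ℝ ∞ (AA x v w) := by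
  unfold AA
  fun_prop

/-- the linear part of `AA` -/
def AL (v w : E3) : ℝ × ℝ →L[ℝ] E3 :=
  (ContinuousLinearMap.fst ℝ ℝ ℝ).smulRight v + (ContinuousLinearMap.snd ℝ ℝ ℝ).smulRight w

theorem hasFDerivAt_AA (x v w : E3) (p : ℝ × ℝ) : HasFDerivAt (AA x v w) (AL v w) p := by
  have h1 : HasFDerivAt (fun p : ℝ × ℝ => x + AL v w p) (AL v w) p :=
    (AL v w).hasFDerivAt.const_add x
  refine h1.congr_of_eventuallyEq (Filter.Eventually.of_forall fun q => ?_)
  simp [AA, AL, add_assoc]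

theorem AL_fst (v w : E3) : AL v w (1, 0) = v := by simp [AL]

theorem AL_snd (v w : E3) : AL v w (0, 1) = w := by simp [AL]

theorem AA_zero (x v w : E3) : AA x v w 0 = x := by simp [AA]

theorem dx_comp_AA (x v w : E3) {F : E3 → ℝ} {p : ℝ × ℝ}
    (hF : DifferentiableAt ℝ F (AA x v w p)) :
    dx (fun q => F (AA x v w q)) p = fderiv ℝ F (AA x v w p) v := by
  have h := (hF.hasFDerivAt.comp p (hasFDerivAt_AA x v w p)).fderiv
  unfold dx
  change fderiv ℝ (F ∘ AA x v w) p (1, 0) = _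
  rw [h, ContinuousLinearMap.comp_apply, AL_fst]

theorem dy_comp_AA (x v w : E3) {F : E3 → ℝ} {p : ℝ × ℝ}
    (hF : DifferentiableAt ℝ F (AA x v w p)) :
    dy (fun q => F (AA x v w q)) p = fderiv ℝ F (AA x v w p) w := by
  have h := (hF.hasFDerivAt.comp p (hasFDerivAt_AA x v w p)).fderiv
  unfold dy
  change fderiv ℝ (F ∘ AA x v w) p (0, 1) = _
  rw [h, ContinuousLinearMap.comp_apply, AL_snd]

theorem isOpen_ne : IsOpen ({0}ᶜ : Set E3) := isOpen_compl_singleton

theorem smooth_fderiv {F : E3 → ℝ} (hF : ContDiffOn ℝ ∞ F {0}ᶜ) (v : E3) :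
    ContDiffOn ℝ ∞ (fun y => fderiv ℝ F y v) {0}ᶜ := by
  have h := hF.fderiv_of_isOpen (m := ∞) isOpen_ne (by simp)
  exact h.clm_apply contDiffOn_const

theorem diffAt {F : E3 → ℝ} (hF : ContDiffOn ℝ ∞ F {0}ᶜ) {y : E3} (hy : y ≠ 0) :
    DifferentiableAt ℝ F y :=
  (hF.contDiffAt (isOpen_ne.mem_nhds hy)).differentiableAt (by simp)

theorem smooth_hess {H : E3 → ℝ} (hH : ContDiffOn ℝ ∞ H {0}ᶜ) (v w : E3) :
    ContDiffOn ℝ ∞ (fun y => hess H y v w) {0}ᶜ :=
  smooth_fderiv (smooth_fderiv hH v) w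

theorem hess_symm {H : E3 → ℝ} (hH : ContDiffOn ℝ ∞ H {0}ᶜ) {y : E3} (hy : y ≠ 0) (v w : E3) :
    hess H y v w = hess H y w v := by
  have h2 : ContDiffAt ℝ ∞ H y := hH.contDiffAt (isOpen_ne.mem_nhds hy)
  have hs : IsSymmSndFDerivAt ℝ H y := h2.isSymmSndFDerivAt (by
    rw [minSmoothness_of_isRCLikeNormedField]
    exact WithTop.coe_le_coe.2 le_top)
  have hd : DifferentiableAt ℝ (fderiv ℝ H) y :=
    (h2.fderiv_right (m := ∞) (by simp)).differentiableAt (by simp)
  have key : ∀ a b : E3, hess H y a b = fderiv ℝ (fderiv ℝ H) y b a := by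
    intro a b
    unfold hess
    have := (hd.hasFDerivAt.clm_apply (hasFDerivAt_const a y)).fderiv
    rw [this]
    simp
  rw [key, key]
  exact hs w v

/-- Euler's identity -/
theorem euler {H : E3 → ℝ} (hH : OddHomog H) {y : E3} (hy : y ≠ 0) : fderiv ℝ H y y = H y := by
  have h1 : HasDerivAt (fun t : ℝ => H (t • y)) (fderiv ℝ H y y) 1 := by
    have hd : HasFDerivAt H (fderiv ℝ H y) ((1 : ℝ) • y) := by
      rw [one_smul]
      exact (diffAt hH.smooth hy).hasFDerivAt
    have h2 : HasDerivAt (fun t : ℝ => t • y) ((1 : ℝ) • y) 1 := (hasDerivAt_id (1 : ℝ)).smul_const y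
    have h3 := hd.comp_hasDerivAt (1 : ℝ) h2
    rw [one_smul] at h3
    exact h3
  have h2 : HasDerivAt (fun t : ℝ => H (t • y)) (H y) 1 := by
    have : (fun t : ℝ => H (t • y)) = fun t => t * H y := by
      funext t
      rw [hH.homog]
    rw [this]
    simpa using (hasDerivAt_id (1 : ℝ)).mul_const (H y)
  exact h1.unique h2

/-- the gradient is constant on rays -/
theorem fderiv_smul {H : E3 → ℝ} (hH : OddHomog H) {y : E3} (hy : y ≠ 0) {c : ℝ} (hc : c ≠ 0) :
    fderiv ℝ H (c • y) = fderiv ℝ H y := by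
  have hcy : c • y ≠ 0 := smul_ne_zero hc hy
  have h1 : HasFDerivAt (fun z : E3 => H (c • z))
      ((fderiv ℝ H (c • y)).comp (c • ContinuousLinearMap.id ℝ E3)) y := by
    have hd := (diffAt hH.smooth hcy).hasFDerivAt
    exact hd.comp y ((hasFDerivAt_id y).const_smul c)
  have h2 : HasFDerivAt (fun z : E3 => H (c • z)) (c • fderiv ℝ H y) y := by
    have : (fun z : E3 => H (c • z)) = fun z => c • H z := by
      funext z
      rw [hH.homog, smul_eq_mul]
    rw [this]
    exact (diffAt hH.smooth hy).hasFDerivAt.const_smul c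
  have h3 := h1.unique h2
  ext z
  have h4 := congrArg (fun L : E3 →L[ℝ] ℝ => L z) h3
  simp only [ContinuousLinearMap.comp_apply, _root_.smul_apply,
    ContinuousLinearMap.id_apply, map_smul, smul_eq_mul] at h4
  exact mul_left_cancel₀ hc h4

theorem gradient_smul {H : E3 → ℝ} (hH : OddHomog H) {y : E3} (hy : y ≠ 0) {c : ℝ} (hc : c ≠ 0) :
    gradient H (c • y) = gradient H y := by
  unfold gradient
  rw [fderiv_smul hH hy hc]

/-! ### coordinates -/

section coord
variable {x v w : E3} (hli : LinearIndependent ℝ ![x, v, w])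

/-- the basis `x, v, w` -/
def bas : Module.Basis (Fin 3) ℝ E3 :=
  basisOfLinearIndependentOfCardEqFinrank hli (by simp)

/-- coordinate functionals -/
def co (i : Fin 3) : E3 →L[ℝ] ℝ := LinearMap.toContinuousLinearMap ((bas hli).coord i)

theorem co_apply (i : Fin 3) (y : E3) : co hli i y = (bas hli).repr y i := rfl

theorem bas_apply (i : Fin 3) : bas hli i = ![x, v, w] i := by
  unfold bas
  rw [coe_basisOfLinearIndependentOfCardEqFinrank]

theorem expand (y : E3) : co hli 0 y • x + co hli 1 y • v + co hli 2 y • w = y := by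
  have h := (bas hli).sum_repr y
  rw [Fin.sum_univ_three, bas_apply, bas_apply, bas_apply] at h
  simpa [co_apply] using h

theorem co_AA (p : ℝ × ℝ) : co hli 0 (AA x v w p) = 1 ∧ co hli 1 (AA x v w p) = p.1 ∧
    co hli 2 (AA x v w p) = p.2 := by
  have hx : x = bas hli 0 := by rw [bas_apply]; rfl
  have hv : v = bas hli 1 := by rw [bas_apply]; rfl
  have hw : w = bas hli 2 := by rw [bas_apply]; rfl
  have e : AA x v w p = bas hli 0 + p.1 • bas hli 1 + p.2 • bas hli 2 := by
    rw [← hx, ← hv, ← hw]; rfl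
  rw [e]
  refine ⟨?_, ?_, ?_⟩ <;> simp [co_apply]

include hli in
theorem AA_ne (p : ℝ × ℝ) : AA x v w p ≠ 0 := by
  intro h
  have := (co_AA hli p).1
  rw [h, map_zero] at this
  exact one_ne_zero this.symm

/-- the linear isomorphism `z ↦ (⟪z, v⟫, ⟪z, w⟫, ⟪z, x⟫)` -/
def LL0 (x v w : E3) : E3 →L[ℝ] ℝ × ℝ × ℝ :=
  (innerSL ℝ v).prod ((innerSL ℝ w).prod (innerSL ℝ x))

theorem LL0_apply (x v w z : E3) : LL0 x v w z = (inner ℝ v z, inner ℝ w z, inner ℝ x z) := rfl

include hli in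
theorem LL0_injective : Function.Injective (LL0 x v w) := by
  rw [injective_iff_map_eq_zero]
  intro z hz
  rw [LL0_apply] at hz
  have h1 : inner ℝ v z = 0 := congrArg Prod.fst hz
  have h2 : inner ℝ w z = 0 := congrArg (fun p : ℝ × ℝ × ℝ => p.2.1) hz
  have h3 : inner ℝ x z = 0 := congrArg (fun p : ℝ × ℝ × ℝ => p.2.2) hz
  have e := expand hli z
  have : inner ℝ z z = 0 := by
    nth_rw 1 [← e]
    rw [inner_add_left, inner_add_left, inner_smul_left, inner_smul_left, inner_smul_left, h1, h2,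
      h3]
    simp
  exact inner_self_eq_zero.1 this

/-- the linear isomorphism `z ↦ (⟪z, v⟫, ⟪z, w⟫, ⟪z, x⟫)` -/
def LL : E3 ≃L[ℝ] ℝ × ℝ × ℝ :=
  (LinearEquiv.ofInjectiveOfFinrankEq (LL0 x v w).toLinearMap (LL0_injective hli)
    (by simp)).toContinuousLinearEquiv

theorem LL_apply (z : E3) : LL hli z = (inner ℝ v z, inner ℝ w z, inner ℝ x z) := rfl

end coord

/-- `PP` of the restriction of `H` to the affine plane -/
theorem PP_comp {H : E3 → ℝ} (hH : OddHomog H) {x v w : E3}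
    (hli : LinearIndependent ℝ ![x, v, w]) (p : ℝ × ℝ) :
    PP (fun q => H (AA x v w q)) p = LL hli (gradient H (AA x v w p)) := by
  have hne := AA_ne hli p
  have hd := diffAt hH.smooth hne
  rw [LL_apply]
  have h1 : ∀ z, inner ℝ z (gradient H (AA x v w p)) = fderiv ℝ H (AA x v w p) z := by
    intro z
    rw [inner_gradient_right]
    simp
  rw [h1, h1, h1]
  unfold PP
  rw [dx_comp_AA x v w hd, dy_comp_AA x v w hd]
  have he := euler hH hne
  have : fderiv ℝ H (AA x v w p) (AA x v w p) = fderiv ℝ H (AA x v w p) x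
      + p.1 * fderiv ℝ H (AA x v w p) v + p.2 * fderiv ℝ H (AA x v w p) w := by
    have e2 : AA x v w p = x + p.1 • v + p.2 • w := rfl
    rw [show fderiv ℝ H (AA x v w p) (AA x v w p) =
      fderiv ℝ H (AA x v w p) (x + p.1 • v + p.2 • w) from rfl, map_add, map_add, map_smul,
      map_smul, smul_eq_mul, smul_eq_mul]
  refine Prod.ext rfl (Prod.ext rfl ?_)
  change H (AA x v w p) - p.1 * fderiv ℝ H (AA x v w p) v - p.2 * fderiv ℝ H (AA x v w p) w =
    fderiv ℝ H (AA x v w p) x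
  rw [← he, this]
  ring

/-! ### the source parametrisation -/

section source
variable {x v w : E3} (hli : LinearIndependent ℝ ![x, v, w])

/-- the parametrisation of the sphere -/
def sg (p : ℝ × ℝ) : S2 := toSphere (AA x v w p) (AA_ne hli p)

theorem sg_val (p : ℝ × ℝ) : ((sg hli p : S2) : E3) = ‖AA x v w p‖⁻¹ • AA x v w p := rfl

theorem contMDiff_sg : ContMDiff 𝓘(ℝ, ℝ × ℝ) (𝓡 2) ∞ (sg hli) := by
  have h1 : ContDiff ℝ ∞ (fun p : ℝ × ℝ => ‖AA x v w p‖⁻¹ • AA x v w p) := by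
    have h2 : ContDiff ℝ ∞ (fun p : ℝ × ℝ => ‖AA x v w p‖) := (contDiff_AA x v w).norm ℝ
      (fun p => AA_ne hli p)
    exact (h2.inv (fun p => norm_ne_zero_iff.2 (AA_ne hli p))).smul (contDiff_AA x v w)
  exact ContMDiff.codRestrict_sphere h1.contMDiff (fun p => (sg hli p).2)

/-- the inverse of the parametrisation of the sphere -/
def tg (u : S2) : ℝ × ℝ := (co hli 1 u / co hli 0 u, co hli 2 u / co hli 0 u)

theorem contMDiffOn_tg : ContMDiffOn (𝓡 2) 𝓘(ℝ, ℝ × ℝ) ∞ (tg hli) {u : S2 | 0 < co hli 0 u} := by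
  have h1 : ContDiffOn ℝ ∞ (fun y : E3 => ((co hli 1 y / co hli 0 y, co hli 2 y / co hli 0 y) :
      ℝ × ℝ)) {y : E3 | 0 < co hli 0 y} := by
    have hne : ∀ y ∈ {y : E3 | 0 < co hli 0 y}, co hli 0 y ≠ 0 := fun y hy => ne_of_gt hy
    exact (((co hli 1).contDiff.contDiffOn).div ((co hli 0).contDiff.contDiffOn) hne).prodMk
      (((co hli 2).contDiff.contDiffOn).div ((co hli 0).contDiff.contDiffOn) hne)
  exact h1.contMDiffOn.comp (contMDiff_coe_sphere (m := ∞) (n := 2)).contMDiffOn (fun u hu => hu)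

theorem co_sg_pos (p : ℝ × ℝ) : 0 < co hli 0 (sg hli p : S2) := by
  rw [sg_val, map_smul, (co_AA hli p).1, smul_eq_mul, mul_one]
  exact inv_pos.2 (norm_pos_iff.2 (AA_ne hli p))

theorem tg_sg (p : ℝ × ℝ) : tg hli (sg hli p) = p := by
  have hn : ‖AA x v w p‖⁻¹ ≠ 0 := inv_ne_zero (norm_ne_zero_iff.2 (AA_ne hli p))
  unfold tg
  rw [sg_val]
  simp only [map_smul, smul_eq_mul, (co_AA hli p).1, (co_AA hli p).2.1, (co_AA hli p).2.2, mul_one]
  rw [mul_div_cancel_left₀ _ hn, mul_div_cancel_left₀ _ hn]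

theorem sg_tg {u : S2} (hu : 0 < co hli 0 u) : sg hli (tg hli u) = u := by
  have h1 : AA x v w (tg hli u) = (co hli 0 u)⁻¹ • (u : E3) := by
    have e := expand hli (u : E3)
    have hne : co hli 0 (u : E3) ≠ 0 := ne_of_gt hu
    have e2 : (co hli 0 (u : E3))⁻¹ • (u : E3) = (co hli 0 (u : E3))⁻¹ •
        (co hli 0 (u : E3) • x + co hli 1 (u : E3) • v + co hli 2 (u : E3) • w) := by rw [e]
    rw [e2]
    unfold AA tg
    rw [smul_add, smul_add, smul_smul, smul_smul, smul_smul, inv_mul_cancel₀ hne, one_smul,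
      div_eq_inv_mul, div_eq_inv_mul]
  have hu1 : ‖(u : E3)‖ = 1 := mem_sphere_zero_iff_norm.1 u.2
  apply Subtype.ext
  rw [sg_val, h1, norm_smul, hu1, mul_one, norm_inv, Real.norm_of_nonneg hu.le, inv_inv, smul_smul,
    mul_inv_cancel₀ (ne_of_gt hu), one_smul]

theorem sg_zero {u : S2} {r : ℝ} (hr : 0 < r) (hu : x = r • (u : E3)) : sg hli 0 = u := by
  have hu1 : ‖(u : E3)‖ = 1 := mem_sphere_zero_iff_norm.1 u.2
  apply Subtype.ext
  rw [sg_val, AA_zero]
  conv_lhs => rw [hu]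
  rw [norm_smul, hu1, mul_one, Real.norm_of_nonneg hr.le, smul_smul, inv_mul_cancel₀ (ne_of_gt hr),
    one_smul]

/-- the source diffeomorphism -/
def srcDiffeo (φ : OpenPartialHomeomorph (ℝ × ℝ) (ℝ × ℝ)) (hφ : SmoothPH φ) :
    PartialDiffeomorph 𝓘(ℝ, ℝ × ℝ) (𝓡 2) (ℝ × ℝ) S2 ∞ where
  toFun p := sg hli (φ p)
  invFun u := φ.symm (tg hli u)
  source := φ.source
  target := {u : S2 | 0 < co hli 0 u} ∩ tg hli ⁻¹' φ.target
  map_source' p hp := by
    refine ⟨co_sg_pos hli _, ?_⟩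
    rw [Set.mem_preimage, tg_sg]
    exact φ.map_source hp
  map_target' u hu := φ.map_target hu.2
  left_inv' p hp := by
    rw [tg_sg]
    exact φ.left_inv hp
  right_inv' u hu := by
    rw [φ.right_inv hu.2]
    exact sg_tg hli hu.1
  open_source := φ.open_source
  open_target := by
    refine (contMDiffOn_tg hli).continuousOn.isOpen_inter_preimage ?_ φ.open_target
    exact isOpen_lt continuous_const ((co hli 0).continuous.comp continuous_subtype_val)
  contMDiffOn_toFun := (contMDiff_sg hli).comp_contMDiffOn hφ.1.contMDiffOn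
  contMDiffOn_invFun :=
    hφ.2.contMDiffOn.comp ((contMDiffOn_tg hli).mono Set.inter_subset_left) (fun u hu => hu.2)

/-- the target diffeomorphism -/
def tgtDiffeo (Ψ : OpenPartialHomeomorph (ℝ × ℝ × ℝ) (ℝ × ℝ × ℝ)) (hΨ : SmoothPH Ψ) :
    PartialDiffeomorph 𝓘(ℝ, E3) 𝓘(ℝ, ℝ × ℝ × ℝ) E3 (ℝ × ℝ × ℝ) ∞ where
  toFun z := Ψ (LL hli z)
  invFun y := (LL hli).symm (Ψ.symm y)
  source := LL hli ⁻¹' Ψ.source
  target := Ψ.target
  map_source' z hz := Ψ.map_source hz
  map_target' y hy := by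
    rw [Set.mem_preimage, ContinuousLinearEquiv.apply_symm_apply]
    exact Ψ.map_target hy
  left_inv' z hz := by
    rw [Ψ.left_inv hz, ContinuousLinearEquiv.symm_apply_apply]
  right_inv' y hy := by
    rw [ContinuousLinearEquiv.apply_symm_apply, Ψ.right_inv hy]
  open_source := Ψ.open_source.preimage (LL hli).continuous
  open_target := Ψ.open_target
  contMDiffOn_toFun :=
    (hΨ.1.comp (LL hli).contDiff.contDiffOn (fun z hz => hz)).contMDiffOn
  contMDiffOn_invFun :=
    ((LL hli).symm.contDiff.comp_contDiffOn hΨ.2).contMDiffOn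

end source

end CritAux

open CritAux in
/-- `crit` from the planar normal form and the formula for the hedgehog -/
theorem crit_of
    (hplanar : ∀ g : ℝ × ℝ → ℝ, ContDiff ℝ ∞ g → dx (dx g) 0 = 0 → dx (dy g) 0 = 0 →
      dy (dy g) 0 ≠ 0 → dx (dx (dx g)) 0 ≠ 0 → IsCusp (PP g))
    (H : E3 → ℝ) (hH : OddHomog H)
    (hS1 : ∀ u : S2, hedgehog (fun v : S2 => H v) u = gradient H (u : E3))
    (x v w : E3) (hli : LinearIndependent ℝ ![x, v, w])
    (hv : ∀ y, hess H x v y = 0) (hw : hess H x w w ≠ 0)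
    (h3 : fderiv ℝ (fun y => hess H y v v) x v ≠ 0) (u : S2) (r : ℝ) (hr : 0 < r)
    (hu : x = r • (u : E3)) : IsCuspidalEdgeAt (hedgehog (fun v : S2 => H v)) u := by
  have hx0 : x ≠ 0 := by
    have := AA_ne hli 0
    rwa [AA_zero] at this
  set g : ℝ × ℝ → ℝ := fun q => H (AA x v w q) with hg
  have hgs : ContDiff ℝ ∞ g := by
    rw [← contDiffOn_univ]
    exact hH.smooth.comp (contDiff_AA x v w).contDiffOn (fun p _ => AA_ne hli p)
  have d1 : dx g = fun q => (fun y => fderiv ℝ H y v) (AA x v w q) := by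
    funext q
    exact dx_comp_AA x v w (diffAt hH.smooth (AA_ne hli q))
  have d2 : dy g = fun q => (fun y => fderiv ℝ H y w) (AA x v w q) := by
    funext q
    exact dy_comp_AA x v w (diffAt hH.smooth (AA_ne hli q))
  have d11 : dx (dx g) = fun q => (fun y => hess H y v v) (AA x v w q) := by
    funext q
    rw [d1]
    exact dx_comp_AA x v w (diffAt (smooth_fderiv hH.smooth v) (AA_ne hli q))
  have d12 : dx (dy g) = fun q => (fun y => hess H y w v) (AA x v w q) := by
    funext q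
    rw [d2]
    exact dx_comp_AA x v w (diffAt (smooth_fderiv hH.smooth w) (AA_ne hli q))
  have d22 : dy (dy g) = fun q => (fun y => hess H y w w) (AA x v w q) := by
    funext q
    rw [d2]
    exact dy_comp_AA x v w (diffAt (smooth_fderiv hH.smooth w) (AA_ne hli q))
  have d111 : dx (dx (dx g)) 0 = fderiv ℝ (fun y => hess H y v v) x v := by
    rw [d11]
    have := dx_comp_AA x v w (p := 0) (diffAt (smooth_hess hH.smooth v v) (AA_ne hli 0))
    rw [AA_zero] at this
    exact this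
  have hc : IsCusp (PP g) := by
    refine hplanar g hgs ?_ ?_ ?_ ?_
    · rw [d11]
      simp only [AA_zero]
      exact hv v
    · rw [d12]
      simp only [AA_zero]
      rw [hess_symm hH.smooth hx0]
      exact hv w
    · rw [d22]
      simp only [AA_zero]
      exact hw
    · rw [d111]
      exact h3
  obtain ⟨φ, Ψ, hφ, hΨ, h0, h00, hF0, hev⟩ := hc
  have key : ∀ p : ℝ × ℝ, LL hli (hedgehog (fun v : S2 => H v) (sg hli p)) = PP g p := by
    intro p
    rw [hS1, PP_comp hH hli p, sg_val, gradient_smul hH (AA_ne hli p)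
      (inv_ne_zero (norm_ne_zero_iff.2 (AA_ne hli p)))]
  refine ⟨srcDiffeo hli φ hφ, tgtDiffeo hli Ψ hΨ, h0, ?_, ?_, ?_⟩
  · change sg hli (φ 0) = u
    rw [h00]
    exact sg_zero hli hr hu
  · change LL hli (hedgehog (fun v : S2 => H v) u) ∈ Ψ.source
    rw [← sg_zero hli hr hu, key]
    exact hF0
  · filter_upwards [hev] with p hp
    obtain ⟨ha, hb⟩ := hp
    constructor
    · change LL hli (hedgehog (fun v : S2 => H v) (sg hli (φ p))) ∈ Ψ.source
      rw [key]
      exact ha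
    · change Ψ (LL hli (hedgehog (fun v : S2 => H v) (sg hli (φ p)))) = _
      rw [key]
      exact hb

end Pool.Agent.Helper89.Hedge
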